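import Pool.Agent.H534R2.GenFinal

/-!
# Monotone circuits for the pyramid path systems
-/

set_option linter.unusedSectionVars false

namespace H534R2.Gen

open Finset Relation

/-- a circuit containing the functions in `B` can be extended by `n` gates to contain those in
`A` -/
def Step {X : Type} (B A : Set ((X → Prop) → Prop)) (n : ℕ) : Prop :=
  ∀ L, MC L → (∀ f ∈ B, f ∈ L) →
    ∃ L', MC L' ∧ (∀ f ∈ L, f ∈ L') ∧ (∀ f ∈ A, f ∈ L') ∧ L'.length ≤ L.length + n

section step

variable {X : Type} {B A C : Set ((X → Prop) → Prop)} {n m : ℕ}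

theorem Step.mono_n (h : Step B A n) (hnm : n ≤ m) : Step B A m := by
  intro L hL hB
  obtain ⟨L', h1, h2, h3, h4⟩ := h L hL hB
  exact ⟨L', h1, h2, h3, by omega⟩

theorem Step.mono_A (h : Step B A n) (hC : C ⊆ A) : Step B C n := by
  intro L hL hB
  obtain ⟨L', h1, h2, h3, h4⟩ := h L hL hB
  exact ⟨L', h1, h2, fun f hf => h3 f (hC hf), h4⟩

theorem Step.trans (h : Step B A n) (h' : Step (A ∪ B) C m) : Step B (A ∪ C) (n + m) := by
  intro L hL hB
  obtain ⟨L', h1, h2, h3, h4⟩ := h L hL hB
  obtain ⟨L'', k1, k2, k3, k4⟩ := h' L' h1 (by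
    rintro f (hf | hf)
    · exact h3 f hf
    · exact h2 f (hB f hf))
  refine ⟨L'', k1, fun f hf => k2 f (h2 f hf), ?_, by omega⟩
  rintro f (hf | hf)
  · exact k2 f (h3 f hf)
  · exact k3 f hf

theorem Step.refl (h : A ⊆ B) : Step B A 0 :=
  fun L hL hB => ⟨L, hL, fun _ hf => hf, fun f hf => hB f (h hf), by omega⟩

theorem step_cst (p : Prop) : Step B {fun _ : X → Prop => p} 1 := by
  intro L hL _
  refine ⟨_, MC.cst p L hL, fun f hf => List.mem_cons_of_mem _ hf, ?_, by simp⟩
  rintro f rfl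
  exact List.mem_cons_self

theorem step_var (x : X) : Step B {fun v : X → Prop => v x} 1 := by
  intro L hL _
  refine ⟨_, MC.var x L hL, fun f hf => List.mem_cons_of_mem _ hf, ?_, by simp⟩
  rintro f rfl
  exact List.mem_cons_self

theorem step_and {f g : (X → Prop) → Prop} (h1 : Step B {f} n) (h2 : Step B {g} m) :
    Step B {fun v => f v ∧ g v} (n + m + 1) := by
  intro L hL hB
  obtain ⟨L1, a1, a2, a3, a4⟩ := h1 L hL hB
  obtain ⟨L2, b1, b2, b3, b4⟩ := h2 L1 a1 (fun f hf => a2 f (hB f hf))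
  refine ⟨_, MC.and f g L2 (b2 f (a3 f rfl)) (b3 g rfl) b1,
    fun f hf => List.mem_cons_of_mem _ (b2 f (a2 f hf)), ?_, ?_⟩
  · rintro f rfl
    exact List.mem_cons_self
  · rw [List.length_cons]; omega

theorem step_or {f g : (X → Prop) → Prop} (h1 : Step B {f} n) (h2 : Step B {g} m) :
    Step B {fun v => f v ∨ g v} (n + m + 1) := by
  intro L hL hB
  obtain ⟨L1, a1, a2, a3, a4⟩ := h1 L hL hB
  obtain ⟨L2, b1, b2, b3, b4⟩ := h2 L1 a1 (fun f hf => a2 f (hB f hf))
  refine ⟨_, MC.or f g L2 (b2 f (a3 f rfl)) (b3 g rfl) b1,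
    fun f hf => List.mem_cons_of_mem _ (b2 f (a2 f hf)), ?_, ?_⟩
  · rintro f rfl
    exact List.mem_cons_self
  · rw [List.length_cons]; omega

theorem step_all {I : Type} (l : List I) (F : I → (X → Prop) → Prop)
    (h : ∀ i ∈ l, Step B {F i} n) : Step B {f | ∃ i ∈ l, f = F i} (n * l.length) := by
  induction l with
  | nil =>
    refine (Step.refl (B := B) (A := ∅) (Set.empty_subset _)).mono_A ?_ |>.mono_n (Nat.zero_le _)
    rintro f ⟨i, hi, -⟩
    exact absurd hi (List.not_mem_nil)
  | cons i l ih =>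
    have h1 := ih (fun j hj => h j (List.mem_cons_of_mem _ hj))
    have h2 := h i List.mem_cons_self
    intro L hL hB
    obtain ⟨L1, a1, a2, a3, a4⟩ := h1 L hL hB
    obtain ⟨L2, b1, b2, b3, b4⟩ := h2 L1 a1 (fun f hf => a2 f (hB f hf))
    refine ⟨L2, b1, fun f hf => b2 f (a2 f hf), ?_, ?_⟩
    · rintro f ⟨j, hj, rfl⟩
      rcases List.mem_cons.1 hj with rfl | hj
      · exact b3 _ rfl
      · exact b2 _ (a3 _ ⟨j, hj, rfl⟩)
    · rw [List.length_cons, Nat.mul_add]; omega

theorem step_ex_list {I : Type} (l : List I) (F : I → (X → Prop) → Prop)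
    (h : ∀ i ∈ l, Step B {F i} n) :
    Step B {fun v => ∃ i ∈ l, F i v} ((n + 1) * l.length + 1) := by
  induction l with
  | nil =>
    have h1 := step_cst (B := B) (X := X) False
    have h2 : (fun v : X → Prop => ∃ i ∈ ([] : List I), F i v) = fun _ => False := by
      funext v; simp
    rw [h2]
    exact h1.mono_n (by simp)
  | cons i l ih =>
    have h1 := ih (fun j hj => h j (List.mem_cons_of_mem _ hj))
    have h2 := h i List.mem_cons_self
    have h3 := step_or h2 h1
    have h4 : (fun v : X → Prop => ∃ j ∈ i :: l, F j v) =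
        fun v => F i v ∨ ∃ j ∈ l, F j v := by
      funext v; simp
    rw [h4]
    refine h3.mono_n ?_
    rw [List.length_cons, Nat.mul_add]; omega

theorem step_fin {I : Type} [Fintype I] (F : I → (X → Prop) → Prop)
    (h : ∀ i, Step B {F i} n) : Step B {f | ∃ i, f = F i} (n * Fintype.card I) := by
  have h1 := step_all (B := B) (n := n) (Finset.univ : Finset I).toList F (fun i _ => h i)
  rw [Finset.length_toList, Finset.card_univ] at h1
  refine h1.mono_A ?_
  rintro f ⟨i, rfl⟩
  exact ⟨i, by simp, rfl⟩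

theorem step_ex {I : Type} [Fintype I] (F : I → (X → Prop) → Prop)
    (h : ∀ i, Step B {F i} n) :
    Step B {fun v => ∃ i, F i v} ((n + 1) * Fintype.card I + 1) := by
  have h1 := step_ex_list (B := B) (n := n) (Finset.univ : Finset I).toList F (fun i _ => h i)
  rw [Finset.length_toList, Finset.card_univ] at h1
  have h2 : (fun v : X → Prop => ∃ i, F i v) =
      fun v => ∃ i ∈ (Finset.univ : Finset I).toList, F i v := by
    funext v; simp
  rw [h2]
  exact h1

end step

/-- substitution of variables -/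
theorem MC.sub {X Y : Type} (e : X → Y) {L : List ((X → Prop) → Prop)} (hL : MC L) :
    MC (L.map fun f (v : Y → Prop) => f (fun x => v (e x))) := by
  induction hL with
  | nil => exact MC.nil
  | cst p L _ ih => exact MC.cst p _ ih
  | var x L _ ih => exact MC.var (e x) _ ih
  | and f g L hf hg _ ih =>
    exact MC.and _ _ _ (List.mem_map_of_mem hf) (List.mem_map_of_mem hg) ih
  | or f g L hf hg _ ih =>
    exact MC.or _ _ _ (List.mem_map_of_mem hf) (List.mem_map_of_mem hg) ih

section pyr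

variable {M h q : ℕ}

/-- derivability of the elements at the level `i` -/
def LevelFn (i : Fin (h + 1)) (z : Fin M × Fin (h + 1) × Fin q) (v : PVar M h q → Prop) : Prop :=
  Der v z.1 (i, z.2.1) z.2.2

theorem der_zero (v : PVar M h q → Prop) (b : Fin M) (j : Fin (h + 1)) (u : Fin q) :
    Der v b (0, j) u ↔ v (.ax b j u) := by
  constructor
  · intro hd
    generalize hp : ((0, j) : Pos h) = p at hd
    cases hd with
    | ax j' u h1 =>
      have : j = j' := congrArg Prod.snd hp
      subst this; exact h1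
    | rl i j' u₁ u₂ u h1 h2 h3 =>
      have : (0 : Fin (h + 1)) = i.succ := congrArg Prod.fst hp
      exact absurd this.symm (Fin.succ_ne_zero i)
  · exact Der.ax j u

theorem der_succ (v : PVar M h q → Prop) (b : Fin M) (i j : Fin h) (u : Fin q) :
    Der v b (i.succ, j.castSucc) u ↔ ∃ w : Fin q × Fin q, v (.rl b i j w.1 w.2 u) ∧
      Der v b (i.castSucc, j.castSucc) w.1 ∧ Der v b (i.castSucc, j.succ) w.2 := by
  constructor
  · intro hd
    generalize hp : ((i.succ, j.castSucc) : Pos h) = p at hd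
    cases hd with
    | ax j' u h1 =>
      have : i.succ = 0 := congrArg Prod.fst hp
      exact absurd this (Fin.succ_ne_zero i)
    | rl i' j' u₁ u₂ u h1 h2 h3 =>
      have e1 : i = i' := Fin.succ_injective _ (congrArg Prod.fst hp)
      have e2 : j = j' := Fin.castSucc_injective _ (congrArg Prod.snd hp)
      subst e1; subst e2
      exact ⟨(u₁, u₂), h1, h2, h3⟩
  · rintro ⟨w, h1, h2, h3⟩
    exact Der.rl i j _ _ u h1 h2 h3

theorem der_last (v : PVar M h q → Prop) (b : Fin M) (i : Fin h) (u : Fin q) :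
    ¬ Der v b (i.succ, Fin.last h) u := by
  intro hd
  generalize hp : ((i.succ, Fin.last h) : Pos h) = p at hd
  cases hd with
  | ax j' u h1 =>
    have : i.succ = 0 := congrArg Prod.fst hp
    exact absurd this (Fin.succ_ne_zero i)
  | rl i' j' u₁ u₂ u h1 h2 h3 =>
    have e2 : Fin.last h = j'.castSucc := congrArg Prod.snd hp
    exact absurd e2.symm (Fin.castSucc_lt_last j').ne

theorem level_zero (B : Set ((PVar M h q → Prop) → Prop)) (z : Fin M × Fin (h + 1) × Fin q) :
    Step B {LevelFn 0 z} 1 := by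
  have h1 : LevelFn 0 z = fun v => v (.ax z.1 z.2.1 z.2.2) := by
    funext v
    exact propext (der_zero v z.1 z.2.1 z.2.2)
  rw [h1]
  exact step_var _

theorem level_succ (i : Fin h) (B : Set ((PVar M h q → Prop) → Prop))
    (hB : ∀ z, LevelFn i.castSucc z ∈ B) (z : Fin M × Fin (h + 1) × Fin q) :
    Step B {LevelFn i.succ z} (4 * q ^ 2 + 1) := by
  obtain ⟨b, j, u⟩ := z
  induction j using Fin.lastCases with
  | last =>
    have h1 : LevelFn i.succ (b, Fin.last h, u) = fun _ => False := by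
      funext v
      exact propext (iff_false_intro (der_last v b i u))
    rw [h1]
    exact (step_cst False).mono_n (by omega)
  | cast j =>
    have h1 : LevelFn i.succ (b, j.castSucc, u) = fun v => ∃ w : Fin q × Fin q,
        v (.rl b i j w.1 w.2 u) ∧ (LevelFn i.castSucc (b, j.castSucc, w.1) v ∧
          LevelFn i.castSucc (b, j.succ, w.2) v) := by
      funext v
      exact propext (der_succ v b i j u)
    rw [h1]
    have h2 := step_ex (B := B) (n := 3) (fun (w : Fin q × Fin q) v =>
        v (.rl b i j w.1 w.2 u) ∧ (LevelFn i.castSucc (b, j.castSucc, w.1) v ∧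
          LevelFn i.castSucc (b, j.succ, w.2) v)) (by
      intro w
      exact step_and (n := 1) (m := 1) (step_var _) (step_and (n := 0) (m := 0)
        (Step.refl (by simpa using hB _)) (Step.refl (by simpa using hB _))))
    refine h2.mono_n (le_of_eq ?_)
    rw [Fintype.card_prod, Fintype.card_fin]; ring

/-- all functions of the levels below and including `k` -/
def LevSet (k : ℕ) : Set ((PVar M h q → Prop) → Prop) :=
  {f | ∃ (i : Fin (h + 1)) (z : Fin M × Fin (h + 1) × Fin q), i.val = k ∧ f = LevelFn i z}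

theorem levels (k : ℕ) (hk : k ≤ h) :
    Step (X := PVar M h q) ∅ (LevSet k) (M * (h + 1) * q * (1 + k * (4 * q ^ 2 + 1))) := by
  induction k with
  | zero =>
    have h1 := step_fin (B := (∅ : Set ((PVar M h q → Prop) → Prop))) (n := 1)
      (fun z : Fin M × Fin (h + 1) × Fin q => LevelFn 0 z) (fun z => level_zero _ z)
    have h2 : LevSet (M := M) (h := h) (q := q) 0 ⊆ {f | ∃ z, f = LevelFn 0 z} := by
      rintro f ⟨i, z, hi, rfl⟩
      have : i = 0 := Fin.ext hi
      subst this
      exact ⟨z, rfl⟩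
    refine (h1.mono_A h2).mono_n (le_of_eq ?_)
    rw [Fintype.card_prod, Fintype.card_prod, Fintype.card_fin, Fintype.card_fin,
      Fintype.card_fin]
    ring
  | succ k ih =>
    have h0 := ih (by omega)
    have h1 := step_fin (B := LevSet k ∪ (∅ : Set ((PVar M h q → Prop) → Prop)))
      (n := 4 * q ^ 2 + 1)
      (fun z : Fin M × Fin (h + 1) × Fin q => LevelFn (⟨k, hk⟩ : Fin h).succ z)
      (fun z => level_succ _ _ (fun z' => Or.inl ⟨_, z', rfl, rfl⟩) z)
    have h2 : LevSet (M := M) (h := h) (q := q) (k + 1) ⊆ LevSet k ∪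
        {f | ∃ z, f = LevelFn (⟨k, hk⟩ : Fin h).succ z} := by
      rintro f ⟨i, z, hi, rfl⟩
      have : i = (⟨k, hk⟩ : Fin h).succ := Fin.ext hi
      subst this
      exact Or.inr ⟨z, rfl⟩
    refine ((h0.trans h1).mono_A h2).mono_n (le_of_eq ?_)
    rw [Fintype.card_prod, Fintype.card_prod, Fintype.card_fin, Fintype.card_fin,
      Fintype.card_fin]
    ring

/-- **Upper bound**: linear-size monotone circuits. -/
theorem pyr_circuit (hh : 1 ≤ h) (hq : h ≤ q) : ∃ L : List ((PVar M h q → Prop) → Prop),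
    MC L ∧ PyrFn ∈ L ∧ L.length ≤ 4 * (M * (h + 1) ^ 2 * q ^ 3) + 1 := by
  have h1 : Step (X := PVar M h q) (LevSet h ∪ ∅) {PyrFn} (3 * (M * q) + 1) := by
    have e : (PyrFn : (PVar M h q → Prop) → Prop) = fun v => ∃ z : Fin M × Fin q,
        v (.gl z.1 z.2) ∧ LevelFn (Fin.last h) (z.1, 0, z.2) v := by
      funext v
      apply propext
      constructor
      · rintro ⟨b, u, h1, h2⟩; exact ⟨(b, u), h1, h2⟩
      · rintro ⟨z, h1, h2⟩; exact ⟨z.1, z.2, h1, h2⟩
    rw [e]
    have h2 := step_ex (B := LevSet h ∪ (∅ : Set ((PVar M h q → Prop) → Prop))) (n := 2)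
      (fun (z : Fin M × Fin q) v => v (.gl z.1 z.2) ∧ LevelFn (Fin.last h) (z.1, 0, z.2) v) (by
      intro z
      refine step_and (n := 1) (m := 0) (step_var _) (Step.refl ?_)
      rintro f rfl
      exact Or.inl ⟨Fin.last h, _, rfl, rfl⟩)
    refine h2.mono_n (le_of_eq ?_)
    rw [Fintype.card_prod, Fintype.card_fin, Fintype.card_fin]
  have h2 := (levels (M := M) (h := h) (q := q) h le_rfl).trans h1
  obtain ⟨L, a1, -, a3, a4⟩ := h2 [] MC.nil (by simp)
  refine ⟨L, a1, a3 _ (Or.inr rfl), a4.trans ?_⟩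
  rw [List.length_nil]
  have h3 : h * h ≤ q * q := Nat.mul_le_mul hq hq
  have hq1 : 1 ≤ q := by omega
  have h4 : 1 ≤ q * q := Nat.mul_le_mul hq1 hq1
  have h5 : (h + 1) * (1 + h * (4 * q ^ 2 + 1)) + 3 ≤ 4 * ((h + 1) ^ 2 * q ^ 2) := by
    have e1 : (h + 1) * (1 + h * (4 * q ^ 2 + 1)) + 3
        = 4 * h * (h + 1) * (q * q) + (h * h + 2 * h + 4) := by ring
    have e2 : 4 * ((h + 1) ^ 2 * q ^ 2) = 4 * h * (h + 1) * (q * q) + 4 * (h + 1) * (q * q) := by
      ring
    rw [e1, e2]
    have e3 : 4 * (h + 1) * (q * q) = (q * q) + (4 * h + 3) * (q * q) := by ring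
    have e4 : 4 * h + 3 ≤ (4 * h + 3) * (q * q) := Nat.le_mul_of_pos_right _ (by omega)
    omega
  calc 0 + (M * (h + 1) * q * (1 + h * (4 * q ^ 2 + 1)) + (3 * (M * q) + 1))
      = M * q * ((h + 1) * (1 + h * (4 * q ^ 2 + 1)) + 3) + 1 := by ring
    _ ≤ M * q * (4 * ((h + 1) ^ 2 * q ^ 2)) + 1 :=
        Nat.add_le_add_right (Nat.mul_le_mul_left _ h5) 1
    _ = 4 * (M * (h + 1) ^ 2 * q ^ 3) + 1 := by ring

end pyr

/-- **Lower bound for path systems**, host version, with linear-size monotone circuits. -/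
theorem host_full (ℓ h M : ℕ) (hℓ : 6 * ℓ ^ 2 + 6 * ℓ + 12 ≤ h) (V : Type) [Fintype V] (t : V)
    (hV : 36 * M * (h + 1) ^ 6 + 1 ≤ Fintype.card V) :
    ∃ H : PS V → Prop, {x : PS V | H x}.ncard ≤ 46656 * M * (h + 1) ^ 14 ∧
      (∃ L : List ((PS V → Prop) → Prop), MC L ∧ L.length ≤ 186624 * M * (h + 1) ^ 14 + 1 ∧
        ∃ f ∈ L, ∀ v : PS V → Prop, (∀ x, v x → H x) → (f v ↔ Solv v t)) ∧
      ∀ T : DTree (PS V), T.load ≤ 2 ^ ℓ →
        (∀ v : PS V → Prop, (∀ x, v x → H x) → (T.eval v ↔ Solv v t)) →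
        M + 1 ≤ T.cost := by
  classical
  obtain ⟨r, hr⟩ : ∃ r, r = 6 * (h + 1) ^ 2 := ⟨_, rfl⟩
  have hcard : Fintype.card (Option (Fin M × Pos h × Fin (r ^ 2))) ≤ Fintype.card V := by
    rw [Fintype.card_option, Fintype.card_prod, Fintype.card_prod, Fintype.card_prod,
      Fintype.card_fin, Fintype.card_fin, Fintype.card_fin]
    refine le_trans (le_of_eq ?_) hV
    rw [hr]; ring
  have hcard' : Fintype.card (Fin M × Pos h × Fin (r ^ 2)) ≤
      Fintype.card {x : V // x ≠ t} := by
    rw [Fintype.card_option] at hcard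
    have : Fintype.card {x : V // x ≠ t} = Fintype.card V - 1 := by
      rw [Fintype.card_subtype_compl]
      simp
    omega
  obtain ⟨e⟩ := Function.Embedding.nonempty_of_card_le hcard'
  let f : Option (Fin M × Pos h × Fin (r ^ 2)) → V := fun z => match z with
    | none => t
    | some y => (e y).1
  have hf : Function.Injective f := by
    rintro (_ | y) (_ | y') heq
    · rfl
    · exact absurd heq.symm (e y').2
    · exact absurd heq (e y).2
    · have : e y = e y' := Subtype.ext heq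
      rw [e.injective this]
  have hr1 : 1 ≤ r := by
    have : 0 < (h + 1) ^ 2 := by positivity
    omega
  have hqr : r ≤ r ^ 2 := Nat.le_self_pow (by norm_num) r
  have hhr : h ≤ r ^ 2 := by
    have : h + 1 ≤ (h + 1) ^ 2 := Nat.le_self_pow (by norm_num) _
    omega
  refine ⟨fun y => ∃ x, emb f x = y, ?_, ?_, ?_⟩
  · refine (emb_card (by omega) (by omega) f).trans (le_of_eq ?_)
    rw [hr]; ring
  · obtain ⟨L, h1, h2, h3⟩ := pyr_circuit (M := M) (h := h) (q := r ^ 2) (by omega) hhr
    refine ⟨_, MC.sub (emb f) h1, ?_, _, List.mem_map_of_mem h2, ?_⟩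
    · rw [List.length_map]
      refine h3.trans (le_of_eq ?_)
      rw [hr]; ring
    · intro v hv
      rw [← emb_solv f hf]
      have : Img (emb f) (fun x => v (emb f x)) = v := by
        funext y
        apply propext
        constructor
        · rintro ⟨x, hx, rfl⟩; exact hx
        · intro hy
          obtain ⟨x, rfl⟩ := hv y hy
          exact ⟨x, hy, rfl⟩
      rw [this]
  · intro T hload hT
    have hb := pyr_bound_dir (M := M) hℓ hr (T.pull (emb f)) (by
      rw [DTree.pull_load]; exact hload) (by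
      intro v
      rw [DTree.pull_eval, hT, ← emb_solv f hf]
      rintro x ⟨y, -, rfl⟩
      exact ⟨y, rfl⟩)
    rwa [DTree.pull_cost] at hb

end H534R2.Gen
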