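import Pool.Agent.H534R2.GenDefs

/-!
# Definition: monotone undirected switching networks with arbitrary variables
-/

namespace H534R2.Gen

open Relation

/-- A monotone undirected switching network on the variables `X`: nodes `Fin size`, unlabelled wires
`link a b`, and wires `wire a b x` between `a` and `b` labelled by the variable `x`. -/
structure BNet (X : Type) where
  size : ℕ
  start : Fin size
  acc : Fin size
  link : Fin size → Fin size → Prop
  wire : Fin size → Fin size → X → Prop

/-- a wire between `a` and `b` is switched on by the assignment `v` -/
def BNet.Pass {X : Type} (N : BNet X) (v : X → Prop) (a b : Fin N.size) : Prop :=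
  N.link a b ∨ ∃ x, N.wire a b x ∧ v x

/-- the network accepts `v`: start and accepting node are joined by wires that are on
(in any direction) -/
def BNet.Accepts {X : Type} (N : BNet X) (v : X → Prop) : Prop :=
  EqvGen (N.Pass v) N.start N.acc

end H534R2.Gen
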