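import Pool.Agent.H534R2.GenBessel
import Pool.Agent.H534R2.UndDefs

/-!
# Monotone undirected switching networks: main lemma for rule systems
-/

set_option linter.unusedSectionVars false

namespace H534R2.Gen

open Finset Relation

theorem BNet.accepts_mono {X : Type} (N : BNet X) {v v' : X → Prop}
    (h : ∀ x, v x → v' x) (hv : N.Accepts v) : N.Accepts v' := by
  refine EqvGen.mono ?_ _ _ hv
  rintro a b (h' | ⟨x, h1, h2⟩)
  · exact Or.inl h'
  · exact Or.inr ⟨x, h1, h _ h2⟩

section lemmas

variable {ι : Type} [Fintype ι] [DecidableEq ι] {q K a : ℕ}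

/-- the relation `P C` holds unless the cut `C` violates, at the vertices chosen by `g`, a
certain goal or rule -/
def Cover (R : Finset ι → ι → Prop) (Z : Finset ι → Prop) (a : ℕ) (P : Cuts ι q → Prop)
    (g : ι → Fin q) : Prop :=
  (∀ C, P C) ∨
  (∃ A, Z A ∧ A.card ≤ a ∧ ∀ C : Cuts ι q, ¬ (∀ x ∈ A, C x (g x) = true) → P C) ∨
  (∃ A y, R A y ∧ y ∉ A ∧ A.card + 1 ≤ a ∧
    ∀ C : Cuts ι q, ¬ ((∀ x ∈ A, C x (g x) = true) ∧ C y (g y) = false) → P C)

theorem Cover.mono {R : Finset ι → ι → Prop} {Z : Finset ι → Prop} {P P' : Cuts ι q → Prop}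
    {g : ι → Fin q} (h : Cover R Z a P g) (hP : ∀ C, P C → P' C) : Cover R Z a P' g := by
  rcases h with h | ⟨A, h1, h2, h3⟩ | ⟨A, y, h1, h2, h3, h4⟩
  · exact Or.inl fun C => hP C (h C)
  · exact Or.inr (Or.inl ⟨A, h1, h2, fun C hC => hP C (h3 C hC)⟩)
  · exact Or.inr (Or.inr ⟨A, y, h1, h2, h3, fun C hC => hP C (h4 C hC)⟩)

theorem coef_insert_pos (f : Cuts ι q → ℝ) (g : ι → Fin q) (x : ι)
    (h : ∀ C, f C ≠ 0 → C x (g x) = true) (I : Finset ι) (hx : x ∉ I) :
    coef f g (insert x I) = coef f g I := by
  unfold coef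
  congr 1
  funext C
  rw [chi_insert g hx]
  by_cases hf : f C = 0
  · rw [hf]; ring
  · rw [h C hf]; simp [sg]

theorem coef_insert_neg (f : Cuts ι q → ℝ) (g : ι → Fin q) (x : ι)
    (h : ∀ C, f C ≠ 0 → C x (g x) = false) (I : Finset ι) (hx : x ∉ I) :
    coef f g (insert x I) = - coef f g I := by
  unfold coef
  rw [← ex_neg]
  congr 1
  funext C
  rw [chi_insert g hx]
  by_cases hf : f C = 0
  · rw [hf]; ring
  · rw [h C hf]; simp [sg]

theorem tot_sub (R : Finset ι → ι → Prop) (F F' : Finset ι → ℝ) :
    tot R K (fun I => F I - F' I) = tot R K F - tot R K F' := by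
  unfold tot
  rw [← Finset.sum_sub_distrib]
  refine Finset.sum_congr rfl fun I _ => ?_
  split_ifs <;> ring

theorem top_sub_le (F F' : Finset ι → ℝ) :
    top a K (fun I => F I - F' I) ≤ top a K F + top a K F' := by
  unfold top
  rw [← Finset.sum_add_distrib]
  refine Finset.sum_le_sum fun I _ => ?_
  split_ifs
  · exact abs_sub _ _
  · simp

theorem top_nonneg (F : Finset ι → ℝ) : 0 ≤ top a K F := by
  unfold top
  refine Finset.sum_nonneg fun I _ => ?_
  split_ifs
  · exact abs_nonneg _
  · exact le_rfl

theorem coef_sub (f f' : Cuts ι q → ℝ) (g : ι → Fin q) (I : Finset ι) :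
    coef (fun C => f C - f' C) g I = coef f g I - coef f' g I := by
  unfold coef
  rw [← ex_sub]
  congr 1
  funext C
  ring

theorem tot_coef_bound {R : Finset ι → ι → Prop} {Z : Finset ι → Prop} (hs : Safe R Z K)
    (f f' : Cuts ι q → ℝ) (g : ι → Fin q) (h : Cover R Z a (fun C => f C = f' C) g) :
    |tot R K (coef f g) - tot R K (coef f' g)|
      ≤ 2 ^ a * 3 ^ K * top a K (coef f g) + 2 ^ a * 3 ^ K * top a K (coef f' g) := by
  have e : tot R K (coef f g) - tot R K (coef f' g)
      = tot R K (coef (fun C => f C - f' C) g) := by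
    rw [← tot_sub]
    congr 1
    funext I
    rw [coef_sub]
  have hb : |tot R K (coef (fun C => f C - f' C) g)|
      ≤ 2 ^ a * 3 ^ K * top a K (coef (fun C => f C - f' C) g) := by
    rcases h with h | ⟨A, hA, hAa, h⟩ | ⟨A, y, hA, hyA, hAa, h⟩
    · have : (coef (fun C => f C - f' C) g) = fun _ => 0 := by
        funext I
        unfold coef
        have : (fun C : Cuts ι q => (f C - f' C) * chi g I C) = fun _ => (0 : ℝ) := by
          funext C; rw [h C]; ring
        rw [this]
        unfold ex; simp
      rw [this]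
      unfold tot top
      simp
    · apply tot_goal_bound hs _ hA hAa
      intro x hx I hI
      apply coef_insert_pos _ g x _ I hI
      intro C hC
      by_contra hne
      exact hC (by rw [h C (fun h' => hne (h' x hx))]; ring)
    · apply tot_rule_bound _ hA hyA hAa
      · intro x hx I hI
        apply coef_insert_pos _ g x _ I hI
        intro C hC
        by_contra hne
        exact hC (by rw [h C (fun h' => hne (h'.1 x hx))]; ring)
      · intro I hI
        apply coef_insert_neg _ g y _ I hI
        intro C hC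
        by_contra hne
        exact hC (by rw [h C (fun h' => hne h'.2)]; ring)
  rw [e]
  refine hb.trans ?_
  have h2 : top a K (coef (fun C => f C - f' C) g) ≤ top a K (coef f g) + top a K (coef f' g) := by
    have : coef (fun C => f C - f' C) g = fun I => coef f g I - coef f' g I := by
      funext I; rw [coef_sub]
    rw [this]
    exact top_sub_le _ _
  have h3 : (0 : ℝ) ≤ 2 ^ a * 3 ^ K := by positivity
  nlinarith

theorem tot_coef_one (R : Finset ι → ι → Prop) (g : ι → Fin q) :
    tot R K (coef (fun _ : Cuts ι q => (1 : ℝ)) g) = 1 := by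
  unfold tot
  rw [Finset.sum_eq_single ∅]
  · have h1 : coef (fun _ : Cuts ι q => (1 : ℝ)) g ∅ = 1 := by
      unfold coef
      have : (fun C : Cuts ι q => (1 : ℝ) * chi g ∅ C) = fun _ => 1 := by
        funext C; rw [chi_empty, mul_one]
      rw [this, ex_one]
    rw [h1, eI_empty]; simp
  · intro I _ hI
    have h1 : coef (fun _ : Cuts ι q => (1 : ℝ)) g I = 0 := by
      unfold coef
      have : (fun C : Cuts ι q => (1 : ℝ) * chi g I C) = chi g I := by
        funext C; rw [one_mul]
      rw [this, ex_chi g hI]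
    rw [h1]; simp
  · intro h; exact absurd (Finset.mem_univ _) h

theorem tot_coef_zero (R : Finset ι → ι → Prop) (g : ι → Fin q) :
    tot R K (coef (fun _ : Cuts ι q => (0 : ℝ)) g) = 0 := by
  unfold tot
  apply Finset.sum_eq_zero
  intro I _
  have h1 : coef (fun _ : Cuts ι q => (0 : ℝ)) g I = 0 := by
    unfold coef
    have : (fun C : Cuts ι q => (0 : ℝ) * chi g I C) = fun _ => 0 := by
      funext C; rw [zero_mul]
    rw [this]; unfold ex; simp
  rw [h1]; simp

open Classical in
/-- which cuts reach the node `b` -/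
noncomputable def Jf {X : Type} (N : BNet X) (YC : Cuts ι q → X → Prop) (b : Fin N.size)
    (C : Cuts ι q) : ℝ := if EqvGen (N.Pass (YC C)) N.start b then 1 else 0

theorem Jf_abs {X : Type} (N : BNet X) (YC : Cuts ι q → X → Prop) (b : Fin N.size)
    (C : Cuts ι q) : |Jf N YC b C| ≤ 1 := by
  unfold Jf; split_ifs <;> simp

/-- the weight that a network puts on the choice `g` -/
noncomputable def Wt {X : Type} (a K : ℕ) (YC : Cuts ι q → X → Prop) (g : ι → Fin q)
    (N : BNet X) : ℝ := 2 * ∑ b, 2 ^ a * 3 ^ K * top a K (coef (Jf N YC b) g)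

theorem Wt_nonneg {X : Type} (YC : Cuts ι q → X → Prop) (g : ι → Fin q)
    (N : BNet X) : 0 ≤ Wt a K YC g N := by
  unfold Wt
  apply mul_nonneg (by norm_num)
  apply Finset.sum_nonneg
  intro b _
  exact mul_nonneg (by positivity) (top_nonneg _)

/-- a network accepting the choice `g` but no cut has weight at least one on `g` -/
theorem one_le_Wt {X : Type} {R : Finset ι → ι → Prop} {Z : Finset ι → Prop} (hs : Safe R Z K)
    (N : BNet X) (YP : X → Prop)
    (YC : Cuts ι q → X → Prop) (g : ι → Fin q)
    (hcov : ∀ x, YP x → Cover R Z a (fun C => YC C x) g)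
    (hacc : N.Accepts YP) (hrej : ∀ C, ¬ N.Accepts (YC C)) : 1 ≤ Wt a K YC g N := by
  have hstart : Jf N YC N.start = fun _ => 1 := by
    funext C; unfold Jf; rw [if_pos (EqvGen.refl _)]
  have hend : Jf N YC N.acc = fun _ => 0 := by
    funext C; unfold Jf; exact if_neg (hrej C)
  have hedge : ∀ b c, N.Pass YP b c → Cover R Z a (fun C => Jf N YC b C = Jf N YC c C) g := by
    intro b c hbc
    have key : ∀ C, N.Pass (YC C) b c → Jf N YC b C = Jf N YC c C := by
      intro C hC
      have hiff : EqvGen (N.Pass (YC C)) N.start b ↔ EqvGen (N.Pass (YC C)) N.start c :=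
        ⟨fun h => h.trans _ _ _ (EqvGen.rel _ _ hC),
          fun h => h.trans _ _ _ (EqvGen.symm _ _ (EqvGen.rel _ _ hC))⟩
      unfold Jf; rw [hiff]
    rcases hbc with h | ⟨x, h1, h2⟩
    · exact Or.inl fun C => key C (Or.inl h)
    · exact (hcov x h2).mono fun C hC => key C (Or.inr ⟨x, h1, hC⟩)
  have h1 := eqvGen_sum (N.Pass YP) (fun b => tot R K (coef (Jf N YC b) g))
    (fun b => 2 ^ a * 3 ^ K * top a K (coef (Jf N YC b) g))
    (fun b => mul_nonneg (by positivity) (top_nonneg _))
    (fun b c hbc => tot_coef_bound hs _ _ g (hedge b c hbc)) hacc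
  simp only [hstart, hend, tot_coef_one, tot_coef_zero] at h1
  rw [sub_zero, abs_one] at h1
  exact h1

end lemmas

theorem sum_Wt_le {X : Type} {ι : Type} [Fintype ι] [DecidableEq ι] {m r K a : ℕ}
    (hm : Fintype.card ι = m) (hmr : m ≤ r) (hr : 1 ≤ r)
    (YC : Cuts ι (r ^ 2) → X → Prop) (N : BNet X) :
    (∑ g, Wt a K YC g N) * (r : ℝ) ^ (K + 1 - a)
      ≤ 2 * 2 ^ a * 3 ^ K * a * N.size * (m : ℝ) ^ (K + 1 - a) * (r : ℝ) ^ (2 * m) := by
  unfold Wt
  rw [← Finset.mul_sum, Finset.sum_comm]
  calc 2 * (∑ b, ∑ g, 2 ^ a * 3 ^ K * top a K (coef (Jf N YC b) g)) * (r : ℝ) ^ (K + 1 - a)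
      = 2 * 2 ^ a * 3 ^ K *
          ∑ b, ((∑ g, top a K (coef (Jf N YC b) g)) * (r : ℝ) ^ (K + 1 - a)) := by
        rw [← Finset.sum_mul]
        simp_rw [← Finset.mul_sum]
        ring
    _ ≤ 2 * 2 ^ a * 3 ^ K *
          ∑ _b : Fin N.size, (a * ((m : ℝ) ^ (K + 1 - a) * (r : ℝ) ^ (2 * m))) := by
        exact mul_le_mul_of_nonneg_left
          (Finset.sum_le_sum fun b _ => sum_top_le hm hmr hr _ (Jf_abs N YC b)) (by positivity)
    _ = 2 * 2 ^ a * 3 ^ K * a * N.size * (m : ℝ) ^ (K + 1 - a) * (r : ℝ) ^ (2 * m) := by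
        rw [Finset.sum_const, Finset.card_univ, Fintype.card_fin, nsmul_eq_mul]; ring

/-- **Main lemma.**  If every choice is accepted by one of the networks of a small list, then some
cut is accepted by one of them. -/
theorem exists_cut {X : Type} {ι : Type} [Fintype ι] [DecidableEq ι] {m r K a : ℕ}
    (hm : Fintype.card ι = m) (hmr : m ≤ r) (hr : 1 ≤ r)
    {R : Finset ι → ι → Prop} {Z : Finset ι → Prop} (hs : Safe R Z K)
    (L : List (BNet X)) (YP : (ι → Fin (r ^ 2)) → X → Prop)
    (YC : Cuts ι (r ^ 2) → X → Prop)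
    (hcov : ∀ g x, YP g x → Cover R Z a (fun C => YC C x) g)
    (hsize : 2 * 2 ^ a * 3 ^ K * a * (L.map BNet.size).sum * m ^ (K + 1 - a) < r ^ (K + 1 - a))
    (hacc : ∀ g, ∃ N ∈ L, N.Accepts (YP g)) : ∃ N ∈ L, ∃ C, N.Accepts (YC C) := by
  by_contra hcon
  push Not at hcon
  have hr0 : (0 : ℝ) < r := by exact_mod_cast hr
  have h1 : ∀ g, 1 ≤ (L.map (Wt a K YC g)).sum := by
    intro g
    obtain ⟨N, hN, hNacc⟩ := hacc g
    have h2 := one_le_Wt hs N (YP g) YC g (hcov g) hNacc (hcon N hN)
    refine h2.trans ?_
    apply List.single_le_sum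
    · intro x hx
      rw [List.mem_map] at hx
      obtain ⟨N', -, rfl⟩ := hx
      exact Wt_nonneg YC g N'
    · exact List.mem_map_of_mem hN
  have h2 : ∀ L' : List (BNet X), (∑ g, (L'.map (Wt a K YC g)).sum) * (r : ℝ) ^ (K + 1 - a)
      ≤ 2 * 2 ^ a * 3 ^ K * a * ((L'.map BNet.size).sum : ℕ) * (m : ℝ) ^ (K + 1 - a)
        * (r : ℝ) ^ (2 * m) := by
    intro L'
    induction L' with
    | nil => simp
    | cons N L' ih =>
      simp only [List.map_cons, List.sum_cons, Finset.sum_add_distrib]
      have h3 := sum_Wt_le (a := a) (K := K) hm hmr hr YC N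
      push_cast
      calc ((∑ g, Wt a K YC g N) + ∑ g, (L'.map (Wt a K YC g)).sum) * (r : ℝ) ^ (K + 1 - a)
          = (∑ g, Wt a K YC g N) * (r : ℝ) ^ (K + 1 - a)
            + (∑ g, (L'.map (Wt a K YC g)).sum) * (r : ℝ) ^ (K + 1 - a) := by ring
        _ ≤ 2 * 2 ^ a * 3 ^ K * a * N.size * (m : ℝ) ^ (K + 1 - a) * (r : ℝ) ^ (2 * m)
            + 2 * 2 ^ a * 3 ^ K * a * ((L'.map BNet.size).sum : ℕ) * (m : ℝ) ^ (K + 1 - a)
              * (r : ℝ) ^ (2 * m) := add_le_add h3 ih
        _ = _ := by push_cast; ring
  have h3 : (r : ℝ) ^ (2 * m) ≤ ∑ g : ι → Fin (r ^ 2), (L.map (Wt a K YC g)).sum := by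
    calc (r : ℝ) ^ (2 * m) = ∑ _g : ι → Fin (r ^ 2), (1 : ℝ) := by
          rw [Finset.sum_const, Finset.card_univ, nsmul_eq_mul, mul_one, Fintype.card_fun,
            Fintype.card_fin, hm]
          push_cast
          rw [← pow_mul]
      _ ≤ _ := Finset.sum_le_sum fun g _ => h1 g
  have h4 := h2 L
  have h5 : (r : ℝ) ^ (2 * m) * (r : ℝ) ^ (K + 1 - a)
      ≤ 2 * 2 ^ a * 3 ^ K * a * ((L.map BNet.size).sum : ℕ) * (m : ℝ) ^ (K + 1 - a)
        * (r : ℝ) ^ (2 * m) :=
    (mul_le_mul_of_nonneg_right h3 (by positivity)).trans h4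
  have h6 : (r : ℝ) ^ (K + 1 - a)
      ≤ 2 * 2 ^ a * 3 ^ K * a * ((L.map BNet.size).sum : ℕ) * (m : ℝ) ^ (K + 1 - a) := by
    have h7 : (0 : ℝ) < (r : ℝ) ^ (2 * m) := by positivity
    have h8 : (r : ℝ) ^ (2 * m) * (r : ℝ) ^ (K + 1 - a)
      ≤ (r : ℝ) ^ (2 * m) *
        (2 * 2 ^ a * 3 ^ K * a * ((L.map BNet.size).sum : ℕ) * (m : ℝ) ^ (K + 1 - a)) := by
      linarith
    exact le_of_mul_le_mul_left h8 h7
  have h9 : ((r ^ (K + 1 - a) : ℕ) : ℝ)
      ≤ ((2 * 2 ^ a * 3 ^ K * a * (L.map BNet.size).sum * m ^ (K + 1 - a) : ℕ) : ℝ) := by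
    push_cast at h6 ⊢
    exact h6
  have h10 : r ^ (K + 1 - a)
      ≤ 2 * 2 ^ a * 3 ^ K * a * (L.map BNet.size).sum * m ^ (K + 1 - a) := by
    exact_mod_cast h9
  omega

/-! ### computations in rounds -/

/-- Computations that evaluate monotone undirected networks in rounds: `out N` outputs the answer of
the network `N`; `ask w N next` evaluates the `w` networks `N i` and continues with a
computation that may depend on the `w` answers in an arbitrary way. -/
inductive BTree (X : Type) : Type
  | out (N : BNet X) : BTree X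
  | ask (w : ℕ) (N : Fin w → BNet X) (next : (Fin w → Bool) → BTree X) : BTree X

open Classical in
/-- the answers of the networks -/
noncomputable def ans {X : Type} {w : ℕ} (N : Fin w → BNet X) (v : X → Prop) : Fin w → Bool :=
  fun i => decide ((N i).Accepts v)

namespace BTree

variable {X : Type}

/-- the value computed on the assignment `v` -/
noncomputable def eval : BTree X → (X → Prop) → Prop
  | out N, v => N.Accepts v
  | ask _ N next, v => (next (ans N v)).eval v

/-- the maximum over all branches of the product of `w + 1` over the rounds -/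
def cost : BTree X → ℕ
  | out _ => 1
  | ask w _ next => (w + 1) * Finset.univ.sup (fun a => (next a).cost)

/-- the maximum over all branches of the total number of nodes of the networks -/
def load : BTree X → ℕ
  | out N => N.size
  | ask _ N next => (∑ i, (N i).size) + Finset.univ.sup (fun a => (next a).load)

open Classical in
/-- the networks on the branch of `v` that reject `v`, and the output network -/
noncomputable def zeros : BTree X → (X → Prop) → List (BNet X)
  | out N, _ => [N]
  | ask _ N next, v =>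
      ((List.ofFn N).filter (fun N' => ¬ N'.Accepts v)) ++ (next (ans N v)).zeros v

open Classical in
/-- rank of the branch of `v` -/
noncomputable def rk : BTree X → (X → Prop) → ℕ
  | out _, _ => 0
  | ask w N next, v =>
      (Finset.univ.filter (fun i => (N i).Accepts v)).card *
        Finset.univ.sup (fun a : Fin w → Bool => (next a).cost) + (next (ans N v)).rk v

theorem cost_pos (T : BTree X) : 1 ≤ T.cost := by
  induction T with
  | out N => exact le_rfl
  | ask w N next ih =>
    show 1 ≤ (w + 1) * Finset.univ.sup (fun a => (next a).cost)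
    have h1 : (next (fun _ => true)).cost ≤ Finset.univ.sup (fun a => (next a).cost) :=
      Finset.le_sup (f := fun a => (next a).cost) (Finset.mem_univ _)
    have h2 := ih (fun _ => true)
    nlinarith

theorem rk_lt_cost (T : BTree X) (v : X → Prop) : T.rk v < T.cost := by
  classical
  induction T with
  | out N => exact Nat.zero_lt_one
  | ask w N next ih =>
    show (Finset.univ.filter (fun i => (N i).Accepts v)).card *
        Finset.univ.sup (fun a : Fin w → Bool => (next a).cost) + (next (ans N v)).rk v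
        < (w + 1) * Finset.univ.sup (fun a => (next a).cost)
    have h1 : (next (ans N v)).cost ≤ Finset.univ.sup (fun a => (next a).cost) :=
      Finset.le_sup (f := fun a => (next a).cost) (Finset.mem_univ _)
    have h2 := ih (ans N v)
    have h3 : (Finset.univ.filter (fun i => (N i).Accepts v)).card ≤ w := by
      have := Finset.card_le_univ (Finset.univ.filter (fun i => (N i).Accepts v))
      rwa [Fintype.card_fin] at this
    have h4 := Nat.mul_le_mul_right (Finset.univ.sup (fun a : Fin w → Bool => (next a).cost)) h3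
    have h5 : (w + 1) * Finset.univ.sup (fun a => (next a).cost)
        = w * Finset.univ.sup (fun a : Fin w → Bool => (next a).cost)
          + Finset.univ.sup (fun a : Fin w → Bool => (next a).cost) := by ring
    omega

theorem sum_filter_le (L : List (BNet X)) (p : BNet X → Bool) :
    ((L.filter p).map BNet.size).sum ≤ (L.map BNet.size).sum := by
  induction L with
  | nil => simp
  | cons N L ih =>
    rw [List.filter_cons]
    split_ifs
    · simp only [List.map_cons, List.sum_cons]; omega
    · simp only [List.map_cons, List.sum_cons]; omega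

theorem zeros_load (T : BTree X) (v : X → Prop) : ((T.zeros v).map BNet.size).sum ≤ T.load := by
  classical
  induction T with
  | out N => simp [zeros, load]
  | ask w N next ih =>
    show ((((List.ofFn N).filter (fun N' => ¬ N'.Accepts v)) ++
      (next (ans N v)).zeros v).map BNet.size).sum
        ≤ (∑ i, (N i).size) + Finset.univ.sup (fun a => (next a).load)
    rw [List.map_append, List.sum_append]
    have h1 : (next (ans N v)).load ≤ Finset.univ.sup (fun a => (next a).load) :=
      Finset.le_sup (f := fun a => (next a).load) (Finset.mem_univ _)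
    have h2 := ih (ans N v)
    have h3 := sum_filter_le (List.ofFn N) (fun N' => decide (¬ N'.Accepts v))
    have h4 : ((List.ofFn N).map BNet.size).sum = ∑ i, (N i).size := by
      rw [List.map_ofFn, List.sum_ofFn]; rfl
    rw [h4] at h3
    omega

theorem ans_ne {w : ℕ} {N : Fin w → BNet X} {v v' : X → Prop} (h : ∀ x, v x → v' x)
    (hne : ans N v ≠ ans N v') : ∃ i, ¬ (N i).Accepts v ∧ (N i).Accepts v' := by
  classical
  by_contra hcon
  push Not at hcon
  apply hne
  funext i
  unfold ans
  by_cases hi : (N i).Accepts v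
  · have := (N i).accepts_mono h hi
    simp [hi, this]
  · have := hcon i hi
    simp [hi, this]

theorem ans_eq_iff {w : ℕ} {N : Fin w → BNet X} {v v' : X → Prop}
    (he : ans N v = ans N v') (i : Fin w) : (N i).Accepts v ↔ (N i).Accepts v' := by
  classical
  have := congrFun he i
  unfold ans at this
  simpa using this

/-- a larger accepted assignment is accepted by one of the networks on the branch -/
theorem found (T : BTree X) {v v' : X → Prop} (h : ∀ x, v x → v' x)
    (hT : T.eval v') : ∃ N ∈ T.zeros v, N.Accepts v' := by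
  classical
  induction T with
  | out N => exact ⟨N, by simp [zeros], hT⟩
  | ask w N next ih =>
    by_cases he : ans N v = ans N v'
    · have hT' : (next (ans N v')).eval v' := hT
      rw [← he] at hT'
      obtain ⟨N', h1, h2⟩ := ih _ hT'
      exact ⟨N', List.mem_append_right _ h1, h2⟩
    · obtain ⟨i, h1, h2⟩ := ans_ne h he
      refine ⟨N i, List.mem_append_left _ ?_, h2⟩
      rw [List.mem_filter]
      exact ⟨(List.mem_ofFn' _ _).2 ⟨i, rfl⟩, by simpa using h1⟩

/-- if one of the networks on the branch of `v` accepts the larger rejected assignment `v'`, the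
rank increases -/
theorem rk_lt (T : BTree X) {v v' : X → Prop} (h : ∀ x, v x → v' x)
    (hT : ¬ T.eval v') (hN : ∃ N ∈ T.zeros v, N.Accepts v') : T.rk v < T.rk v' := by
  classical
  induction T with
  | out N =>
    obtain ⟨N', h1, h2⟩ := hN
    have : N' = N := by simpa [zeros] using h1
    subst this
    exact absurd h2 hT
  | ask w N next ih =>
    show (Finset.univ.filter (fun i => (N i).Accepts v)).card *
        Finset.univ.sup (fun a : Fin w → Bool => (next a).cost) + (next (ans N v)).rk v
        < (Finset.univ.filter (fun i => (N i).Accepts v')).card *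
        Finset.univ.sup (fun a : Fin w → Bool => (next a).cost) + (next (ans N v')).rk v'
    by_cases he : ans N v = ans N v'
    · have hcard : (Finset.univ.filter (fun i => (N i).Accepts v))
          = (Finset.univ.filter (fun i => (N i).Accepts v')) := by
        ext i; simp only [Finset.mem_filter, Finset.mem_univ, true_and]
        exact ans_eq_iff he i
      have hT' : ¬ (next (ans N v)).eval v' := by rw [he]; exact hT
      obtain ⟨N', h1, h2⟩ := hN
      have h3 : N' ∈ (next (ans N v)).zeros v := by
        rcases List.mem_append.1 h1 with h4 | h4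
        · exfalso
          rw [List.mem_filter] at h4
          obtain ⟨i, rfl⟩ := (List.mem_ofFn' _ _).1 h4.1
          have h5 : ¬ (N i).Accepts v := by simpa using h4.2
          exact h5 ((ans_eq_iff he i).2 h2)
        · exact h4
      have := ih _ hT' ⟨N', h3, h2⟩
      rw [hcard]
      rw [he] at this ⊢
      omega
    · obtain ⟨i, h1, h2⟩ := ans_ne h he
      have hlt : (Finset.univ.filter (fun i => (N i).Accepts v)).card + 1
          ≤ (Finset.univ.filter (fun i => (N i).Accepts v')).card := by
        apply Finset.card_lt_card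
        rw [Finset.ssubset_iff_of_subset]
        · exact ⟨i, by simp [h2], by simp [h1]⟩
        · intro j hj
          simp only [Finset.mem_filter, Finset.mem_univ, true_and] at hj ⊢
          exact (N j).accepts_mono h hj
      have h3 := rk_lt_cost (next (ans N v)) v
      have h4 : (next (ans N v)).cost
          ≤ Finset.univ.sup (fun a : Fin w → Bool => (next a).cost) :=
        Finset.le_sup (f := fun a => (next a).cost) (Finset.mem_univ _)
      have h5 := Nat.mul_le_mul_right
        (Finset.univ.sup (fun a : Fin w → Bool => (next a).cost)) hlt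
      have h6 : ((Finset.univ.filter (fun i => (N i).Accepts v)).card + 1) *
          Finset.univ.sup (fun a : Fin w → Bool => (next a).cost)
          = (Finset.univ.filter (fun i => (N i).Accepts v)).card *
            Finset.univ.sup (fun a : Fin w → Bool => (next a).cost)
            + Finset.univ.sup (fun a : Fin w → Bool => (next a).cost) := by ring
      omega

/-- a chain of `M + 1` rejected assignments, each forcing the next, gives cost at least `M + 1` -/
theorem cost_of_chain (T : BTree X) (M : ℕ) (Good : ℕ → (X → Prop) → Prop)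
    (h0 : ∃ v, Good 0 v)
    (hstep : ∀ k < M, ∀ v, Good k v → ∃ v', Good (k + 1) v' ∧ (∀ x, v x → v' x) ∧
      ∃ N ∈ T.zeros v, N.Accepts v')
    (hrej : ∀ k v, Good k v → ¬ T.eval v) : M + 1 ≤ T.cost := by
  have key : ∀ k ≤ M, ∃ v, Good k v ∧ k ≤ T.rk v := by
    intro k
    induction k with
    | zero => intro _; obtain ⟨v, hv⟩ := h0; exact ⟨v, hv, Nat.zero_le _⟩
    | succ k ih =>
      intro hk
      obtain ⟨v, hv, hkv⟩ := ih (by omega)
      obtain ⟨v', hv', hle, hN⟩ := hstep k hk v hv
      have := T.rk_lt hle (hrej _ _ hv') hN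
      exact ⟨v', hv', by omega⟩
  obtain ⟨v, -, hv⟩ := key M le_rfl
  have := T.rk_lt_cost v
  omega

end BTree

end H534R2.Gen
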