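import Pool.Agent.H534R2.GenDir

/-!
# Path systems and directed networks with NOT gates
-/

set_option linter.unusedSectionVars false

namespace H534R2.Gen

open Finset Relation

/-! ### networks with NOT gates -/

/-- A directed switching network whose edges may be labelled by variables (`wire`) and by NOT
gates (`nwire a b j`: an edge from `a` to `b` labelled by the `j`-th NOT gate). -/
structure NNet (X : Type) where
  size : ℕ
  start : Fin size
  acc : Fin size
  link : Fin size → Fin size → Prop
  wire : Fin size → Fin size → X → Prop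
  nwire : Fin size → Fin size → ℕ → Prop

/-- the edges that are present, when the inputs of the available NOT gates are `z` -/
def NNet.Pass {X : Type} (N : NNet X) (z : List Bool) (v : X → Prop)
    (a b : Fin N.size) : Prop :=
  N.link a b ∨ (∃ x, N.wire a b x ∧ v x) ∨ ∃ j, N.nwire a b j ∧ z[j]? = some false

/-- acceptance: a directed path from the start to the accepting node -/
def NNet.Accepts {X : Type} (N : NNet X) (z : List Bool) (v : X → Prop) : Prop :=
  ReflTransGen (N.Pass z v) N.start N.acc

open Classical in
/-- The value of a sequence of networks: the networks are evaluated one after the other, the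
answer of each one but the last is the input of a NOT gate, whose output may
be used by all later networks; the last network gives the result.  The list `z` holds the inputs of
the NOT gates evaluated so far. -/
noncomputable def evalNot {X : Type} : List (NNet X) → List Bool → (X → Prop) → Prop
  | [], _, _ => False
  | [N], z, v => N.Accepts z v
  | N :: N' :: L, z, v => evalNot (N' :: L) (z ++ [decide (N.Accepts z v)]) v

/-- fix the inputs of the NOT gates -/
def NNet.toD {X : Type} (N : NNet X) (z : List Bool) : DNet X where
  size := N.size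
  start := N.start
  acc := N.acc
  link a b := N.link a b ∨ ∃ j, N.nwire a b j ∧ z[j]? = some false
  wire := N.wire

theorem NNet.toD_accepts {X : Type} (N : NNet X) (z : List Bool) (v : X → Prop) :
    (N.toD z).Accepts v ↔ N.Accepts z v := by
  have h : (N.toD z).Pass v = N.Pass z v := by
    funext a b
    apply propext
    constructor
    · rintro ((h | h) | h)
      · exact Or.inl h
      · exact Or.inr (Or.inr h)
      · exact Or.inr (Or.inl h)
    · rintro (h | h | h)
      · exact Or.inl (Or.inl h)
      · exact Or.inr h
      · exact Or.inl (Or.inr h)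
  unfold DNet.Accepts NNet.Accepts
  rw [h]
  rfl

/-- the computation of a nonempty sequence of networks -/
def toTree {X : Type} : NNet X → List (NNet X) → List Bool → DTree X
  | N, [], z => .out (N.toD z)
  | N, N' :: L, z => .ask 1 (fun _ => N.toD z) (fun a => toTree N' L (z ++ [a 0]))

theorem toTree_eval {X : Type} (L : List (NNet X)) : ∀ (N : NNet X) (z : List Bool)
    (v : X → Prop), (toTree N L z).eval v ↔ evalNot (N :: L) z v := by
  classical
  induction L with
  | nil =>
    intro N z v
    exact N.toD_accepts z v
  | cons N' L ih =>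
    intro N z v
    show (toTree N' L (z ++ [dans (fun _ : Fin 1 => N.toD z) v 0])).eval v ↔
      evalNot (N' :: L) (z ++ [decide (N.Accepts z v)]) v
    rw [ih]
    have : dans (fun _ : Fin 1 => N.toD z) v 0 = decide (N.Accepts z v) := by
      unfold dans
      rw [decide_eq_decide]
      exact N.toD_accepts z v
    rw [this]

theorem toTree_cost {X : Type} (L : List (NNet X)) : ∀ (N : NNet X) (z : List Bool),
    (toTree N L z).cost ≤ 2 ^ L.length := by
  induction L with
  | nil => intro N z; exact le_rfl
  | cons N' L ih =>
    intro N z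
    show (1 + 1) * Finset.univ.sup (fun a : Fin 1 → Bool => (toTree N' L (z ++ [a 0])).cost)
      ≤ 2 ^ (L.length + 1)
    rw [pow_succ]
    have : Finset.univ.sup (fun a : Fin 1 → Bool => (toTree N' L (z ++ [a 0])).cost)
        ≤ 2 ^ L.length := by
      apply Finset.sup_le
      intro a _
      exact ih _ _
    omega

theorem toTree_load {X : Type} (L : List (NNet X)) : ∀ (N : NNet X) (z : List Bool),
    (toTree N L z).load ≤ N.size + (L.map NNet.size).sum := by
  induction L with
  | nil => intro N z; simp [toTree, DTree.load, NNet.toD]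
  | cons N' L ih =>
    intro N z
    show (∑ _i : Fin 1, (N.toD z).size) +
      Finset.univ.sup (fun a : Fin 1 → Bool => (toTree N' L (z ++ [a 0])).load)
      ≤ N.size + ((N' :: L).map NNet.size).sum
    rw [List.map_cons, List.sum_cons]
    have : Finset.univ.sup (fun a : Fin 1 → Bool => (toTree N' L (z ++ [a 0])).load)
        ≤ N'.size + (L.map NNet.size).sum := by
      apply Finset.sup_le
      intro a _
      exact ih _ _
    simp only [Finset.univ_unique, Finset.sum_const, Finset.card_singleton, one_smul]
    have h2 : (N.toD z).size = N.size := rfl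
    omega

/-! ### embedding -/

section embed

variable {X Y : Type}

/-- the image of an assignment -/
def Img (e : X → Y) (v : X → Prop) (y : Y) : Prop := ∃ x, v x ∧ e x = y

/-- substitute variables -/
def DNet.pull (e : X → Y) (N : DNet Y) : DNet X where
  size := N.size
  start := N.start
  acc := N.acc
  link := N.link
  wire a b x := N.wire a b (e x)

theorem DNet.pull_accepts (e : X → Y) (N : DNet Y) (v : X → Prop) :
    (N.pull e).Accepts v ↔ N.Accepts (Img e v) := by
  have h : (N.pull e).Pass v = N.Pass (Img e v) := by
    funext a b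
    apply propext
    constructor
    · rintro (h | ⟨x, h1, h2⟩)
      · exact Or.inl h
      · exact Or.inr ⟨e x, h1, x, h2, rfl⟩
    · rintro (h | ⟨_, h1, x, h2, rfl⟩)
      · exact Or.inl h
      · exact Or.inr ⟨x, h1, h2⟩
  unfold DNet.Accepts
  rw [h]
  rfl

/-- substitute variables in a computation -/
def DTree.pull (e : X → Y) : DTree Y → DTree X
  | .out N => .out (N.pull e)
  | .ask w N next => .ask w (fun i => (N i).pull e) (fun a => (next a).pull e)

theorem DTree.pull_eval (e : X → Y) (T : DTree Y) (v : X → Prop) :
    (T.pull e).eval v ↔ T.eval (Img e v) := by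
  classical
  induction T with
  | out N => exact N.pull_accepts e v
  | ask w N next ih =>
    show ((next (dans (fun i => (N i).pull e) v)).pull e).eval v ↔
      (next (dans N (Img e v))).eval (Img e v)
    have h : dans (fun i => (N i).pull e) v = dans N (Img e v) := by
      funext i
      unfold dans
      rw [decide_eq_decide]
      exact (N i).pull_accepts e v
    rw [h]
    exact ih _

theorem DTree.pull_cost (e : X → Y) (T : DTree Y) : (T.pull e).cost = T.cost := by
  induction T with
  | out N => rfl
  | ask w N next ih =>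
    show (w + 1) * Finset.univ.sup (fun a => ((next a).pull e).cost)
      = (w + 1) * Finset.univ.sup (fun a => (next a).cost)
    simp only [ih]

theorem DTree.pull_load (e : X → Y) (T : DTree Y) : (T.pull e).load = T.load := by
  induction T with
  | out N => rfl
  | ask w N next ih =>
    show (∑ i, ((N i).pull e).size) + Finset.univ.sup (fun a => ((next a).pull e).load)
      = (∑ i, (N i).size) + Finset.univ.sup (fun a => (next a).load)
    simp only [ih]
    rfl

end embed

section host

variable {M h q : ℕ} {V : Type}

/-- the variables of the block function as variables of a path system -/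
def emb (f : Option (Fin M × Pos h × Fin q) → V) : PVar M h q → PS V
  | .ax b j u => .ax (f (some (b, (0, j), u)))
  | .rl b i j u₁ u₂ u => .rl (f (some (b, (i.castSucc, j.castSucc), u₁)))
      (f (some (b, (i.castSucc, j.succ), u₂))) (f (some (b, (i.succ, j.castSucc), u)))
  | .gl b u => .rl (f (some (b, (Fin.last h, 0), u))) (f (some (b, (Fin.last h, 0), u))) (f none)

theorem emb_solv (f : Option (Fin M × Pos h × Fin q) → V) (hf : Function.Injective f)
    (v : PVar M h q → Prop) : Solv (Img (emb f) v) (f none) ↔ PyrFn v := by
  constructor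
  · intro hs
    have key : ∀ x, Solv (Img (emb f) v) x → (x = f none → PyrFn v) ∧
        ∀ b p u, x = f (some (b, p, u)) → Der v b p u := by
      intro x hx
      induction hx with
      | ax x h1 =>
        obtain ⟨y, hy, he⟩ := h1
        cases y with
        | ax b j u =>
          have e1 : f (some (b, (0, j), u)) = x := PS.ax.inj he
          constructor
          · intro e2
            rw [e2] at e1
            exact absurd (hf e1) (by simp)
          · intro b' p' u' e2
            rw [e2] at e1
            have e3 := hf e1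
            simp only [Option.some.injEq, Prod.mk.injEq] at e3
            obtain ⟨rfl, rfl, rfl⟩ := e3
            exact Der.ax j u hy
        | rl b i j u₁ u₂ u => simp [emb] at he
        | gl b u => simp [emb] at he
      | rl x y z h1 _ _ ih1 ih2 =>
        obtain ⟨w, hw, he⟩ := h1
        cases w with
        | ax b j u => simp [emb] at he
        | rl b i j u₁ u₂ u =>
          obtain ⟨e1, e2, e3⟩ := PS.rl.inj he
          constructor
          · intro e4
            rw [e4] at e3
            exact absurd (hf e3) (by simp)
          · intro b' p' u' e4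
            rw [e4] at e3
            have e5 := hf e3
            simp only [Option.some.injEq, Prod.mk.injEq] at e5
            obtain ⟨rfl, rfl, rfl⟩ := e5
            exact Der.rl i j u₁ u₂ u hw (ih1.2 _ _ _ e1.symm) (ih2.2 _ _ _ e2.symm)
        | gl b u =>
          obtain ⟨e1, e2, e3⟩ := PS.rl.inj he
          constructor
          · intro _
            exact ⟨b, u, hw, ih1.2 _ _ _ e1.symm⟩
          · intro b' p' u' e4
            rw [e4] at e3
            exact absurd (hf e3) (by simp)
    exact (key _ hs).1 rfl
  · rintro ⟨b, u, hg, hd⟩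
    have key : ∀ p u, Der v b p u → Solv (Img (emb f) v) (f (some (b, p, u))) := by
      intro p u hd
      induction hd with
      | ax j u h1 => exact Solv.ax _ ⟨_, h1, rfl⟩
      | rl i j u₁ u₂ u h1 _ _ ih1 ih2 => exact Solv.rl _ _ _ ⟨_, h1, rfl⟩ ih1 ih2
    exact Solv.rl _ _ _ ⟨_, hg, rfl⟩ (key _ _ hd) (key _ _ hd)

theorem emb_card (hh : 1 ≤ h) (hq : 1 ≤ q) (f : Option (Fin M × Pos h × Fin q) → V) :
    {y : PS V | ∃ x, emb f x = y}.ncard ≤ M * (h + 1) ^ 2 * q ^ 3 := by
  classical
  let F : (Fin M × Fin (h + 1) × Fin q) ⊕ (Fin M × Fin h × Fin h × Fin q × Fin q × Fin q) ⊕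
      (Fin M × Fin q) → PVar M h q := fun z => match z with
    | Sum.inl (b, j, u) => .ax b j u
    | Sum.inr (Sum.inl (b, i, j, u₁, u₂, u)) => .rl b i j u₁ u₂ u
    | Sum.inr (Sum.inr (b, u)) => .gl b u
  have hsub : {y : PS V | ∃ x, emb f x = y} ⊆ Set.range (emb f ∘ F) := by
    rintro y ⟨x, rfl⟩
    cases x with
    | ax b j u => exact ⟨Sum.inl (b, j, u), rfl⟩
    | rl b i j u₁ u₂ u => exact ⟨Sum.inr (Sum.inl (b, i, j, u₁, u₂, u)), rfl⟩
    | gl b u => exact ⟨Sum.inr (Sum.inr (b, u)), rfl⟩
  refine (Set.ncard_le_ncard hsub (Set.finite_range _)).trans ?_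
  rw [← Set.image_univ]
  refine (Set.ncard_image_le Set.finite_univ).trans ?_
  rw [Set.ncard_univ, Nat.card_eq_fintype_card]
  simp only [Fintype.card_sum, Fintype.card_prod, Fintype.card_fin]
  have h1 : q ≤ q ^ 3 := Nat.le_self_pow (by norm_num) q
  have h2 : (h + 2) * q ≤ (2 * h + 1) * q ^ 3 := Nat.mul_le_mul (by omega) h1
  calc M * ((h + 1) * q) + (M * (h * (h * (q * (q * q)))) + M * q)
      = M * (h * h * q ^ 3 + (h + 2) * q) := by ring
    _ ≤ M * (h * h * q ^ 3 + (2 * h + 1) * q ^ 3) :=
        Nat.mul_le_mul_left _ (Nat.add_le_add_left h2 _)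
    _ = M * (h + 1) ^ 2 * q ^ 3 := by ring

/-- **Lower bound for path systems**, host version. -/
theorem host_bound (ℓ h M : ℕ) (hℓ : 6 * ℓ ^ 2 + 6 * ℓ + 12 ≤ h) (V : Type) [Fintype V] (t : V)
    (hV : 36 * M * (h + 1) ^ 6 + 1 ≤ Fintype.card V) :
    ∃ H : PS V → Prop, {x : PS V | H x}.ncard ≤ 46656 * M * (h + 1) ^ 14 ∧
      ∀ T : DTree (PS V), T.load ≤ 2 ^ ℓ →
        (∀ v : PS V → Prop, (∀ x, v x → H x) → (T.eval v ↔ Solv v t)) →
        M + 1 ≤ T.cost := by
  classical
  obtain ⟨r, hr⟩ : ∃ r, r = 6 * (h + 1) ^ 2 := ⟨_, rfl⟩
  have hcard : Fintype.card (Option (Fin M × Pos h × Fin (r ^ 2))) ≤ Fintype.card V := by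
    rw [Fintype.card_option, Fintype.card_prod, Fintype.card_prod, Fintype.card_prod,
      Fintype.card_fin, Fintype.card_fin, Fintype.card_fin]
    refine le_trans (le_of_eq ?_) hV
    rw [hr]; ring
  have hcard' : Fintype.card (Fin M × Pos h × Fin (r ^ 2)) ≤
      Fintype.card {x : V // x ≠ t} := by
    rw [Fintype.card_option] at hcard
    have : Fintype.card {x : V // x ≠ t} = Fintype.card V - 1 := by
      rw [Fintype.card_subtype_compl]
      simp
    omega
  obtain ⟨e⟩ := Function.Embedding.nonempty_of_card_le hcard'
  let f : Option (Fin M × Pos h × Fin (r ^ 2)) → V := fun z => match z with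
    | none => t
    | some y => (e y).1
  have hf : Function.Injective f := by
    rintro (_ | y) (_ | y') heq
    · rfl
    · exact absurd heq.symm (e y').2
    · exact absurd heq (e y).2
    · have : e y = e y' := Subtype.ext heq
      rw [e.injective this]
  refine ⟨fun y => ∃ x, emb f x = y, ?_, ?_⟩
  · refine (emb_card (by omega) ?_ f).trans (le_of_eq ?_)
    · have : 0 < r := by rw [hr]; positivity
      exact Nat.one_le_iff_ne_zero.2 (by positivity)
    · rw [hr]; ring
  · intro T hload hT
    have hb := pyr_bound_dir (M := M) hℓ hr (T.pull (emb f)) (by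
      rw [DTree.pull_load]; exact hload) (by
      intro v
      rw [DTree.pull_eval, hT, ← emb_solv f hf]
      rintro x ⟨y, -, rfl⟩
      exact ⟨y, rfl⟩)
    rwa [DTree.pull_cost] at hb

end host

/-- **Networks with NOT gates**: at most `2 ^ ℓ` nodes. -/
theorem not_gates_bound (ℓ : ℕ) (V : Type) [Fintype V] (t : V) (L : List (NNet (PS V)))
    (hL : (L.map NNet.size).sum ≤ 2 ^ ℓ)
    (hT : ∀ v : PS V → Prop, evalNot L [] v ↔ Solv v t) :
    Fintype.card V ≤ 36 * (6 * ℓ ^ 2 + 6 * ℓ + 13) ^ 6 * 2 ^ (L.length - 1) := by
  cases L with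
  | nil =>
    exfalso
    have := (hT (fun _ => True)).2 (Solv.ax t trivial)
    exact this
  | cons N L =>
    obtain ⟨A, hA⟩ : ∃ A, A = 36 * (6 * ℓ ^ 2 + 6 * ℓ + 13) ^ 6 := ⟨_, rfl⟩
    obtain ⟨M, hM⟩ : ∃ M, M = (Fintype.card V - 1) / A := ⟨_, rfl⟩
    have hpos : 0 < A := by rw [hA]; positivity
    have hV : 1 ≤ Fintype.card V := Fintype.card_pos_iff.2 ⟨t⟩
    have h1 : M * A ≤ Fintype.card V - 1 := by rw [hM]; exact Nat.div_mul_le_self _ _
    have h2 : Fintype.card V - 1 < (M + 1) * A := by
      rw [hM]
      have := Nat.lt_mul_div_succ (Fintype.card V - 1) hpos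
      rw [mul_comm]; exact this
    obtain ⟨H, -, hH⟩ := host_bound ℓ (6 * ℓ ^ 2 + 6 * ℓ + 12) M le_rfl V t (by
      have : 36 * M * (6 * ℓ ^ 2 + 6 * ℓ + 12 + 1) ^ 6 = M * A := by rw [hA]; ring
      omega)
    have h3 := hH (toTree N L []) (by
      refine (toTree_load L N []).trans ?_
      simpa using hL) (fun v _ => by rw [toTree_eval]; exact hT v)
    have h4 := h3.trans (toTree_cost L N [])
    rw [← hA]
    have h5 : (M + 1) * A ≤ 2 ^ L.length * A := Nat.mul_le_mul_right _ h4
    have h6 : (N :: L).length - 1 = L.length := by simp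
    rw [h6, mul_comm]
    omega

end H534R2.Gen
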