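import Mathlib

/-!
# Definitions: directed switching networks, path systems, monotone circuits
-/

namespace H534R2.Gen

open Relation

/-- A monotone directed switching network on the variables `X`: nodes `Fin size`, unlabelled
edges `link a b`, and edges `wire a b x` from `a` to `b` labelled by the variable `x`. -/
structure DNet (X : Type) where
  size : ℕ
  start : Fin size
  acc : Fin size
  link : Fin size → Fin size → Prop
  wire : Fin size → Fin size → X → Prop

/-- an edge from `a` to `b` is present under the assignment `v` -/
def DNet.Pass {X : Type} (N : DNet X) (v : X → Prop) (a b : Fin N.size) : Prop :=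
  N.link a b ∨ ∃ x, N.wire a b x ∧ v x

/-- the network accepts `v`: there is a directed path from the start to the accepting node -/
def DNet.Accepts {X : Type} (N : DNet X) (v : X → Prop) : Prop :=
  ReflTransGen (N.Pass v) N.start N.acc

/-- A path system on `V` is a set of axioms `ax x` and rules `rl x y z` (from `x` and `y` derive `z`);
it is given by a truth assignment to this type of variables. -/
inductive PS (V : Type) : Type
  | ax (x : V) : PS V
  | rl (x y z : V) : PS V

/-- derivable (solvable) elements of the path system `v` -/
inductive Solv {V : Type} (v : PS V → Prop) : V → Prop
  | ax (x : V) : v (.ax x) → Solv v x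
  | rl (x y z : V) : v (.rl x y z) → Solv v x → Solv v y → Solv v z

/-- Monotone Boolean circuits over the variables `X`, as the lists of the functions
computed at their gates: every gate is a constant, a variable, or the conjunction or disjunction of
two earlier gates. -/
inductive MC {X : Type} : List ((X → Prop) → Prop) → Prop
  | nil : MC []
  | cst (p : Prop) (L : List ((X → Prop) → Prop)) : MC L → MC ((fun _ => p) :: L)
  | var (x : X) (L : List ((X → Prop) → Prop)) : MC L → MC ((fun v => v x) :: L)
  | and (f g : (X → Prop) → Prop) (L : List ((X → Prop) → Prop)) : f ∈ L → g ∈ L → MC L →
      MC ((fun v => f v ∧ g v) :: L)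
  | or (f g : (X → Prop) → Prop) (L : List ((X → Prop) → Prop)) : f ∈ L → g ∈ L → MC L →
      MC ((fun v => f v ∨ g v) :: L)

end H534R2.Gen
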