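import Pool.Agent.H534R2.FODefs

/-!
# First-order logic with symmetric transitive closure, `FO(STC)`

Formulas over the vocabulary with one binary relation symbol (the arc relation of a digraph),
without order.  By theorems of Immerman and Reingold every `FO(STC)`-definable query is
computable in deterministic logarithmic space.
-/

namespace Pool.Agent.H534R2

/-- lifting a renaming of variables under one binder -/
def liftR {n m : ℕ} (f : Fin n → Fin m) : Fin (n + 1) → Fin (m + 1) :=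
  Fin.cons 0 (fun i => (f i).succ)

theorem cons_comp_liftR {V : Type} {n m : ℕ} (f : Fin n → Fin m) (a : V) (ν : Fin m → V) :
    (Fin.cons a ν : Fin (m + 1) → V) ∘ liftR f = Fin.cons a (ν ∘ f) := by
  funext i
  refine Fin.cases ?_ (fun j => ?_) i
  · simp [liftR]
  · simp [liftR]

/-- renaming of free variables -/
def Fm.rename : {n m : ℕ} → (Fin n → Fin m) → Fm n → Fm m
  | _, _, f, .eq i j => .eq (f i) (f j)
  | _, _, f, .edge i j => .edge (f i) (f j)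
  | _, _, f, .neg φ => .neg (φ.rename f)
  | _, _, f, .and φ ψ => .and (φ.rename f) (ψ.rename f)
  | _, _, f, .ex φ => .ex (φ.rename (liftR f))
  | _, _, f, .stc φ i j => .stc (φ.rename (liftR (liftR f))) (f i) (f j)

theorem Fm.holds_rename {V : Type} (E : V → V → Prop) {n : ℕ} (φ : Fm n) :
    ∀ {m : ℕ} (f : Fin n → Fin m) (ν : Fin m → V),
      (φ.rename f).Holds E ν ↔ φ.Holds E (ν ∘ f) := by
  induction φ with
  | eq i j => intro m f ν; simp [Fm.rename, Fm.Holds]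
  | edge i j => intro m f ν; simp [Fm.rename, Fm.Holds]
  | neg φ ih => intro m f ν; simp [Fm.rename, Fm.Holds, ih]
  | and φ ψ ih1 ih2 => intro m f ν; simp [Fm.rename, Fm.Holds, ih1, ih2]
  | ex φ ih =>
      intro m f ν
      simp only [Fm.rename, Fm.Holds, ih, cons_comp_liftR]
  | stc φ i j ih =>
      intro m f ν
      simp only [Fm.rename, Fm.Holds, ih, cons_comp_liftR]
      rfl

/-- An `n`-ary query on digraphs. -/
abbrev Qry (n : ℕ) := ∀ (V : Type), (V → V → Prop) → (Fin n → V) → Prop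

/-- The query is defined, on all digraphs, by a formula of `FO(STC)`. -/
def Dfn {n : ℕ} (Q : Qry n) : Prop :=
  ∃ φ : Fm n, ∀ (V : Type) (E : V → V → Prop) (ν : Fin n → V), φ.Holds E ν ↔ Q V E ν

theorem Dfn.congr {n : ℕ} {Q Q' : Qry n} (h : Dfn Q)
    (hh : ∀ V E ν, Q V E ν ↔ Q' V E ν) : Dfn Q' := by
  obtain ⟨φ, hφ⟩ := h
  exact ⟨φ, fun V E ν => (hφ V E ν).trans (hh V E ν)⟩

theorem Dfn.eq {n : ℕ} (i j : Fin n) : Dfn (fun (V : Type) (_ : V → V → Prop) ν => ν i = ν j) :=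
  ⟨.eq i j, fun _ _ _ => Iff.rfl⟩

theorem Dfn.edge {n : ℕ} (i j : Fin n) :
    Dfn (fun (V : Type) (E : V → V → Prop) ν => E (ν i) (ν j)) :=
  ⟨.edge i j, fun _ _ _ => Iff.rfl⟩

theorem Dfn.neg {n : ℕ} {Q : Qry n} (h : Dfn Q) : Dfn (fun V E ν => ¬ Q V E ν) := by
  obtain ⟨φ, hφ⟩ := h
  exact ⟨.neg φ, fun V E ν => by simp [Fm.Holds, hφ]⟩

theorem Dfn.and {n : ℕ} {Q Q' : Qry n} (h : Dfn Q) (h' : Dfn Q') :
    Dfn (fun V E ν => Q V E ν ∧ Q' V E ν) := by
  obtain ⟨φ, hφ⟩ := h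
  obtain ⟨ψ, hψ⟩ := h'
  exact ⟨.and φ ψ, fun V E ν => by simp [Fm.Holds, hφ, hψ]⟩

theorem Dfn.or {n : ℕ} {Q Q' : Qry n} (h : Dfn Q) (h' : Dfn Q') :
    Dfn (fun V E ν => Q V E ν ∨ Q' V E ν) :=
  ((h.neg.and h'.neg).neg).congr (fun V E ν => by tauto)

theorem Dfn.imp {n : ℕ} {Q Q' : Qry n} (h : Dfn Q) (h' : Dfn Q') :
    Dfn (fun V E ν => Q V E ν → Q' V E ν) :=
  ((h.and h'.neg).neg).congr (fun V E ν => by tauto)

theorem Dfn.ex {n : ℕ} {Q : Qry (n + 1)} (h : Dfn Q) :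
    Dfn (fun V E ν => ∃ a : V, Q V E (Fin.cons a ν)) := by
  obtain ⟨φ, hφ⟩ := h
  exact ⟨.ex φ, fun V E ν => by simp [Fm.Holds, hφ]⟩

theorem Dfn.all {n : ℕ} {Q : Qry (n + 1)} (h : Dfn Q) :
    Dfn (fun V E ν => ∀ a : V, Q V E (Fin.cons a ν)) :=
  (h.neg.ex.neg).congr (fun V E ν => by push Not; rfl)

theorem Dfn.stc {n : ℕ} {Q : Qry (n + 2)} (h : Dfn Q) (i j : Fin n) :
    Dfn (fun V E ν =>
      Relation.EqvGen (fun a b : V => Q V E (Fin.cons a (Fin.cons b ν))) (ν i) (ν j)) := by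
  obtain ⟨φ, hφ⟩ := h
  refine ⟨.stc φ i j, fun V E ν => ?_⟩
  simp only [Fm.Holds, hφ]

theorem Dfn.ren {n m : ℕ} {Q : Qry n} (h : Dfn Q) (f : Fin n → Fin m) :
    Dfn (fun V E ν => Q V E (ν ∘ f)) := by
  obtain ⟨φ, hφ⟩ := h
  exact ⟨φ.rename f, fun V E ν => by rw [Fm.holds_rename, hφ]⟩

/-- A binary query. -/
abbrev BQry := ∀ (V : Type), (V → V → Prop) → V → V → Prop

/-- definability of binary queries -/
def Dfn2 (R : BQry) : Prop := Dfn (n := 2) (fun V E ν => R V E (ν 0) (ν 1))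

/-- using a definable binary query on two variables of a context -/
theorem Dfn2.at {R : BQry} (h : Dfn2 R) {n : ℕ} (i j : Fin n) :
    Dfn (fun V E ν => R V E (ν i) (ν j)) := by
  have := Dfn.ren h (m := n) ![i, j]
  exact this.congr (fun V E ν => by simp)

theorem Dfn2.congr {R R' : BQry} (h : Dfn2 R) (hh : ∀ V E a b, R V E a b ↔ R' V E a b) :
    Dfn2 R' := Dfn.congr h (fun V E ν => hh V E _ _)

theorem Dfn2.eq : Dfn2 (fun V _ a b => a = b) := Dfn.eq 0 1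

theorem Dfn2.edge : Dfn2 (fun V E a b => E a b) := Dfn.edge 0 1

theorem Dfn2.swap {R : BQry} (h : Dfn2 R) : Dfn2 (fun V E a b => R V E b a) := h.at 1 0

theorem Dfn2.and {R R' : BQry} (h : Dfn2 R) (h' : Dfn2 R') :
    Dfn2 (fun V E a b => R V E a b ∧ R' V E a b) := Dfn.and h h'

theorem Dfn2.or {R R' : BQry} (h : Dfn2 R) (h' : Dfn2 R') :
    Dfn2 (fun V E a b => R V E a b ∨ R' V E a b) := Dfn.or h h'

theorem Dfn2.neg {R : BQry} (h : Dfn2 R) : Dfn2 (fun V E a b => ¬ R V E a b) := Dfn.neg h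

theorem Dfn2.comp {R R' : BQry} (h : Dfn2 R) (h' : Dfn2 R') :
    Dfn2 (fun V E a b => ∃ c, R V E a c ∧ R' V E c b) := by
  have h1 : Dfn (n := 3) (fun V E ν => R V E (ν 1) (ν 0) ∧ R' V E (ν 0) (ν 2)) :=
    (h.at 1 0).and (h'.at 0 2)
  exact h1.ex.congr (fun V E ν => Iff.rfl)

theorem Dfn2.stc {R : BQry} (h : Dfn2 R) :
    Dfn2 (fun V E a b => Relation.EqvGen (R V E) a b) := by
  have h1 : Dfn (n := 4) (fun V E ν => R V E (ν 0) (ν 1)) := h.at 0 1
  exact (h1.stc 0 1).congr (fun V E ν => Iff.rfl)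

end Pool.Agent.H534R2
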