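import Mathlib
import Pool.Agent.H534R2.FOSTC

namespace Pool.Agent.H534R2

open Relation

section core

variable {V : Type}

/-- At most `j` arcs, with free moves along `S` before, between and after them. -/
def Tle (E S : V → V → Prop) : ℕ → V → V → Prop
  | 0 => S
  | j + 1 => fun a b => Tle E S j a b ∨ ∃ c d, Tle E S j a c ∧ E c d ∧ S d b

/-- One round: merge the ends of each arc that can be closed by a return of at most `C` arcs. -/
def nxt (C : ℕ) (E S : V → V → Prop) : V → V → Prop :=
  EqvGen (fun a b => S a b ∨ (E a b ∧ Tle E S C b a))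

/-- The equivalence relation after `r` rounds. -/
def rnd (C : ℕ) (E : V → V → Prop) : ℕ → V → V → Prop
  | 0 => Eq
  | r + 1 => nxt C E (rnd C E r)

theorem rnd_equiv (C : ℕ) (E : V → V → Prop) (r : ℕ) : Equivalence (rnd C E r) := by
  cases r with
  | zero => exact eq_equivalence
  | succ r => exact EqvGen.is_equivalence _

theorem rnd_step (C : ℕ) (E : V → V → Prop) (r : ℕ) {a b : V} (h : rnd C E r a b) :
    rnd C E (r + 1) a b := EqvGen.rel _ _ (Or.inl h)

theorem rnd_mono_r (C : ℕ) (E : V → V → Prop) {r s : ℕ} (hrs : r ≤ s) {a b : V}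
    (h : rnd C E r a b) : rnd C E s a b := by
  induction hrs with
  | refl => exact h
  | step _ ih => exact rnd_step C E _ ih

theorem rnd_arc (C : ℕ) (E : V → V → Prop) (r : ℕ) {a b : V} (h : E a b)
    (h' : Tle E (rnd C E r) C b a) : rnd C E (r + 1) a b := EqvGen.rel _ _ (Or.inr ⟨h, h'⟩)

theorem Tle_succ {E S : V → V → Prop} {j : ℕ} {a b : V} (h : Tle E S j a b) :
    Tle E S (j + 1) a b := Or.inl h

theorem Tle_mono_n {E S : V → V → Prop} {j k : ℕ} (hjk : j ≤ k) {a b : V} (h : Tle E S j a b) :
    Tle E S k a b := by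
  induction hjk with
  | refl => exact h
  | step _ ih => exact Tle_succ ih

theorem Tle_mono {E E' S S' : V → V → Prop} (hE : ∀ a b, E a b → E' a b)
    (hS : ∀ a b, S a b → S' a b) (j : ℕ) : ∀ a b : V, Tle E S j a b → Tle E' S' j a b := by
  induction j with
  | zero => exact hS
  | succ j ih =>
      rintro a b (h | ⟨c, d, h1, h2, h3⟩)
      · exact Or.inl (ih _ _ h)
      · exact Or.inr ⟨c, d, ih _ _ h1, hE _ _ h2, hS _ _ h3⟩

theorem rnd_mono_E (C : ℕ) {E E' : V → V → Prop} (hE : ∀ a b, E a b → E' a b) (r : ℕ) :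
    ∀ a b : V, rnd C E r a b → rnd C E' r a b := by
  induction r with
  | zero => exact fun a b h => h
  | succ r ih =>
      intro a b h
      refine EqvGen.mono ?_ a b h
      rintro a b (h | ⟨h1, h2⟩)
      · exact Or.inl (ih _ _ h)
      · exact Or.inr ⟨hE _ _ h1, Tle_mono hE ih C _ _ h2⟩

theorem Tle_right {E S : V → V → Prop} (hS : Equivalence S) {j : ℕ} {a b c : V}
    (h : Tle E S j a b) (h' : S b c) : Tle E S j a c := by
  induction j generalizing b c with
  | zero => exact hS.trans h h'
  | succ j ih =>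
      rcases h with h | ⟨x, y, h1, h2, h3⟩
      · exact Or.inl (ih h h')
      · exact Or.inr ⟨x, y, h1, h2, hS.trans h3 h'⟩

theorem Tle_refl {E S : V → V → Prop} (hS : Equivalence S) (j : ℕ) (a : V) : Tle E S j a a :=
  Tle_mono_n (Nat.zero_le j) (hS.refl a)

/-- concatenation of two itineraries joined by an arc -/
theorem Tle_join {E S : V → V → Prop} (hS : Equivalence S) {m n : ℕ} {a b c d : V}
    (h : Tle E S m a b) (hbc : E b c) (h' : Tle E S n c d) : Tle E S (m + 1 + n) a d := by
  induction n generalizing d with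
  | zero => exact Or.inr ⟨b, c, h, hbc, h'⟩
  | succ n ih =>
      rcases h' with h' | ⟨x, y, h1, h2, h3⟩
      · exact Or.inl (ih h')
      · exact Or.inr ⟨x, y, ih h1, h2, h3⟩

/-- soundness -/
theorem Tle_sound {E S : V → V → Prop} (hS : ∀ a b, S a b → ReflTransGen E a b) (j : ℕ) :
    ∀ a b : V, Tle E S j a b → ReflTransGen E a b := by
  induction j with
  | zero => exact hS
  | succ j ih =>
      rintro a b (h | ⟨c, d, h1, h2, h3⟩)
      · exact ih _ _ h
      · exact ((ih _ _ h1).tail h2).trans (hS _ _ h3)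

theorem rnd_sound (C : ℕ) (E : V → V → Prop) (r : ℕ) :
    ∀ a b : V, rnd C E r a b → ReflTransGen E a b ∧ ReflTransGen E b a := by
  induction r with
  | zero => rintro a b rfl; exact ⟨.refl, .refl⟩
  | succ r ih =>
      intro a b h
      induction h with
      | rel a b h =>
          rcases h with h | ⟨h1, h2⟩
          · exact ih _ _ h
          · exact ⟨.single h1, Tle_sound (fun a b h => (ih a b h).1) C _ _ h2⟩
      | refl a => exact ⟨.refl, .refl⟩
      | symm a b _ ih' => exact ih'.symm
      | trans a b c _ _ h1 h2 => exact ⟨h1.1.trans h2.1, h2.2.trans h1.2⟩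

/-- A geodesic: a walk without shortcuts and without repetitions. -/
structure Geo (E : V → V → Prop) (p : ℕ → V) (l : ℕ) : Prop where
  arc : ∀ i, i < l → E (p i) (p (i + 1))
  noshort : ∀ i j, i + 1 < j → j ≤ l → ¬ E (p i) (p j)
  inj : ∀ i j, i < j → j ≤ l → p i ≠ p j

theorem Geo.shift {E : V → V → Prop} {p : ℕ → V} {l : ℕ} (h : Geo E p l) (a m : ℕ)
    (ham : a + m ≤ l) : Geo E (fun k => p (a + k)) m where
  arc i hi := h.arc (a + i) (by omega)
  noshort i j hij hj := h.noshort (a + i) (a + j) (by omega) (by omega)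
  inj i j hij hj := h.inj (a + i) (a + j) (by omega) (by omega)

/-- distance-minimal walks are geodesics -/
theorem exists_geo {E : V → V → Prop} {s d : V} (h : ReflTransGen E s d) :
    ∃ (p : ℕ → V) (l : ℕ), Geo E p l ∧ p 0 = s ∧ p l = d := by
  classical
  -- walks of length l
  have hex : ∃ l : ℕ, ∃ p : ℕ → V, p 0 = s ∧ p l = d ∧ ∀ i, i < l → E (p i) (p (i + 1)) := by
    induction h with
    | refl => exact ⟨0, fun _ => s, rfl, rfl, fun i hi => absurd hi (Nat.not_lt_zero i)⟩
    | @tail b c _ hbc ih =>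
        obtain ⟨l, p, h0, hl, hp⟩ := ih
        refine ⟨l + 1, fun i => if i ≤ l then p i else c, by simp [h0], by simp, ?_⟩
        intro i hi
        rcases Nat.lt_or_ge i l with h | h
        · have h1 : i ≤ l := h.le
          have h2 : i + 1 ≤ l := h
          simp only [h1, h2, if_true]
          exact hp i h
        · have h1 : i = l := by omega
          subst h1
          simp [hl, hbc]
  let l := Nat.find hex
  obtain ⟨p, h0, hl, hp⟩ := Nat.find_spec hex
  have hmin : ∀ m, m < l → ¬ ∃ p : ℕ → V, p 0 = s ∧ p m = d ∧ ∀ i, i < m → E (p i) (p (i + 1)) :=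
    fun m hm => Nat.find_min hex hm
  refine ⟨p, l, ⟨hp, ?_, ?_⟩, h0, hl⟩
  · intro i j hij hjl hE
    -- skip from i to j
    refine hmin (l - (j - (i + 1))) (by omega)
      ⟨fun k => if k ≤ i then p k else p (k + (j - (i + 1))), by simp [h0], ?_, ?_⟩
    · have : ¬ (l - (j - (i + 1)) ≤ i) := by omega
      simp only [this, if_false]
      rw [show l - (j - (i + 1)) + (j - (i + 1)) = l by omega]
      exact hl
    · intro k hk
      rcases Nat.lt_trichotomy k i with h | h | h
      · have h1 : k ≤ i := h.le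
        have h2 : k + 1 ≤ i := h
        simp only [h1, h2, if_true]
        exact hp k (by omega)
      · subst h
        have h2 : ¬ (k + 1 ≤ k) := by omega
        simp only [le_refl, if_true, h2, if_false]
        rw [show k + 1 + (j - (k + 1)) = j by omega]
        exact hE
      · have h1 : ¬ (k ≤ i) := by omega
        have h2 : ¬ (k + 1 ≤ i) := by omega
        simp only [h1, h2, if_false]
        rw [show k + 1 + (j - (i + 1)) = k + (j - (i + 1)) + 1 by omega]
        exact hp _ (by omega)
  · intro i j hij hjl heq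
    refine hmin (l - (j - i)) (by omega)
      ⟨fun k => if k ≤ i then p k else p (k + (j - i)), by simp [h0], ?_, ?_⟩
    · by_cases h : l - (j - i) ≤ i
      · simp only [h, if_true]
        have h3 : l - (j - i) = i := by omega
        have h4 : l = j := by omega
        rw [h3, heq, ← h4]; exact hl
      · simp only [h, if_false]
        rw [show l - (j - i) + (j - i) = l by omega]
        exact hl
    · intro k hk
      rcases Nat.lt_trichotomy k i with h | h | h
      · have h1 : k ≤ i := h.le
        have h2 : k + 1 ≤ i := h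
        simp only [h1, h2, if_true]
        exact hp k (by omega)
      · subst h
        have h2 : ¬ (k + 1 ≤ k) := by omega
        simp only [le_refl, if_true, h2, if_false]
        rw [heq, show k + 1 + (j - k) = j + 1 by omega]
        exact hp _ (by omega)
      · have h1 : ¬ (k ≤ i) := by omega
        have h2 : ¬ (k + 1 ≤ i) := by omega
        simp only [h1, h2, if_false]
        rw [show k + 1 + (j - i) = k + (j - i) + 1 by omega]
        exact hp _ (by omega)

open Classical in
/-- the number of unmerged steps in `[a, b)` -/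
noncomputable def cnt (S : V → V → Prop) (p : ℕ → V) (a b : ℕ) : ℕ :=
  ((Finset.Ico a b).filter (fun i => ¬ S (p i) (p (i + 1)))).card

theorem cnt_le_of_subset (S : V → V → Prop) (p : ℕ → V) {a b a' b' : ℕ} (h : a' ≤ a)
    (h' : b ≤ b') : cnt S p a b ≤ cnt S p a' b' := by
  classical
  unfold cnt
  apply Finset.card_le_card
  apply Finset.filter_subset_filter
  exact Finset.Ico_subset_Ico h h'

theorem cnt_add (S : V → V → Prop) (p : ℕ → V) {a b c : ℕ} (h : a ≤ b) (h' : b ≤ c) :
    cnt S p a c = cnt S p a b + cnt S p b c := by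
  classical
  unfold cnt
  rw [← Finset.card_union_of_disjoint, ← Finset.filter_union, Finset.Ico_union_Ico_eq_Ico h h']
  apply Finset.disjoint_filter_filter
  exact Finset.Ico_disjoint_Ico_consecutive a b c

theorem cnt_le_len (S : V → V → Prop) (p : ℕ → V) (a b : ℕ) : cnt S p a b ≤ b - a := by
  classical
  unfold cnt
  calc _ ≤ (Finset.Ico a b).card := Finset.card_filter_le _ _
    _ = b - a := by simp

theorem cnt_zero_of (S : V → V → Prop) (p : ℕ → V) {a b : ℕ}
    (h : ∀ i, a ≤ i → i < b → S (p i) (p (i + 1))) : cnt S p a b = 0 := by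
  classical
  unfold cnt
  rw [Finset.card_eq_zero, Finset.filter_eq_empty_iff]
  intro i hi
  rw [Finset.mem_Ico] at hi
  simpa using h i hi.1 hi.2

/-- travelling along a walk costs the number of unmerged steps -/
theorem Tle_path {E S : V → V → Prop} (hS : Equivalence S) {p : ℕ → V} {a b : ℕ} (hab : a ≤ b)
    (hp : ∀ i, a ≤ i → i < b → E (p i) (p (i + 1))) : Tle E S (cnt S p a b) (p a) (p b) := by
  classical
  induction b, hab using Nat.le_induction with
  | base => exact Tle_refl hS _ _
  | succ b hab ih =>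
      have ih' := ih (fun i h1 h2 => hp i h1 (by omega))
      rw [cnt_add S p hab (Nat.le_succ b)]
      by_cases hm : S (p b) (p (b + 1))
      · exact Tle_mono_n (Nat.le_add_right _ _) (Tle_right hS ih' hm)
      · have h1 : cnt S p b (b + 1) = 1 := by
          unfold cnt
          rw [Finset.card_eq_one]
          refine ⟨b, ?_⟩
          ext i
          simp only [Finset.mem_filter, Finset.mem_Ico, Finset.mem_singleton]
          constructor
          · rintro ⟨⟨h1, h2⟩, _⟩; omega
          · rintro rfl; exact ⟨⟨le_refl _, by omega⟩, hm⟩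
        rw [h1]
        exact Or.inr ⟨p b, p (b + 1), ih', hp b hab (by omega), hS.refl _⟩

/-- an unmerged step is not covered by a cheap backward chord -/
theorem no_cheap_chord {C : ℕ} {E : V → V → Prop} {r : ℕ} {p : ℕ → V} {l : ℕ} (hp : Geo E p l)
    {i a b : ℕ} (hi : ¬ rnd C E (r + 1) (p i) (p (i + 1))) (hai : a ≤ i) (hib : i + 1 ≤ b)
    (hbl : b ≤ l)
    (hC : cnt (rnd C E r) p (i + 1) b + 1 + cnt (rnd C E r) p a i ≤ C) : ¬ E (p b) (p a) := by
  intro hE
  apply hi
  apply rnd_arc C E r (hp.arc i (by omega))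
  apply Tle_mono_n hC
  refine Tle_join (rnd_equiv C E r) (Tle_path (rnd_equiv C E r) hib ?_) hE
    (Tle_path (rnd_equiv C E r) hai ?_)
  · exact fun k _ hk => hp.arc k (by omega)
  · exact fun k _ hk => hp.arc k (by omega)

/-- an interior step that is unmerged after the first round gives an induced `P4` -/
theorem p4_of_unmerged {C : ℕ} (hC : 3 ≤ C) {E : V → V → Prop} {p : ℕ → V} {l : ℕ}
    (hp : Geo E p l) {i : ℕ} (hi : ¬ rnd C E 1 (p (i + 1)) (p (i + 2))) (hil : i + 3 ≤ l)
    (x y : Fin 4) :
    (under E).Adj (p (i + x.val)) (p (i + y.val)) ↔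
      (x.val + 1 = y.val ∨ y.val + 1 = x.val) := by
  have key : ∀ a b : ℕ, a < b → b < 4 → ((under E).Adj (p (i + a)) (p (i + b)) ↔ a + 1 = b) := by
    intro a b hab hb
    have hne : p (i + a) ≠ p (i + b) := hp.inj _ _ (by omega) (by omega)
    rw [SimpleGraph.fromRel_adj]
    constructor
    · rintro ⟨_, h | h⟩
      · by_contra hcon
        exact hp.noshort (i + a) (i + b) (by omega) (by omega) h
      · by_contra hcon
        -- chord covers the step i+1
        refine no_cheap_chord (C := C) (r := 0) hp (i := i + 1) (a := i + a) (b := i + b) hi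
          (by omega) (by omega) (by omega) ?_ h
        have h1 := cnt_le_len (rnd C E 0) p (i + 1 + 1) (i + b)
        have h2 := cnt_le_len (rnd C E 0) p (i + a) (i + 1)
        omega
    · intro h
      refine ⟨hne, Or.inl ?_⟩
      have := hp.arc (i + a) (by omega)
      rwa [show i + a + 1 = i + b by omega] at this
  rcases Nat.lt_trichotomy x.val y.val with h | h | h
  · rw [key _ _ h y.2]; omega
  · have : x = y := Fin.ext h
    subst this
    constructor
    · intro h'; exact absurd h' (SimpleGraph.irrefl _)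
    · intro h'; omega
  · rw [SimpleGraph.adj_comm, key _ _ h x.2]; omega

/-- `t` disjoint, pairwise non-adjacent induced paths on four vertices inside `A` -/
def HasP (E : V → V → Prop) (A : Set V) (t : ℕ) : Prop :=
  ∃ f : Fin t × Fin 4 → V, Function.Injective f ∧ (∀ x, f x ∈ A) ∧
    ∀ x y, (under E).Adj (f x) (f y) ↔ (tP4 t).Adj x y

theorem HasP.embed {E : V → V → Prop} {A : Set V} {t : ℕ} (h : HasP E A t) :
    Nonempty (tP4 t ↪g under E) := by
  obtain ⟨f, hf, _, hadj⟩ := h
  exact ⟨⟨⟨f, hf⟩, fun {x y} => hadj x y⟩⟩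

/-- passing from the restriction of the digraph to `A` back to the digraph -/
theorem HasP.of_restrict {E : V → V → Prop} {A B : Set V} {t : ℕ}
    (h : HasP (fun a b => E a b ∧ a ∈ A ∧ b ∈ A) B t) : HasP E A t := by
  obtain ⟨f, hf, _, hadj⟩ := h
  have hmem : ∀ x, f x ∈ A := by
    rintro ⟨m, i⟩
    -- every vertex of P4 has a neighbour
    have : ∃ y, (tP4 t).Adj (m, i) y := by
      by_cases hi : i.val = 3
      · exact ⟨(m, ⟨2, by norm_num⟩), rfl, Or.inr (by simp [hi])⟩
      · exact ⟨(m, ⟨i.val + 1, by omega⟩), rfl, Or.inl rfl⟩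
    obtain ⟨y, hy⟩ := this
    have := (hadj _ _).2 hy
    rw [SimpleGraph.fromRel_adj] at this
    rcases this.2 with h | h
    · exact h.2.1
    · exact h.2.2
  refine ⟨f, hf, hmem, fun x y => ?_⟩
  rw [← hadj, SimpleGraph.fromRel_adj, SimpleGraph.fromRel_adj]
  have := hmem x
  have := hmem y
  tauto

/-- adding one more `P4` -/
theorem HasP.add {E : V → V → Prop} {A B : Set V} {t : ℕ} (h : HasP E A t) (q : Fin 4 → V)
    (hq : Function.Injective q) (hqB : ∀ x, q x ∈ B)
    (hqa : ∀ x y, (under E).Adj (q x) (q y) ↔ (x.val + 1 = y.val ∨ y.val + 1 = x.val))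
    (hAB : ∀ a ∈ A, ∀ b ∈ B, a ≠ b ∧ ¬ (under E).Adj a b) : HasP E Set.univ (t + 1) := by
  obtain ⟨f, hf, hfA, hadj⟩ := h
  refine ⟨fun x => if h : x.1.val < t then f (⟨x.1.val, h⟩, x.2) else q x.2, ?_,
    fun _ => Set.mem_univ _, ?_⟩
  · rintro ⟨m, i⟩ ⟨m', i'⟩ heq
    simp only at heq
    by_cases h1 : m.val < t <;> by_cases h2 : m'.val < t
    · simp only [h1, h2, dif_pos] at heq
      have := hf heq
      simp only [Prod.mk.injEq, Fin.mk.injEq] at this
      exact Prod.ext (Fin.ext this.1) this.2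
    · simp only [h1, h2, dif_pos, dif_neg, not_false_eq_true] at heq
      exact absurd heq (hAB _ (hfA _) _ (hqB _)).1
    · simp only [h1, h2, dif_pos, dif_neg, not_false_eq_true] at heq
      exact absurd heq.symm (hAB _ (hfA _) _ (hqB _)).1
    · simp only [h1, h2, dif_neg, not_false_eq_true] at heq
      exact Prod.ext (Fin.ext (by simp only; omega)) (hq heq)
  · rintro ⟨m, i⟩ ⟨m', i'⟩
    simp only [tP4]
    by_cases h1 : m.val < t <;> by_cases h2 : m'.val < t
    · simp only [h1, h2, dif_pos]
      rw [hadj]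
      simp only [tP4, Fin.mk.injEq, Fin.ext_iff]
    · simp only [h1, h2, dif_pos, dif_neg, not_false_eq_true]
      have := (hAB _ (hfA (⟨m.val, h1⟩, i)) _ (hqB i')).2
      constructor
      · intro h; exact absurd h this
      · rintro ⟨h, _⟩; exact absurd (h ▸ h1) h2
    · simp only [h1, h2, dif_pos, dif_neg, not_false_eq_true]
      have := (hAB _ (hfA (⟨m'.val, h2⟩, i')) _ (hqB i)).2
      constructor
      · intro h; exact absurd h.symm this
      · rintro ⟨h, _⟩; exact absurd (h ▸ h2) h1
    · simp only [h1, h2, dif_neg, not_false_eq_true]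
      rw [hqa]
      have : m = m' := Fin.ext (by omega)
      simp [this]

theorem cnt_anti {S S' : V → V → Prop} (h : ∀ a b, S a b → S' a b) (p : ℕ → V) (a b : ℕ) :
    cnt S' p a b ≤ cnt S p a b := by
  classical
  unfold cnt
  apply Finset.card_le_card
  intro i hi
  rw [Finset.mem_filter] at hi ⊢
  exact ⟨hi.1, fun h' => hi.2 (h _ _ h')⟩

theorem cnt_shift (S : V → V → Prop) (p : ℕ → V) (a m : ℕ) :
    cnt S (fun k => p (a + k)) 0 m = cnt S p a (a + m) := by
  classical
  unfold cnt
  apply Finset.card_bij (fun i _ => a + i)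
  · intro i hi
    rw [Finset.mem_filter, Finset.mem_Ico] at hi ⊢
    exact ⟨by omega, hi.2⟩
  · intro i _ j _ h; omega
  · intro j hj
    rw [Finset.mem_filter, Finset.mem_Ico] at hj
    refine ⟨j - a, ?_, by omega⟩
    rw [Finset.mem_filter, Finset.mem_Ico]
    refine ⟨by omega, ?_⟩
    have h1 : a + (j - a) = j := by omega
    have h2 : a + (j - a + 1) = j + 1 := by omega
    simp only [h1, h2]
    exact hj.2

theorem claim_base {C : ℕ} (hC : 3 ≤ C) {E : V → V → Prop} {p : ℕ → V} {l : ℕ}
    (hp : Geo E p l) (hno : ¬ HasP E Set.univ 1) : cnt (rnd C E 1) p 0 l ≤ 6 := by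
  classical
  have hmid : ∀ i, 1 ≤ i → i + 2 ≤ l → rnd C E 1 (p i) (p (i + 1)) := by
    intro i h1 h2
    by_contra hcon
    apply hno
    have h0 : i - 1 + 1 = i := by omega
    have h0' : i - 1 + 2 = i + 1 := by omega
    have key := p4_of_unmerged hC hp (i := i - 1) (by rw [h0, h0']; exact hcon) (by omega)
    refine ⟨fun x => p (i - 1 + x.2.val), ?_, fun _ => Set.mem_univ _, ?_⟩
    · rintro ⟨m, x⟩ ⟨m', y⟩ h
      simp only at h
      have hm : m = m' := Subsingleton.elim _ _
      subst hm
      rcases Nat.lt_trichotomy x.val y.val with h' | h' | h'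
      · exact absurd h (hp.inj _ _ (by omega) (by omega))
      · rw [Fin.ext h']
      · exact absurd h.symm (hp.inj _ _ (by omega) (by omega))
    · rintro ⟨m, x⟩ ⟨m', y⟩
      have hm : m = m' := Subsingleton.elim _ _
      subst hm
      rw [key]
      simp [tP4]
  have hsub : cnt (rnd C E 1) p 0 l ≤ ({0, l - 1} : Finset ℕ).card := by
    unfold cnt
    apply Finset.card_le_card
    intro i hi
    rw [Finset.mem_filter, Finset.mem_Ico] at hi
    simp only [Finset.mem_insert, Finset.mem_singleton]
    by_contra hcon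
    push Not at hcon
    exact hi.2 (hmid i (by omega) (by omega))
  refine hsub.trans ((Finset.card_insert_le _ _).trans ?_)
  simp

/-- the counting step of the induction -/
theorem count_step (S S' : V → V → Prop) (p : ℕ → V) (l N : ℕ) (hSS : ∀ a b, S a b → S' a b)
    (h : ∀ i, i < l → ¬ S' (p i) (p (i + 1)) →
      cnt S p 0 (i - 1) ≤ N ∨ cnt S p (i + 3) (l - 1) = 0) :
    cnt S' p 0 l ≤ N + 6 := by
  classical
  let U' := (Finset.Ico 0 l).filter (fun i => ¬ S' (p i) (p (i + 1)))
  let S1 := U'.filter (fun i => cnt S p 0 (i - 1) ≤ N)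
  let S2 := U'.filter (fun i => cnt S p (i + 3) (l - 1) = 0)
  have hU : U' ⊆ S1 ∪ S2 := by
    intro i hi
    have hi' := hi
    rw [Finset.mem_filter, Finset.mem_Ico] at hi'
    rcases h i hi'.1.2 hi'.2 with h1 | h1
    · exact Finset.mem_union_left _ (Finset.mem_filter.2 ⟨hi, h1⟩)
    · exact Finset.mem_union_right _ (Finset.mem_filter.2 ⟨hi, h1⟩)
  have hc1 : S1.card ≤ N + 2 := by
    rcases S1.eq_empty_or_nonempty with he | hne
    · rw [he]; simp
    · obtain ⟨i, hi, hmax⟩ := S1.exists_max_image id hne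
      have hi' := (Finset.mem_filter.1 hi)
      have hsub : S1 ⊆ (Finset.Ico 0 (i + 1)).filter (fun i => ¬ S (p i) (p (i + 1))) := by
        intro j hj
        have := hmax j hj
        simp only [id] at this
        rw [Finset.mem_filter, Finset.mem_Ico]
        have hj' := (Finset.mem_filter.1 (Finset.mem_filter.1 hj).1).2
        exact ⟨by omega, fun hh => hj' (hSS _ _ hh)⟩
      have h1 : S1.card ≤ cnt S p 0 (i + 1) := Finset.card_le_card hsub
      have h2 := cnt_add S p (Nat.zero_le (i - 1)) (show i - 1 ≤ i + 1 by omega)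
      have h3 := cnt_le_len S p (i - 1) (i + 1)
      have h4 := hi'.2
      omega
  have hc2 : S2.card ≤ 4 := by
    rcases S2.eq_empty_or_nonempty with he | hne
    · rw [he]; simp
    · obtain ⟨i, hi, hmin⟩ := S2.exists_min_image id hne
      have hi' := (Finset.mem_filter.1 hi)
      have hsub : S2 ⊆ (Finset.Ico i l).filter (fun i => ¬ S (p i) (p (i + 1))) := by
        intro j hj
        have := hmin j hj
        simp only [id] at this
        rw [Finset.mem_filter, Finset.mem_Ico]
        have hj' := (Finset.mem_filter.1 (Finset.mem_filter.1 hj).1)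
        have hj1 := (Finset.mem_Ico.1 hj'.1)
        exact ⟨by omega, fun hh => hj'.2 (hSS _ _ hh)⟩
      have h1 : S2.card ≤ cnt S p i l := Finset.card_le_card hsub
      have h5 := cnt_le_len S p i l
      rcases Nat.lt_or_ge (l - 1) (i + 3) with h | h
      · omega
      · have h2 := cnt_add S p (show i ≤ i + 3 by omega) (show i + 3 ≤ l by omega)
        have h3 := cnt_add S p (show i + 3 ≤ l - 1 by omega) (show l - 1 ≤ l by omega)
        have h4 := hi'.2
        have h6 := cnt_le_len S p i (i + 3)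
        have h7 := cnt_le_len S p (l - 1) l
        omega
  have : U'.card ≤ S1.card + S2.card :=
    (Finset.card_le_card hU).trans (Finset.card_union_le _ _)
  change U'.card ≤ N + 6
  omega

/-- the geometric step of the induction -/
theorem geo_step {C t : ℕ} (ht : 1 ≤ t) (hC : 6 * t + 7 ≤ C)
    (IH : ∀ (E : V → V → Prop) (p : ℕ → V) (l : ℕ), Geo E p l → ¬ HasP E Set.univ t →
      cnt (rnd C E t) p 0 l ≤ 6 * t)
    {E : V → V → Prop} {p : ℕ → V} {l : ℕ} (hp : Geo E p l) (hno : ¬ HasP E Set.univ (t + 1))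
    (i : ℕ) (hil : i < l) (hi : ¬ rnd C E (t + 1) (p i) (p (i + 1))) :
    cnt (rnd C E t) p 0 (i - 1) ≤ 6 * t ∨ cnt (rnd C E t) p (i + 3) (l - 1) = 0 := by
  classical
  by_contra hcon
  push Not at hcon
  obtain ⟨hA, hB⟩ := hcon
  apply hno
  set S := rnd C E t with hS
  -- choose the left window
  have hexa : ∃ a, cnt S p a (i - 1) ≤ 6 * t := ⟨i - 1, by
    have := cnt_le_len S p (i - 1) (i - 1); omega⟩
  obtain ⟨a0, ha0, ha1, ha2⟩ : ∃ a0, a0 < i - 1 ∧ 6 * t + 1 ≤ cnt S p a0 (i - 1) ∧
      cnt S p a0 (i - 1) ≤ 6 * t + 1 := by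
    have hspec := Nat.find_spec hexa
    have hpos : Nat.find hexa ≠ 0 := by
      intro h0
      rw [h0] at hspec
      omega
    have hmin := Nat.find_min hexa (m := Nat.find hexa - 1) (by omega)
    refine ⟨Nat.find hexa - 1, ?_, by omega, ?_⟩
    · by_contra hc
      have := cnt_le_len S p (Nat.find hexa - 1) (i - 1)
      omega
    · have hle : Nat.find hexa ≤ i - 1 := by
        apply Nat.find_min' hexa
        have := cnt_le_len S p (i - 1) (i - 1); omega
      have := cnt_add S p (show Nat.find hexa - 1 ≤ Nat.find hexa by omega) hle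
      have h2 := cnt_le_len S p (Nat.find hexa - 1) (Nat.find hexa)
      omega
  -- choose the right step
  have hexv : ∃ v, i + 3 ≤ v ∧ v < l - 1 ∧ ¬ S (p v) (p (v + 1)) := by
    by_contra hcon
    push Not at hcon
    exact hB (cnt_zero_of S p (fun v h1 h2 => hcon v h1 h2))
  obtain ⟨v, ⟨hv1, hv2, hv3⟩, hvmin⟩ : ∃ v, (i + 3 ≤ v ∧ v < l - 1 ∧ ¬ S (p v) (p (v + 1))) ∧
      ∀ w, w < v → ¬ (i + 3 ≤ w ∧ w < l - 1 ∧ ¬ S (p w) (p (w + 1))) :=
    ⟨Nat.find hexv, Nat.find_spec hexv, fun w hw => Nat.find_min hexv hw⟩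
  have hmidz : cnt S p (i + 3) v = 0 := by
    apply cnt_zero_of
    intro w h1 h2
    by_contra h3
    exact hvmin w h2 ⟨h1, by omega, h3⟩
  have hright : cnt S p (i + 1) (v + 2) ≤ 4 := by
    have h1 := cnt_add S p (show i + 1 ≤ i + 3 by omega) (show i + 3 ≤ v + 2 by omega)
    have h2 := cnt_add S p (show i + 3 ≤ v by omega) (show v ≤ v + 2 by omega)
    have h3 := cnt_le_len S p (i + 1) (i + 3)
    have h4 := cnt_le_len S p v (v + 2)
    omega
  -- the left copies
  let A : Set V := {x | ∃ a, a0 ≤ a ∧ a + 1 ≤ i ∧ x = p a}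
  let B : Set V := {x | ∃ b, v ≤ b + 1 ∧ b ≤ v + 2 ∧ x = p b}
  let E' : V → V → Prop := fun a b => E a b ∧ a ∈ A ∧ b ∈ A
  have hgeo : Geo E' (fun k => p (a0 + k)) (i - 1 - a0) := by
    have hg := hp.shift a0 (i - 1 - a0) (by omega)
    refine ⟨fun k hk => ⟨hg.arc k hk, ⟨a0 + k, by omega, by omega, rfl⟩,
      ⟨a0 + (k + 1), by omega, by omega, rfl⟩⟩, fun k m h1 h2 h3 => hg.noshort k m h1 h2 h3.1,
      hg.inj⟩
  have hA' : HasP E A t := by
    by_contra hcon
    have hno' : ¬ HasP E' Set.univ t := fun h => hcon (HasP.of_restrict h)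
    have h1 := IH E' _ _ hgeo hno'
    have h2 : cnt (rnd C E t) (fun k => p (a0 + k)) 0 (i - 1 - a0) ≤
        cnt (rnd C E' t) (fun k => p (a0 + k)) 0 (i - 1 - a0) :=
      cnt_anti (rnd_mono_E C (fun a b h => h.1) t) _ _ _
    rw [cnt_shift, show a0 + (i - 1 - a0) = i - 1 by omega, ← hS] at h2
    omega
  -- the right copy
  have hv3' : ¬ rnd C E 1 (p (v - 1 + 1)) (p (v - 1 + 2)) := by
    rw [show v - 1 + 1 = v by omega, show v - 1 + 2 = v + 1 by omega]
    exact fun h => hv3 (rnd_mono_r C E ht h)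
  have hq := p4_of_unmerged (C := C) (by omega) hp (i := v - 1) hv3' (by omega)
  refine HasP.add (B := B) hA' (fun x => p (v - 1 + x.val)) ?_ ?_ hq ?_
  · intro x y h
    simp only at h
    rcases Nat.lt_trichotomy x.val y.val with h' | h' | h'
    · exact absurd h (hp.inj _ _ (by omega) (by omega))
    · exact Fin.ext h'
    · exact absurd h.symm (hp.inj _ _ (by omega) (by omega))
  · intro x
    exact ⟨v - 1 + x.val, by omega, by omega, rfl⟩
  · rintro x ⟨a, h1, h2, rfl⟩ y ⟨b, h3, h4, rfl⟩
    refine ⟨hp.inj a b (by omega) (by omega), ?_⟩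
    rw [SimpleGraph.fromRel_adj]
    rintro ⟨_, h | h⟩
    · exact hp.noshort a b (by omega) (by omega) h
    · refine no_cheap_chord (C := C) (r := t) hp hi (a := a) (b := b) (by omega) (by omega)
        (by omega) ?_ h
      rw [← hS]
      have h5 : cnt S p (i + 1) b ≤ cnt S p (i + 1) (v + 2) :=
        cnt_le_of_subset S p (le_refl _) h4
      have h6 : cnt S p a i ≤ cnt S p a0 i := cnt_le_of_subset S p h1 (le_refl _)
      have h7 := cnt_add S p (show a0 ≤ i - 1 by omega) (show i - 1 ≤ i by omega)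
      have h8 := cnt_le_len S p (i - 1) i
      omega

theorem claim (t : ℕ) (ht : 1 ≤ t) : ∀ (C : ℕ), 6 * t + 1 ≤ C → ∀ (E : V → V → Prop)
    (p : ℕ → V) (l : ℕ), Geo E p l → ¬ HasP E Set.univ t → cnt (rnd C E t) p 0 l ≤ 6 * t := by
  induction t, ht using Nat.le_induction with
  | base => intro C hC E p l hp hno; exact claim_base (by omega) hp hno
  | succ t ht ih =>
      intro C hC E p l hp hno
      have := count_step (rnd C E t) (rnd C E (t + 1)) p l (6 * t)
        (fun a b h => rnd_step C E t h)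
        (fun i h1 h2 => geo_step ht (by omega) (ih C (by omega)) hp hno i h1 h2)
      omega

/-- For digraphs without `t` disjoint non-adjacent induced `P4`, reachability is expressed by
the `FO(STC)` query `Tle`. -/
theorem reach_iff {t : ℕ} (ht : 1 ≤ t) {E : V → V → Prop} (hno : ¬ HasP E Set.univ t)
    (s d : V) : Tle E (rnd (6 * t + 1) E t) (6 * t) s d ↔ ReflTransGen E s d := by
  constructor
  · exact Tle_sound (fun a b h => (rnd_sound _ E t a b h).1) _ s d
  · intro h
    obtain ⟨p, l, hp, h0, hl⟩ := exists_geo h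
    have h1 := claim t ht (6 * t + 1) (le_refl _) E p l hp hno
    have h2 := Tle_path (rnd_equiv (6 * t + 1) E t) (Nat.zero_le l)
      (fun i _ hi => hp.arc i hi)
    rw [h0, hl] at h2
    exact Tle_mono_n h1 h2

end core

theorem dfn_Tle {R : BQry} (hR : Dfn2 R) (j : ℕ) : Dfn2 (fun V E => Tle E (R V E) j) := by
  induction j with
  | zero => exact hR
  | succ j ih =>
      refine (ih.or (ih.comp (Dfn2.edge.comp hR))).congr (fun V E a b => ?_)
      constructor
      · rintro (h | ⟨c, h1, d, h2, h3⟩)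
        · exact Or.inl h
        · exact Or.inr ⟨c, d, h1, h2, h3⟩
      · rintro (h | ⟨c, d, h1, h2, h3⟩)
        · exact Or.inl h
        · exact Or.inr ⟨c, h1, d, h2, h3⟩

theorem dfn_rnd (C r : ℕ) : Dfn2 (fun V E => rnd C E r) := by
  induction r with
  | zero => exact Dfn2.eq
  | succ r ih => exact (ih.or (Dfn2.edge.and (dfn_Tle ih C).swap)).stc

/-- Reachability is `FO(STC)`-definable on digraphs whose underlying graph excludes `tP4`. -/
theorem dfn_reach_tP4 (t : ℕ) (ht : 1 ≤ t) : ∃ φ : Fm 2, ∀ (V : Type) (E : V → V → Prop),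
    ¬ HasP E Set.univ t → ∀ s d : V, φ.Holds E ![s, d] ↔ ReflTransGen E s d := by
  obtain ⟨φ, hφ⟩ := dfn_Tle (dfn_rnd (6 * t + 1) t) (6 * t)
  refine ⟨φ, fun V E hno s d => ?_⟩
  rw [hφ]
  exact reach_iff ht hno s d

end Pool.Agent.H534R2
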