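import Pool.Agent.H534R2.SymNet
import Pool.Agent.H534R2.HFree

/-!
# Upper bounds: symmetric networks that decide directed connectivity
-/

namespace H534R2.SymSw

open Pool.Agent.H534R2 (exists_geo)

open Equiv Finset Relation

variable {n : ℕ} {M : Type*}

/-- relabelling of vertices -/
def vAct (π : Perm (Fin n)) : Vx n M ≃ Vx n M := Equiv.sumCongr π (Equiv.refl M)

theorem relabel_vAct (π : Perm (Fin n)) (G : Vx n M → Vx n M → Prop) (u v : Vx n M) :
    relabel π G (vAct π u) (vAct π v) ↔ G u v := by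
  cases u <;> cases v <;> simp [relabel, vAct]

theorem vAct_one : vAct (1 : Perm (Fin n)) = (Equiv.refl (Vx n M)) := by
  ext u; cases u <;> simp [vAct]

theorem vAct_mul (π σ : Perm (Fin n)) : vAct (M := M) (π * σ) = (vAct σ).trans (vAct π) := by
  ext u; cases u <;> simp [vAct]

/-- vertices form the nodes of the obvious directed network -/
instance vxAction : MulAction (Perm (Fin n)) (Vx n M) where
  smul π u := vAct π u
  one_smul u := by
    show vAct 1 u = u
    rw [vAct_one]; rfl
  mul_smul π σ u := by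
    show vAct (π * σ) u = vAct π (vAct σ u)
    rw [vAct_mul]; rfl

theorem vx_smul_def (π : Perm (Fin n)) (u : Vx n M) : π • u = vAct π u := rfl

/-- the interchangeable vertices among `u`, `v` -/
def inner (u v : Vx n M) : Finset (Fin n) :=
  (Sum.elim (fun x => {x}) (fun _ => ∅) u : Finset (Fin n)) ∪
    (Sum.elim (fun x => {x}) (fun _ => ∅) v : Finset (Fin n))

theorem inner_card (u v : Vx n M) : (inner u v).card ≤ 2 := by
  unfold inner
  refine (Finset.card_union_le _ _).trans ?_
  cases u <;> cases v <;> simp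

theorem inner_agree {u v : Vx n M} {G G' : Vx n M → Vx n M → Prop}
    (h : AgreeOn (inner u v) G G') : G u v ↔ G' u v := by
  apply h
  · rintro x rfl; simp [inner]
  · rintro x rfl; simp [inner]

/-- The directed network: follow the arcs. -/
def dirNet (s t : M) : SymNetwork n 2 M (Vx n M) where
  start := Sum.inr s
  acc := Sum.inr t
  pass G u v := G u v
  start_fixed π := rfl
  acc_fixed π := rfl
  equivariant π G u v h := by
    rw [vx_smul_def, vx_smul_def, relabel_vAct]; exact h
  loc G u v h := ⟨inner u v, inner_card u v, fun G' hG' => (inner_agree hG').1 h⟩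

/-! ### the undirected network (Savitch's algorithm with reversible pebbling) -/

/-- there is a walk of length at most `2 ^ i` -/
def Tr (G : Vx n M → Vx n M → Prop) : ℕ → Vx n M → Vx n M → Prop
  | 0, u, v => u = v ∨ G u v
  | i + 1, u, v => ∃ w, Tr G i u w ∧ Tr G i w v

theorem Tr_sound (G : Vx n M → Vx n M → Prop) (i : ℕ) :
    ∀ u v, Tr G i u v → ReflTransGen G u v := by
  induction i with
  | zero =>
    rintro u v (rfl | h)
    · exact ReflTransGen.refl
    · exact ReflTransGen.single h
  | succ i ih =>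
    rintro u v ⟨w, h1, h2⟩
    exact (ih _ _ h1).trans (ih _ _ h2)

theorem Tr_walk (G : Vx n M → Vx n M → Prop) (p : ℕ → Vx n M) (i : ℕ) :
    ∀ a l, l ≤ 2 ^ i → (∀ j, a ≤ j → j < a + l → G (p j) (p (j + 1))) →
      Tr G i (p a) (p (a + l)) := by
  induction i with
  | zero =>
    intro a l hl hp
    have hl' : l = 0 ∨ l = 1 := by
      rw [pow_zero] at hl; omega
    rcases hl' with rfl | rfl
    · exact Or.inl rfl
    · exact Or.inr (hp a le_rfl (by omega))
  | succ i ih =>
    intro a l hl hp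
    have hpow : 2 ^ (i + 1) = 2 ^ i + 2 ^ i := by rw [pow_succ]; omega
    refine ⟨p (a + min l (2 ^ i)), ih _ _ (min_le_right _ _) ?_, ?_⟩
    · intro j hj hj'
      exact hp j hj (by omega)
    · have h1 : a + l = (a + min l (2 ^ i)) + (l - min l (2 ^ i)) := by omega
      rw [h1]
      apply ih _ _ (by omega)
      intro j hj hj'
      exact hp j (by omega) (by omega)

theorem Tr_complete {M : Type} [Fintype M] {G : Vx n M → Vx n M → Prop} {K : ℕ}
    (hK : n + Fintype.card M ≤ 2 ^ K) {u v : Vx n M} (h : ReflTransGen G u v) : Tr G K u v := by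
  classical
  obtain ⟨p, l, hgeo, h0, hl⟩ := exists_geo h
  have hcard : l + 1 ≤ n + Fintype.card M := by
    have hinj : Function.Injective (fun i : Fin (l + 1) => p i) := by
      intro i j hij
      rcases lt_trichotomy i.val j.val with h | h | h
      · exact absurd hij (hgeo.inj _ _ h (by omega))
      · exact Fin.ext h
      · exact absurd hij.symm (hgeo.inj _ _ h (by omega))
    have := Fintype.card_le_of_injective _ hinj
    rwa [Fintype.card_fin, Fintype.card_sum, Fintype.card_fin] at this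
  have := Tr_walk G p K 0 l (by omega) (fun j _ hj => hgeo.arc j (by omega))
  rwa [h0, Nat.zero_add, hl] at this

/-- A fact `(u, v, i)`: there is a walk of length at most `2 ^ i` from `u` to `v`. -/
abbrev Fact (n : ℕ) (M : Type*) (K : ℕ) := Vx n M × Vx n M × Fin (K + 1)

/-- states: sets of at most `2 K + 1` facts -/
def St (n : ℕ) (M : Type*) (K : ℕ) := {S : Finset (Fact n M K) // S.card ≤ 2 * K + 1}

def fAct {K : ℕ} (π : Perm (Fin n)) : Fact n M K ≃ Fact n M K :=
  Equiv.prodCongr (vAct π) (Equiv.prodCongr (vAct π) (Equiv.refl _))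

theorem fAct_one {K : ℕ} : fAct (1 : Perm (Fin n)) = (Equiv.refl (Fact n M K)) := by
  unfold fAct; rw [vAct_one]; rfl

theorem fAct_mul {K : ℕ} (π σ : Perm (Fin n)) :
    fAct (M := M) (K := K) (π * σ) = (fAct σ).trans (fAct π) := by
  unfold fAct; rw [vAct_mul]; rfl

instance stAction (K : ℕ) : MulAction (Perm (Fin n)) (St n M K) where
  smul π S := ⟨S.1.map (fAct π).toEmbedding, by rw [Finset.card_map]; exact S.2⟩
  one_smul S := by
    apply Subtype.ext
    show S.1.map (fAct 1).toEmbedding = S.1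
    rw [fAct_one]
    exact Finset.map_refl
  mul_smul π σ S := by
    apply Subtype.ext
    show S.1.map (fAct (π * σ)).toEmbedding = (S.1.map (fAct σ).toEmbedding).map
      (fAct π).toEmbedding
    rw [fAct_mul, Finset.map_map]
    rfl

theorem st_smul_def {K : ℕ} (π : Perm (Fin n)) (S : St n M K) :
    (π • S).1 = S.1.map (fAct π).toEmbedding := rfl

/-- the fact `f` can be added to (or removed from) the state `S` -/
def Just {K : ℕ} (G : Vx n M → Vx n M → Prop) (S : Finset (Fact n M K)) (f : Fact n M K) :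
    Prop :=
  (f.2.2.val = 0 ∧ (f.1 = f.2.1 ∨ G f.1 f.2.1)) ∨
    ∃ (w : Vx n M) (j : Fin (K + 1)), f.2.2.val = j.val + 1 ∧ (f.1, w, j) ∈ S ∧
      (w, f.2.1, j) ∈ S

/-- one move of the undirected network -/
def UPass {K : ℕ} (G : Vx n M → Vx n M → Prop) (S T : Finset (Fact n M K)) : Prop :=
  ∃ f, Just G S f ∧ ∀ g, g ∈ T ↔ (g = f ∨ g ∈ S)

theorem just_map {K : ℕ} {G : Vx n M → Vx n M → Prop} {S : Finset (Fact n M K)} {f : Fact n M K}
    (π : Perm (Fin n)) (h : Just G S f) :
    Just (relabel π G) (S.map (fAct π).toEmbedding) (fAct π f) := by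
  obtain ⟨u, v, i⟩ := f
  rcases h with ⟨h1, h2⟩ | ⟨w, j, h1, h2, h3⟩
  · refine Or.inl ⟨h1, ?_⟩
    rcases h2 with h2 | h2
    · left
      have : u = v := h2
      subst this; rfl
    · right; exact (relabel_vAct π G u v).2 h2
  · refine Or.inr ⟨vAct π w, j, h1, ?_, ?_⟩
    · exact (Finset.mem_map' (fAct π).toEmbedding).2 h2
    · exact (Finset.mem_map' (fAct π).toEmbedding).2 h3

/-- The undirected network. -/
def undNet (K : ℕ) (s t : M) : SymNetwork n 2 M (St n M K) where
  start := ⟨∅, by simp⟩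
  acc := ⟨{(Sum.inr s, Sum.inr t, Fin.last K)}, by simp⟩
  pass G S T := UPass G S.1 T.1
  start_fixed π := by
    apply Subtype.ext
    show (∅ : Finset (Fact n M K)).map (fAct π).toEmbedding = ∅
    exact Finset.map_empty _
  acc_fixed π := by
    apply Subtype.ext
    show ({(Sum.inr s, Sum.inr t, Fin.last K)} : Finset (Fact n M K)).map
      (fAct π).toEmbedding = {(Sum.inr s, Sum.inr t, Fin.last K)}
    rw [Finset.map_singleton]
    rfl
  equivariant π G S T h := by
    obtain ⟨f, h1, h2⟩ := h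
    refine ⟨fAct π f, just_map π h1, ?_⟩
    intro g
    rw [st_smul_def, st_smul_def]
    obtain ⟨g', rfl⟩ := (fAct (M := M) (K := K) π).surjective g
    have e1 := Finset.mem_map' (fAct (M := M) (K := K) π).toEmbedding (a := g') (s := T.1)
    have e2 := Finset.mem_map' (fAct (M := M) (K := K) π).toEmbedding (a := g') (s := S.1)
    simp only [Equiv.coe_toEmbedding] at e1 e2
    rw [e1, e2, h2 g', (fAct (M := M) (K := K) π).injective.eq_iff]
  loc G S T h := by
    obtain ⟨f, h1, h2⟩ := h
    rcases h1 with ⟨h1, h3⟩ | h1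
    · refine ⟨inner f.1 f.2.1, inner_card _ _, fun G' hG' => ⟨f, Or.inl ⟨h1, ?_⟩, h2⟩⟩
      rcases h3 with h3 | h3
      · exact Or.inl h3
      · exact Or.inr ((inner_agree hG').1 h3)
    · exact ⟨∅, by simp, fun G' _ => ⟨f, Or.inr h1, h2⟩⟩

theorem undNet_sound {K : ℕ} {G : Vx n M → Vx n M → Prop} {S T : Finset (Fact n M K)}
    (h : UPass G S T) :
    (∀ f ∈ S, Tr G f.2.2.val f.1 f.2.1) ↔ (∀ f ∈ T, Tr G f.2.2.val f.1 f.2.1) := by
  obtain ⟨f, hf, hT⟩ := h
  constructor
  · intro hS g hg
    rcases (hT g).1 hg with rfl | hg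
    · rcases hf with ⟨h1, h2⟩ | ⟨w, j, h1, h2, h3⟩
      · rw [h1]; exact h2
      · rw [h1]; exact ⟨w, hS _ h2, hS _ h3⟩
    · exact hS g hg
  · intro h g hg
    exact h g ((hT g).2 (Or.inr hg))

/-- one can add a true fact when there is enough room -/
theorem undNet_add {K : ℕ} {G : Vx n M → Vx n M → Prop} (i : ℕ) :
    ∀ (S T : St n M K) (f : Fact n M K), f.2.2.val = i → Tr G i f.1 f.2.1 →
      S.1.card + 2 * i + 1 ≤ 2 * K + 1 → (∀ g, g ∈ T.1 ↔ (g = f ∨ g ∈ S.1)) →
      EqvGen (fun S T : St n M K => UPass G S.1 T.1) S T := by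
  classical
  induction i with
  | zero =>
    intro S T f hf htr _ hT
    exact EqvGen.rel _ _ ⟨f, Or.inl ⟨hf, htr⟩, hT⟩
  | succ i ih =>
    rintro S T ⟨u, v, k⟩ hf ⟨w, h1, h2⟩ hcard hT
    have hf' : k.val = i + 1 := hf
    have hi : i < K + 1 := by have := k.2; omega
    have hTc : T.1.card ≤ S.1.card + 1 := by
      have : T.1 = insert (u, v, k) S.1 := by ext g; rw [hT g, Finset.mem_insert]
      rw [this]; exact Finset.card_insert_le _ _
    have c1 := Finset.card_insert_le (u, w, (⟨i, hi⟩ : Fin (K + 1))) S.1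
    have c2 := Finset.card_insert_le (w, v, (⟨i, hi⟩ : Fin (K + 1)))
      (insert (u, w, (⟨i, hi⟩ : Fin (K + 1))) S.1)
    have c3 := Finset.card_insert_le (u, v, k)
      (insert (w, v, (⟨i, hi⟩ : Fin (K + 1))) (insert (u, w, (⟨i, hi⟩ : Fin (K + 1))) S.1))
    have c4 := Finset.card_insert_le (u, w, (⟨i, hi⟩ : Fin (K + 1))) T.1
    let S1 : St n M K := ⟨insert (u, w, (⟨i, hi⟩ : Fin (K + 1))) S.1, by omega⟩
    let S2 : St n M K := ⟨insert (w, v, (⟨i, hi⟩ : Fin (K + 1))) S1.1, by
      show (insert (w, v, (⟨i, hi⟩ : Fin (K + 1)))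
        (insert (u, w, (⟨i, hi⟩ : Fin (K + 1))) S.1)).card ≤ _
      omega⟩
    let S3 : St n M K := ⟨insert (u, v, k) S2.1, by
      show (insert (u, v, k) (insert (w, v, (⟨i, hi⟩ : Fin (K + 1)))
        (insert (u, w, (⟨i, hi⟩ : Fin (K + 1))) S.1))).card ≤ _
      omega⟩
    let S4 : St n M K := ⟨insert (u, w, (⟨i, hi⟩ : Fin (K + 1))) T.1, by omega⟩
    have e1 : EqvGen (fun S T : St n M K => UPass G S.1 T.1) S S1 :=
      ih S S1 (u, w, ⟨i, hi⟩) rfl h1 (by omega) (fun g => by simp [S1])
    have e2 : EqvGen (fun S T : St n M K => UPass G S.1 T.1) S1 S2 :=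
      ih S1 S2 (w, v, ⟨i, hi⟩) rfl h2 (by
        show (insert (u, w, (⟨i, hi⟩ : Fin (K + 1))) S.1).card + 2 * i + 1 ≤ _
        omega) (fun g => by simp [S2])
    have e3 : EqvGen (fun S T : St n M K => UPass G S.1 T.1) S2 S3 := by
      refine EqvGen.rel _ _ ⟨(u, v, k), Or.inr ⟨w, ⟨i, hi⟩, hf', ?_, ?_⟩, fun g => by simp [S3]⟩
      · simp [S2, S1]
      · simp [S2]
    have e4 : EqvGen (fun S T : St n M K => UPass G S.1 T.1) T S4 :=
      ih T S4 (u, w, ⟨i, hi⟩) rfl h1 (by omega) (fun g => by simp [S4])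
    have e5 : EqvGen (fun S T : St n M K => UPass G S.1 T.1) S4 S3 := by
      refine ih S4 S3 (w, v, ⟨i, hi⟩) rfl h2 (by
        show (insert (u, w, (⟨i, hi⟩ : Fin (K + 1))) T.1).card + 2 * i + 1 ≤ _
        omega) (fun g => ?_)
      simp only [S3, S2, S1, S4, Finset.mem_insert, hT g]
      tauto
    exact ((e1.trans _ _ _ e2).trans _ _ _ e3).trans _ _ _
      ((EqvGen.symm _ _ e5).trans _ _ _ (EqvGen.symm _ _ e4))

theorem undNet_correct {M : Type} [Fintype M] {K : ℕ} (hK : n + Fintype.card M ≤ 2 ^ K) (s t : M)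
    (G : Vx n M → Vx n M → Prop) :
    EqvGen ((undNet (n := n) K s t).pass G) (undNet K s t).start (undNet K s t).acc ↔
      ReflTransGen G (Sum.inr s) (Sum.inr t) := by
  constructor
  · intro h
    have key : ∀ S T : St n M K, EqvGen ((undNet (n := n) K s t).pass G) S T →
        ((∀ f ∈ S.1, Tr G f.2.2.val f.1 f.2.1) ↔ (∀ f ∈ T.1, Tr G f.2.2.val f.1 f.2.1)) := by
      intro S T hST
      induction hST with
      | rel x y h => exact undNet_sound h
      | refl => exact Iff.rfl
      | symm _ _ _ ih => exact ih.symm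
      | trans _ _ _ _ _ ih1 ih2 => exact ih1.trans ih2
    have h1 := (key _ _ h).1 (by
      intro f hf
      exact absurd hf (Finset.notMem_empty f))
    have h2 := h1 (Sum.inr s, Sum.inr t, Fin.last K) (Finset.mem_singleton_self _)
    exact Tr_sound G _ _ _ h2
  · intro h
    have h1 := Tr_complete hK h
    refine undNet_add (G := G) K _ _ (Sum.inr s, Sum.inr t, Fin.last K) rfl h1 ?_ ?_
    · show (∅ : Finset (Fact n M K)).card + 2 * K + 1 ≤ 2 * K + 1
      simp
    · intro g
      show g ∈ ({(Sum.inr s, Sum.inr t, Fin.last K)} : Finset (Fact n M K)) ↔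
        (g = _ ∨ g ∈ (∅ : Finset (Fact n M K)))
      simp

noncomputable instance stFintype [Fintype M] (K : ℕ) : Fintype (St n M K) := by
  classical
  unfold St
  infer_instance

theorem card_small_sets {α : Type*} [Fintype α] [DecidableEq α] (c : ℕ) :
    Fintype.card {S : Finset α // S.card ≤ c} ≤ (Fintype.card α + 1) ^ c := by
  have hinj : Function.Injective
      (fun (S : {S : Finset α // S.card ≤ c}) (i : Fin c) => S.1.toList[i.val]?) := by
    rintro ⟨S, hS⟩ ⟨T, hT⟩ h
    apply Subtype.ext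
    have h1 : S.toList = T.toList := by
      apply List.ext_getElem?
      intro i
      by_cases hi : i < c
      · exact congrFun h ⟨i, hi⟩
      · rw [List.getElem?_eq_none (by rw [Finset.length_toList]; omega),
          List.getElem?_eq_none (by rw [Finset.length_toList]; omega)]
    show S = T
    rw [← Finset.toList_toFinset S, ← Finset.toList_toFinset T, h1]
  have := Fintype.card_le_of_injective _ hinj
  rwa [Fintype.card_fun, Fintype.card_option, Fintype.card_fin] at this

theorem stCard [Fintype M] (K : ℕ) : Fintype.card (St n M K) ≤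
    ((n + Fintype.card M) ^ 2 * (K + 1) + 1) ^ (2 * K + 1) := by
  classical
  have h := card_small_sets (α := Fact n M K) (2 * K + 1)
  have h2 : Fintype.card (Fact n M K) = (n + Fintype.card M) ^ 2 * (K + 1) := by
    rw [Fintype.card_prod, Fintype.card_prod, Fintype.card_sum, Fintype.card_fin, Fintype.card_fin]
    ring
  rw [h2] at h
  refine le_trans (le_of_eq ?_) h
  exact Fintype.card_congr (Equiv.refl _)

theorem log_add_two_le {N : ℕ} (h : 4 ≤ N) : Nat.log 2 N + 2 ≤ N := by
  have h1 : Nat.log 2 N < N - 1 := by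
    rw [Nat.log_lt_iff_lt_pow (by norm_num) (by omega)]
    have key : ∀ a : ℕ, 4 ≤ a → a < 2 ^ (a - 1) := by
      intro a ha
      induction a, ha using Nat.le_induction with
      | base => norm_num
      | succ a ha ih =>
        have : a + 1 - 1 = (a - 1) + 1 := by omega
        rw [this, pow_succ]; omega
    exact key N h
  omega

theorem stCard' [Fintype M] (hN : 4 ≤ n + Fintype.card M) :
    Fintype.card (St n M (Nat.log 2 (n + Fintype.card M) + 1)) ≤
      (n + Fintype.card M) ^ (16 * Nat.log 2 (n + Fintype.card M)) := by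
  set N := n + Fintype.card M with hNdef
  set L := Nat.log 2 N with hL
  have hL2 : 2 ≤ L := by
    rw [hL]
    exact (Nat.le_log_iff_pow_le (by norm_num) (by omega)).2 (by norm_num; omega)
  have h1 := stCard (n := n) (M := M) (L + 1)
  rw [← hNdef] at h1
  refine h1.trans ?_
  have h2 : N ^ 2 * (L + 1 + 1) + 1 ≤ N ^ 4 := by
    have h3 : L + 2 ≤ N := log_add_two_le hN
    have h4 : N ^ 2 * (L + 1 + 1) ≤ N ^ 2 * N := Nat.mul_le_mul_left _ (by omega)
    have h5 : N ^ 2 * N + 1 ≤ N ^ 4 := by
      have : N ^ 4 = N ^ 2 * N * N := by ring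
      rw [this]
      have h6 : 0 < N ^ 2 * N := by positivity
      nlinarith
    omega
  calc (N ^ 2 * (L + 1 + 1) + 1) ^ (2 * (L + 1) + 1) ≤ (N ^ 4) ^ (2 * (L + 1) + 1) :=
        Nat.pow_le_pow_left h2 _
    _ = N ^ (4 * (2 * (L + 1) + 1)) := by rw [← pow_mul]
    _ ≤ N ^ (16 * L) := Nat.pow_le_pow_right (by omega) (by omega)

end H534R2.SymSw
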