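import Pool.Agent.H534R2.GenPyr
import Pool.Agent.H534R2.GenDefs
import Pool.Agent.H534R2.SymUpper

/-!
# Directed networks with NOT gates and their undirected simulation
-/

set_option linter.unusedSectionVars false

namespace H534R2.Gen

open Finset Relation H534R2.SymSw

/-- Computations that evaluate monotone directed networks in rounds: `out N` outputs the answer of
the network `N`; `ask w N next` evaluates the `w` networks `N i` and continues with a
computation that may depend on the `w` answers in an arbitrary way. -/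
inductive DTree (X : Type) : Type
  | out (N : DNet X) : DTree X
  | ask (w : ℕ) (N : Fin w → DNet X) (next : (Fin w → Bool) → DTree X) : DTree X

open Classical in
/-- the answers of the networks -/
noncomputable def dans {X : Type} {w : ℕ} (N : Fin w → DNet X) (v : X → Prop) : Fin w → Bool :=
  fun i => decide ((N i).Accepts v)

namespace DTree

variable {X : Type}

/-- the value computed on the assignment `v` -/
noncomputable def eval : DTree X → (X → Prop) → Prop
  | out N, v => N.Accepts v
  | ask _ N next, v => (next (dans N v)).eval v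

/-- the maximum over all branches of the product of `w + 1` over the rounds -/
def cost : DTree X → ℕ
  | out _ => 1
  | ask w _ next => (w + 1) * Finset.univ.sup (fun a => (next a).cost)

/-- the maximum over all branches of the total number of nodes of the networks -/
def load : DTree X → ℕ
  | out N => N.size
  | ask _ N next => (∑ i, (N i).size) + Finset.univ.sup (fun a => (next a).load)

end DTree

/-! ### an undirected network with given node type -/

section und

variable {X W : Type} [Fintype W]

/-- undirected network on the node type `W` -/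
noncomputable def ofType (s t : W) (link : W → W → Prop) (wire : W → W → X → Prop) :
    BNet X where
  size := Fintype.card W
  start := Fintype.equivFin W s
  acc := Fintype.equivFin W t
  link a b := link ((Fintype.equivFin W).symm a) ((Fintype.equivFin W).symm b)
  wire a b := wire ((Fintype.equivFin W).symm a) ((Fintype.equivFin W).symm b)

theorem eqvGen_equiv {α β : Type} (e : α ≃ β) (r : α → α → Prop) (x y : α) :
    EqvGen (fun a b : β => r (e.symm a) (e.symm b)) (e x) (e y) ↔ EqvGen r x y := by
  constructor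
  · intro h
    have key : ∀ a b : β, EqvGen (fun a b : β => r (e.symm a) (e.symm b)) a b →
        EqvGen r (e.symm a) (e.symm b) := by
      intro a b hab
      induction hab with
      | rel a b h => exact EqvGen.rel _ _ h
      | refl a => exact EqvGen.refl _
      | symm _ _ _ ih => exact EqvGen.symm _ _ ih
      | trans _ _ _ _ _ ih1 ih2 => exact ih1.trans _ _ _ ih2
    simpa using key _ _ h
  · intro h
    induction h with
    | rel a b h => exact EqvGen.rel _ _ (by simpa using h)
    | refl a => exact EqvGen.refl _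
    | symm _ _ _ ih => exact EqvGen.symm _ _ ih
    | trans _ _ _ _ _ ih1 ih2 => exact ih1.trans _ _ _ ih2

theorem ofType_accepts (s t : W) (link : W → W → Prop) (wire : W → W → X → Prop)
    (v : X → Prop) : (ofType s t link wire).Accepts v ↔
      EqvGen (fun a b => link a b ∨ ∃ x, wire a b x ∧ v x) s t :=
  eqvGen_equiv (Fintype.equivFin W) (fun a b => link a b ∨ ∃ x, wire a b x ∧ v x) s t

end und

section savitch

variable {X : Type}

/-- the wires of a directed network as a digraph on `Fin 0 ⊕ Fin size` -/
def DG (N : DNet X) (v : X → Prop) : Vx 0 (Fin N.size) → Vx 0 (Fin N.size) → Prop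
  | Sum.inr a, Sum.inr b => N.Pass v a b
  | _, _ => False

/-- unlabelled part -/
def DGl (N : DNet X) : Vx 0 (Fin N.size) → Vx 0 (Fin N.size) → Prop
  | Sum.inr a, Sum.inr b => N.link a b
  | _, _ => False

/-- labelled part -/
def DGw (N : DNet X) (x : X) : Vx 0 (Fin N.size) → Vx 0 (Fin N.size) → Prop
  | Sum.inr a, Sum.inr b => N.wire a b x
  | _, _ => False

theorem DG_iff (N : DNet X) (v : X → Prop) (a b : Vx 0 (Fin N.size)) :
    DG N v a b ↔ DGl N a b ∨ ∃ x, DGw N x a b ∧ v x := by
  rcases a with a | a
  · exact a.elim0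
  · rcases b with b | b
    · exact b.elim0
    · exact Iff.rfl

/-- The undirected simulation of the directed network `N` (Savitch's algorithm, reversible). -/
noncomputable def toB (K : ℕ) (N : DNet X) : BNet X :=
  ofType (W := St 0 (Fin N.size) K) (undNet K N.start N.acc).start
    (undNet K N.start N.acc).acc
    (fun S T => UPass (DGl N) S.1 T.1)
    (fun S T x => UPass (DGw N x) S.1 T.1)

theorem UPass_iff (N : DNet X) (v : X → Prop) {K : ℕ}
    (S T : Finset (Fact 0 (Fin N.size) K)) :
    UPass (DG N v) S T ↔ UPass (DGl N) S T ∨ ∃ x, UPass (DGw N x) S T ∧ v x := by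
  constructor
  · rintro ⟨f, hf, hT⟩
    rcases hf with ⟨h1, h2⟩ | h1
    · rcases h2 with h2 | h2
      · exact Or.inl ⟨f, Or.inl ⟨h1, Or.inl h2⟩, hT⟩
      · rcases (DG_iff N v _ _).1 h2 with h2 | ⟨x, h2, h3⟩
        · exact Or.inl ⟨f, Or.inl ⟨h1, Or.inr h2⟩, hT⟩
        · exact Or.inr ⟨x, ⟨f, Or.inl ⟨h1, Or.inr h2⟩, hT⟩, h3⟩
    · exact Or.inl ⟨f, Or.inr h1, hT⟩
  · rintro (⟨f, hf, hT⟩ | ⟨x, ⟨f, hf, hT⟩, hx⟩)
    · refine ⟨f, ?_, hT⟩
      rcases hf with ⟨h1, h2⟩ | h1
      · rcases h2 with h2 | h2
        · exact Or.inl ⟨h1, Or.inl h2⟩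
        · exact Or.inl ⟨h1, Or.inr ((DG_iff N v _ _).2 (Or.inl h2))⟩
      · exact Or.inr h1
    · refine ⟨f, ?_, hT⟩
      rcases hf with ⟨h1, h2⟩ | h1
      · rcases h2 with h2 | h2
        · exact Or.inl ⟨h1, Or.inl h2⟩
        · exact Or.inl ⟨h1, Or.inr ((DG_iff N v _ _).2 (Or.inr ⟨x, h2, hx⟩))⟩
      · exact Or.inr h1

theorem toB_accepts {K : ℕ} (N : DNet X) (hK : N.size ≤ 2 ^ K) (v : X → Prop) :
    (toB K N).Accepts v ↔ N.Accepts v := by
  have h1 : (toB K N).Accepts v ↔ EqvGen ((undNet (n := 0) K N.start N.acc).pass (DG N v))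
      (undNet K N.start N.acc).start (undNet K N.start N.acc).acc := by
    unfold toB
    rw [ofType_accepts]
    have h2 : (fun S T : St 0 (Fin N.size) K => UPass (DGl N) S.1 T.1 ∨
        ∃ x, UPass (DGw N x) S.1 T.1 ∧ v x) =
        (undNet (n := 0) K N.start N.acc).pass (DG N v) := by
      funext S T
      exact propext (UPass_iff N v S.1 T.1).symm
    rw [h2]
  rw [h1, undNet_correct (by rw [Fintype.card_fin, Nat.zero_add]; exact hK)]
  constructor
  · intro h
    have key : ∀ a : Vx 0 (Fin N.size), ReflTransGen (DG N v) (Sum.inr N.start) a →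
        ∃ b, a = Sum.inr b ∧ ReflTransGen (N.Pass v) N.start b := by
      intro a ha
      induction ha with
      | refl => exact ⟨_, rfl, ReflTransGen.refl⟩
      | @tail b c _ hbc ih =>
        obtain ⟨b', rfl, hb'⟩ := ih
        rcases c with c | c
        · exact c.elim0
        · exact ⟨c, rfl, hb'.tail hbc⟩
    obtain ⟨b, hb, h⟩ := key _ h
    have : N.acc = b := Sum.inr.inj hb
    subst this
    exact h
  · intro h
    exact ReflTransGen.lift Sum.inr (fun a b hab => hab) _ _ h

theorem toB_size (K : ℕ) (N : DNet X) (hK : N.size ≤ 2 ^ K) :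
    (toB K N).size ≤ 2 ^ ((3 * K + 1) * (2 * K + 1)) := by
  have h1 := stCard (n := 0) (M := Fin N.size) K
  rw [Fintype.card_fin, Nat.zero_add] at h1
  have h2 : (toB K N).size = Fintype.card (St 0 (Fin N.size) K) := rfl
  rw [h2]
  refine h1.trans ?_
  rw [pow_mul]
  apply Nat.pow_le_pow_left
  have h3 : K + 1 ≤ 2 ^ K := Nat.lt_two_pow_self
  have h4 : N.size ^ 2 ≤ (2 ^ K) ^ 2 := Nat.pow_le_pow_left hK 2
  calc N.size ^ 2 * (K + 1) + 1 ≤ (2 ^ K) ^ 2 * 2 ^ K + 1 :=
        Nat.add_le_add_right (Nat.mul_le_mul h4 h3) 1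
    _ ≤ 2 ^ (3 * K) + 2 ^ (3 * K) := by
        have : (2 ^ K) ^ 2 * 2 ^ K = 2 ^ (3 * K) := by
          rw [← pow_mul, ← pow_add]; congr 1; ring
        rw [this]
        have := Nat.one_le_two_pow (n := 3 * K)
        omega
    _ = 2 ^ (3 * K + 1) := by rw [pow_succ]; ring

/-- simulate all networks of a computation -/
noncomputable def DTree.toB (K : ℕ) : DTree X → BTree X
  | .out N => .out (Gen.toB K N)
  | .ask w N next => .ask w (fun i => Gen.toB K (N i)) (fun a => DTree.toB K (next a))

theorem DTree.toB_eval (K : ℕ) (T : DTree X) (hT : T.load ≤ 2 ^ K) (v : X → Prop) :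
    (T.toB K).eval v ↔ T.eval v := by
  classical
  induction T with
  | out N => exact toB_accepts N hT v
  | ask w N next ih =>
    have hT' : (∑ i, (N i).size) + Finset.univ.sup (fun a => (next a).load) ≤ 2 ^ K := hT
    show (DTree.toB K (next (ans (fun i => Gen.toB K (N i)) v))).eval v ↔
      (next (dans N v)).eval v
    have h : ans (fun i => Gen.toB K (N i)) v = dans N v := by
      funext i
      unfold ans dans
      rw [decide_eq_decide]
      apply toB_accepts
      have : (N i).size ≤ ∑ i, (N i).size :=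
        Finset.single_le_sum (f := fun i => (N i).size) (fun _ _ => Nat.zero_le _)
          (Finset.mem_univ i)
      omega
    rw [h]
    apply ih
    have : (next (dans N v)).load ≤ Finset.univ.sup (fun a => (next a).load) :=
      Finset.le_sup (f := fun a => (next a).load) (Finset.mem_univ _)
    omega

theorem DTree.toB_cost (K : ℕ) (T : DTree X) : (T.toB K).cost = T.cost := by
  induction T with
  | out N => rfl
  | ask w N next ih =>
    show (w + 1) * Finset.univ.sup (fun a => (DTree.toB K (next a)).cost)
      = (w + 1) * Finset.univ.sup (fun a => (next a).cost)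
    simp only [ih]

theorem DTree.toB_load (K : ℕ) (T : DTree X) (hT : T.load ≤ 2 ^ K) :
    (T.toB K).load ≤ T.load * 2 ^ ((3 * K + 1) * (2 * K + 1)) := by
  classical
  have h0 : ∀ N : DNet X, N.size ≤ 2 ^ K →
      (Gen.toB K N).size ≤ N.size * 2 ^ ((3 * K + 1) * (2 * K + 1)) := by
    intro N hN
    have h1 := toB_size K N hN
    have h2 : 1 ≤ N.size := by have := N.start.2; omega
    calc (Gen.toB K N).size ≤ 1 * 2 ^ ((3 * K + 1) * (2 * K + 1)) := by rw [one_mul]; exact h1
      _ ≤ N.size * 2 ^ ((3 * K + 1) * (2 * K + 1)) := Nat.mul_le_mul_right _ h2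
  induction T with
  | out N => exact h0 N hT
  | ask w N next ih =>
    have hT' : (∑ i, (N i).size) + Finset.univ.sup (fun a => (next a).load) ≤ 2 ^ K := hT
    show (∑ i, (Gen.toB K (N i)).size) +
      Finset.univ.sup (fun a => (DTree.toB K (next a)).load) ≤
      ((∑ i, (N i).size) + Finset.univ.sup (fun a => (next a).load)) *
        2 ^ ((3 * K + 1) * (2 * K + 1))
    rw [Nat.add_mul]
    apply Nat.add_le_add
    · rw [Finset.sum_mul]
      apply Finset.sum_le_sum
      intro i _
      apply h0
      have : (N i).size ≤ ∑ i, (N i).size :=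
        Finset.single_le_sum (f := fun i => (N i).size) (fun _ _ => Nat.zero_le _)
          (Finset.mem_univ i)
      omega
    · apply Finset.sup_le
      intro a _
      have h3 : (next a).load ≤ Finset.univ.sup (fun a => (next a).load) :=
        Finset.le_sup (f := fun a => (next a).load) (Finset.mem_univ _)
      exact (ih a (by omega)).trans (Nat.mul_le_mul_right _ h3)

end savitch

variable {M h : ℕ}

/-- **Lower bound for the block function** (directed networks). -/
theorem pyr_bound_dir {r ℓ : ℕ} (hℓ : 6 * ℓ ^ 2 + 6 * ℓ + 12 ≤ h) (hr : r = 6 * (h + 1) ^ 2)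
    (T : DTree (PVar M h (r ^ 2))) (hload : T.load ≤ 2 ^ ℓ)
    (hT : ∀ v : PVar M h (r ^ 2) → Prop, T.eval v ↔ PyrFn v) : M + 1 ≤ T.cost := by
  rw [← T.toB_cost ℓ]
  apply pyr_bound (by omega) hr
  · have h1 := T.toB_load ℓ hload
    calc 1728 * (T.toB ℓ).load ≤ 1728 * (2 ^ ℓ * 2 ^ ((3 * ℓ + 1) * (2 * ℓ + 1))) :=
          Nat.mul_le_mul_left _ (h1.trans (Nat.mul_le_mul_right _ hload))
      _ < 2 ^ 11 * (2 ^ ℓ * 2 ^ ((3 * ℓ + 1) * (2 * ℓ + 1))) := by
          apply Nat.mul_lt_mul_of_pos_right (by norm_num) (by positivity)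
      _ = 2 ^ (11 + (ℓ + (3 * ℓ + 1) * (2 * ℓ + 1))) := by rw [← pow_add, ← pow_add]
      _ ≤ 2 ^ h := by
          apply Nat.pow_le_pow_right (by norm_num)
          nlinarith
  · intro v
    rw [T.toB_eval ℓ hload, hT]

end H534R2.Gen
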