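import Mathlib
import Pool.Agent.H367R2.H10.Defs2

set_option autoImplicit false

/-! Task B4: general Artin-Schreier identities. -/

open Polynomial Finset

namespace Pool.Agent.H367R2.H10

universe u

section genB4

variable {K : Type u} [Field K]

theorem b4_step (p : ℕ) [hp : Fact p.Prime] [CharP K p]
    {V : Valuation K (WithZero (Multiplicative ℤ))} {v : K} (hv : EQ V (-1) v) (m : ℕ)
    (hm : 0 < m) (a b : ℕ) (y : K) (hab : b < a) (h : y ^ p ^ m - y = v ^ p ^ a - v ^ p ^ b) :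
    m ≤ a ∧ (y - v ^ p ^ (a - m)) ^ p ^ m - (y - v ^ p ^ (a - m)) =
      v ^ p ^ (a - m) - v ^ p ^ b := by
  have hp2 := hp.out.two_le
  have hva : EQ V (-(p:ℤ) ^ a) (v ^ p ^ a) := by
    have := hv.pow (p ^ a)
    convert this using 1
    push_cast; ring
  have hvb : EQ V (-(p:ℤ) ^ b) (v ^ p ^ b) := by
    have := hv.pow (p ^ b)
    convert this using 1
    push_cast; ring
  have hlt : (p:ℤ) ^ b < (p:ℤ) ^ a := pow_lt_pow_right₀ (by exact_mod_cast hp2) hab
  have hR : EQ V (-(p:ℤ) ^ a) (y ^ p ^ m - y) := by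
    rw [h]
    exact hva.sub_ge hvb.ge (by linarith)
  have hpa : (0:ℤ) < (p:ℤ) ^ a := by positivity
  have hpm : 2 ≤ p ^ m := le_trans hp2 (Nat.le_self_pow hm.ne' p)
  have hy : ¬ GE V 0 y := by
    intro hy
    have h1 := hy.pow (p ^ m)
    have h2 : GE V 0 (y ^ p ^ m - y) := (h1.mono (by simp)).sub hy
    have := hR.le_of_ge h2
    linarith
  obtain ⟨n, hn, hE⟩ := GE.lt_or hy
  have h3 := hE.pow (p ^ m)
  have h4 : EQ V ((p ^ m : ℕ) * n) (y ^ p ^ m - y) := by
    apply h3.sub_ge hE.ge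
    have : (2:ℤ) ≤ ((p ^ m : ℕ) : ℤ) := by exact_mod_cast hpm
    nlinarith
  have h5 := h4.unique hR
  have hdvd : (p ^ m : ℕ) ∣ p ^ a := by
    have : ((p ^ m : ℕ) : ℤ) ∣ ((p ^ a : ℕ) : ℤ) := ⟨-n, by push_cast at h5 ⊢; linarith⟩
    exact_mod_cast this
  have hma : m ≤ a := (Nat.pow_dvd_pow_iff_le_right (by omega)).1 hdvd
  refine ⟨hma, ?_⟩
  rw [sub_pow_char_pow, ← pow_mul, ← pow_add, Nat.sub_add_cancel hma]
  linear_combination h

theorem div_core (p : ℕ) [Fact p.Prime] [CharP K p]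
    {V : Valuation K (WithZero (Multiplicative ℤ))} {v : K} (hv : EQ V (-1) v) (m : ℕ)
    (hm : 0 < m) (a b : ℕ) (y : K) (h : y ^ p ^ m - y = v ^ p ^ a - v ^ p ^ b) :
    (m : ℤ) ∣ (a : ℤ) - b := by
  induction hn : a + b using Nat.strong_induction_on generalizing a b y with
  | _ n ih =>
  rcases lt_trichotomy a b with hab | hab | hab
  · have h' : (-y) ^ p ^ m - (-y) = v ^ p ^ b - v ^ p ^ a := by
      have h1 := sub_pow_char_pow (p := p) (n := m) (0 : K) y
      rw [zero_sub, zero_pow (pow_ne_zero _ (Fact.out : p.Prime).ne_zero), zero_sub] at h1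
      rw [h1]
      linear_combination -h
    obtain ⟨h1, h2⟩ := b4_step p hv m hm b a (-y) hab h'
    have := ih (b - m + a) (by omega) (b - m) a _ h2 rfl
    rw [Nat.cast_sub h1] at this
    obtain ⟨c, hc⟩ := this
    exact ⟨-c - 1, by linear_combination -hc⟩
  · rw [hab, sub_self]; exact dvd_zero _
  · obtain ⟨h1, h2⟩ := b4_step p hv m hm a b y hab h
    have := ih (a - m + b) (by omega) (a - m) b _ h2 rfl
    rw [Nat.cast_sub h1] at this
    obtain ⟨c, hc⟩ := this
    exact ⟨c + 1, by linear_combination hc⟩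

theorem br_equiv (p : ℕ) [Fact p.Prime] [CharP K p] (v : K) (a b : ℕ) :
    AS p (v ^ p ^ a * v ^ p ^ b - br p v ((b : ℤ) - a)) := by
  rcases le_total a b with hab | hab
  · have h1 : ((b : ℤ) - a).natAbs = b - a := by omega
    have h2 : v ^ p ^ a * v ^ p ^ b = (br p v ((b : ℤ) - a)) ^ p ^ a := by
      unfold br
      have h3 : p ^ b = p ^ (b - a) * p ^ a := by rw [← pow_add, Nat.sub_add_cancel hab]
      rw [h1, mul_pow, ← pow_mul, ← h3]
    rw [h2]
    exact AS.frob_iter _ _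
  · have h1 : ((b : ℤ) - a).natAbs = a - b := by omega
    have h2 : v ^ p ^ a * v ^ p ^ b = (br p v ((b : ℤ) - a)) ^ p ^ b := by
      unfold br
      have h3 : p ^ a = p ^ (a - b) * p ^ b := by rw [← pow_add, Nat.sub_add_cancel hab]
      rw [h1, mul_pow, ← pow_mul, ← h3, mul_comm]
    rw [h2]
    exact AS.frob_iter _ _

theorem b4_coeff_sum (p : ℕ) [Fact p.Prime] [CharP K p] (P Q : (ZMod p)[X]) (D : ℕ)
    (hP : P.natDegree ≤ D) (hQ : Q.natDegree ≤ D) (g : ℕ → K) :
    ∑ i ∈ range (2 * D + 1), cc p K ((P * Q).coeff i) * g i =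
      ∑ s ∈ range (D + 1), ∑ t ∈ range (D + 1),
        cc p K (P.coeff s) * cc p K (Q.coeff t) * g (s + t) := by
  have hPs : P = ∑ s ∈ range (D + 1), monomial s (P.coeff s) :=
    P.as_sum_range' (D + 1) (by omega)
  have hQs : Q = ∑ t ∈ range (D + 1), monomial t (Q.coeff t) :=
    Q.as_sum_range' (D + 1) (by omega)
  have hc : ∀ i, (P * Q).coeff i = ∑ s ∈ range (D + 1), ∑ t ∈ range (D + 1),
      if s + t = i then P.coeff s * Q.coeff t else 0 := by
    intro i
    conv_lhs => rw [hPs, hQs]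
    rw [Finset.sum_mul_sum]
    simp_rw [monomial_mul_monomial, finsetSum_coeff, coeff_monomial]
  simp_rw [hc, map_sum, Finset.sum_mul]
  rw [Finset.sum_comm]
  refine Finset.sum_congr rfl fun s hs => ?_
  rw [Finset.sum_comm]
  refine Finset.sum_congr rfl fun t ht => ?_
  rw [Finset.mem_range] at hs ht
  have : ∀ i ∈ range (2 * D + 1), cc p K (if s + t = i then P.coeff s * Q.coeff t else 0) * g i =
      if s + t = i then cc p K (P.coeff s) * cc p K (Q.coeff t) * g i else 0 := by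
    intro i _
    split_ifs
    · rw [map_mul]
    · rw [map_zero, zero_mul]
  rw [Finset.sum_congr rfl this, Finset.sum_ite_eq, if_pos (Finset.mem_range.2 (by omega))]

theorem bilin (p : ℕ) [Fact p.Prime] [CharP K p] (A B u : (ZMod p)[X]) (D κ : ℕ)
    (hA : A.natDegree ≤ D) (hB : B.natDegree ≤ D) (h : reflect D A * B = u) (v : K) :
    AS p (ev p A v * ev p B v ^ p ^ κ -
      ∑ i ∈ range (2 * D + 1), cc p K (u.coeff i) * br p v ((κ : ℤ) + i - D)) := by
  have hR : (reflect D A).natDegree ≤ D := by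
    rw [natDegree_le_iff_coeff_eq_zero]
    intro N hN
    rw [coeff_reflect, revAt_eq_self_of_lt hN]
    exact coeff_eq_zero_of_natDegree_lt (by omega)
  rw [← h, b4_coeff_sum p (reflect D A) B D hR hB (fun i => br p v ((κ : ℤ) + i - D)),
    ← Finset.sum_range_reflect, ev_range A v (Nat.lt_succ_of_le hA),
    ev_pow B v κ (Nat.lt_succ_of_le hB), Finset.sum_mul_sum, ← Finset.sum_sub_distrib]
  refine AS.sum _ _ fun l hl => ?_
  rw [← Finset.sum_sub_distrib]
  refine AS.sum _ _ fun t ht => ?_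
  rw [Finset.mem_range] at hl ht
  have h1 : (reflect D A).coeff (D + 1 - 1 - l) = A.coeff l := by
    rw [coeff_reflect, revAt_le (by omega)]
    congr 1
    omega
  rw [h1]
  have h2 : ((κ : ℤ) + ((D + 1 - 1 - l + t : ℕ) : ℤ) - D) = ((t + κ : ℕ) : ℤ) - l := by
    push_cast [Nat.cast_sub (show l ≤ D by omega)]
    omega
  rw [h2]
  have h3 := (br_equiv p v l (t + κ)).smul (A.coeff l * B.coeff t)
  convert h3 using 1
  rw [map_mul]
  ring

theorem sum_br_large (p : ℕ) [Fact p.Prime] [CharP K p] (u : (ZMod p)[X]) (D κ : ℕ)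
    (hu : u.natDegree ≤ 2 * D) (hκ : D ≤ κ) (v : K) :
    ∑ i ∈ range (2 * D + 1), cc p K (u.coeff i) * br p v ((κ : ℤ) + i - D) =
      v * ev p u v ^ p ^ (κ - D) := by
  rw [ev_pow u v (κ - D) (Nat.lt_succ_of_le hu), Finset.mul_sum]
  refine Finset.sum_congr rfl fun i _ => ?_
  have h1 : ((κ : ℤ) + i - D).natAbs = i + (κ - D) := by omega
  unfold br
  rw [h1]
  ring

end genB4

end Pool.Agent.H367R2.H10
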