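import Mathlib

/-!
# Lines in hypersurfaces over finite fields
-/

namespace Pool.Agent.H534R2.AKtt

open MvPolynomial

variable {F : Type} [Field F]

/-- a vector of the coordinate subspace of dimension `M` -/
def ext {s M : ℕ} (b : Fin M → F) : Fin s → F :=
  fun i => if h : i.val < M then b ⟨i.val, h⟩ else 0

/-- substitution of the generic line through `y` with direction in the coordinate subspace of
dimension `M` -/
noncomputable def lsub {s : ℕ} (M : ℕ) (y : Fin s → F) :
    MvPolynomial (Fin s) F →ₐ[F] Polynomial (MvPolynomial (Fin M) F) :=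
  aeval (fun i => Polynomial.C (C (y i)) +
    Polynomial.X * Polynomial.C (if h : i.val < M then X ⟨i.val, h⟩ else 0))

lemma lsub_X {s M : ℕ} (y : Fin s → F) (i : Fin s) : lsub M y (X i) = Polynomial.C (C (y i)) +
    Polynomial.X * Polynomial.C (if h : i.val < M then X ⟨i.val, h⟩ else 0) := by
  simp [lsub]

lemma lsub_C {s M : ℕ} (y : Fin s → F) (a : F) : lsub M y (C a) = Polynomial.C (C a) := by
  have h := (lsub M y).commutes a
  exact h

lemma lsub_eval {s M : ℕ} (y : Fin s → F) (b : Fin M → F) (τ : F) (f : MvPolynomial (Fin s) F) :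
    ((lsub M y f).map (eval b)).eval τ = eval (fun i => y i + τ * ext b i) f := by
  induction f using MvPolynomial.induction_on with
  | C a => rw [lsub_C]; simp
  | add p q hp hq => rw [map_add, Polynomial.map_add, Polynomial.eval_add, hp, hq, map_add]
  | mul_X p i hp =>
      rw [map_mul, Polynomial.map_mul, Polynomial.eval_mul, hp, map_mul, lsub_X]
      congr 1
      simp only [Polynomial.map_add, Polynomial.map_C, Polynomial.map_mul, Polynomial.map_X,
        Polynomial.eval_add, Polynomial.eval_C, Polynomial.eval_mul, Polynomial.eval_X, eval_C,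
        eval_X, ext]
      split_ifs <;> simp

lemma lsub_zero {s M : ℕ} (y : Fin s → F) (f : MvPolynomial (Fin s) F) :
    (lsub M y f).map (eval (0 : Fin M → F)) = Polynomial.C (eval y f) := by
  induction f using MvPolynomial.induction_on with
  | C a => rw [lsub_C]; simp
  | add p q hp hq => rw [map_add, Polynomial.map_add, hp, hq, map_add, map_add]
  | mul_X p i hp =>
      rw [map_mul, Polynomial.map_mul, hp, map_mul, map_mul, lsub_X]
      congr 1
      simp only [Polynomial.map_add, Polynomial.map_C, Polynomial.map_mul, Polynomial.map_X,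
        eval_C, eval_X]
      split_ifs <;> simp

lemma lsub_scale {s M : ℕ} (y : Fin s → F) (c : F) (b : Fin M → F) (f : MvPolynomial (Fin s) F) :
    (lsub M y f).map (eval (c • b)) =
      ((lsub M y f).map (eval b)).comp (Polynomial.C c * Polynomial.X) := by
  induction f using MvPolynomial.induction_on with
  | C a => rw [lsub_C]; simp
  | add p q hp hq =>
      rw [map_add, Polynomial.map_add, hp, hq, Polynomial.map_add, Polynomial.add_comp]
  | mul_X p i hp =>
      rw [map_mul, Polynomial.map_mul, hp, Polynomial.map_mul, Polynomial.mul_comp, lsub_X]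
      congr 1
      simp only [Polynomial.map_add, Polynomial.map_C, Polynomial.map_mul, Polynomial.map_X,
        eval_C, Polynomial.add_comp, Polynomial.C_comp, Polynomial.mul_comp, Polynomial.X_comp]
      split_ifs with h
      · simp only [eval_X, Pi.smul_apply, smul_eq_mul, map_mul]
        ring
      · simp

lemma lsub_coeff_scale {s M : ℕ} (y : Fin s → F) (c : F) (b : Fin M → F)
    (f : MvPolynomial (Fin s) F) (j : ℕ) :
    eval (c • b) ((lsub M y f).coeff j) = eval b ((lsub M y f).coeff j) * c ^ j := by
  have h := congrArg (fun p => Polynomial.coeff p j) (lsub_scale y c b f)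
  simp only [Polynomial.coeff_map, Polynomial.comp_C_mul_X_coeff] at h
  exact h

/-- restriction to a smaller coordinate subspace -/
lemma lsub_spec {s M M' : ℕ} (h : M' ≤ M) (y : Fin s → F) (f : MvPolynomial (Fin s) F) :
    lsub M' y f = (lsub M y f).map ((aeval (fun i : Fin M =>
      if h : i.val < M' then (X ⟨i.val, h⟩ : MvPolynomial (Fin M') F) else 0) :
      MvPolynomial (Fin M) F →ₐ[F] MvPolynomial (Fin M') F) : MvPolynomial (Fin M) F →+*
        MvPolynomial (Fin M') F) := by
  induction f using MvPolynomial.induction_on with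
  | C a => rw [lsub_C, lsub_C]; simp
  | add p q hp hq => rw [map_add, hp, hq, map_add, Polynomial.map_add]
  | mul_X p i hp =>
      rw [map_mul, hp, map_mul, Polynomial.map_mul, lsub_X, lsub_X]
      congr 1
      simp only [Polynomial.map_add, Polynomial.map_C, Polynomial.map_mul, Polynomial.map_X]
      congr 1
      · simp
      · congr 1
        by_cases h1 : i.val < M'
        · have h2 : i.val < M := lt_of_lt_of_le h1 h
          simp [h1, h2]
        · by_cases h2 : i.val < M
          · simp [h1, h2]
          · simp [h1, h2]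

lemma lsub_totalDegree {s M : ℕ} (y : Fin s → F) (f : MvPolynomial (Fin s) F) :
    ∀ j, ((lsub M y f).coeff j).totalDegree ≤ j := by
  induction f using MvPolynomial.induction_on with
  | C a =>
      intro j
      rw [lsub_C, Polynomial.coeff_C]
      split_ifs <;> simp
  | add p q hp hq =>
      intro j
      rw [map_add, Polynomial.coeff_add]
      exact (totalDegree_add _ _).trans (max_le (hp j) (hq j))
  | mul_X p i hp =>
      intro j
      have hX : ∀ k, ((lsub M y (X i)).coeff k).totalDegree ≤ k := by
        intro k
        rw [lsub_X, Polynomial.coeff_add, Polynomial.coeff_C]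
        refine (totalDegree_add _ _).trans (max_le ?_ ?_)
        · split_ifs <;> simp
        · rcases k with _ | k
          · simp
          · rw [Polynomial.coeff_X_mul, Polynomial.coeff_C]
            split_ifs with h1 h2
            · rw [totalDegree_X]; omega
            · simp
            · simp
      rw [map_mul, Polynomial.coeff_mul]
      refine totalDegree_finsetSum_le (fun x hx => ?_)
      have hx' := Finset.HasAntidiagonal.mem_antidiagonal.1 hx
      calc _ ≤ ((lsub M y p).coeff x.1).totalDegree + ((lsub M y (X i)).coeff x.2).totalDegree :=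
            totalDegree_mul _ _
        _ ≤ x.1 + x.2 := add_le_add (hp _) (hX _)
        _ = j := hx'

lemma lsub_natDegree {s M : ℕ} (y : Fin s → F) (f : MvPolynomial (Fin s) F) :
    (lsub M y f).natDegree ≤ f.totalDegree := by
  have h1 : lsub M y f = ∑ d ∈ f.support, Polynomial.C (C (coeff d f)) *
      ∏ i, (lsub M y (X i)) ^ d i := by
    conv_lhs => rw [f.as_sum]
    rw [map_sum]
    apply Finset.sum_congr rfl
    intro d _
    rw [monomial_eq, map_mul, lsub_C, Finsupp.prod_fintype _ _ (by simp), map_prod]
    simp only [map_pow]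
  rw [h1]
  apply Polynomial.natDegree_sum_le_of_forall_le
  intro d hd
  refine (Polynomial.natDegree_C_mul_le _ _).trans ((Polynomial.natDegree_prod_le _ _).trans ?_)
  have h2 : ∀ i : Fin s, ((lsub M y (X i)) ^ d i).natDegree ≤ d i := by
    intro i
    refine Polynomial.natDegree_pow_le.trans ?_
    have h3 : (lsub M y (X i)).natDegree ≤ 1 := by
      rw [lsub_X]
      refine (Polynomial.natDegree_add_le _ _).trans (max_le ?_ ?_)
      · simp
      · refine Polynomial.natDegree_mul_le.trans ?_
        have h4 := Polynomial.natDegree_X_le (R := MvPolynomial (Fin M) F)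
        simp only [Polynomial.natDegree_C, add_zero]
        exact h4
    calc d i * (lsub M y (X i)).natDegree ≤ d i * 1 := Nat.mul_le_mul_left _ h3
      _ = d i := mul_one _
  calc ∑ i, ((lsub M y (X i)) ^ d i).natDegree ≤ ∑ i, d i := Finset.sum_le_sum fun i _ => h2 i
    _ = d.sum (fun _ e => e) := (Finsupp.sum_fintype d (fun _ e => e) (fun _ => rfl)).symm
    _ ≤ f.totalDegree := le_totalDegree hd

/-- Chevalley-Warning for lines: through a point of a hypersurface there is a line contained in
it, if the sum of the degrees of the nonvanishing conditions is less than the dimension. -/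
lemma exists_line [Fintype F] {s M : ℕ} (y : Fin s → F) (f : MvPolynomial (Fin s) F)
    (J : Finset ℕ) (h0 : ∀ j, j ∉ J → 1 ≤ j → (lsub M y f).coeff j = 0) (hJ : ∑ j ∈ J, j < M)
    (hy : eval y f = 0) :
    ∃ b : Fin M → F, b ≠ 0 ∧ (∀ j, eval b ((lsub M y f).coeff j) = 0) ∧
      ∀ τ : F, eval (fun i => y i + τ * ext b i) f = 0 := by
  classical
  obtain ⟨p, hp⟩ := CharP.exists F
  have := hp
  have hprime : p.Prime := CharP.char_is_prime F p
  have hcw := char_dvd_card_solutions_of_sum_lt (K := F) (σ := Fin M) p (s := J)
    (f := fun j => (lsub M y f).coeff j) (by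
      rw [Fintype.card_fin]
      exact lt_of_le_of_lt (Finset.sum_le_sum fun j _ => lsub_totalDegree y f j) hJ)
  have hz : ∀ j ∈ J, eval (0 : Fin M → F) ((lsub M y f).coeff j) = 0 := by
    intro j _
    have h := congrArg (fun q => Polynomial.coeff q j) (lsub_zero (M := M) y f)
    simp only [Polynomial.coeff_map, hy, map_zero, Polynomial.coeff_zero] at h
    exact h
  have hpos : 0 < Fintype.card {x : Fin M → F // ∀ j ∈ J, eval x ((lsub M y f).coeff j) = 0} :=
    Fintype.card_pos_iff.2 ⟨⟨0, hz⟩⟩
  have h2 : 1 < Fintype.card {x : Fin M → F // ∀ j ∈ J, eval x ((lsub M y f).coeff j) = 0} :=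
    lt_of_lt_of_le hprime.one_lt (Nat.le_of_dvd hpos hcw)
  obtain ⟨⟨b, hb⟩, hne⟩ := Fintype.exists_ne_of_one_lt_card h2 ⟨0, hz⟩
  have hne' : b ≠ 0 := fun h => hne (Subtype.ext h)
  have hc0 : eval b ((lsub M y f).coeff 0) = 0 := by
    have h := lsub_eval y b 0 f
    rw [← Polynomial.coeff_zero_eq_eval_zero, Polynomial.coeff_map] at h
    rw [h]
    simpa using hy
  have hall : ∀ j, eval b ((lsub M y f).coeff j) = 0 := by
    intro j
    by_cases hj : j ∈ J
    · exact hb j hj
    · rcases Nat.eq_zero_or_pos j with h | h
      · rw [h]; exact hc0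
      · rw [h0 j hj h, map_zero]
  refine ⟨b, hne', hall, fun τ => ?_⟩
  rw [← lsub_eval]
  have h3 : (lsub M y f).map (eval b) = 0 := by
    ext j
    rw [Polynomial.coeff_map, hall j, Polynomial.coeff_zero]
  rw [h3, Polynomial.eval_zero]

end Pool.Agent.H534R2.AKtt
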