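import Mathlib
import Pool.Agent.H534R2.AKttLine

/-!
# Counting lines in neighbourhoods
-/

namespace Pool.Agent.H534R2.AKtt

open MvPolynomial Finset

variable {F : Type} [Field F]

/-- double counting -/
lemma count_lines [Fintype F] [DecidableEq F] {s : ℕ} {X : Type} [Fintype X]
    (N : X → (Fin s → F) → Prop) [∀ x y, Decidable (N x y)]
    (Dy : (Fin s → F) → Finset (Fin s → F))
    (h0 : ∀ y, ∀ v ∈ Dy y, v ≠ 0) (hsc : ∀ y, ∀ v ∈ Dy y, ∀ c : F, c ≠ 0 → c • v ∈ Dy y)
    (hdir : ∀ x y, N x y → ∃ v ∈ Dy y, ∀ τ : F, N x (y + τ • v)) (t B : ℕ)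
    (ht : ∀ y v : Fin s → F, v ≠ 0 → (univ.filter (fun x => ∀ τ : F, N x (y + τ • v))).card ≤ t)
    (hB : ∀ y, (Dy y).card ≤ B) :
    (Fintype.card F - 1) * (univ.filter (fun p : X × (Fin s → F) => N p.1 p.2)).card ≤
      t * (Fintype.card F ^ s * B) := by
  classical
  have hlow : ∀ p : X × (Fin s → F), N p.1 p.2 → Fintype.card F - 1 ≤
      ((Dy p.2).filter (fun v => ∀ τ : F, N p.1 (p.2 + τ • v))).card := by
    rintro ⟨x, y⟩ hxy
    obtain ⟨v, hv, hline⟩ := hdir x y hxy
    have hcard : (univ.filter (fun c : F => c ≠ 0)).card = Fintype.card F - 1 := by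
      rw [Finset.filter_ne' univ (0 : F), Finset.card_erase_of_mem (mem_univ _), card_univ]
    rw [← hcard]
    apply Finset.card_le_card_of_injOn (fun c => c • v)
    · intro c hc
      have hc' := (mem_filter.1 (mem_coe.1 hc)).2
      rw [mem_coe, mem_filter]
      refine ⟨hsc y v hv c hc', fun τ => ?_⟩
      have h1 := hline (τ * c)
      rwa [mul_smul] at h1
    · intro c _ c' _ hcc
      have hv0 := h0 y v hv
      have h2 : (c - c') • v = 0 := by
        have h3 : c • v = c' • v := hcc
        rw [sub_smul, h3, sub_self]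
      rcases smul_eq_zero.1 h2 with h | h
      · exact sub_eq_zero.1 h
      · exact absurd h hv0
  have h1 : (Fintype.card F - 1) * (univ.filter (fun p : X × (Fin s → F) => N p.1 p.2)).card ≤
      ∑ p : X × (Fin s → F), ((Dy p.2).filter (fun v => ∀ τ : F, N p.1 (p.2 + τ • v))).card := by
    calc _ = ∑ p ∈ univ.filter (fun p : X × (Fin s → F) => N p.1 p.2), (Fintype.card F - 1) := by
          rw [sum_const, smul_eq_mul, mul_comm]
      _ ≤ ∑ p ∈ univ.filter (fun p : X × (Fin s → F) => N p.1 p.2),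
          ((Dy p.2).filter (fun v => ∀ τ : F, N p.1 (p.2 + τ • v))).card :=
          sum_le_sum fun p hp => hlow p (mem_filter.1 hp).2
      _ ≤ _ := sum_le_sum_of_subset (subset_univ _)
  refine h1.trans ?_
  rw [Fintype.sum_prod_type_right]
  have h2 : ∀ y : Fin s → F, ∑ x : X, ((Dy y).filter (fun v => ∀ τ : F, N x (y + τ • v))).card ≤
      t * B := by
    intro y
    have h3 : ∑ x : X, ((Dy y).filter (fun v => ∀ τ : F, N x (y + τ • v))).card =
        ∑ v ∈ Dy y, (univ.filter (fun x => ∀ τ : F, N x (y + τ • v))).card := by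
      simp only [card_filter]
      rw [sum_comm]
    rw [h3]
    calc ∑ v ∈ Dy y, (univ.filter (fun x => ∀ τ : F, N x (y + τ • v))).card ≤ ∑ v ∈ Dy y, t :=
          sum_le_sum fun v hv => ht y v (h0 y v hv)
      _ = (Dy y).card * t := by rw [sum_const, smul_eq_mul]
      _ ≤ B * t := Nat.mul_le_mul_right _ (hB y)
      _ = t * B := mul_comm _ _
  calc ∑ y : Fin s → F, ∑ x : X, ((Dy y).filter (fun v => ∀ τ : F, N x (y + τ • v))).card
      ≤ ∑ _y : Fin s → F, t * B := sum_le_sum fun y _ => h2 y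
    _ = t * (Fintype.card F ^ s * B) := by
        rw [sum_const, smul_eq_mul, card_univ, Fintype.card_fun, Fintype.card_fin]
        ring

/-- a line contained in the neighbourhoods of `t` vertices gives a `K_{t,t}` -/
lemma not_free_of_line [Fintype F] [DecidableEq F] {s t : ℕ} (hq : 2 * t ≤ Fintype.card F)
    (G : SimpleGraph (Fin s → F)) (f : (Fin s → F) → MvPolynomial (Fin s) F)
    (hG : ∀ x y, y ≠ x → (G.Adj x y ↔ eval y (f x) = 0)) (y v : Fin s → F) (hv : v ≠ 0)
    (h : t ≤ (univ.filter (fun x => ∀ τ : F, eval (y + τ • v) (f x) = 0)).card) :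
    ¬ (completeBipartiteGraph (Fin t) (Fin t)).Free G := by
  classical
  obtain ⟨A, hA, hAc⟩ := Finset.exists_subset_card_eq h
  -- the points of the line
  set Ln : Finset (Fin s → F) := univ.image (fun τ : F => y + τ • v) with hL
  have hinj : Function.Injective (fun τ : F => y + τ • v) := by
    intro τ τ' h1
    have h2 : τ • v = τ' • v := add_left_cancel h1
    have h3 : (τ - τ') • v = 0 := by rw [sub_smul, h2, sub_self]
    rcases smul_eq_zero.1 h3 with h | h
    · exact sub_eq_zero.1 h
    · exact absurd h hv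
  have hLc : Ln.card = Fintype.card F := by
    rw [hL, card_image_of_injective _ hinj, card_univ]
  have hBc : t ≤ (Ln \ A).card := by
    have h4 := Finset.le_card_sdiff A Ln
    omega
  obtain ⟨B, hB, hBc'⟩ := Finset.exists_subset_card_eq hBc
  have eA : Fin t ≃ A := (Finset.equivFinOfCardEq hAc).symm
  have eB : Fin t ≃ B := (Finset.equivFinOfCardEq hBc').symm
  have hadj : ∀ i j, G.Adj (eA i).1 (eB j).1 := by
    intro i j
    have h5 := (mem_filter.1 (hA (eA i).2)).2
    have h6 := mem_sdiff.1 (hB (eB j).2)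
    obtain ⟨τ, _, hτ⟩ := mem_image.1 h6.1
    have hne : (eB j).1 ≠ (eA i).1 := by
      intro h7
      apply h6.2
      rw [h7]
      exact (eA i).2
    rw [hG _ _ hne, ← hτ]
    exact h5 τ
  intro hfree
  apply hfree
  refine ⟨⟨⟨Sum.elim (fun i => (eA i).1) (fun j => (eB j).1), ?_⟩, ?_⟩⟩
  · rintro (i | i) (j | j) hij
    · simp at hij
    · exact hadj i j
    · exact (hadj j i).symm
    · simp at hij
  · rintro (i | i) (j | j) hij
    · have h8 : (eA i).1 = (eA j).1 := hij
      rw [eA.injective (Subtype.ext h8)]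
    · have h8 : (eA i).1 = (eB j).1 := hij
      exact absurd (h8 ▸ (eA i).2) (mem_sdiff.1 (hB (eB j).2)).2
    · have h8 : (eB i).1 = (eA j).1 := hij
      exact absurd (h8 ▸ (eA j).2) (mem_sdiff.1 (hB (eB i).2)).2
    · have h8 : (eB i).1 = (eB j).1 := hij
      rw [eB.injective (Subtype.ext h8)]

lemma ext_ne_zero {s M : ℕ} (hM : M ≤ s) {b : Fin M → F} (hb : b ≠ 0) :
    (ext b : Fin s → F) ≠ 0 := by
  intro h
  apply hb
  funext i
  have h1 := congrFun h ⟨i.val, lt_of_lt_of_le i.isLt hM⟩
  simpa [ext] using h1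

lemma ext_smul {s M : ℕ} (c : F) (b : Fin M → F) : (ext (c • b) : Fin s → F) = c • ext b := by
  funext i
  simp only [ext, Pi.smul_apply, smul_eq_mul]
  split_ifs <;> simp

lemma card_adj_le {V : Type} [Fintype V] [DecidableEq V] (G : SimpleGraph V) [DecidableRel G.Adj]
    (N : V → V → Prop) [∀ x y, Decidable (N x y)] (hN : ∀ x y, G.Adj x y → N x y) :
    2 * G.edgeFinset.card ≤ (univ.filter (fun p : V × V => N p.1 p.2)).card := by
  rw [← SimpleGraph.sum_degrees_eq_twice_card_edges]
  have h1 : ∑ v, G.degree v = (univ.filter (fun p : V × V => G.Adj p.1 p.2)).card := by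
    rw [card_filter, Fintype.sum_prod_type]
    apply sum_congr rfl
    intro v _
    rw [← SimpleGraph.card_neighborFinset_eq_degree, SimpleGraph.neighborFinset_eq_filter,
      card_filter]
  rw [h1]
  apply card_le_card
  intro p hp
  rw [mem_filter] at hp ⊢
  exact ⟨hp.1, hN _ _ hp.2⟩

/-- zeros of a nonzero polynomial -/
lemma card_zeros [Fintype F] [DecidableEq F] {n d : ℕ} (p : MvPolynomial (Fin (n + 1)) F)
    (hp : p ≠ 0) (hd : p.totalDegree ≤ d) :
    (univ.filter (fun b : Fin (n + 1) → F => eval b p = 0)).card ≤ d * Fintype.card F ^ n := by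
  have h := schwartz_zippel_totalDegree hp (univ : Finset F)
  have h1 : (Fintype.piFinset fun _ : Fin (n + 1) => (univ : Finset F)) = univ := by
    ext b; simp
  rw [h1, card_univ] at h
  have hq : (0 : ℚ≥0) < Fintype.card F := by exact_mod_cast Fintype.card_pos
  rw [div_le_div_iff₀ (by positivity) hq] at h
  have h2 : ((univ.filter (fun b : Fin (n + 1) → F => eval b p = 0)).card : ℚ≥0) *
      Fintype.card F ≤ (d * Fintype.card F ^ n) * Fintype.card F := by
    calc _ ≤ (p.totalDegree : ℚ≥0) * Fintype.card F ^ (n + 1) := h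
      _ ≤ (d : ℚ≥0) * Fintype.card F ^ (n + 1) := by
          apply mul_le_mul_of_nonneg_right _ (by positivity)
          exact_mod_cast hd
      _ = _ := by ring
  have h3 := le_of_mul_le_mul_right h2 hq
  exact_mod_cast h3

end Pool.Agent.H534R2.AKtt
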