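import Mathlib
import Pool.Agent.H534R2.AKttCount

/-!
# Degree barrier for algebraic `K_{t,t}`-free graphs
-/

namespace Pool.Agent.H534R2.AKtt

open MvPolynomial Finset

variable {F : Type} [Field F]

lemma two_sumIcc (d : ℕ) : 2 * ∑ j ∈ Icc 1 d, j = d * (d + 1) := by
  induction d with
  | zero => simp
  | succ d ih =>
      rw [Finset.sum_Icc_succ_top (by omega), mul_add, ih]
      ring

lemma sumIcc (d : ℕ) : ∑ j ∈ Icc 1 d, j = d * (d + 1) / 2 := by
  have h := two_sumIcc d
  omega

lemma coeff_big {s M d : ℕ} (y : Fin s → F) (f : MvPolynomial (Fin s) F) (hd : f.totalDegree ≤ d)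
    {j : ℕ} (hj : d < j) : (lsub M y f).coeff j = 0 :=
  Polynomial.coeff_eq_zero_of_natDegree_lt (lt_of_le_of_lt ((lsub_natDegree y f).trans hd) hj)

lemma ext_line {s M : ℕ} (y : Fin s → F) (b : Fin M → F) (τ : F) :
    (fun i => y i + τ * ext b i) = y + τ • ext b := by
  funext i
  simp

/-- the general bound -/
lemma edges_le [Fintype F] [DecidableEq F] {s t B : ℕ} (hq : 2 * t ≤ Fintype.card F)
    (G : SimpleGraph (Fin s → F)) [DecidableRel G.Adj] (f : (Fin s → F) → MvPolynomial (Fin s) F)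
    (hG : ∀ x y, y ≠ x → (G.Adj x y ↔ eval y (f x) = 0))
    (hfree : (completeBipartiteGraph (Fin t) (Fin t)).Free G)
    (Dy : (Fin s → F) → Finset (Fin s → F))
    (h0 : ∀ y, ∀ v ∈ Dy y, v ≠ 0) (hsc : ∀ y, ∀ v ∈ Dy y, ∀ c : F, c ≠ 0 → c • v ∈ Dy y)
    (hdir : ∀ x y, eval y (f x) = 0 → ∃ v ∈ Dy y, ∀ τ : F, eval (y + τ • v) (f x) = 0)
    (hB : ∀ y, (Dy y).card ≤ B) :
    Fintype.card F * G.edgeFinset.card ≤ t * (Fintype.card F ^ s * B) := by
  have ht : ∀ y v : Fin s → F, v ≠ 0 →
      (univ.filter (fun x => ∀ τ : F, eval (y + τ • v) (f x) = 0)).card ≤ t := by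
    intro y v hv
    by_contra hcon
    exact not_free_of_line hq G f hG y v hv (not_le.1 hcon).le hfree
  have h1 := count_lines (fun x y => eval y (f x) = 0) Dy h0 hsc hdir t B ht hB
  have h2 := card_adj_le G (fun x y => eval y (f x) = 0) (fun x y hxy =>
    (hG x y hxy.ne').1 hxy)
  have h3 : 1 < Fintype.card F := Fintype.one_lt_card
  have h4 : Fintype.card F ≤ (Fintype.card F - 1) * 2 := by omega
  calc Fintype.card F * G.edgeFinset.card
      ≤ (Fintype.card F - 1) * 2 * G.edgeFinset.card := Nat.mul_le_mul_right _ h4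
    _ = (Fintype.card F - 1) * (2 * G.edgeFinset.card) := by ring
    _ ≤ _ := (Nat.mul_le_mul_left _ h2).trans h1

/-- Case 1. -/
lemma bound_one [Fintype F] [DecidableEq F] {s t d : ℕ} (hq : 2 * t ≤ Fintype.card F)
    (G : SimpleGraph (Fin s → F)) [DecidableRel G.Adj] (f : (Fin s → F) → MvPolynomial (Fin s) F)
    (hd : ∀ x, (f x).totalDegree ≤ d)
    (hG : ∀ x y, y ≠ x → (G.Adj x y ↔ eval y (f x) = 0))
    (hfree : (completeBipartiteGraph (Fin t) (Fin t)).Free G) (hs : d * (d + 1) / 2 < s) :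
    G.edgeFinset.card ≤ t * Fintype.card F ^ (s + d * (d + 1) / 2) := by
  classical
  set D := d * (d + 1) / 2 with hD
  have key := edges_le (B := Fintype.card F ^ (D + 1)) hq G f hG hfree
    (fun _ => (univ.filter (fun b : Fin (D + 1) → F => b ≠ 0)).image ext) ?_ ?_ ?_ ?_
  · have hpos : 0 < Fintype.card F := Fintype.card_pos
    apply Nat.le_of_mul_le_mul_left _ hpos
    calc _ ≤ _ := key
      _ = Fintype.card F * (t * Fintype.card F ^ (s + D)) := by ring
  · intro y v hv
    obtain ⟨b, hb, rfl⟩ := mem_image.1 hv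
    exact ext_ne_zero hs (mem_filter.1 hb).2
  · intro y v hv c hc
    obtain ⟨b, hb, rfl⟩ := mem_image.1 hv
    refine mem_image.2 ⟨c • b, mem_filter.2 ⟨mem_univ _, ?_⟩, ext_smul c b⟩
    exact smul_ne_zero hc (mem_filter.1 hb).2
  · intro x y hxy
    obtain ⟨b, hb, _, hline⟩ := exists_line (M := D + 1) y (f x) (Icc 1 d) (fun j hj hj1 => by
      apply coeff_big y (f x) (hd x)
      rw [mem_Icc] at hj
      omega) (by rw [sumIcc]; omega) hxy
    refine ⟨ext b, mem_image.2 ⟨b, mem_filter.2 ⟨mem_univ _, hb⟩, rfl⟩, fun τ => ?_⟩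
    rw [← ext_line]
    exact hline τ
  · intro y
    refine card_image_le.trans ((card_filter_le _ _).trans ?_)
    rw [card_univ, Fintype.card_fun, Fintype.card_fin]

/-- Case 2: common leading form. -/
lemma bound_two [Fintype F] [DecidableEq F] {s t d : ℕ} (hq : 2 * t ≤ Fintype.card F)
    (G : SimpleGraph (Fin s → F)) [DecidableRel G.Adj] (f : (Fin s → F) → MvPolynomial (Fin s) F)
    (hd : ∀ x, (f x).totalDegree ≤ d) (hlead : ∀ x x', (f x - f x').totalDegree < d)
    (hG : ∀ x y, y ≠ x → (G.Adj x y ↔ eval y (f x) = 0))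
    (hfree : (completeBipartiteGraph (Fin t) (Fin t)).Free G) (hs : d * (d + 1) / 2 < s) :
    Fintype.card F * G.edgeFinset.card ≤ t * d * Fintype.card F ^ (s + d * (d + 1) / 2) := by
  classical
  have hd1 : 1 ≤ d := by
    have := hlead 0 0
    omega
  set D := d * (d + 1) / 2 with hD
  have hDd : d ≤ D := by
    have h1 : d * 2 ≤ d * (d + 1) := Nat.mul_le_mul_left _ (by omega)
    omega
  have hDd' : ∑ j ∈ Icc 1 (d - 1), j = D - d := by
    have h1 : ∑ j ∈ Icc 1 d, j = D := sumIcc d
    have h2 : d = (d - 1) + 1 := by omega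
    have h3 : ∑ j ∈ Icc 1 ((d - 1) + 1), j = ∑ j ∈ Icc 1 (d - 1), j + ((d - 1) + 1) :=
      Finset.sum_Icc_succ_top (by omega) _
    rw [← h2, h1] at h3
    omega
  set M' := D - d + 1 with hM'
  have hM'D : M' ≤ D := by omega
  set g := f 0 with hg
  have hpos : 0 < Fintype.card F := Fintype.card_pos
  -- leading coefficients agree
  have hcoef : ∀ (M : ℕ) (x y : Fin s → F), (lsub M y (f x)).coeff d = (lsub M y g).coeff d := by
    intro M x y
    have h1 : (lsub M y (f x - g)).coeff d = 0 :=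
      Polynomial.coeff_eq_zero_of_natDegree_lt (lt_of_le_of_lt (lsub_natDegree y _) (hlead x 0))
    rw [map_sub, Polynomial.coeff_sub] at h1
    exact sub_eq_zero.1 h1
  let D1 : (Fin s → F) → Finset (Fin s → F) := fun y =>
    (univ.filter (fun b : Fin (D + 1) → F => b ≠ 0 ∧
      eval b ((lsub (D + 1) y g).coeff d) = 0)).image ext
  let D2 : Finset (Fin s → F) := (univ.filter (fun b : Fin M' → F => b ≠ 0)).image ext
  have key := edges_le (B := d * Fintype.card F ^ D) hq G f hG hfree
    (fun y => if (lsub (D + 1) y g).coeff d = 0 then D2 else D1 y) ?_ ?_ ?_ ?_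
  · calc _ ≤ _ := key
      _ = _ := by ring
  · intro y v hv
    by_cases hy : (lsub (D + 1) y g).coeff d = 0
    · rw [if_pos hy] at hv
      obtain ⟨b, hb, rfl⟩ := mem_image.1 hv
      exact ext_ne_zero (by omega) (mem_filter.1 hb).2
    · rw [if_neg hy] at hv
      obtain ⟨b, hb, rfl⟩ := mem_image.1 hv
      exact ext_ne_zero hs (mem_filter.1 hb).2.1
  · intro y v hv c hc
    by_cases hy : (lsub (D + 1) y g).coeff d = 0
    · rw [if_pos hy] at hv ⊢
      obtain ⟨b, hb, rfl⟩ := mem_image.1 hv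
      refine mem_image.2 ⟨c • b, mem_filter.2 ⟨mem_univ _, ?_⟩, ext_smul c b⟩
      exact smul_ne_zero hc (mem_filter.1 hb).2
    · rw [if_neg hy] at hv ⊢
      obtain ⟨b, hb, rfl⟩ := mem_image.1 hv
      refine mem_image.2 ⟨c • b, mem_filter.2 ⟨mem_univ _, ?_, ?_⟩, ext_smul c b⟩
      · exact smul_ne_zero hc (mem_filter.1 hb).2.1
      · rw [lsub_coeff_scale, (mem_filter.1 hb).2.2, zero_mul]
  · intro x y hxy
    by_cases hy : (lsub (D + 1) y g).coeff d = 0
    · simp only [if_pos hy]
      have hy' : (lsub M' y g).coeff d = 0 := by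
        rw [lsub_spec (by omega : M' ≤ D + 1) y g, Polynomial.coeff_map, hy, map_zero]
      obtain ⟨b, hb, _, hline⟩ := exists_line (M := M') y (f x) (Icc 1 (d - 1))
        (fun j hj hj1 => by
          rw [mem_Icc] at hj
          rcases Nat.lt_or_ge d j with h | h
          · exact coeff_big y (f x) (hd x) h
          · have h5 : j = d := by omega
            rw [h5, hcoef, hy']) (by rw [hDd']; omega) hxy
      refine ⟨ext b, mem_image.2 ⟨b, mem_filter.2 ⟨mem_univ _, hb⟩, rfl⟩, fun τ => ?_⟩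
      rw [← ext_line]
      exact hline τ
    · simp only [if_neg hy]
      obtain ⟨b, hb, hall, hline⟩ := exists_line (M := D + 1) y (f x) (Icc 1 d)
        (fun j hj hj1 => by
          apply coeff_big y (f x) (hd x)
          rw [mem_Icc] at hj
          omega) (by rw [sumIcc]; omega) hxy
      refine ⟨ext b, mem_image.2 ⟨b, mem_filter.2 ⟨mem_univ _, hb, ?_⟩, rfl⟩, fun τ => ?_⟩
      · rw [← hcoef (D + 1) x y]
        exact hall d
      · rw [← ext_line]
        exact hline τ
  · intro y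
    by_cases hy : (lsub (D + 1) y g).coeff d = 0
    · simp only [if_pos hy]
      refine card_image_le.trans ((card_filter_le _ _).trans ?_)
      rw [card_univ, Fintype.card_fun, Fintype.card_fin]
      calc Fintype.card F ^ M' ≤ Fintype.card F ^ D := Nat.pow_le_pow_right hpos hM'D
        _ = 1 * Fintype.card F ^ D := (one_mul _).symm
        _ ≤ d * Fintype.card F ^ D := Nat.mul_le_mul_right _ hd1
    · simp only [if_neg hy]
      refine card_image_le.trans ?_
      refine le_trans (card_le_card ?_) (card_zeros ((lsub (D + 1) y g).coeff d) hy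
        (lsub_totalDegree y g d))
      intro b hb
      exact mem_filter.2 ⟨mem_univ _, (mem_filter.1 hb).2.2⟩

end Pool.Agent.H534R2.AKtt
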