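import Mathlib

/-!
# Digraphs with small directed cuts

`DicutBound k E`: every directed cut of the digraph has at most `k` arcs.
-/

namespace Pool.Agent.H534R2

/-- Every directed cut has at most `k` arcs: if no arc leaves `S`, then at most `k` arcs enter `S`. -/
def DicutBound {V : Type} (k : ℕ) (E : V → V → Prop) : Prop :=
  ∀ S : Set V, (∀ x y, x ∈ S → E x y → y ∈ S) →
    {p : V × V | E p.1 p.2 ∧ p.1 ∉ S ∧ p.2 ∈ S}.ncard ≤ k

/-- in-degree -/
noncomputable def indeg {V : Type} (E : V → V → Prop) (v : V) : ℕ := {x : V | E x v}.ncard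

/-- out-degree -/
noncomputable def outdeg {V : Type} (E : V → V → Prop) (v : V) : ℕ := {y : V | E v y}.ncard

/-- The total imbalance `∑ max (indeg v - outdeg v) 0` is at most `k` (so `k = 0` means that every
vertex has equal in- and out-degree: the digraph is Eulerian). -/
def ImbalanceBound {V : Type} [Fintype V] (k : ℕ) (E : V → V → Prop) : Prop :=
  ∑ v : V, (indeg E v - outdeg E v) ≤ k

/-- There are `k` directed walks such that every arc belongs to one of them. -/
def WalkCover {V : Type} (k : ℕ) (E : V → V → Prop) : Prop :=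
  ∃ w : Fin k → List V, (∀ i, List.IsChain E (w i)) ∧
    ∀ x y, E x y → ∃ i, [x, y] <:+: w i

end Pool.Agent.H534R2
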