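import Pool.Agent.H534R2.FOSTC
import Pool.Agent.H534R2.DicutDefs

/-!
# Reachability in digraphs with small directed cuts is definable in `FO(STC)`
-/

namespace Pool.Agent.H534R2

open Relation

/-! ## combinatorics -/

/-- the arcs outside a list of pairs -/
def Rab {V : Type} (E : V → V → Prop) {k : ℕ} (a b : Fin k → V) (x y : V) : Prop :=
  E x y ∧ ∀ i, ¬ (x = a i ∧ y = b i)

/-- connected to `s` or one of the `b i` -/
def Sab {V : Type} (E : V → V → Prop) {k : ℕ} (a b : Fin k → V) (s z : V) : Prop :=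
  EqvGen (Rab E a b) s z ∨ ∃ i, EqvGen (Rab E a b) (b i) z

theorem Sab_step {V : Type} {E : V → V → Prop} {k : ℕ} {a b : Fin k → V} {s x y : V}
    (h : Sab E a b s x) (hxy : Rab E a b x y) : Sab E a b s y := by
  rcases h with h | ⟨i, h⟩
  · exact Or.inl (h.trans _ _ _ (EqvGen.rel _ _ hxy))
  · exact Or.inr ⟨i, h.trans _ _ _ (EqvGen.rel _ _ hxy)⟩

theorem reach_iff_dicut {V : Type} [Finite V] (E : V → V → Prop) (k : ℕ) (hk : DicutBound k E)
    (s t : V) : ReflTransGen E s t ↔
      ¬ ∃ a b : Fin k → V, ¬ Sab E a b s t ∧ ∀ i, ¬ Sab E a b s (a i) := by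
  constructor
  · rintro h ⟨a, b, h1, h2⟩
    apply h1
    induction h with
    | refl => exact Or.inl (EqvGen.refl _)
    | tail hxy hE ih =>
        rename_i x y
        have hx : Sab E a b s x := by
          by_contra hcon
          exact hcon (ih hcon)
        refine Sab_step hx ⟨hE, fun i hi => ?_⟩
        exact h2 i (hi.1 ▸ hx)
  · intro h
    by_contra hst
    apply h
    set R : Set V := {x | ReflTransGen E s x} with hR
    have hclosed : ∀ x y, x ∈ R → E x y → y ∈ R := fun x y hx hE => ReflTransGen.tail hx hE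
    set F : Set (V × V) := {p : V × V | E p.1 p.2 ∧ p.1 ∉ R ∧ p.2 ∈ R} with hF
    have hcard : F.ncard ≤ k := hk R hclosed
    have hfin : Finite F := inferInstance
    have hnc : Nat.card F = F.ncard := rfl
    let e : F ≃ Fin (Nat.card F) := Finite.equivFin F
    let f : Fin k → V × V := fun i => if hi : i.val < Nat.card F then ((e.symm ⟨i.val, hi⟩ : F) : V × V)
      else (t, s)
    have hf1 : ∀ p ∈ F, ∃ i, f i = p := by
      intro p hp
      have hlt := (e ⟨p, hp⟩).isLt
      refine ⟨⟨(e ⟨p, hp⟩).val, lt_of_lt_of_le hlt (by rw [hnc]; exact hcard)⟩, ?_⟩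
      simp only [f, hlt, dite_true]
      have h9 : e.symm ⟨(e ⟨p, hp⟩).val, hlt⟩ = ⟨p, hp⟩ := by
        rw [show (⟨(e ⟨p, hp⟩).val, hlt⟩ : Fin (Nat.card F)) = e ⟨p, hp⟩ from rfl]
        exact e.symm_apply_apply _
      rw [h9]
    have hf2 : ∀ i, (f i).1 ∉ R ∧ (f i).2 ∈ R := by
      intro i
      by_cases hi : i.val < Nat.card F
      · have h3 : f i = ((e.symm ⟨i.val, hi⟩ : F) : V × V) := by simp only [f, hi, dite_true]
        rw [h3]
        exact (e.symm ⟨i.val, hi⟩).2.2
      · have h3 : f i = (t, s) := by simp only [f, hi, dite_false]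
        rw [h3]
        exact ⟨hst, ReflTransGen.refl⟩
    have hinv : ∀ x y, EqvGen (Rab E (fun i => (f i).1) (fun i => (f i).2)) x y → (x ∈ R ↔ y ∈ R) := by
      intro x y hxy
      induction hxy with
      | rel x y h =>
          refine ⟨fun hx => hclosed x y hx h.1, fun hy => ?_⟩
          by_contra hx
          obtain ⟨i, hi⟩ := hf1 (x, y) ⟨h.1, hx, hy⟩
          exact h.2 i ⟨(congrArg Prod.fst hi).symm, (congrArg Prod.snd hi).symm⟩
      | refl x => rfl
      | symm x y _ ih => exact ih.symm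
      | trans x y z _ _ ih1 ih2 => exact ih1.trans ih2
    have hS : ∀ z, Sab E (fun i => (f i).1) (fun i => (f i).2) s z → z ∈ R := by
      intro z hz
      rcases hz with hz | ⟨i, hz⟩
      · exact (hinv _ _ hz).mp ReflTransGen.refl
      · exact (hinv _ _ hz).mp (hf2 i).2
    exact ⟨fun i => (f i).1, fun i => (f i).2, fun h1 => hst (hS t h1), fun i h1 => (hf2 i).1 (hS _ h1)⟩

/-! ## definability -/

theorem Dfn.tr {n : ℕ} : Dfn (n := n) (fun _ _ _ => True) :=
  (Dfn.all (Dfn.eq 0 0)).congr (fun _ _ _ => by simp)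

theorem Dfn.allFin {n k : ℕ} {Q : Fin k → Qry n} (h : ∀ i, Dfn (Q i)) :
    Dfn (fun V E ν => ∀ i, Q i V E ν) := by
  induction k with
  | zero => exact Dfn.tr.congr (fun V E ν => by simp)
  | succ k ih =>
      have h1 := (h 0).and (ih (fun i => h i.succ))
      exact h1.congr (fun V E ν => by rw [Fin.forall_fin_succ])

theorem Dfn.exFin {n k : ℕ} {Q : Fin k → Qry n} (h : ∀ i, Dfn (Q i)) :
    Dfn (fun V E ν => ∃ i, Q i V E ν) :=
  ((Dfn.allFin (fun i => (h i).neg)).neg).congr (fun V E ν => by push Not; rfl)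

/-- a block of existential quantifiers; the old variables are shifted by `m` -/
theorem Dfn.exs {n : ℕ} (m : ℕ) {Q : Qry (n + m)} (h : Dfn Q) :
    Dfn (fun V E ν => ∃ μ : Fin (n + m) → V, (∀ i : Fin n, μ ⟨i.val + m, by omega⟩ = ν i) ∧ Q V E μ) := by
  induction m with
  | zero =>
      refine h.congr (fun V E ν => ?_)
      constructor
      · intro hQ
        exact ⟨ν, fun i => rfl, hQ⟩
      · rintro ⟨μ, h1, h2⟩
        have : μ = ν := by funext i; exact h1 i
        rwa [this] at h2
  | succ m ih =>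
      have h1 := ih (Q := fun V E μ => ∃ a : V, Q V E (Fin.cons a μ)) (Dfn.ex h)
      refine h1.congr (fun V E ν => ?_)
      constructor
      · rintro ⟨μ, h2, a, h3⟩
        refine ⟨Fin.cons a μ, fun i => ?_, h3⟩
        have h4 : (⟨i.val + (m + 1), by omega⟩ : Fin (n + m + 1)) = Fin.succ ⟨i.val + m, by omega⟩ := by
          apply Fin.ext; simp; omega
        rw [h4, Fin.cons_succ]
        exact h2 i
      · rintro ⟨μ, h2, h3⟩
        refine ⟨fun i => μ i.succ, fun i => ?_, μ 0, ?_⟩
        · rw [← h2 i]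
          congr 1
        · have h4 : (Fin.cons (μ 0) (fun i => μ i.succ) : Fin (n + m + 1) → V) = μ := Fin.cons_self_tail μ
          exact (congrArg (Q V E) h4).mpr h3

/-- the formula -/
theorem dfn_dicut (k : ℕ) : Dfn2 (fun V E s t =>
    ¬ ∃ a b : Fin k → V, ¬ Sab E a b s t ∧ ∀ i, ¬ Sab E a b s (a i)) := by
  -- variables: `a i = μ (2 i)`, `b i = μ (2 i + 1)`, `s = μ (2 k)`, `t = μ (2 k + 1)`
  let ia : Fin k → Fin (2 + 2 * k) := fun i => ⟨2 * i.val, by omega⟩
  let ib : Fin k → Fin (2 + 2 * k) := fun i => ⟨2 * i.val + 1, by omega⟩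
  let is : Fin (2 + 2 * k) := ⟨2 * k, by omega⟩
  let it : Fin (2 + 2 * k) := ⟨2 * k + 1, by omega⟩
  have hR : Dfn (n := 2 + 2 * k + 2) (fun V E ν => Rab E (fun i => ν (ia i).succ.succ)
      (fun i => ν (ib i).succ.succ) (ν 0) (ν 1)) := by
    have h1 : Dfn (n := 2 + 2 * k + 2) (fun V E ν => E (ν 0) (ν 1)) := Dfn.edge 0 1
    have h2 : Dfn (n := 2 + 2 * k + 2) (fun V E ν => ∀ i : Fin k,
        ¬ (ν 0 = ν (ia i).succ.succ ∧ ν 1 = ν (ib i).succ.succ)) :=
      Dfn.allFin (fun i => ((Dfn.eq 0 (ia i).succ.succ).and (Dfn.eq 1 (ib i).succ.succ)).neg)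
    exact h1.and h2
  have hE : ∀ i j : Fin (2 + 2 * k), Dfn (n := 2 + 2 * k) (fun V E μ =>
      EqvGen (Rab E (fun i => μ (ia i)) (fun i => μ (ib i))) (μ i) (μ j)) := by
    intro i j
    refine (hR.stc i j).congr (fun V E μ => ?_)
    have : (fun x y : V => Rab E (fun i => (Fin.cons x (Fin.cons y μ) : Fin (2 + 2 * k + 2) → V) (ia i).succ.succ)
        (fun i => (Fin.cons x (Fin.cons y μ) : Fin (2 + 2 * k + 2) → V) (ib i).succ.succ)
        ((Fin.cons x (Fin.cons y μ) : Fin (2 + 2 * k + 2) → V) 0)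
        ((Fin.cons x (Fin.cons y μ) : Fin (2 + 2 * k + 2) → V) 1)) =
        Rab E (fun i => μ (ia i)) (fun i => μ (ib i)) := by
      funext x y
      simp only [Fin.cons_succ, Fin.cons_zero]
      have h1 : (Fin.cons x (Fin.cons y μ) : Fin (2 + 2 * k + 2) → V) 1 = y := by
        have : (1 : Fin (2 + 2 * k + 2)) = Fin.succ 0 := rfl
        rw [this, Fin.cons_succ, Fin.cons_zero]
      rw [h1]
    rw [this]
  have hS : ∀ j : Fin (2 + 2 * k), Dfn (n := 2 + 2 * k) (fun V E μ =>
      Sab E (fun i => μ (ia i)) (fun i => μ (ib i)) (μ is) (μ j)) := by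
    intro j
    exact (hE is j).or (Dfn.exFin (fun i => hE (ib i) j))
  have hB : Dfn (n := 2 + 2 * k) (fun V E μ =>
      ¬ Sab E (fun i => μ (ia i)) (fun i => μ (ib i)) (μ is) (μ it) ∧
      ∀ i : Fin k, ¬ Sab E (fun i => μ (ia i)) (fun i => μ (ib i)) (μ is) (μ (ia i))) :=
    (hS it).neg.and (Dfn.allFin (fun i => (hS (ia i)).neg))
  have hX := (Dfn.exs (n := 2) (2 * k) hB).neg
  refine Dfn.congr hX (fun V E ν => ?_)
  apply not_congr
  constructor
  · rintro ⟨μ, h1, h2⟩
    have hs : μ is = ν 0 := by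
      rw [← h1 0]; congr 1; apply Fin.ext; simp [is]
    have ht : μ it = ν 1 := by
      rw [← h1 1]; congr 1; apply Fin.ext; simp [it]; omega
    rw [hs, ht] at h2
    exact ⟨_, _, h2⟩
  · rintro ⟨a, b, h2⟩
    refine ⟨fun j => if h : j.val < 2 * k then (if j.val % 2 = 0 then a ⟨j.val / 2, by omega⟩
      else b ⟨j.val / 2, by omega⟩) else (if j.val = 2 * k then ν 0 else ν 1), ?_, ?_⟩
    · intro i
      have h3 : ¬ (i.val + 2 * k < 2 * k) := by omega
      simp only [h3, dite_false]
      match i with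
      | 0 => simp
      | 1 =>
        have h6 : ¬ (((1 : Fin 2).val + 2 * k) = 2 * k) := by simp
        simp only [h6, if_false]
    · have ha : ∀ i : Fin k, (fun j : Fin (2 + 2 * k) => if h : j.val < 2 * k then
          (if j.val % 2 = 0 then a ⟨j.val / 2, by omega⟩ else b ⟨j.val / 2, by omega⟩)
          else (if j.val = 2 * k then ν 0 else ν 1)) (ia i) = a i := by
        intro i
        have h3 : 2 * i.val < 2 * k := by have := i.isLt; omega
        have h4 : 2 * i.val % 2 = 0 := by omega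
        have h5 : (⟨2 * i.val / 2, by omega⟩ : Fin k) = i := by apply Fin.ext; simp
        simp only [ia, h3, dite_true, h4, if_true, h5]
      have hb : ∀ i : Fin k, (fun j : Fin (2 + 2 * k) => if h : j.val < 2 * k then
          (if j.val % 2 = 0 then a ⟨j.val / 2, by omega⟩ else b ⟨j.val / 2, by omega⟩)
          else (if j.val = 2 * k then ν 0 else ν 1)) (ib i) = b i := by
        intro i
        have h3 : 2 * i.val + 1 < 2 * k := by have := i.isLt; omega
        have h4 : ¬ ((2 * i.val + 1) % 2 = 0) := by omega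
        have h5 : (⟨(2 * i.val + 1) / 2, by omega⟩ : Fin k) = i := by apply Fin.ext; simp; omega
        simp only [ib, h3, dite_true, h4, if_false, h5]
      have hs : (fun j : Fin (2 + 2 * k) => if h : j.val < 2 * k then
          (if j.val % 2 = 0 then a ⟨j.val / 2, by omega⟩ else b ⟨j.val / 2, by omega⟩)
          else (if j.val = 2 * k then ν 0 else ν 1)) is = ν 0 := by
        simp only [is, lt_irrefl, dite_false, if_true]
      have ht : (fun j : Fin (2 + 2 * k) => if h : j.val < 2 * k then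
          (if j.val % 2 = 0 then a ⟨j.val / 2, by omega⟩ else b ⟨j.val / 2, by omega⟩)
          else (if j.val = 2 * k then ν 0 else ν 1)) it = ν 1 := by
        have h3 : ¬ (2 * k + 1 < 2 * k) := by omega
        have h4 : ¬ (2 * k + 1 = 2 * k) := by omega
        simp only [it, h3, dite_false, h4, if_false]
      simp only [funext ha, funext hb, hs, ht]
      exact ⟨h2.1, fun i => by simpa only [ha i] using h2.2 i⟩

end Pool.Agent.H534R2
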