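import Mathlib
import Pool.Agent.H534R2.DicutDefs

/-!
# Sufficient conditions for small directed cuts
-/

namespace Pool.Agent.H534R2

open Classical in
/-- In a closed set the entering arcs are counted by the imbalance. -/
theorem DicutBound.of_imbalance {V : Type} [Fintype V] {k : ℕ} {E : V → V → Prop}
    (h : ImbalanceBound k E) : DicutBound k E := by
  intro S hS
  have hin : ∀ v, indeg E v = ((Finset.univ : Finset V).filter (fun x => E x v)).card := by
    intro v
    rw [indeg, Set.ncard_eq_toFinset_card']
    congr 1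
    ext x; simp
  have hout : ∀ v, outdeg E v = ((Finset.univ : Finset V).filter (fun y => E v y)).card := by
    intro v
    rw [outdeg, Set.ncard_eq_toFinset_card']
    congr 1
    ext x; simp
  set T : Finset V := Finset.univ.filter (fun v => v ∈ S) with hT
  have hmT : ∀ v, v ∈ T ↔ v ∈ S := by intro v; simp [hT]
  set A : Finset (V × V) := Finset.univ.filter (fun p => E p.1 p.2 ∧ p.2 ∈ S) with hA
  set B : Finset (V × V) := Finset.univ.filter (fun p => E p.1 p.2 ∧ p.1 ∈ S) with hB
  set F : Finset (V × V) := Finset.univ.filter (fun p => E p.1 p.2 ∧ p.1 ∉ S ∧ p.2 ∈ S) with hF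
  have hFc : {p : V × V | E p.1 p.2 ∧ p.1 ∉ S ∧ p.2 ∈ S}.ncard = F.card := by
    rw [Set.ncard_eq_toFinset_card']
    congr 1
    ext p; simp [hF]
  have hAB : A = F ∪ B := by
    ext p
    simp only [hA, hB, hF, Finset.mem_union, Finset.mem_filter, Finset.mem_univ, true_and]
    constructor
    · rintro ⟨h1, h2⟩
      by_cases h3 : p.1 ∈ S
      · exact Or.inr ⟨h1, h3⟩
      · exact Or.inl ⟨h1, h3, h2⟩
    · rintro (⟨h1, _, h2⟩ | ⟨h1, h3⟩)
      · exact ⟨h1, h2⟩
      · exact ⟨h1, hS _ _ h3 h1⟩
  have hdis : Disjoint F B := by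
    rw [Finset.disjoint_left]
    intro p h1 h2
    simp only [hF, hB, Finset.mem_filter, Finset.mem_univ, true_and] at h1 h2
    exact h1.2.1 h2.2
  have hcA : A.card = ∑ v ∈ T, indeg E v := by
    rw [Finset.card_eq_sum_card_fiberwise (f := Prod.snd) (t := T)]
    · apply Finset.sum_congr rfl
      intro v hv
      rw [hin v]
      apply Finset.card_bij (fun p _ => p.1)
      · intro p hp
        simp only [hA, Finset.mem_filter, Finset.mem_univ, true_and] at hp ⊢
        rw [← hp.2]; exact hp.1.1
      · intro p hp q hq h1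
        simp only [hA, Finset.mem_filter, Finset.mem_univ, true_and] at hp hq
        exact Prod.ext h1 (hp.2.trans hq.2.symm)
      · intro x hx
        simp only [Finset.mem_filter, Finset.mem_univ, true_and] at hx
        refine ⟨(x, v), ?_, rfl⟩
        simp only [hA, Finset.mem_filter, Finset.mem_univ, true_and, and_true]
        exact ⟨hx, (hmT v).mp hv⟩
    · intro p hp
      simp only [hA, Finset.coe_filter, Finset.mem_univ, true_and, Set.mem_ofPred_eq] at hp
      exact Finset.mem_coe.mpr ((hmT _).mpr hp.2)
  have hcB : B.card = ∑ v ∈ T, outdeg E v := by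
    rw [Finset.card_eq_sum_card_fiberwise (f := Prod.fst) (t := T)]
    · apply Finset.sum_congr rfl
      intro v hv
      rw [hout v]
      apply Finset.card_bij (fun p _ => p.2)
      · intro p hp
        simp only [hB, Finset.mem_filter, Finset.mem_univ, true_and] at hp ⊢
        rw [← hp.2]; exact hp.1.1
      · intro p hp q hq h1
        simp only [hB, Finset.mem_filter, Finset.mem_univ, true_and] at hp hq
        exact Prod.ext (hp.2.trans hq.2.symm) h1
      · intro x hx
        simp only [Finset.mem_filter, Finset.mem_univ, true_and] at hx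
        refine ⟨(v, x), ?_, rfl⟩
        simp only [hB, Finset.mem_filter, Finset.mem_univ, true_and, and_true]
        exact ⟨hx, (hmT v).mp hv⟩
    · intro p hp
      simp only [hB, Finset.coe_filter, Finset.mem_univ, true_and, Set.mem_ofPred_eq] at hp
      exact Finset.mem_coe.mpr ((hmT _).mpr hp.2)
  have hcard : A.card = F.card + B.card := by rw [hAB, Finset.card_union_of_disjoint hdis]
  have hle : A.card ≤ B.card + ∑ v ∈ T, (indeg E v - outdeg E v) := by
    rw [hcA, hcB, ← Finset.sum_add_distrib]
    apply Finset.sum_le_sum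
    intro v _
    omega
  have hle2 : ∑ v ∈ T, (indeg E v - outdeg E v) ≤ ∑ v : V, (indeg E v - outdeg E v) :=
    Finset.sum_le_sum_of_subset (Finset.subset_univ T)
  have h3 : ∑ v : V, (indeg E v - outdeg E v) ≤ k := h
  rw [hFc]
  omega

/-- along a walk all vertices after a vertex of a closed set are in the set -/
theorem chain_closed {V : Type} {E : V → V → Prop} {S : Set V}
    (hS : ∀ x y, x ∈ S → E x y → y ∈ S) :
    ∀ (l : List V) (a : V), a ∈ S → List.IsChain E (a :: l) → ∀ x ∈ a :: l, x ∈ S := by
  intro l
  induction l with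
  | nil =>
      intro a ha _ x hx
      rw [List.mem_singleton] at hx
      rw [hx]; exact ha
  | cons b l ih =>
      intro a ha hc x hx
      rw [List.isChain_cons_cons] at hc
      rcases List.mem_cons.mp hx with h | h
      · rw [h]; exact ha
      · exact ih b (hS a b ha hc.1) hc.2 x h

/-- a walk enters a closed set at most once -/
theorem walk_unique {V : Type} {E : V → V → Prop} {S : Set V}
    (hS : ∀ x y, x ∈ S → E x y → y ∈ S) :
    ∀ (l : List V), List.IsChain E l → ∀ x y x' y' : V, [x, y] <:+: l → [x', y'] <:+: l →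
      x ∉ S → y ∈ S → x' ∉ S → y' ∈ S → x = x' ∧ y = y' := by
  intro l
  induction l with
  | nil =>
      intro _ x y x' y' h _
      simp at h
  | cons a l ih =>
      intro hc x y x' y' h h' hx hy hx' hy'
      have hc' : List.IsChain E l := hc.tail
      have key : ∀ (u v u' v' : V), [u, v] <+: a :: l → [u', v'] <:+: l → u ∉ S → v ∈ S → u' ∉ S →
          v' ∈ S → False := by
        intro u v u' v' h1 h2 hu hv hu' hv'
        obtain ⟨t, ht⟩ := h1
        simp only [List.cons_append, List.nil_append, List.cons.injEq] at ht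
        rw [← ht.2] at h2 hc'
        have h3 : u' ∈ v :: t := h2.subset (by simp)
        exact hu' (chain_closed hS t v hv hc' u' h3)
      rw [List.infix_cons_iff] at h h'
      rcases h with h | h <;> rcases h' with h' | h'
      · obtain ⟨t, ht⟩ := h
        obtain ⟨t', ht'⟩ := h'
        have h5 := ht.trans ht'.symm
        simp only [List.cons_append, List.nil_append, List.cons.injEq] at h5
        exact ⟨h5.1, h5.2.1⟩
      · exact (key x y x' y' h h' hx hy hx' hy').elim
      · exact (key x' y' x y h' h hx' hy' hx hy).elim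
      · exact ih hc' x y x' y' h h' hx hy hx' hy'

theorem DicutBound.of_walkCover {V : Type} [Finite V] {k : ℕ} {E : V → V → Prop}
    (h : WalkCover k E) : DicutBound k E := by
  obtain ⟨w, hw, hcov⟩ := h
  intro S hS
  have hex : ∀ p : {p : V × V | E p.1 p.2 ∧ p.1 ∉ S ∧ p.2 ∈ S}, ∃ i : Fin k, [p.1.1, p.1.2] <:+: w i :=
    fun p => hcov _ _ p.2.1
  choose g hg using hex
  have hinj : Function.Injective g := by
    intro p q hpq
    have h1 := hg p
    rw [hpq] at h1
    have h2 := walk_unique hS (w (g q)) (hw _) _ _ _ _ h1 (hg q) p.2.2.1 p.2.2.2 q.2.2.1 q.2.2.2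
    exact Subtype.ext (Prod.ext h2.1 h2.2)
  have h3 := Nat.card_le_card_of_injective g hinj
  rwa [Nat.card_fin] at h3

end Pool.Agent.H534R2
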