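import Mathlib

/-!
# First-order logic with symmetric transitive closure, `FO(STC)`

Formulas over the vocabulary with one binary relation symbol (the arc relation of a digraph),
without order.  By theorems of Immerman and Reingold every `FO(STC)`-definable query is
computable in deterministic logarithmic space.
-/

namespace Pool.Agent.H534R2

/-- Formulas of `FO(STC)` over one binary relation symbol `E`, with free variables `Fin n`.
`ex φ` quantifies the variable `0` of `φ` (the variables of the context are shifted by one).
`stc φ i j` says that the values of the variables `i` and `j` are related by the symmetric,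
reflexive and transitive closure of the binary relation that `φ` defines in its variables
`0` and `1` (the variables of the context are shifted by two and serve as parameters). -/
inductive Fm : ℕ → Type
  | eq {n : ℕ} (i j : Fin n) : Fm n
  | edge {n : ℕ} (i j : Fin n) : Fm n
  | neg {n : ℕ} (φ : Fm n) : Fm n
  | and {n : ℕ} (φ ψ : Fm n) : Fm n
  | ex {n : ℕ} (φ : Fm (n + 1)) : Fm n
  | stc {n : ℕ} (φ : Fm (n + 2)) (i j : Fin n) : Fm n

/-- Truth of a formula in the digraph `(V, E)` under the assignment `ν`. -/
def Fm.Holds {V : Type} (E : V → V → Prop) : {n : ℕ} → Fm n → (Fin n → V) → Prop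
  | _, .eq i j, ν => ν i = ν j
  | _, .edge i j, ν => E (ν i) (ν j)
  | _, .neg φ, ν => ¬ φ.Holds E ν
  | _, .and φ ψ, ν => φ.Holds E ν ∧ ψ.Holds E ν
  | _, .ex φ, ν => ∃ a : V, φ.Holds E (Fin.cons a ν)
  | _, .stc φ i j, ν =>
      Relation.EqvGen (fun a b : V => φ.Holds E (Fin.cons a (Fin.cons b ν))) (ν i) (ν j)

/-- The underlying undirected graph of a digraph. -/
abbrev under {V : Type} (E : V → V → Prop) : SimpleGraph V := SimpleGraph.fromRel E

/-- `t` disjoint copies of the path on four vertices. -/
def tP4 (t : ℕ) : SimpleGraph (Fin t × Fin 4) where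
  Adj x y := x.1 = y.1 ∧ (x.2.val + 1 = y.2.val ∨ y.2.val + 1 = x.2.val)
  symm := ⟨fun _ _ h => ⟨h.1.symm, h.2.symm⟩⟩
  loopless := ⟨fun _ h => by rcases h.2 with h | h <;> omega⟩

end Pool.Agent.H534R2
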