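import Pool.Agent.H534R2.GenFourier

/-!
# Monotone undirected switching networks: Bessel inequality and the main lemma
-/

set_option linter.unusedSectionVars false

namespace H534R2.Gen

open Finset Relation

/-- cuts: a side for each of the `q` vertices at each position -/
abbrev Cuts (ι : Type) (q : ℕ) := ι → Fin q → Bool

section fourier

variable {ι : Type} [Fintype ι] [DecidableEq ι] {q : ℕ}

/-- the sign of a side -/
def sg (b : Bool) : ℝ := if b then 1 else -1

theorem sg_mul_self (b : Bool) : sg b * sg b = 1 := by cases b <;> simp [sg]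

theorem sg_not (b : Bool) : sg (!b) = - sg b := by cases b <;> simp [sg]

/-- expectation over a random cut -/
noncomputable def ex (f : Cuts ι q → ℝ) : ℝ := (∑ C, f C) / (Fintype.card (Cuts ι q) : ℝ)

theorem card_pos' : (0 : ℝ) < (Fintype.card (Cuts ι q) : ℝ) := by
  have : 0 < Fintype.card (Cuts ι q) := Fintype.card_pos
  exact_mod_cast this

theorem ex_one : ex (fun _ : Cuts ι q => (1 : ℝ)) = 1 := by
  unfold ex
  rw [Finset.sum_const, Finset.card_univ, nsmul_eq_mul, mul_one]
  exact div_self card_pos'.ne'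

theorem ex_add (f g : Cuts ι q → ℝ) : ex (fun C => f C + g C) = ex f + ex g := by
  unfold ex; rw [Finset.sum_add_distrib, add_div]

theorem ex_mul_left (c : ℝ) (f : Cuts ι q → ℝ) : ex (fun C => c * f C) = c * ex f := by
  unfold ex; rw [← Finset.mul_sum, mul_div_assoc]

theorem ex_neg (f : Cuts ι q → ℝ) : ex (fun C => - f C) = - ex f := by
  unfold ex; rw [Finset.sum_neg_distrib, neg_div]

theorem ex_sub (f g : Cuts ι q → ℝ) : ex (fun C => f C - g C) = ex f - ex g := by
  unfold ex; rw [Finset.sum_sub_distrib, sub_div]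

theorem ex_sum {κ : Type} (s : Finset κ) (f : κ → Cuts ι q → ℝ) :
    ex (fun C => ∑ i ∈ s, f i C) = ∑ i ∈ s, ex (f i) := by
  unfold ex; rw [Finset.sum_comm, Finset.sum_div]

theorem ex_mono {f g : Cuts ι q → ℝ} (h : ∀ C, f C ≤ g C) : ex f ≤ ex g := by
  unfold ex
  exact div_le_div_of_nonneg_right (Finset.sum_le_sum fun C _ => h C) card_pos'.le

/-- Cauchy-Schwarz -/
theorem ex_cs (f g : Cuts ι q → ℝ) :
    ex (fun C => f C * g C) ^ 2 ≤ ex (fun C => f C ^ 2) * ex (fun C => g C ^ 2) := by
  unfold ex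
  rw [div_pow, div_mul_div_comm, ← pow_two]
  exact div_le_div_of_nonneg_right (Finset.sum_mul_sq_le_sq_mul_sq _ _ _) (by positivity)

/-- flip the side of one vertex -/
def flip (i : ι) (u : Fin q) (C : Cuts ι q) : Cuts ι q :=
  fun j v => if j = i ∧ v = u then !(C j v) else C j v

theorem flip_flip (i : ι) (u : Fin q) (C : Cuts ι q) : flip i u (flip i u C) = C := by
  funext j v
  unfold flip
  by_cases h : j = i ∧ v = u
  · simp [h]
  · simp [h]

theorem ex_eq_zero_of_flip (i : ι) (u : Fin q) (f : Cuts ι q → ℝ)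
    (h : ∀ C, f (flip i u C) = - f C) : ex f = 0 := by
  let e : Cuts ι q ≃ Cuts ι q := ⟨flip i u, flip i u, flip_flip i u, flip_flip i u⟩
  have h1 : ∑ C, f C = ∑ C, f (e C) := (Equiv.sum_comp e f).symm
  have h2 : ∑ C, f (e C) = - ∑ C, f C := by
    rw [← Finset.sum_neg_distrib]
    exact Finset.sum_congr rfl fun C _ => h C
  unfold ex
  have : ∑ C, f C = 0 := by linarith
  rw [this, zero_div]

/-- the character of the vertices of the path `g` in the layers `I` -/
def chi (g : ι → Fin q) (I : Finset ι) (C : Cuts ι q) : ℝ := ∏ i ∈ I, sg (C i (g i))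

theorem chi_insert (g : ι → Fin q) {I : Finset ι} {u : ι} (hu : u ∉ I)
    (C : Cuts ι q) : chi g (insert u I) C = sg (C u (g u)) * chi g I C := by
  unfold chi; rw [Finset.prod_insert hu]

theorem chi_empty (g : ι → Fin q) (C : Cuts ι q) : chi g ∅ C = 1 := by
  unfold chi; simp

theorem chi_mul_self (g : ι → Fin q) (I : Finset ι) (C : Cuts ι q) :
    chi g I C * chi g I C = 1 := by
  unfold chi
  rw [← Finset.prod_mul_distrib]
  exact Finset.prod_eq_one fun i _ => sg_mul_self _

theorem chi_flip_of_mem (g : ι → Fin q) {I : Finset ι} {i : ι} (hi : i ∈ I)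
    (C : Cuts ι q) : chi g I (flip i (g i) C) = - chi g I C := by
  obtain ⟨I', hI', rfl⟩ : ∃ I', i ∉ I' ∧ insert i I' = I :=
    ⟨I.erase i, Finset.notMem_erase i I, Finset.insert_erase hi⟩
  rw [chi_insert g hI', chi_insert g hI']
  have h1 : sg (flip i (g i) C i (g i)) = - sg (C i (g i)) := by
    unfold flip; simp [sg_not]
  have h2 : chi g I' (flip i (g i) C) = chi g I' C := by
    unfold chi
    refine Finset.prod_congr rfl fun j hj => ?_
    have : j ≠ i := fun h => hI' (h ▸ hj)
    unfold flip; simp [this]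
  rw [h1, h2]; ring

theorem chi_flip_of_ne (g g' : ι → Fin q) (I : Finset ι) {i : ι}
    (hne : g' i ≠ g i) (C : Cuts ι q) : chi g' I (flip i (g i) C) = chi g' I C := by
  unfold chi
  refine Finset.prod_congr rfl fun j _ => ?_
  congr 1
  unfold flip
  rw [if_neg]
  rintro ⟨rfl, h⟩
  exact hne h

theorem ex_chi (g : ι → Fin q) {I : Finset ι} (hI : I ≠ ∅) : ex (chi g I) = 0 := by
  obtain ⟨i, hi⟩ := Finset.nonempty_iff_ne_empty.2 hI
  exact ex_eq_zero_of_flip i (g i) _ (chi_flip_of_mem g hi)

theorem ex_chi_mul (g g' : ι → Fin q) (I : Finset ι) :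
    ex (fun C => chi g I C * chi g' I C) = if ∀ i ∈ I, g i = g' i then 1 else 0 := by
  split_ifs with h
  · have : (fun C => chi g I C * chi g' I C) = fun _ : Cuts ι q => (1 : ℝ) := by
      funext C
      have h2 : chi g' I C = chi g I C := by
        unfold chi
        exact Finset.prod_congr rfl fun i hi => by rw [h i hi]
      rw [h2, chi_mul_self]
    rw [this, ex_one]
  · push Not at h
    obtain ⟨i, hi, hne⟩ := h
    apply ex_eq_zero_of_flip i (g i)
    intro C
    rw [chi_flip_of_mem g hi, chi_flip_of_ne g g' I (Ne.symm hne)]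
    ring

theorem card_agree (g : ι → Fin q) (I : Finset ι) :
    (univ.filter (fun g' : ι → Fin q => ∀ i ∈ I, g i = g' i)).card = q ^ (Fintype.card ι - I.card) := by
  have : univ.filter (fun g' : ι → Fin q => ∀ i ∈ I, g i = g' i)
      = Fintype.piFinset (fun i => if i ∈ I then {g i} else univ) := by
    ext g'
    simp only [Finset.mem_filter, Finset.mem_univ, true_and, Fintype.mem_piFinset]
    refine forall_congr' fun i => ?_
    by_cases hi : i ∈ I
    · simp [hi, eq_comm]
    · simp [hi]
  rw [this, Fintype.card_piFinset]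
  have h2 : ∀ i : ι, (if i ∈ I then ({g i} : Finset (Fin q)) else univ).card
      = if i ∈ I then 1 else q := by
    intro i; split_ifs <;> simp
  simp only [h2]
  rw [Finset.prod_ite, Finset.prod_const_one, one_mul, Finset.prod_const]
  congr 1
  have h3 : univ.filter (fun i : ι => i ∉ I) = Iᶜ := by ext i; simp
  rw [h3, Finset.card_compl]

/-- Fourier coefficient along the path `g` -/
noncomputable def coef (J : Cuts ι q → ℝ) (g : ι → Fin q) (I : Finset ι) : ℝ :=
  ex (fun C => J C * chi g I C)

/-- **Bessel's inequality**, in the form used here. -/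
theorem bessel (J : Cuts ι q → ℝ) (hJ : ∀ C, |J C| ≤ 1) (I : Finset ι) :
    (∑ g, |coef J g I|) ^ 2 ≤ (q : ℝ) ^ Fintype.card ι * (q : ℝ) ^ (Fintype.card ι - I.card) := by
  let s : (ι → Fin q) → ℝ := fun g => if 0 ≤ coef J g I then 1 else -1
  have hs : ∀ g, |coef J g I| = s g * coef J g I := by
    intro g
    simp only [s]
    split_ifs with h
    · rw [abs_of_nonneg h, one_mul]
    · rw [abs_of_neg (lt_of_not_ge h)]; ring
  have hs1 : ∀ g, |s g| = 1 := by
    intro g; simp only [s]; split_ifs <;> simp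
  have h1 : ∑ g, |coef J g I| = ex (fun C => J C * ∑ g, s g * chi g I C) := by
    have : (fun C => J C * ∑ g, s g * chi g I C) = fun C => ∑ g, s g * (J C * chi g I C) := by
      funext C
      rw [Finset.mul_sum]
      exact Finset.sum_congr rfl fun g _ => by ring
    rw [this, ex_sum]
    refine Finset.sum_congr rfl fun g _ => ?_
    rw [ex_mul_left, hs g]; rfl
  rw [h1]
  refine (ex_cs _ _).trans ?_
  have h2 : ex (fun C => J C ^ 2) ≤ 1 := by
    rw [← ex_one (ι := ι) (q := q)]
    apply ex_mono
    intro C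
    have := hJ C
    rw [← sq_abs]
    exact pow_le_one₀ (abs_nonneg _) this
  have h3 : ex (fun C => (∑ g, s g * chi g I C) ^ 2) ≤ (q : ℝ) ^ Fintype.card ι * (q : ℝ) ^ (Fintype.card ι - I.card) := by
    have e1 : (fun C => (∑ g, s g * chi g I C) ^ 2)
        = fun C => ∑ g, ∑ g', (s g * s g') * (chi g I C * chi g' I C) := by
      funext C
      rw [pow_two, Finset.sum_mul_sum]
      exact Finset.sum_congr rfl fun g _ => Finset.sum_congr rfl fun g' _ => by ring
    rw [e1, ex_sum]
    have e2 : ∀ g, ex (fun C => ∑ g', (s g * s g') * (chi g I C * chi g' I C))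
        ≤ (q : ℝ) ^ (Fintype.card ι - I.card) := by
      intro g
      rw [ex_sum]
      calc ∑ g', ex (fun C => (s g * s g') * (chi g I C * chi g' I C))
          = ∑ g', (s g * s g') * (if ∀ i ∈ I, g i = g' i then 1 else 0) := by
            refine Finset.sum_congr rfl fun g' _ => ?_
            rw [ex_mul_left, ex_chi_mul]
        _ ≤ ∑ g' : ι → Fin q, (if ∀ i ∈ I, g i = g' i then (1 : ℝ) else 0) := by
            refine Finset.sum_le_sum fun g' _ => ?_
            split_ifs
            · rw [mul_one]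
              calc s g * s g' ≤ |s g * s g'| := le_abs_self _
                _ = 1 := by rw [abs_mul, hs1, hs1, one_mul]
            · rw [mul_zero]
        _ = (q : ℝ) ^ (Fintype.card ι - I.card) := by
            rw [Finset.sum_boole, card_agree]; push_cast; rfl
    calc ∑ g, ex (fun C => ∑ g', (s g * s g') * (chi g I C * chi g' I C))
        ≤ ∑ _g : ι → Fin q, (q : ℝ) ^ (Fintype.card ι - I.card) := Finset.sum_le_sum fun g _ => e2 g
      _ = (q : ℝ) ^ Fintype.card ι * (q : ℝ) ^ (Fintype.card ι - I.card) := by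
          rw [Finset.sum_const, Finset.card_univ, nsmul_eq_mul, Fintype.card_fun,
            Fintype.card_fin]
          push_cast; rfl
  have h4 : 0 ≤ ex (fun C => (∑ g, s g * chi g I C) ^ 2) := by
    unfold ex
    apply div_nonneg (Finset.sum_nonneg fun C _ => sq_nonneg _) card_pos'.le
  calc ex (fun C => J C ^ 2) * ex (fun C => (∑ g, s g * chi g I C) ^ 2)
      ≤ 1 * ex (fun C => (∑ g, s g * chi g I C) ^ 2) := mul_le_mul_of_nonneg_right h2 h4
    _ ≤ _ := by rw [one_mul]; exact h3

end fourier

/-- the same with `q = r ^ 2` -/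
theorem bessel' {ι : Type} [Fintype ι] [DecidableEq ι] {r : ℕ} (J : Cuts ι (r ^ 2) → ℝ)
    (hJ : ∀ C, |J C| ≤ 1) (I : Finset ι) :
    ∑ g, |coef J g I| ≤ (r : ℝ) ^ (2 * Fintype.card ι - I.card) := by
  have hI : I.card ≤ Fintype.card ι := Finset.card_le_univ I
  have h := bessel J hJ I
  have e : (((r ^ 2 : ℕ) : ℝ)) ^ Fintype.card ι * (((r ^ 2 : ℕ) : ℝ)) ^ (Fintype.card ι - I.card)
      = ((r : ℝ) ^ (2 * Fintype.card ι - I.card)) ^ 2 := by
    push_cast
    rw [← pow_mul, ← pow_mul, ← pow_add, ← pow_mul]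
    congr 1
    omega
  rw [e] at h
  exact (pow_le_pow_iff_left₀ (Finset.sum_nonneg fun g _ => abs_nonneg _) (by positivity)
    (by norm_num)).1 h

/-- total weight of the top levels -/
theorem sum_top_le {ι : Type} [Fintype ι] [DecidableEq ι] {r K a m : ℕ}
    (hm : Fintype.card ι = m) (hmr : m ≤ r) (hr : 1 ≤ r) (J : Cuts ι (r ^ 2) → ℝ)
    (hJ : ∀ C, |J C| ≤ 1) :
    (∑ g, top a K (coef J g)) * (r : ℝ) ^ (K + 1 - a)
      ≤ a * ((m : ℝ) ^ (K + 1 - a) * (r : ℝ) ^ (2 * m)) := by
  classical
  have hr0 : (0 : ℝ) < r := by exact_mod_cast hr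
  unfold top
  rw [Finset.sum_comm, Finset.sum_mul]
  let c : ℕ → ℝ := fun j => if K < j + a ∧ j ≤ K then
    (r : ℝ) ^ (2 * m - j) * (r : ℝ) ^ (K + 1 - a) else 0
  have h1 : ∀ I : Finset ι,
      (∑ g : ι → Fin (r ^ 2), if K < I.card + a ∧ I.card ≤ K then |coef J g I| else 0)
        * (r : ℝ) ^ (K + 1 - a) ≤ c I.card := by
    intro I
    have hb := bessel' J hJ I
    rw [hm] at hb
    simp only [c]
    by_cases h2 : K < I.card + a ∧ I.card ≤ K
    · simp only [h2, and_self, if_true]
      exact mul_le_mul_of_nonneg_right hb (by positivity)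
    · simp only [h2, if_false, Finset.sum_const_zero, zero_mul]
      exact le_rfl
  calc ∑ I : Finset ι,
        (∑ g : ι → Fin (r ^ 2), if K < I.card + a ∧ I.card ≤ K then |coef J g I| else 0)
          * (r : ℝ) ^ (K + 1 - a)
      ≤ ∑ I : Finset ι, c I.card := Finset.sum_le_sum fun I _ => h1 I
    _ = ∑ j ∈ range (m + 1), (m.choose j) • c j := by
        have := Finset.sum_powerset_apply_card c (x := (Finset.univ : Finset ι))
        rw [Finset.powerset_univ, Finset.card_univ, hm] at this
        exact this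
    _ ≤ ∑ j ∈ range (m + 1), (if K < j + a ∧ j ≤ K then
          (m : ℝ) ^ (K + 1 - a) * (r : ℝ) ^ (2 * m) else 0) := by
        refine Finset.sum_le_sum fun j hj => ?_
        rw [Finset.mem_range] at hj
        simp only [c]
        by_cases h2 : K < j + a ∧ j ≤ K
        · simp only [h2, and_self, if_true, nsmul_eq_mul]
          obtain ⟨d, hd⟩ : ∃ d, j = (K + 1 - a) + d := ⟨j - (K + 1 - a), by omega⟩
          have d1 : ((m.choose j : ℕ) : ℝ) ≤ (m : ℝ) ^ j := by
            exact_mod_cast Nat.choose_le_pow m j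
          calc ((m.choose j : ℕ) : ℝ) * ((r : ℝ) ^ (2 * m - j) * (r : ℝ) ^ (K + 1 - a))
              ≤ (m : ℝ) ^ j * ((r : ℝ) ^ (2 * m - j) * (r : ℝ) ^ (K + 1 - a)) := by gcongr
            _ = (m : ℝ) ^ (K + 1 - a) * ((m : ℝ) ^ d *
                ((r : ℝ) ^ (2 * m - j) * (r : ℝ) ^ (K + 1 - a))) := by
                rw [hd, pow_add]; ring
            _ ≤ (m : ℝ) ^ (K + 1 - a) * ((r : ℝ) ^ d *
                ((r : ℝ) ^ (2 * m - j) * (r : ℝ) ^ (K + 1 - a))) := by
                have : (m : ℝ) ^ d ≤ (r : ℝ) ^ d := by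
                  apply pow_le_pow_left₀ (by positivity)
                  exact_mod_cast hmr
                gcongr
            _ = (m : ℝ) ^ (K + 1 - a) * (r : ℝ) ^ (2 * m) := by
                rw [← pow_add, ← pow_add]
                congr 2
                omega
        · simp only [h2, if_false, smul_zero]
          exact le_rfl
    _ = ((range (m + 1)).filter (fun j => K < j + a ∧ j ≤ K)).card •
          ((m : ℝ) ^ (K + 1 - a) * (r : ℝ) ^ (2 * m)) := by
        rw [← Finset.sum_filter, Finset.sum_const]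
    _ ≤ a * ((m : ℝ) ^ (K + 1 - a) * (r : ℝ) ^ (2 * m)) := by
        rw [nsmul_eq_mul]
        apply mul_le_mul_of_nonneg_right _ (by positivity)
        have h3 : ((range (m + 1)).filter (fun j => K < j + a ∧ j ≤ K)).card ≤ a := by
          have h4 : (range (m + 1)).filter (fun j => K < j + a ∧ j ≤ K)
              ⊆ Finset.Ico (K + 1 - a) (K + 1) := by
            intro j hj
            rw [Finset.mem_filter] at hj
            rw [Finset.mem_Ico]
            omega
          have h5 := Finset.card_le_card h4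
          rw [Nat.card_Ico] at h5
          omega
        exact_mod_cast h3

/-! ### sums along paths -/

theorem path_sum {Q : Type*} [Fintype Q] [DecidableEq Q] (G : SimpleGraph Q) (φ w : Q → ℝ)
    (hw : ∀ a, 0 ≤ w a) (h : ∀ a b, G.Adj a b → |φ a - φ b| ≤ w a + w b) :
    ∀ {a b : Q} (p : G.Walk a b), p.IsPath → |φ a - φ b| + w a ≤ 2 * ∑ c ∈ p.support.toFinset, w c := by
  intro a b p
  induction p with
  | nil =>
    intro _
    simp only [sub_self, abs_zero, zero_add, SimpleGraph.Walk.support_nil, List.toFinset_cons,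
      List.toFinset_nil, insert_empty_eq, Finset.sum_singleton]
    linarith [hw ‹_›]
  | cons hab p ih =>
    rename_i a b c
    intro hp
    rw [SimpleGraph.Walk.cons_isPath_iff] at hp
    have h1 := ih hp.1
    have h2 := h _ _ hab
    rw [SimpleGraph.Walk.support_cons, List.toFinset_cons, Finset.sum_insert (by simpa using hp.2)]
    have h3 : |φ a - φ c| ≤ |φ a - φ b| + |φ b - φ c| := by
      have := abs_add_le (φ a - φ b) (φ b - φ c)
      rwa [sub_add_sub_cancel] at this
    linarith

theorem eqvGen_sum {Q : Type*} [Fintype Q] (R : Q → Q → Prop) (φ w : Q → ℝ)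
    (hw : ∀ a, 0 ≤ w a) (h : ∀ a b, R a b → |φ a - φ b| ≤ w a + w b) {a b : Q}
    (hab : EqvGen R a b) : |φ a - φ b| ≤ 2 * ∑ c, w c := by
  classical
  have hreach : (SimpleGraph.fromRel R).Reachable a b := by
    induction hab with
    | rel x y hxy =>
      by_cases hne : x = y
      · rw [hne]
      · exact SimpleGraph.Adj.reachable ((SimpleGraph.fromRel_adj R x y).2 ⟨hne, Or.inl hxy⟩)
    | refl x => exact SimpleGraph.Reachable.refl x
    | symm _ _ _ ih => exact ih.symm
    | trans _ _ _ _ _ ih1 ih2 => exact ih1.trans ih2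
  obtain ⟨p⟩ := hreach
  have h1 := path_sum (SimpleGraph.fromRel R) φ w hw (by
    intro x y hxy
    rw [SimpleGraph.fromRel_adj] at hxy
    rcases hxy.2 with h' | h'
    · exact h _ _ h'
    · rw [abs_sub_comm, add_comm]; exact h _ _ h') p.toPath.1 p.toPath.2
  have h2 : ∑ c ∈ p.toPath.1.support.toFinset, w c ≤ ∑ c, w c :=
    Finset.sum_le_sum_of_subset_of_nonneg (Finset.subset_univ _) fun c _ _ => hw c
  have h3 := hw a
  linarith

end H534R2.Gen
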