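import Mathlib

/-!
# Rule systems: pebbling coefficients and the truncated functional

`ι` is a finite set of positions; a rule `R A y` allows a pebble on `y` to be placed or removed when
all positions in `A` carry pebbles.
-/

set_option linter.unusedSectionVars false

namespace H534R2.Gen

open Finset Relation

section coefficients

variable {ι : Type} [Fintype ι] [DecidableEq ι]

/-- one move of the reversible pebble game -/
def Mv (R : Finset ι → ι → Prop) (K : ℕ) (S T : Finset ι) : Prop :=
  ∃ A y, R A y ∧ A ⊆ S ∧ y ∉ S ∧ T = insert y S ∧ T.card ≤ K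

/-- reachable configurations -/
def PR (R : Finset ι → ι → Prop) (K : ℕ) (S : Finset ι) : Prop := EqvGen (Mv R K) ∅ S

theorem PR_iff_of_Mv {R : Finset ι → ι → Prop} {K : ℕ} {S T : Finset ι} (h : Mv R K S T) :
    PR R K S ↔ PR R K T :=
  ⟨fun hS => hS.trans _ _ _ (EqvGen.rel _ _ h),
   fun hT => hT.trans _ _ _ (EqvGen.symm _ _ (EqvGen.rel _ _ h))⟩

open Classical in
/-- indicator of the reachable configurations -/
noncomputable def pr (R : Finset ι → ι → Prop) (K : ℕ) (S : Finset ι) : ℝ :=
  if PR R K S then 1 else 0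

theorem pr_abs (R : Finset ι → ι → Prop) (K : ℕ) (S : Finset ι) : |pr R K S| ≤ 1 := by
  unfold pr; split_ifs <;> simp

theorem pr_empty (R : Finset ι → ι → Prop) (K : ℕ) : pr R K ∅ = 1 := by
  unfold pr; exact if_pos (EqvGen.refl _)

/-- change of basis -/
noncomputable def ee (p : Finset ι → ℝ) (I : Finset ι) : ℝ :=
  ∑ T ∈ I.powerset, 2 ^ T.card * (-1) ^ (I.card - T.card) * p T

theorem ee_insert (p : Finset ι → ℝ) {I : Finset ι} {u : ι} (hu : u ∉ I) :
    ee p (insert u I) = - ee p I + 2 * ee (fun T => p (insert u T)) I := by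
  unfold ee
  rw [Finset.sum_powerset_insert hu, ← Finset.sum_neg_distrib, Finset.mul_sum]
  congr 1
  · refine Finset.sum_congr rfl fun T hT => ?_
    have h1 := Finset.card_le_card (Finset.mem_powerset.1 hT)
    rw [Finset.card_insert_of_notMem hu, Nat.sub_add_comm h1, pow_succ]
    ring
  · refine Finset.sum_congr rfl fun T hT => ?_
    have h2 : u ∉ T := fun h => hu (Finset.mem_powerset.1 hT h)
    rw [Finset.card_insert_of_notMem hu, Finset.card_insert_of_notMem h2, Nat.add_sub_add_right,
      pow_succ]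
    ring

theorem ee_congr {p p' : Finset ι → ℝ} {I : Finset ι} (h : ∀ T ⊆ I, p T = p' T) :
    ee p I = ee p' I := by
  unfold ee
  refine Finset.sum_congr rfl fun T hT => ?_
  rw [h T (Finset.mem_powerset.1 hT)]

theorem ee_zero (I : Finset ι) : ee (fun _ => (0 : ℝ)) I = 0 := by
  unfold ee; simp

theorem ee_abs {p : Finset ι → ℝ} (hp : ∀ T, |p T| ≤ 1) (I : Finset ι) :
    |ee p I| ≤ 3 ^ I.card := by
  unfold ee
  calc |∑ T ∈ I.powerset, 2 ^ T.card * (-1) ^ (I.card - T.card) * p T|
      ≤ ∑ T ∈ I.powerset, |2 ^ T.card * (-1) ^ (I.card - T.card) * p T| :=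
        Finset.abs_sum_le_sum_abs _ _
    _ ≤ ∑ T ∈ I.powerset, (2 : ℝ) ^ T.card * 1 ^ (I.card - T.card) := by
        refine Finset.sum_le_sum fun T _ => ?_
        rw [abs_mul, abs_mul, abs_pow, abs_pow, abs_neg, abs_one, one_pow, mul_one, mul_one,
          abs_of_pos (by norm_num : (0 : ℝ) < 2)]
        calc (2 : ℝ) ^ T.card * |p T| ≤ 2 ^ T.card * 1 := by
              gcongr; exact hp T
          _ = 2 ^ T.card := mul_one _
    _ = (2 + 1) ^ I.card := Finset.sum_pow_mul_eq_add_pow _ _ _
    _ = 3 ^ I.card := by norm_num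

theorem ee_sum (A : Finset ι) : ∀ (p : Finset ι → ℝ) (I : Finset ι), Disjoint A I →
    ∑ B ∈ A.powerset, ee p (B ∪ I) = 2 ^ A.card * ee (fun T => p (A ∪ T)) I := by
  induction A using Finset.induction_on with
  | empty => intro p I _; simp
  | insert x A hx ih =>
    intro p I hd
    rw [Finset.disjoint_insert_left] at hd
    rw [Finset.sum_powerset_insert hx, ← Finset.sum_add_distrib,
      Finset.card_insert_of_notMem hx, pow_succ]
    have h1 : ∀ B ∈ A.powerset, ee p (B ∪ I) + ee p (insert x B ∪ I)
        = 2 * ee (fun T => p (insert x T)) (B ∪ I) := by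
      intro B hB
      have hxB : x ∉ B ∪ I := by
        rw [Finset.mem_union, not_or]
        exact ⟨fun h => hx (Finset.mem_powerset.1 hB h), hd.1⟩
      rw [Finset.insert_union, ee_insert p hxB]
      ring
    rw [Finset.sum_congr rfl h1, ← Finset.mul_sum, ih _ I hd.2]
    have h2 : (fun T => p (insert x A ∪ T)) = fun T => p (insert x (A ∪ T)) := by
      funext T; rw [Finset.insert_union]
    rw [h2]
    ring

/-- the coefficients of the functional -/
noncomputable def eI (R : Finset ι → ι → Prop) (K : ℕ) (I : Finset ι) : ℝ := ee (pr R K) I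

theorem eI_abs (R : Finset ι → ι → Prop) (K : ℕ) (I : Finset ι) : |eI R K I| ≤ 3 ^ I.card :=
  ee_abs (pr_abs R K) I

theorem eI_empty (R : Finset ι → ι → Prop) (K : ℕ) : eI R K (∅ : Finset ι) = 1 := by
  unfold eI ee; simp [pr_empty]

/-- no configuration reachable with `K` pebbles contains a goal set -/
def Safe (R : Finset ι → ι → Prop) (Z : Finset ι → Prop) (K : ℕ) : Prop :=
  ∀ S A, PR R K S → Z A → ¬ A ⊆ S

theorem eI_goal {R : Finset ι → ι → Prop} {Z : Finset ι → Prop} {K : ℕ} (hs : Safe R Z K)
    {A I : Finset ι} (hA : Z A) (hd : Disjoint A I) : ∑ B ∈ A.powerset, eI R K (B ∪ I) = 0 := by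
  unfold eI
  rw [ee_sum A _ I hd, ee_congr (p' := fun _ => 0), ee_zero, mul_zero]
  intro T _
  unfold pr
  rw [if_neg]
  intro h
  exact hs _ A h hA Finset.subset_union_left

theorem eI_rule {R : Finset ι → ι → Prop} {K : ℕ} {A I : Finset ι} {y : ι} (hA : R A y)
    (hd : Disjoint A I) (hyA : y ∉ A) (hyI : y ∉ I) (hc : I.card + A.card + 1 ≤ K) :
    ∑ B ∈ A.powerset, (eI R K (B ∪ I) - eI R K (insert y (B ∪ I))) = 0 := by
  unfold eI
  have h1 : ∀ B ∈ A.powerset, ee (pr R K) (B ∪ I) - ee (pr R K) (insert y (B ∪ I))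
      = 2 * (ee (pr R K) (B ∪ I) - ee (fun T => pr R K (insert y T)) (B ∪ I)) := by
    intro B hB
    have hyB : y ∉ B ∪ I := by
      rw [Finset.mem_union, not_or]
      exact ⟨fun h => hyA (Finset.mem_powerset.1 hB h), hyI⟩
    rw [ee_insert _ hyB]; ring
  rw [Finset.sum_congr rfl h1, ← Finset.mul_sum, Finset.sum_sub_distrib, ee_sum A _ I hd,
    ee_sum A _ I hd, ee_congr (p := fun T => pr R K (insert y (A ∪ T)))
      (p' := fun T => pr R K (A ∪ T))]
  · ring
  · intro T hT
    have hyT : y ∉ A ∪ T := by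
      rw [Finset.mem_union, not_or]; exact ⟨hyA, fun h => hyI (hT h)⟩
    have hmv : Mv R K (A ∪ T) (insert y (A ∪ T)) := by
      refine ⟨A, y, hA, Finset.subset_union_left, hyT, rfl, ?_⟩
      rw [Finset.card_insert_of_notMem hyT]
      have h2 := Finset.card_union_le A T
      have h3 := Finset.card_le_card hT
      omega
    unfold pr
    rw [PR_iff_of_Mv hmv]

/-- the functional applied to a system of coefficients -/
noncomputable def tot (R : Finset ι → ι → Prop) (K : ℕ) (F : Finset ι → ℝ) : ℝ :=
  ∑ I : Finset ι, if I.card ≤ K then eI R K I * F I else 0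

/-- the weight of the top levels -/
noncomputable def top (a K : ℕ) (F : Finset ι → ℝ) : ℝ :=
  ∑ I : Finset ι, if K < I.card + a ∧ I.card ≤ K then |F I| else 0

theorem sum_split (U : Finset ι) (f : Finset ι → ℝ) :
    ∑ I : Finset ι, f I = ∑ I ∈ (Uᶜ).powerset, ∑ B ∈ U.powerset, f (B ∪ I) := by
  rw [← Finset.sum_product' (s := (Uᶜ).powerset) (t := U.powerset)
    (f := fun I B => f (B ∪ I))]
  symm
  refine Finset.sum_bij' (fun p _ => p.2 ∪ p.1) (fun I _ => (I \ U, I ∩ U)) ?_ ?_ ?_ ?_ ?_
  · intro p _; exact Finset.mem_univ _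
  · intro I _
    rw [Finset.mem_product, Finset.mem_powerset, Finset.mem_powerset]
    refine ⟨?_, Finset.inter_subset_right⟩
    intro x hx
    rw [Finset.mem_compl]
    exact (Finset.mem_sdiff.1 hx).2
  · rintro ⟨I, B⟩ hp
    rw [Finset.mem_product, Finset.mem_powerset, Finset.mem_powerset] at hp
    obtain ⟨h1, h2⟩ := hp
    simp only at h1 h2 ⊢
    have h3 : ∀ x ∈ I, x ∉ U := fun x hx => Finset.mem_compl.1 (h1 hx)
    ext x
    · simp only [Finset.mem_sdiff, Finset.mem_union]
      constructor
      · rintro ⟨h | h, hU⟩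
        · exact absurd (h2 h) hU
        · exact h
      · intro h; exact ⟨Or.inr h, h3 x h⟩
    · simp only [Finset.mem_inter, Finset.mem_union]
      constructor
      · rintro ⟨h | h, hU⟩
        · exact h
        · exact absurd hU (h3 x h)
      · intro h; exact ⟨Or.inl h, h2 h⟩
  · intro I _
    show I ∩ U ∪ I \ U = I
    ext x
    simp only [Finset.mem_union, Finset.mem_inter, Finset.mem_sdiff]
    tauto
  · rintro ⟨I, B⟩ _; rfl

theorem top_le_of_subset (a K : ℕ) (F : Finset ι → ℝ) (U : Finset (Finset ι)) :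
    ∑ I ∈ U, (if K < I.card + a ∧ I.card ≤ K then |F I| else 0) ≤ top a K F := by
  unfold top
  apply Finset.sum_le_sum_of_subset_of_nonneg (Finset.subset_univ _)
  intro I _ _
  split_ifs
  · exact abs_nonneg _
  · exact le_rfl

theorem F_union (F : Finset ι → ℝ) (A I : Finset ι)
    (hF : ∀ u ∈ A, ∀ I, u ∉ I → F (insert u I) = F I) :
    ∀ B ⊆ A, F (B ∪ I) = F I := by
  intro B
  induction B using Finset.induction_on with
  | empty => intro _; rw [Finset.empty_union]
  | insert x B hx ih =>
    intro hB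
    rw [Finset.insert_union]
    have h1 := ih ((Finset.subset_insert _ _).trans hB)
    by_cases hx2 : x ∈ B ∪ I
    · rw [Finset.insert_eq_self.2 hx2]; exact h1
    · rw [hF x (hB (Finset.mem_insert_self _ _)) _ hx2, h1]

/-- bound for functions supported on cuts violating a goal -/
theorem tot_goal_bound {R : Finset ι → ι → Prop} {Z : Finset ι → Prop} {K a : ℕ}
    (hs : Safe R Z K) (F : Finset ι → ℝ) {A : Finset ι} (hA : Z A) (ha : A.card ≤ a)
    (hF : ∀ u ∈ A, ∀ I, u ∉ I → F (insert u I) = F I) :
    |tot R K F| ≤ 2 ^ a * 3 ^ K * top a K F := by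
  unfold tot
  rw [sum_split A]
  have hterm : ∀ I ∈ (Aᶜ).powerset,
      |∑ B ∈ A.powerset, (if (B ∪ I).card ≤ K then eI R K (B ∪ I) * F (B ∪ I) else 0)|
      ≤ 2 ^ a * 3 ^ K * (if K < I.card + a ∧ I.card ≤ K then |F I| else 0) := by
    intro I hI
    have hd : Disjoint A I := by
      rw [Finset.disjoint_left]
      intro x hx hxI
      exact Finset.mem_compl.1 (Finset.mem_powerset.1 hI hxI) hx
    have hFB : ∀ B ∈ A.powerset, F (B ∪ I) = F I := fun B hB =>
      F_union F A I hF B (Finset.mem_powerset.1 hB)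
    have hcB : ∀ B ∈ A.powerset, (B ∪ I).card = B.card + I.card := fun B hB =>
      Finset.card_union_of_disjoint (Finset.disjoint_of_subset_left (Finset.mem_powerset.1 hB) hd)
    by_cases h1 : I.card + A.card ≤ K
    · have h2 : ∑ B ∈ A.powerset, (if (B ∪ I).card ≤ K then eI R K (B ∪ I) * F (B ∪ I) else 0)
          = 0 := by
        have h3 : ∀ B ∈ A.powerset, (if (B ∪ I).card ≤ K then eI R K (B ∪ I) * F (B ∪ I) else 0)
            = eI R K (B ∪ I) * F I := by
          intro B hB
          have h4 := Finset.card_le_card (Finset.mem_powerset.1 hB)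
          rw [if_pos (by rw [hcB B hB]; omega), hFB B hB]
        rw [Finset.sum_congr rfl h3, ← Finset.sum_mul, eI_goal hs hA hd, zero_mul]
      rw [h2, abs_zero]
      split_ifs <;> positivity
    · by_cases h2 : I.card ≤ K
      · rw [if_pos ⟨by omega, h2⟩]
        calc |∑ B ∈ A.powerset, (if (B ∪ I).card ≤ K then eI R K (B ∪ I) * F (B ∪ I) else 0)|
            ≤ ∑ B ∈ A.powerset,
              |(if (B ∪ I).card ≤ K then eI R K (B ∪ I) * F (B ∪ I) else 0)| :=
              Finset.abs_sum_le_sum_abs _ _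
          _ ≤ ∑ B ∈ A.powerset, 3 ^ K * |F I| := by
              refine Finset.sum_le_sum fun B hB => ?_
              split_ifs with h3
              · rw [hFB B hB, abs_mul]
                apply mul_le_mul_of_nonneg_right _ (abs_nonneg _)
                exact (eI_abs R K _).trans (pow_le_pow_right₀ (by norm_num) h3)
              · rw [abs_zero]; positivity
          _ = 2 ^ A.card * (3 ^ K * |F I|) := by
              rw [Finset.sum_const, Finset.card_powerset, nsmul_eq_mul]; push_cast; ring
          _ ≤ 2 ^ a * (3 ^ K * |F I|) := by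
              apply mul_le_mul_of_nonneg_right _ (by positivity)
              exact pow_le_pow_right₀ (by norm_num) ha
          _ = 2 ^ a * 3 ^ K * |F I| := by ring
      · have h3 : ∑ B ∈ A.powerset, (if (B ∪ I).card ≤ K then eI R K (B ∪ I) * F (B ∪ I) else 0)
            = 0 := by
          apply Finset.sum_eq_zero
          intro B hB
          rw [if_neg (by rw [hcB B hB]; omega)]
        rw [h3, abs_zero]
        split_ifs <;> positivity
  calc |∑ I ∈ (Aᶜ).powerset, ∑ B ∈ A.powerset,
        (if (B ∪ I).card ≤ K then eI R K (B ∪ I) * F (B ∪ I) else 0)|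
      ≤ ∑ I ∈ (Aᶜ).powerset, |∑ B ∈ A.powerset,
        (if (B ∪ I).card ≤ K then eI R K (B ∪ I) * F (B ∪ I) else 0)| :=
        Finset.abs_sum_le_sum_abs _ _
    _ ≤ ∑ I ∈ (Aᶜ).powerset,
        2 ^ a * 3 ^ K * (if K < I.card + a ∧ I.card ≤ K then |F I| else 0) :=
        Finset.sum_le_sum hterm
    _ = 2 ^ a * 3 ^ K * ∑ I ∈ (Aᶜ).powerset,
        (if K < I.card + a ∧ I.card ≤ K then |F I| else 0) := by rw [Finset.mul_sum]
    _ ≤ 2 ^ a * 3 ^ K * top a K F := by
        apply mul_le_mul_of_nonneg_left (top_le_of_subset a K F _)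
        positivity

/-- bound for functions supported on cuts violating a rule -/
theorem tot_rule_bound {R : Finset ι → ι → Prop} {K a : ℕ}
    (F : Finset ι → ℝ) {A : Finset ι} {y : ι} (hA : R A y) (hyA : y ∉ A) (ha : A.card + 1 ≤ a)
    (hF : ∀ u ∈ A, ∀ I, u ∉ I → F (insert u I) = F I)
    (hFy : ∀ I, y ∉ I → F (insert y I) = - F I) :
    |tot R K F| ≤ 2 ^ a * 3 ^ K * top a K F := by
  unfold tot
  rw [sum_split (insert y A)]
  have hterm : ∀ I ∈ ((insert y A)ᶜ).powerset,
      |∑ B ∈ (insert y A).powerset, (if (B ∪ I).card ≤ K then eI R K (B ∪ I) * F (B ∪ I) else 0)|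
      ≤ 2 ^ a * 3 ^ K * (if K < I.card + a ∧ I.card ≤ K then |F I| else 0) := by
    intro I hI
    have hyI : y ∉ I := fun h =>
      Finset.mem_compl.1 (Finset.mem_powerset.1 hI h) (Finset.mem_insert_self _ _)
    have hd : Disjoint A I := by
      rw [Finset.disjoint_left]
      intro x hx hxI
      exact Finset.mem_compl.1 (Finset.mem_powerset.1 hI hxI) (Finset.mem_insert_of_mem hx)
    have hFB : ∀ B ∈ A.powerset, F (B ∪ I) = F I := fun B hB =>
      F_union F A I hF B (Finset.mem_powerset.1 hB)
    have hyB : ∀ B ∈ A.powerset, y ∉ B ∪ I := by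
      intro B hB
      rw [Finset.mem_union, not_or]
      exact ⟨fun h => hyA (Finset.mem_powerset.1 hB h), hyI⟩
    have hcB : ∀ B ∈ A.powerset, (B ∪ I).card = B.card + I.card := fun B hB =>
      Finset.card_union_of_disjoint (Finset.disjoint_of_subset_left (Finset.mem_powerset.1 hB) hd)
    have hcy : ∀ B ∈ A.powerset, (insert y (B ∪ I)).card = B.card + I.card + 1 := fun B hB => by
      rw [Finset.card_insert_of_notMem (hyB B hB), hcB B hB]
    have hFyB : ∀ B ∈ A.powerset, F (insert y (B ∪ I)) = - F I := fun B hB => by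
      rw [hFy _ (hyB B hB), hFB B hB]
    rw [Finset.sum_powerset_insert hyA, ← Finset.sum_add_distrib]
    simp only [Finset.insert_union]
    by_cases h1 : I.card + A.card + 1 ≤ K
    · have h2 : ∑ B ∈ A.powerset, ((if (B ∪ I).card ≤ K then eI R K (B ∪ I) * F (B ∪ I) else 0)
          + (if (insert y (B ∪ I)).card ≤ K then
            eI R K (insert y (B ∪ I)) * F (insert y (B ∪ I)) else 0)) = 0 := by
        have h3 : ∀ B ∈ A.powerset,
            ((if (B ∪ I).card ≤ K then eI R K (B ∪ I) * F (B ∪ I) else 0)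
          + (if (insert y (B ∪ I)).card ≤ K then
            eI R K (insert y (B ∪ I)) * F (insert y (B ∪ I)) else 0))
            = (eI R K (B ∪ I) - eI R K (insert y (B ∪ I))) * F I := by
          intro B hB
          have h4 := Finset.card_le_card (Finset.mem_powerset.1 hB)
          rw [if_pos (by rw [hcB B hB]; omega), if_pos (by rw [hcy B hB]; omega), hFB B hB,
            hFyB B hB]
          ring
        rw [Finset.sum_congr rfl h3, ← Finset.sum_mul, eI_rule hA hd hyA hyI h1, zero_mul]
      rw [h2, abs_zero]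
      split_ifs <;> positivity
    · by_cases h2 : I.card ≤ K
      · rw [if_pos ⟨by omega, h2⟩]
        calc |∑ B ∈ A.powerset, ((if (B ∪ I).card ≤ K then eI R K (B ∪ I) * F (B ∪ I) else 0)
              + (if (insert y (B ∪ I)).card ≤ K then
                eI R K (insert y (B ∪ I)) * F (insert y (B ∪ I)) else 0))|
            ≤ ∑ B ∈ A.powerset,
              |((if (B ∪ I).card ≤ K then eI R K (B ∪ I) * F (B ∪ I) else 0)
              + (if (insert y (B ∪ I)).card ≤ K then
                eI R K (insert y (B ∪ I)) * F (insert y (B ∪ I)) else 0))| :=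
              Finset.abs_sum_le_sum_abs _ _
          _ ≤ ∑ B ∈ A.powerset, (3 ^ K * |F I| + 3 ^ K * |F I|) := by
              refine Finset.sum_le_sum fun B hB => ?_
              refine (abs_add_le _ _).trans (add_le_add ?_ ?_)
              · split_ifs with h3
                · rw [hFB B hB, abs_mul]
                  apply mul_le_mul_of_nonneg_right _ (abs_nonneg _)
                  exact (eI_abs R K _).trans (pow_le_pow_right₀ (by norm_num) h3)
                · rw [abs_zero]; positivity
              · split_ifs with h3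
                · rw [hFyB B hB, abs_mul, abs_neg]
                  apply mul_le_mul_of_nonneg_right _ (abs_nonneg _)
                  exact (eI_abs R K _).trans (pow_le_pow_right₀ (by norm_num) h3)
                · rw [abs_zero]; positivity
          _ = 2 ^ (A.card + 1) * (3 ^ K * |F I|) := by
              rw [Finset.sum_const, Finset.card_powerset, nsmul_eq_mul]; push_cast; ring
          _ ≤ 2 ^ a * (3 ^ K * |F I|) := by
              apply mul_le_mul_of_nonneg_right _ (by positivity)
              exact pow_le_pow_right₀ (by norm_num) ha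
          _ = 2 ^ a * 3 ^ K * |F I| := by ring
      · have h3 : ∑ B ∈ A.powerset, ((if (B ∪ I).card ≤ K then eI R K (B ∪ I) * F (B ∪ I) else 0)
              + (if (insert y (B ∪ I)).card ≤ K then
                eI R K (insert y (B ∪ I)) * F (insert y (B ∪ I)) else 0)) = 0 := by
          apply Finset.sum_eq_zero
          intro B hB
          rw [if_neg (by rw [hcB B hB]; omega), if_neg (by rw [hcy B hB]; omega), add_zero]
        rw [h3, abs_zero]
        split_ifs <;> positivity
  calc |∑ I ∈ ((insert y A)ᶜ).powerset, ∑ B ∈ (insert y A).powerset,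
        (if (B ∪ I).card ≤ K then eI R K (B ∪ I) * F (B ∪ I) else 0)|
      ≤ ∑ I ∈ ((insert y A)ᶜ).powerset, |∑ B ∈ (insert y A).powerset,
        (if (B ∪ I).card ≤ K then eI R K (B ∪ I) * F (B ∪ I) else 0)| :=
        Finset.abs_sum_le_sum_abs _ _
    _ ≤ ∑ I ∈ ((insert y A)ᶜ).powerset,
        2 ^ a * 3 ^ K * (if K < I.card + a ∧ I.card ≤ K then |F I| else 0) :=
        Finset.sum_le_sum hterm
    _ = 2 ^ a * 3 ^ K * ∑ I ∈ ((insert y A)ᶜ).powerset,
        (if K < I.card + a ∧ I.card ≤ K then |F I| else 0) := by rw [Finset.mul_sum]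
    _ ≤ 2 ^ a * 3 ^ K * top a K F := by
        apply mul_le_mul_of_nonneg_left (top_le_of_subset a K F _)
        positivity

end coefficients

end H534R2.Gen
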