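import Pool.Agent.H534R2.GenMain

/-!
# Pyramids: pebbling and the block function
-/

set_option linter.unusedSectionVars false

namespace H534R2.Gen

open Finset Relation

/-- positions of the pyramid with `h + 1` levels -/
abbrev Pos (h : ℕ) := Fin (h + 1) × Fin (h + 1)

/-- the rules of the pyramid: sources, and `(i, j), (i, j + 1) → (i + 1, j)` -/
def PyrR (h : ℕ) (A : Finset (Pos h)) (y : Pos h) : Prop :=
  (∃ j, A = ∅ ∧ y = (0, j)) ∨
    ∃ i j : Fin h, A = {(i.castSucc, j.castSucc), (i.castSucc, j.succ)} ∧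
      y = (i.succ, j.castSucc)

/-- the goal: the apex -/
def PyrZ (h : ℕ) (A : Finset (Pos h)) : Prop := A = {(Fin.last h, 0)}

/-- some path from the apex to a source avoids `S` -/
def NB {h : ℕ} (S : Finset (Pos h)) : Prop :=
  ∃ j : ℕ → ℕ, j h = 0 ∧ (∀ i < h, j (i + 1) = j i ∨ j (i + 1) + 1 = j i) ∧
    ∀ p ∈ S, p.2.val ≠ j p.1.val

theorem path_le {h : ℕ} {j : ℕ → ℕ} (h0 : j h = 0)
    (hs : ∀ i < h, j (i + 1) = j i ∨ j (i + 1) + 1 = j i) :
    ∀ k ≤ h, j (h - k) ≤ k := by
  intro k
  induction k with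
  | zero => intro _; simp [h0]
  | succ k ih =>
    intro hk
    have h1 := ih (by omega)
    have h2 := hs (h - (k + 1)) (by omega)
    have h3 : h - (k + 1) + 1 = h - k := by omega
    rw [h3] at h2
    omega

theorem NB_mono {h : ℕ} {S T : Finset (Pos h)} (hST : S ⊆ T) (hT : NB T) : NB S := by
  obtain ⟨j, h0, hs, ha⟩ := hT
  exact ⟨j, h0, hs, fun p hp => ha p (hST hp)⟩

theorem NB_step {h : ℕ} {S T : Finset (Pos h)} (hm : Mv (PyrR h) h S T) : NB S ↔ NB T := by
  classical
  obtain ⟨A, y, hR, hAS, hyS, rfl, hcard⟩ := hm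
  refine ⟨?_, NB_mono (Finset.subset_insert _ _)⟩
  rintro ⟨j, h0, hs, ha⟩
  by_cases hy : y.2.val = j y.1.val
  · rcases hR with ⟨j0, -, rfl⟩ | ⟨i, k, rfl, rfl⟩
    · -- the source of the path is pebbled: use another path
      have hy0 : j0.val = j 0 := hy
      rw [Finset.card_insert_of_notMem hyS] at hcard
      let φ : Pos h → ℕ := fun p => if p.2.val < j p.1.val then p.2.val else p.1.val + p.2.val
      have hj0 : j 0 ≤ h := by have := path_le h0 hs h le_rfl; simpa using this
      have hex : ∃ l ∈ (Finset.range (h + 1)).erase (j 0), l ∉ S.image φ := by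
        by_contra hcon
        push Not at hcon
        have h1 : (Finset.range (h + 1)).erase (j 0) ⊆ S.image φ := hcon
        have h2 := Finset.card_le_card h1
        have h3 := Finset.card_image_le (s := S) (f := φ)
        rw [Finset.card_erase_of_mem (Finset.mem_range.2 (by omega)), Finset.card_range] at h2
        omega
      obtain ⟨l, hl, hlS⟩ := hex
      rw [Finset.mem_erase, Finset.mem_range] at hl
      obtain ⟨hl0, hlh⟩ := hl
      rcases Nat.lt_or_gt_of_ne hl0 with hlt | hgt
      · refine ⟨fun i => min l (j i), by simp [h0], ?_, ?_⟩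
        · intro i hi
          have := hs i hi
          show min l (j (i + 1)) = min l (j i) ∨ min l (j (i + 1)) + 1 = min l (j i)
          omega
        · intro p hp
          show p.2.val ≠ min l (j p.1.val)
          rcases Finset.mem_insert.1 hp with rfl | hp
          · show j0.val ≠ min l (j 0)
            omega
          · intro heq
            have h1 := ha p hp
            apply hlS
            rw [Finset.mem_image]
            refine ⟨p, hp, ?_⟩
            show (if p.2.val < j p.1.val then p.2.val else p.1.val + p.2.val) = l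
            split_ifs with h2
            · omega
            · omega
      · refine ⟨fun i => max (l - i) (j i), by simp only [h0]; omega, ?_, ?_⟩
        · intro i hi
          have := hs i hi
          show max (l - (i + 1)) (j (i + 1)) = max (l - i) (j i) ∨
            max (l - (i + 1)) (j (i + 1)) + 1 = max (l - i) (j i)
          omega
        · intro p hp
          show p.2.val ≠ max (l - p.1.val) (j p.1.val)
          rcases Finset.mem_insert.1 hp with rfl | hp
          · show j0.val ≠ max (l - 0) (j 0)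
            omega
          · intro heq
            have h1 := ha p hp
            apply hlS
            rw [Finset.mem_image]
            refine ⟨p, hp, ?_⟩
            show (if p.2.val < j p.1.val then p.2.val else p.1.val + p.2.val) = l
            split_ifs with h2
            · omega
            · omega
    · exfalso
      have hy' : k.val = j (i.val + 1) := hy
      have h1 := hs i.val i.2
      rcases h1 with h1 | h1
      · have h2 : (i.castSucc, k.castSucc) ∈ S := hAS (by simp)
        apply ha _ h2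
        show k.val = j i.val
        omega
      · have h2 : (i.castSucc, k.succ) ∈ S := hAS (by simp)
        apply ha _ h2
        show k.val + 1 = j i.val
        omega
  · refine ⟨j, h0, hs, fun p hp => ?_⟩
    rcases Finset.mem_insert.1 hp with rfl | hp
    · exact hy
    · exact ha p hp

/-- `h` pebbles do not reach the apex -/
theorem pyr_safe (h : ℕ) : Safe (PyrR h) (PyrZ h) h := by
  intro S A hS hA hAS
  have key : ∀ S T : Finset (Pos h), EqvGen (Mv (PyrR h) h) S T → (NB S ↔ NB T) := by
    intro S T hST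
    induction hST with
    | rel x y hxy => exact NB_step hxy
    | refl => exact Iff.rfl
    | symm _ _ _ ih => exact ih.symm
    | trans _ _ _ _ _ ih1 ih2 => exact ih1.trans ih2
  have h0 : NB (∅ : Finset (Pos h)) :=
    ⟨fun i => 0, rfl, fun i _ => Or.inl rfl, fun p hp => absurd hp (Finset.notMem_empty p)⟩
  obtain ⟨j, hj0, -, ha⟩ := (key _ _ hS).1 h0
  unfold PyrZ at hA
  subst hA
  have h1 : (Fin.last h, (0 : Fin (h + 1))) ∈ S := hAS (by simp)
  apply ha _ h1
  show (0 : ℕ) = j h
  rw [hj0]

/-! ### the block function -/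

/-- variables: `M` blocks, each one a pyramid with `q` elements at every position -/
inductive PVar (M h q : ℕ) : Type
  | ax (b : Fin M) (j : Fin (h + 1)) (u : Fin q) : PVar M h q
  | rl (b : Fin M) (i j : Fin h) (u₁ u₂ u : Fin q) : PVar M h q
  | gl (b : Fin M) (u : Fin q) : PVar M h q

variable {M h q : ℕ}

/-- the derivable elements of the block `b` -/
inductive Der (v : PVar M h q → Prop) (b : Fin M) : Pos h → Fin q → Prop
  | ax (j : Fin (h + 1)) (u : Fin q) : v (.ax b j u) → Der v b (0, j) u
  | rl (i j : Fin h) (u₁ u₂ u : Fin q) : v (.rl b i j u₁ u₂ u) →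
      Der v b (i.castSucc, j.castSucc) u₁ → Der v b (i.castSucc, j.succ) u₂ →
      Der v b (i.succ, j.castSucc) u

/-- in some block, some goal element is derivable -/
def PyrFn (v : PVar M h q → Prop) : Prop := ∃ b u, v (.gl b u) ∧ Der v b (Fin.last h, 0) u

theorem Der.mono {v v' : PVar M h q → Prop} (hv : ∀ x, v x → v' x) {b : Fin M} {p : Pos h}
    {u : Fin q} (hd : Der v b p u) : Der v' b p u := by
  induction hd with
  | ax j u h1 => exact Der.ax j u (hv _ h1)
  | rl i j u₁ u₂ u h1 _ _ ih1 ih2 => exact Der.rl i j u₁ u₂ u (hv _ h1) ih1 ih2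

theorem PyrFn.mono {v v' : PVar M h q → Prop} (hv : ∀ x, v x → v' x) (hd : PyrFn v) :
    PyrFn v' := by
  obtain ⟨b, u, h1, h2⟩ := hd
  exact ⟨b, u, hv _ h1, h2.mono hv⟩

/-- the minimal accepted assignment with the elements `g` in the block `b` -/
def YP (b : Fin M) (g : Pos h → Fin q) : PVar M h q → Prop
  | .ax b' j u => b' = b ∧ u = g (0, j)
  | .rl b' i j u₁ u₂ u => b' = b ∧ u₁ = g (i.castSucc, j.castSucc) ∧
      u₂ = g (i.castSucc, j.succ) ∧ u = g (i.succ, j.castSucc)
  | .gl b' u => b' = b ∧ u = g (Fin.last h, 0)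

/-- the maximal rejected assignment of the block `b` with the side `C` -/
def YC (b : Fin M) (C : Cuts (Pos h) q) : PVar M h q → Prop
  | .ax b' j u => b' = b ∧ C (0, j) u = true
  | .rl b' i j u₁ u₂ u => b' = b ∧ ¬ (C (i.castSucc, j.castSucc) u₁ = true ∧
      C (i.castSucc, j.succ) u₂ = true ∧ C (i.succ, j.castSucc) u = false)
  | .gl b' u => b' = b ∧ C (Fin.last h, 0) u = false

theorem YP_der (b : Fin M) (g : Pos h → Fin q) (k : ℕ) :
    ∀ (i j : Fin (h + 1)), i.val = k → i.val + j.val ≤ h → Der (YP b g) b (i, j) (g (i, j)) := by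
  induction k with
  | zero =>
    intro i j hi _
    have : i = 0 := Fin.ext hi
    subst this
    exact Der.ax j _ ⟨rfl, rfl⟩
  | succ k ih =>
    intro i j hi hij
    have hk : k < h := by omega
    have hj : j.val < h := by omega
    have e1 : i = (⟨k, hk⟩ : Fin h).succ := Fin.ext hi
    have e2 : j = (⟨j.val, hj⟩ : Fin h).castSucc := Fin.ext rfl
    rw [e1, e2]
    refine Der.rl ⟨k, hk⟩ ⟨j.val, hj⟩ _ _ _ ⟨rfl, rfl, rfl, rfl⟩ ?_ ?_
    · apply ih
      · rfl
      · show k + j.val ≤ h; omega
    · apply ih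
      · rfl
      · show k + (j.val + 1) ≤ h; omega

theorem YP_fn (b : Fin M) (g : Pos h → Fin q) : PyrFn (YP b g) :=
  ⟨b, g (Fin.last h, 0), ⟨rfl, rfl⟩, YP_der b g h (Fin.last h) 0 rfl (by simp)⟩

/-- the first `k` blocks are filled with rejected assignments -/
def XX (D : Fin M → Cuts (Pos h) q) (k : ℕ) (x : PVar M h q) : Prop :=
  ∃ b : Fin M, b.val < k ∧ YC b (D b) x

theorem XX_der {D : Fin M → Cuts (Pos h) q} {k : ℕ} {b : Fin M} {p : Pos h} {u : Fin q}
    (hd : Der (XX D k) b p u) : D b p u = true := by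
  induction hd with
  | ax j u h1 =>
    obtain ⟨b', -, h2, h3⟩ := h1
    subst h2; exact h3
  | rl i j u₁ u₂ u h1 _ _ ih1 ih2 =>
    obtain ⟨b', -, h2, h3⟩ := h1
    subst h2
    by_contra hne
    exact h3 ⟨ih1, ih2, by simpa using hne⟩

theorem XX_not_fn (D : Fin M → Cuts (Pos h) q) (k : ℕ) : ¬ PyrFn (XX D k) := by
  rintro ⟨b, u, ⟨b', -, h2, h3⟩, hd⟩
  subst h2
  rw [XX_der hd] at h3
  exact Bool.noConfusion h3

theorem XX_succ (D : Fin M → Cuts (Pos h) q) {k : ℕ} (hk : k < M) (C : Cuts (Pos h) q)
    (x : PVar M h q) :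
    XX (Function.update D ⟨k, hk⟩ C) (k + 1) x ↔ XX D k x ∨ YC ⟨k, hk⟩ C x := by
  constructor
  · rintro ⟨b, hb, hx⟩
    by_cases hbk : b = ⟨k, hk⟩
    · subst hbk
      rw [Function.update_self] at hx
      exact Or.inr hx
    · rw [Function.update_of_ne hbk] at hx
      refine Or.inl ⟨b, ?_, hx⟩
      have : b.val ≠ k := fun h => hbk (Fin.ext h)
      omega
  · rintro (⟨b, hb, hx⟩ | hx)
    · refine ⟨b, by omega, ?_⟩
      rw [Function.update_of_ne]
      · exact hx
      · intro h
        rw [h] at hb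
        exact absurd hb (lt_irrefl _)
    · exact ⟨⟨k, hk⟩, Nat.lt_succ_self k, by rw [Function.update_self]; exact hx⟩

theorem cover_block {r : ℕ} (v : PVar M h (r ^ 2) → Prop) (b : Fin M)
    (g : Pos h → Fin (r ^ 2)) (x : PVar M h (r ^ 2)) (hx : v x ∨ YP b g x) :
    Cover (PyrR h) (PyrZ h) 3 (fun C => v x ∨ YC b C x) g := by
  rcases hx with hx | hx
  · exact Or.inl fun C => Or.inl hx
  · cases x with
    | ax b' j u =>
      obtain ⟨rfl, rfl⟩ := hx
      refine Or.inr (Or.inr ⟨∅, (0, j), Or.inl ⟨j, rfl, rfl⟩, by simp, by simp, ?_⟩)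
      intro C hC
      refine Or.inr ⟨rfl, ?_⟩
      by_contra hne
      exact hC ⟨by simp, by simpa using hne⟩
    | rl b' i j u₁ u₂ u =>
      obtain ⟨rfl, rfl, rfl, rfl⟩ := hx
      refine Or.inr (Or.inr ⟨_, _, Or.inr ⟨i, j, rfl, rfl⟩, ?_, ?_, ?_⟩)
      · intro hmem
        rw [Finset.mem_insert, Finset.mem_singleton] at hmem
        rcases hmem with h1 | h1
        · have h2 : i.succ = i.castSucc := congrArg Prod.fst h1
          have := congrArg Fin.val h2
          simp at this
        · have h2 : i.succ = i.castSucc := congrArg Prod.fst h1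
          have := congrArg Fin.val h2
          simp at this
      · have := Finset.card_le_two (a := ((i.castSucc, j.castSucc) : Pos h))
          (b := (i.castSucc, j.succ))
        omega
      · intro C hC
        refine Or.inr ⟨rfl, ?_⟩
        rintro ⟨h1, h2, h3⟩
        apply hC
        refine ⟨?_, h3⟩
        intro p hp
        rw [Finset.mem_insert, Finset.mem_singleton] at hp
        rcases hp with rfl | rfl
        · exact h1
        · exact h2
    | gl b' u =>
      obtain ⟨rfl, rfl⟩ := hx
      refine Or.inr (Or.inl ⟨_, rfl, by simp, ?_⟩)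
      intro C hC
      refine Or.inr ⟨rfl, ?_⟩
      by_contra hne
      apply hC
      intro p hp
      rw [Finset.mem_singleton] at hp
      subst hp
      simpa using hne

/-- **Lower bound for the block function** (undirected networks). -/
theorem pyr_bound {r : ℕ} (hh : 3 ≤ h) (hr : r = 6 * (h + 1) ^ 2) (T : BTree (PVar M h (r ^ 2)))
    (hload : 1728 * T.load < 2 ^ h)
    (hT : ∀ v : PVar M h (r ^ 2) → Prop, T.eval v ↔ PyrFn v) : M + 1 ≤ T.cost := by
  classical
  refine T.cost_of_chain M (fun k v => ∃ D : Fin M → Cuts (Pos h) (r ^ 2), v = XX D k)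
    ⟨XX (fun _ _ _ => true) 0, _, rfl⟩ ?_ ?_
  · rintro k hk v ⟨D, rfl⟩
    have hcardι : Fintype.card (Pos h) = (h + 1) ^ 2 := by
      rw [Fintype.card_prod, Fintype.card_fin]; ring
    have hr1 : 1 ≤ r := by
      have : 0 < (h + 1) ^ 2 := by positivity
      omega
    have hmr : (h + 1) ^ 2 ≤ r := by rw [hr]; nlinarith [Nat.zero_le ((h + 1) ^ 2)]
    obtain ⟨N, hN, C, hacc⟩ := exists_cut (K := h) (a := 3) hcardι hmr hr1 (pyr_safe h)
      (T.zeros (XX D k)) (fun g x => XX D k x ∨ YP ⟨k, hk⟩ g x)
      (fun C x => XX D k x ∨ YC ⟨k, hk⟩ C x)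
      (fun g x hx => cover_block (XX D k) ⟨k, hk⟩ g x hx) (by
        have h1 := T.zeros_load (XX D k)
        obtain ⟨s, hs⟩ : ∃ s, s = ((T.zeros (XX D k)).map BNet.size).sum := ⟨_, rfl⟩
        rw [← hs] at h1 ⊢
        obtain ⟨e, he⟩ : ∃ e, h = e + 2 := ⟨h - 2, by omega⟩
        have h2 : h + 1 - 3 = e := by omega
        have h0 : r ^ e = 6 ^ e * ((h + 1) ^ 2) ^ e := by rw [hr, mul_pow]
        rw [h2, h0]
        have h3 : 2 * 2 ^ 3 * 3 ^ h * 3 * s < 6 ^ e := by
          have h4 : (6 : ℕ) ^ e = 2 ^ e * 3 ^ e := by rw [← mul_pow]; norm_num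
          have h5 : (3 : ℕ) ^ h = 9 * 3 ^ e := by rw [he, pow_add]; ring
          have h6 : (2 : ℕ) ^ h = 4 * 2 ^ e := by rw [he, pow_add]; ring
          rw [h4, h5]
          have h7 : 432 * s < 2 ^ e := by omega
          calc 2 * 2 ^ 3 * (9 * 3 ^ e) * 3 * s
              = 432 * s * 3 ^ e := by ring
            _ < 2 ^ e * 3 ^ e := Nat.mul_lt_mul_of_pos_right h7 (by positivity)
        exact Nat.mul_lt_mul_of_pos_right h3 (by positivity))
      (fun g => T.found (fun x hx => Or.inl hx)
        ((hT _).2 ((YP_fn ⟨k, hk⟩ g).mono fun x hx => Or.inr hx)))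
    refine ⟨fun x => XX D k x ∨ YC ⟨k, hk⟩ C x, ⟨Function.update D ⟨k, hk⟩ C, ?_⟩,
      fun x hx => Or.inl hx, N, hN, hacc⟩
    funext x
    exact propext (XX_succ D hk C x).symm
  · rintro k v ⟨D, rfl⟩
    rw [hT]
    exact XX_not_fn D k

end H534R2.Gen
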