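import Mathlib
import Pool.Agent.H534R2.FOSTC
import Pool.Agent.H534R2.HFree

namespace Pool.Agent.H534R2

open Relation

section core

variable {V : Type}

/-- Every two distinct out-neighbours of a vertex are adjacent. -/
def LocallyOutSemicomplete (E : V → V → Prop) : Prop :=
  ∀ v x y, E v x → E v y → x ≠ y → E x y ∨ E y x

/-- `y` is an out-neighbour of `t` other than `t` -/
def Bq (E : V → V → Prop) (t y : V) : Prop := E t y ∧ y ≠ t

/-- `s` and `t` are connected in the underlying graph of `D - N⁺(t)` -/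
def Pq (E : V → V → Prop) (s t : V) : Prop :=
  ¬ Bq E t s ∧ EqvGen (fun a b => E a b ∧ ¬ Bq E t a ∧ ¬ Bq E t b) s t

def P1 (E : V → V → Prop) (s t : V) : Prop :=
  Pq E s t ∨ (Bq E t s ∧ ∃ z, E s z ∧ Pq E z t)

def Ball (E : V → V → Prop) (z w t : V) : Prop :=
  w = z ∨ P1 E z w ∨ ∃ x, Bq E t x ∧ P1 E z x ∧ P1 E x w

def Bad (E : V → V → Prop) (y t : V) : Prop :=
  ∃ z, Bq E t z ∧ Ball E z y t ∧
    (∀ w, Bq E t w → Ball E z w t → ¬ P1 E w t) ∧
    (∀ w, Bq E t w → Ball E z w t → ∀ x, Bq E t x → P1 E w x → Ball E z x t)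

def Rq (E : V → V → Prop) (s t : V) : Prop :=
  Pq E s t ∨ ∃ y, (Bq E t y ∧ ¬ Bad E y t) ∧ Pq E s y

theorem not_Bq_self (E : V → V → Prop) (t : V) : ¬ Bq E t t := fun h => h.2 rfl

theorem Pq_refl (E : V → V → Prop) (t : V) : Pq E t t := ⟨not_Bq_self E t, EqvGen.refl t⟩

/-- soundness of `Pq` -/
theorem Pq_sound {E : V → V → Prop} (hE : LocallyOutSemicomplete E) {s t : V}
    (h : Pq E s t) : ReflTransGen E s t := by
  -- vertices reaching t inside W
  let W : V → V → Prop := fun a b => E a b ∧ ¬ Bq E t a ∧ ¬ Bq E t b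
  have hfwd : ∀ w, ReflTransGen W w t → ∀ z, E w z → ¬ Bq E t z → ReflTransGen W z t := by
    intro w hw
    induction hw using ReflTransGen.head_induction_on with
    | refl =>
        intro z hz hzB
        have : z = t := by
          by_contra hne
          exact hzB ⟨hz, hne⟩
        rw [this]
    | @head w w' hww' hw't ih =>
        intro z hz hzB
        by_cases hzw : z = w'
        · rw [hzw]; exact hw't
        · rcases hE w z w' hz hww'.1 hzw with h1 | h1
          · exact ReflTransGen.head ⟨h1, hzB, hww'.2.2⟩ hw't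
          · exact ih z h1 hzB
  have key : ∀ a b, EqvGen W a b → (ReflTransGen W a t ↔ ReflTransGen W b t) := by
    intro a b hab
    induction hab with
    | rel a b h =>
        constructor
        · intro ha; exact hfwd a ha b h.1 h.2.2
        · intro hb; exact ReflTransGen.head h hb
    | refl a => exact Iff.rfl
    | symm a b _ ih => exact ih.symm
    | trans a b c _ _ h1 h2 => exact h1.trans h2
  have h1 : ReflTransGen W s t := (key s t h.2).2 ReflTransGen.refl
  exact ReflTransGen.mono (fun a b h => h.1) _ _ h1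

theorem P1_sound {E : V → V → Prop} (hE : LocallyOutSemicomplete E) {s t : V}
    (h : P1 E s t) : ReflTransGen E s t := by
  rcases h with h | ⟨_, z, h1, h2⟩
  · exact Pq_sound hE h
  · exact ReflTransGen.head h1 (Pq_sound hE h2)

/-- a walk that avoids the out-neighbours of its last vertex -/
theorem Pq_path {E : V → V → Prop} {p : ℕ → V} {a b : ℕ} (hab : a ≤ b)
    (harc : ∀ k, a ≤ k → k < b → E (p k) (p (k + 1)))
    (hav : ∀ k, a ≤ k → k < b → ¬ Bq E (p b) (p k)) : Pq E (p a) (p b) := by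
  have hav' : ∀ k, a ≤ k → k ≤ b → ¬ Bq E (p b) (p k) := by
    intro k h1 h2
    rcases Nat.lt_or_ge k b with h | h
    · exact hav k h1 h
    · have : k = b := by omega
      rw [this]; exact not_Bq_self E _
  refine ⟨hav' a (le_refl _) hab, ?_⟩
  have : ∀ c, a ≤ c → c ≤ b →
      EqvGen (fun x y => E x y ∧ ¬ Bq E (p b) x ∧ ¬ Bq E (p b) y) (p a) (p c) := by
    intro c hc
    induction c, hc using Nat.le_induction with
    | base => intro _; exact EqvGen.refl _
    | succ c hc ih =>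
        intro hcb
        refine EqvGen.trans _ _ _ (ih (by omega)) (EqvGen.rel _ _ ⟨harc c hc (by omega), ?_, ?_⟩)
        · exact hav' c hc (by omega)
        · exact hav' (c + 1) (by omega) hcb
  exact this b hab (le_refl _)

/-- a backward chord of a geodesic propagates to its last vertex -/
theorem chord_last {E : V → V → Prop} (hE : LocallyOutSemicomplete E) {p : ℕ → V} {l : ℕ}
    (hp : Geo E p l) {i j : ℕ} (hij : i < j) (hjl : j ≤ l) (h : E (p j) (p i)) :
    E (p l) (p i) := by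
  have : ∀ k, j ≤ k → k ≤ l → E (p k) (p i) := by
    intro k hk
    induction k, hk using Nat.le_induction with
    | base => intro _; exact h
    | succ k hk ih =>
        intro hkl
        have h1 := ih (by omega)
        have h2 := hp.arc k (by omega)
        have hne : p i ≠ p (k + 1) := hp.inj i (k + 1) (by omega) hkl
        rcases hE (p k) (p i) (p (k + 1)) h1 h2 hne with h3 | h3
        · exact absurd h3 (hp.noshort i (k + 1) (by omega) hkl)
        · exact h3
  exact this l hjl (le_refl _)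

theorem Bq_of_chord {E : V → V → Prop} {p : ℕ → V} {l : ℕ}
    (hp : Geo E p l) {i : ℕ} (hi : i < l) (h : E (p l) (p i)) : Bq E (p l) (p i) :=
  ⟨h, hp.inj i l hi (le_refl _)⟩

/-- `Pq` from a geodesic vertex to a later one when no vertex in between is an out-neighbour of
the last vertex of the geodesic. -/
theorem Pq_geo {E : V → V → Prop} (hE : LocallyOutSemicomplete E) {p : ℕ → V} {l : ℕ}
    (hp : Geo E p l) {a b : ℕ} (hab : a ≤ b) (hbl : b ≤ l)
    (hno : ∀ k, a ≤ k → k < b → ¬ E (p l) (p k)) : Pq E (p a) (p b) := by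
  refine Pq_path hab (fun k _ hk => hp.arc k (by omega)) (fun k hk hkb hB => ?_)
  exact hno k hk hkb (chord_last hE hp hkb hbl hB.1)

theorem P1_geo {E : V → V → Prop} (hE : LocallyOutSemicomplete E) {p : ℕ → V} {l : ℕ}
    (hp : Geo E p l) {a b : ℕ} (hab : a < b) (hbl : b ≤ l)
    (hno : ∀ k, a < k → k < b → ¬ E (p l) (p k)) : P1 E (p a) (p b) := by
  have h1 : Pq E (p (a + 1)) (p b) := Pq_geo hE hp (by omega) hbl (fun k h1 h2 => hno k h1 h2)
  by_cases hB : Bq E (p b) (p a)
  · exact Or.inr ⟨hB, p (a + 1), hp.arc a (by omega), h1⟩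
  · left
    refine Pq_path hab.le (fun k _ hk => hp.arc k (by omega)) (fun k hk hkb hB' => ?_)
    rcases Nat.lt_or_ge a k with h2 | h2
    · exact hno k h2 hkb (chord_last hE hp hkb hbl hB'.1)
    · have : k = a := by omega
      subst this
      exact hB hB'

/-- the chain of out-neighbours of `t` along a geodesic that ends in `t` -/
theorem chain {E : V → V → Prop} (hE : LocallyOutSemicomplete E) {p : ℕ → V} {l : ℕ}
    (hp : Geo E p l) (X : V → Prop)
    (hclosed : ∀ w, Bq E (p l) w → X w → ∀ x, Bq E (p l) x → P1 E w x → X x) :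
    ∀ n a, l - a = n → a < l → E (p l) (p a) → X (p a) →
      ∃ b, Bq E (p l) b ∧ X b ∧ P1 E b (p l) := by
  classical
  intro n
  induction n using Nat.strong_induction_on with
  | _ n ih =>
      intro a hn hal hEa hX
      by_cases hex : ∃ b, a < b ∧ b < l ∧ E (p l) (p b)
      · have hspec := Nat.find_spec hex
        have hmin : ∀ k, k < Nat.find hex → ¬ (a < k ∧ k < l ∧ E (p l) (p k)) :=
          fun k hk => Nat.find_min hex hk
        set b := Nat.find hex with hb
        obtain ⟨h1, h2, h3⟩ := hspec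
        have hP : P1 E (p a) (p b) := P1_geo hE hp h1 (by omega)
          (fun k hk1 hk2 hk3 => hmin k hk2 ⟨hk1, by omega, hk3⟩)
        have hXb : X (p b) := hclosed _ (Bq_of_chord hp hal hEa) hX _ (Bq_of_chord hp h2 h3) hP
        exact ih (l - b) (by omega) b rfl h2 h3 hXb
      · refine ⟨p a, Bq_of_chord hp hal hEa, hX, ?_⟩
        exact P1_geo hE hp hal (le_refl _) (fun k h1 h2 h3 => hex ⟨k, h1, h2, h3⟩)

/-- a finite nonempty set on which a relation is semicomplete has a king -/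
theorem exists_king {X : Finset V} (hX : X.Nonempty) (Q : V → V → Prop)
    (hQ : ∀ x ∈ X, ∀ y ∈ X, x ≠ y → Q x y ∨ Q y x) :
    ∃ z ∈ X, ∀ x ∈ X, x = z ∨ Q z x ∨ ∃ w ∈ X, Q z w ∧ Q w x := by
  classical
  obtain ⟨z, hz, hmax⟩ := X.exists_max_image (fun z => (X.filter (fun x => Q z x ∧ x ≠ z)).card) hX
  refine ⟨z, hz, fun x hx => ?_⟩
  by_contra hcon
  push Not at hcon
  obtain ⟨hxz, hzx, hw⟩ := hcon
  have hxz' : Q x z := by
    rcases hQ x hx z hz hxz with h | h
    · exact h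
    · exact absurd h hzx
  have hlt : (X.filter (fun y => Q z y ∧ y ≠ z)).card < (X.filter (fun y => Q x y ∧ y ≠ x)).card := by
    apply Finset.card_lt_card
    rw [Finset.ssubset_iff_of_subset]
    · refine ⟨z, ?_, ?_⟩
      · rw [Finset.mem_filter]
        exact ⟨hz, hxz', fun h => hxz h.symm⟩
      · rw [Finset.mem_filter]
        exact fun h => h.2.2 rfl
    · intro w hw'
      rw [Finset.mem_filter] at hw' ⊢
      obtain ⟨h1, h2, h3⟩ := hw'
      have hwx : w ≠ x := fun h => hzx (h ▸ h2)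
      refine ⟨h1, ?_, hwx⟩
      rcases hQ x hx w h1 hwx.symm with h | h
      · exact h
      · exact absurd h (hw w h1 h2)
  exact absurd (hmax x hx) (not_le.2 hlt)

theorem P1_of_arc {E : V → V → Prop} {x y : V} (h : E x y) : P1 E x y := by
  by_cases hB : Bq E y x
  · exact Or.inr ⟨hB, y, h, Pq_refl E y⟩
  · exact Or.inl ⟨hB, EqvGen.rel _ _ ⟨h, hB, not_Bq_self E y⟩⟩

/-- out-neighbours of `t` that do not reach `t` are recognised -/
theorem bad_of_not_reach [Finite V] {E : V → V → Prop} (hE : LocallyOutSemicomplete E) {t y : V}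
    (hy : Bq E t y) (hno : ¬ ReflTransGen E y t) : Bad E y t := by
  classical
  haveI := Fintype.ofFinite V
  let X : Finset V := Finset.univ.filter (fun x => Bq E t x ∧ ¬ ReflTransGen E x t)
  have hmem : ∀ x, x ∈ X ↔ Bq E t x ∧ ¬ ReflTransGen E x t := fun x => by simp [X]
  have hclos : ∀ w ∈ X, ∀ x, Bq E t x → P1 E w x → x ∈ X := by
    intro w hw x hx hwx
    rw [hmem] at hw ⊢
    exact ⟨hx, fun h => hw.2 ((P1_sound hE hwx).trans h)⟩
  obtain ⟨z, hz, hking⟩ := exists_king (X := X) ⟨y, (hmem y).2 ⟨hy, hno⟩⟩ (P1 E) (by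
    intro x hx y hy hxy
    rw [hmem] at hx hy
    rcases hE t x y hx.1.1 hy.1.1 hxy with h | h
    · exact Or.inl (P1_of_arc h)
    · exact Or.inr (P1_of_arc h))
  have hball : ∀ x, Bq E t x → (Ball E z x t ↔ x ∈ X) := by
    intro x hx
    constructor
    · rintro (h | h | ⟨u, h1, h2, h3⟩)
      · rw [h]; exact hz
      · exact hclos z hz x hx h
      · exact hclos u (hclos z hz u h1 h2) x hx h3
    · intro hxX
      rcases hking x hxX with h | h | ⟨u, h1, h2, h3⟩
      · exact Or.inl h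
      · exact Or.inr (Or.inl h)
      · exact Or.inr (Or.inr ⟨u, ((hmem u).1 h1).1, h2, h3⟩)
  refine ⟨z, ((hmem z).1 hz).1, (hball y hy).2 ((hmem y).2 ⟨hy, hno⟩), ?_, ?_⟩
  · intro w hw hwb hP
    exact ((hmem w).1 ((hball w hw).1 hwb)).2 (P1_sound hE hP)
  · intro w hw hwb x hx hwx
    exact (hball x hx).2 (hclos w ((hball w hw).1 hwb) x hx hwx)

/-- out-neighbours of `t` that reach `t` are not `Bad` -/
theorem not_bad_of_reach {E : V → V → Prop} (hE : LocallyOutSemicomplete E) {t y : V}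
    (hy : Bq E t y) (hr : ReflTransGen E y t) : ¬ Bad E y t := by
  rintro ⟨z, _, hzy, h1, h2⟩
  obtain ⟨p, l, hp, hp0, hpl⟩ := exists_geo hr
  have hl : 0 < l := by
    rcases Nat.eq_zero_or_pos l with h | h
    · exfalso; apply hy.2; rw [← hp0, ← hpl, h]
    · exact h
  subst hp0 hpl
  obtain ⟨b, hb1, hb2, hb3⟩ := chain hE hp (fun x => Ball E z x (p l))
    (fun w hw hX x hx hwx => h2 w hw hX x hx hwx) (l - 0) 0 rfl hl hy.1 hzy
  exact h1 b hb1 hb2 hb3

theorem reach_iff_Rq [Finite V] {E : V → V → Prop} (hE : LocallyOutSemicomplete E) (s t : V) :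
    Rq E s t ↔ ReflTransGen E s t := by
  classical
  constructor
  · rintro (h | ⟨y, ⟨hy, hbad⟩, hP⟩)
    · exact Pq_sound hE h
    · refine (Pq_sound hE hP).trans ?_
      by_contra hcon
      exact hbad (bad_of_not_reach hE hy hcon)
  · intro h
    obtain ⟨p, l, hp, hp0, hpl⟩ := exists_geo h
    subst hp0 hpl
    by_cases hex : ∃ i, i < l ∧ E (p l) (p i)
    · have hspec := Nat.find_spec hex
      have hmin : ∀ k, k < Nat.find hex → ¬ (k < l ∧ E (p l) (p k)) :=
        fun k hk => Nat.find_min hex hk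
      set i := Nat.find hex with hi
      have hB : Bq E (p l) (p i) := Bq_of_chord hp hspec.1 hspec.2
      refine Or.inr ⟨p i, ⟨hB, ?_⟩, ?_⟩
      · apply not_bad_of_reach hE hB
        have : ∀ k, i ≤ k → k ≤ l → ReflTransGen E (p i) (p k) := by
          intro k hk
          induction k, hk using Nat.le_induction with
          | base => intro _; exact .refl
          | succ k hk ih => intro hkl; exact (ih (by omega)).tail (hp.arc k (by omega))
        exact this l hspec.1.le (le_refl _)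
      · exact Pq_geo hE hp (Nat.zero_le _) hspec.1.le
          (fun k _ hk hEk => hmin k hk ⟨by omega, hEk⟩)
    · left
      exact Pq_geo hE hp (Nat.zero_le _) (le_refl _)
        (fun k _ hk hEk => hex ⟨k, hk, hEk⟩)

end core

theorem dfn_Bq : Dfn2 (fun _ E t y => Bq E t y) :=
  Dfn2.edge.and (Dfn2.eq.swap.neg)

theorem dfn_Pq : Dfn2 (fun _ E s t => Pq E s t) := by
  have h1 : Dfn (n := 4) (fun V E ν => E (ν 0) (ν 1) ∧ ¬ Bq E (ν 3) (ν 0) ∧ ¬ Bq E (ν 3) (ν 1)) :=
    (Dfn.edge 0 1).and ((dfn_Bq.at 3 0).neg.and (dfn_Bq.at 3 1).neg)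
  exact (dfn_Bq.swap.neg).and (h1.stc 0 1)

theorem dfn_P1 : Dfn2 (fun _ E s t => P1 E s t) :=
  dfn_Pq.or (dfn_Bq.swap.and (Dfn2.edge.comp dfn_Pq))

theorem dfn_Ball {n : ℕ} (i j k : Fin n) :
    Dfn (fun V E ν => Ball E (ν i) (ν j) (ν k)) := by
  have h1 : Dfn (n := n + 1) (fun V E ν => Bq E (ν k.succ) (ν 0) ∧ P1 E (ν i.succ) (ν 0) ∧
      P1 E (ν 0) (ν j.succ)) :=
    (dfn_Bq.at k.succ 0).and ((dfn_P1.at i.succ 0).and (dfn_P1.at 0 j.succ))
  exact (Dfn.eq j i).or ((dfn_P1.at i j).or (h1.ex.congr (fun V E ν => Iff.rfl)))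

theorem dfn_Bad : Dfn2 (fun _ E y t => Bad E y t) := by
  -- context: z = 0, y = 1, t = 2
  have h1 : Dfn (n := 3) (fun V E ν => ∀ w, Bq E (ν 2) w → Ball E (ν 0) w (ν 2) →
      ¬ P1 E w (ν 2)) := by
    have : Dfn (n := 4) (fun V E ν => Bq E (ν 3) (ν 0) → Ball E (ν 1) (ν 0) (ν 3) →
        ¬ P1 E (ν 0) (ν 3)) :=
      (dfn_Bq.at 3 0).imp ((dfn_Ball 1 0 3).imp (dfn_P1.at 0 3).neg)
    exact this.all.congr (fun V E ν => Iff.rfl)
  have h2 : Dfn (n := 3) (fun V E ν => ∀ w, Bq E (ν 2) w → Ball E (ν 0) w (ν 2) →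
      ∀ x, Bq E (ν 2) x → P1 E w x → Ball E (ν 0) x (ν 2)) := by
    -- context: x = 0, w = 1, z = 2, y = 3, t = 4
    have h3 : Dfn (n := 5) (fun V E ν => Bq E (ν 4) (ν 0) → P1 E (ν 1) (ν 0) →
        Ball E (ν 2) (ν 0) (ν 4)) :=
      (dfn_Bq.at 4 0).imp ((dfn_P1.at 1 0).imp (dfn_Ball 2 0 4))
    have h4 : Dfn (n := 4) (fun V E ν => Bq E (ν 3) (ν 0) → Ball E (ν 1) (ν 0) (ν 3) →
        ∀ x, Bq E (ν 3) x → P1 E (ν 0) x → Ball E (ν 1) x (ν 3)) :=
      (dfn_Bq.at 3 0).imp ((dfn_Ball 1 0 3).imp (h3.all.congr (fun V E ν => Iff.rfl)))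
    exact h4.all.congr (fun V E ν => Iff.rfl)
  have h5 : Dfn (n := 3) (fun V E ν => Bq E (ν 2) (ν 0) ∧ Ball E (ν 0) (ν 1) (ν 2) ∧
      (∀ w, Bq E (ν 2) w → Ball E (ν 0) w (ν 2) → ¬ P1 E w (ν 2)) ∧
      (∀ w, Bq E (ν 2) w → Ball E (ν 0) w (ν 2) →
        ∀ x, Bq E (ν 2) x → P1 E w x → Ball E (ν 0) x (ν 2))) :=
    (dfn_Bq.at 2 0).and ((dfn_Ball 0 1 2).and (h1.and h2))
  exact h5.ex.congr (fun V E ν => Iff.rfl)

theorem dfn_Rq : Dfn2 (fun _ E s t => Rq E s t) := by
  -- context: y = 0, s = 1, t = 2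
  have h : Dfn (n := 3) (fun V E ν => (Bq E (ν 2) (ν 0) ∧ ¬ Bad E (ν 0) (ν 2)) ∧
      Pq E (ν 1) (ν 0)) :=
    ((dfn_Bq.at 2 0).and (dfn_Bad.at 0 2).neg).and (dfn_Pq.at 1 0)
  exact dfn_Pq.or (h.ex.congr (fun V E ν => Iff.rfl))

end Pool.Agent.H534R2
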