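import Pool.Agent.H534R2.NetFourier

/-!
# Monotone undirected switching networks: Bessel inequality and the main lemma
-/

namespace H534R2.NotNet

open Finset Relation H534R2.SymSw

/-- cuts of a block with `m` layers of `q` vertices -/
abbrev Cuts (m q : ℕ) := Fin m → Fin q → Bool

section fourier

variable {m q : ℕ}

/-- the sign of a side -/
def sg (b : Bool) : ℝ := if b then 1 else -1

theorem sg_mul_self (b : Bool) : sg b * sg b = 1 := by cases b <;> simp [sg]

theorem sg_not (b : Bool) : sg (!b) = - sg b := by cases b <;> simp [sg]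

/-- expectation over a random cut -/
noncomputable def ex (f : Cuts m q → ℝ) : ℝ := (∑ C, f C) / (Fintype.card (Cuts m q) : ℝ)

theorem card_pos' : (0 : ℝ) < (Fintype.card (Cuts m q) : ℝ) := by
  have : 0 < Fintype.card (Cuts m q) := Fintype.card_pos
  exact_mod_cast this

theorem ex_one : ex (fun _ : Cuts m q => (1 : ℝ)) = 1 := by
  unfold ex
  rw [Finset.sum_const, Finset.card_univ, nsmul_eq_mul, mul_one]
  exact div_self card_pos'.ne'

theorem ex_add (f g : Cuts m q → ℝ) : ex (fun C => f C + g C) = ex f + ex g := by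
  unfold ex; rw [Finset.sum_add_distrib, add_div]

theorem ex_mul_left (c : ℝ) (f : Cuts m q → ℝ) : ex (fun C => c * f C) = c * ex f := by
  unfold ex; rw [← Finset.mul_sum, mul_div_assoc]

theorem ex_neg (f : Cuts m q → ℝ) : ex (fun C => - f C) = - ex f := by
  unfold ex; rw [Finset.sum_neg_distrib, neg_div]

theorem ex_sub (f g : Cuts m q → ℝ) : ex (fun C => f C - g C) = ex f - ex g := by
  unfold ex; rw [Finset.sum_sub_distrib, sub_div]

theorem ex_sum {ι : Type*} (s : Finset ι) (f : ι → Cuts m q → ℝ) :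
    ex (fun C => ∑ i ∈ s, f i C) = ∑ i ∈ s, ex (f i) := by
  unfold ex; rw [Finset.sum_comm, Finset.sum_div]

theorem ex_mono {f g : Cuts m q → ℝ} (h : ∀ C, f C ≤ g C) : ex f ≤ ex g := by
  unfold ex
  exact div_le_div_of_nonneg_right (Finset.sum_le_sum fun C _ => h C) card_pos'.le

/-- Cauchy-Schwarz -/
theorem ex_cs (f g : Cuts m q → ℝ) :
    ex (fun C => f C * g C) ^ 2 ≤ ex (fun C => f C ^ 2) * ex (fun C => g C ^ 2) := by
  unfold ex
  rw [div_pow, div_mul_div_comm, ← pow_two]
  exact div_le_div_of_nonneg_right (Finset.sum_mul_sq_le_sq_mul_sq _ _ _) (by positivity)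

/-- flip the side of one vertex -/
def flip (i : Fin m) (u : Fin q) (C : Cuts m q) : Cuts m q :=
  fun j v => if j = i ∧ v = u then !(C j v) else C j v

theorem flip_flip (i : Fin m) (u : Fin q) (C : Cuts m q) : flip i u (flip i u C) = C := by
  funext j v
  unfold flip
  by_cases h : j = i ∧ v = u
  · simp [h]
  · simp [h]

theorem ex_eq_zero_of_flip (i : Fin m) (u : Fin q) (f : Cuts m q → ℝ)
    (h : ∀ C, f (flip i u C) = - f C) : ex f = 0 := by
  let e : Cuts m q ≃ Cuts m q := ⟨flip i u, flip i u, flip_flip i u, flip_flip i u⟩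
  have h1 : ∑ C, f C = ∑ C, f (e C) := (Equiv.sum_comp e f).symm
  have h2 : ∑ C, f (e C) = - ∑ C, f C := by
    rw [← Finset.sum_neg_distrib]
    exact Finset.sum_congr rfl fun C _ => h C
  unfold ex
  have : ∑ C, f C = 0 := by linarith
  rw [this, zero_div]

/-- the character of the vertices of the path `g` in the layers `I` -/
def chi (g : Fin m → Fin q) (I : Finset (Fin m)) (C : Cuts m q) : ℝ := ∏ i ∈ I, sg (C i (g i))

theorem chi_insert (g : Fin m → Fin q) {I : Finset (Fin m)} {u : Fin m} (hu : u ∉ I)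
    (C : Cuts m q) : chi g (insert u I) C = sg (C u (g u)) * chi g I C := by
  unfold chi; rw [Finset.prod_insert hu]

theorem chi_empty (g : Fin m → Fin q) (C : Cuts m q) : chi g ∅ C = 1 := by
  unfold chi; simp

theorem chi_mul_self (g : Fin m → Fin q) (I : Finset (Fin m)) (C : Cuts m q) :
    chi g I C * chi g I C = 1 := by
  unfold chi
  rw [← Finset.prod_mul_distrib]
  exact Finset.prod_eq_one fun i _ => sg_mul_self _

theorem chi_flip_of_mem (g : Fin m → Fin q) {I : Finset (Fin m)} {i : Fin m} (hi : i ∈ I)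
    (C : Cuts m q) : chi g I (flip i (g i) C) = - chi g I C := by
  obtain ⟨I', hI', rfl⟩ : ∃ I', i ∉ I' ∧ insert i I' = I :=
    ⟨I.erase i, Finset.notMem_erase i I, Finset.insert_erase hi⟩
  rw [chi_insert g hI', chi_insert g hI']
  have h1 : sg (flip i (g i) C i (g i)) = - sg (C i (g i)) := by
    unfold flip; simp [sg_not]
  have h2 : chi g I' (flip i (g i) C) = chi g I' C := by
    unfold chi
    refine Finset.prod_congr rfl fun j hj => ?_
    have : j ≠ i := fun h => hI' (h ▸ hj)
    unfold flip; simp [this]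
  rw [h1, h2]; ring

theorem chi_flip_of_ne (g g' : Fin m → Fin q) (I : Finset (Fin m)) {i : Fin m}
    (hne : g' i ≠ g i) (C : Cuts m q) : chi g' I (flip i (g i) C) = chi g' I C := by
  unfold chi
  refine Finset.prod_congr rfl fun j _ => ?_
  congr 1
  unfold flip
  rw [if_neg]
  rintro ⟨rfl, h⟩
  exact hne h

theorem ex_chi (g : Fin m → Fin q) {I : Finset (Fin m)} (hI : I ≠ ∅) : ex (chi g I) = 0 := by
  obtain ⟨i, hi⟩ := Finset.nonempty_iff_ne_empty.2 hI
  exact ex_eq_zero_of_flip i (g i) _ (chi_flip_of_mem g hi)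

theorem ex_chi_mul (g g' : Fin m → Fin q) (I : Finset (Fin m)) :
    ex (fun C => chi g I C * chi g' I C) = if ∀ i ∈ I, g i = g' i then 1 else 0 := by
  split_ifs with h
  · have : (fun C => chi g I C * chi g' I C) = fun _ : Cuts m q => (1 : ℝ) := by
      funext C
      have h2 : chi g' I C = chi g I C := by
        unfold chi
        exact Finset.prod_congr rfl fun i hi => by rw [h i hi]
      rw [h2, chi_mul_self]
    rw [this, ex_one]
  · push Not at h
    obtain ⟨i, hi, hne⟩ := h
    apply ex_eq_zero_of_flip i (g i)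
    intro C
    rw [chi_flip_of_mem g hi, chi_flip_of_ne g g' I (Ne.symm hne)]
    ring

theorem card_agree (g : Fin m → Fin q) (I : Finset (Fin m)) :
    (univ.filter (fun g' : Fin m → Fin q => ∀ i ∈ I, g i = g' i)).card = q ^ (m - I.card) := by
  have : univ.filter (fun g' : Fin m → Fin q => ∀ i ∈ I, g i = g' i)
      = Fintype.piFinset (fun i => if i ∈ I then {g i} else univ) := by
    ext g'
    simp only [Finset.mem_filter, Finset.mem_univ, true_and, Fintype.mem_piFinset]
    refine forall_congr' fun i => ?_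
    by_cases hi : i ∈ I
    · simp [hi, eq_comm]
    · simp [hi]
  rw [this, Fintype.card_piFinset]
  have h2 : ∀ i : Fin m, (if i ∈ I then ({g i} : Finset (Fin q)) else univ).card
      = if i ∈ I then 1 else q := by
    intro i; split_ifs <;> simp
  simp only [h2]
  rw [Finset.prod_ite, Finset.prod_const_one, one_mul, Finset.prod_const]
  congr 1
  have h3 : univ.filter (fun i : Fin m => i ∉ I) = Iᶜ := by ext i; simp
  rw [h3, Finset.card_compl, Fintype.card_fin]

/-- Fourier coefficient along the path `g` -/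
noncomputable def coef (J : Cuts m q → ℝ) (g : Fin m → Fin q) (I : Finset (Fin m)) : ℝ :=
  ex (fun C => J C * chi g I C)

/-- **Bessel's inequality**, in the form used here. -/
theorem bessel (J : Cuts m q → ℝ) (hJ : ∀ C, |J C| ≤ 1) (I : Finset (Fin m)) :
    (∑ g, |coef J g I|) ^ 2 ≤ (q : ℝ) ^ m * (q : ℝ) ^ (m - I.card) := by
  let s : (Fin m → Fin q) → ℝ := fun g => if 0 ≤ coef J g I then 1 else -1
  have hs : ∀ g, |coef J g I| = s g * coef J g I := by
    intro g
    simp only [s]
    split_ifs with h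
    · rw [abs_of_nonneg h, one_mul]
    · rw [abs_of_neg (lt_of_not_ge h)]; ring
  have hs1 : ∀ g, |s g| = 1 := by
    intro g; simp only [s]; split_ifs <;> simp
  have h1 : ∑ g, |coef J g I| = ex (fun C => J C * ∑ g, s g * chi g I C) := by
    have : (fun C => J C * ∑ g, s g * chi g I C) = fun C => ∑ g, s g * (J C * chi g I C) := by
      funext C
      rw [Finset.mul_sum]
      exact Finset.sum_congr rfl fun g _ => by ring
    rw [this, ex_sum]
    refine Finset.sum_congr rfl fun g _ => ?_
    rw [ex_mul_left, hs g]; rfl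
  rw [h1]
  refine (ex_cs _ _).trans ?_
  have h2 : ex (fun C => J C ^ 2) ≤ 1 := by
    rw [← ex_one (m := m) (q := q)]
    apply ex_mono
    intro C
    have := hJ C
    rw [← sq_abs]
    exact pow_le_one₀ (abs_nonneg _) this
  have h3 : ex (fun C => (∑ g, s g * chi g I C) ^ 2) ≤ (q : ℝ) ^ m * (q : ℝ) ^ (m - I.card) := by
    have e1 : (fun C => (∑ g, s g * chi g I C) ^ 2)
        = fun C => ∑ g, ∑ g', (s g * s g') * (chi g I C * chi g' I C) := by
      funext C
      rw [pow_two, Finset.sum_mul_sum]
      exact Finset.sum_congr rfl fun g _ => Finset.sum_congr rfl fun g' _ => by ring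
    rw [e1, ex_sum]
    have e2 : ∀ g, ex (fun C => ∑ g', (s g * s g') * (chi g I C * chi g' I C))
        ≤ (q : ℝ) ^ (m - I.card) := by
      intro g
      rw [ex_sum]
      calc ∑ g', ex (fun C => (s g * s g') * (chi g I C * chi g' I C))
          = ∑ g', (s g * s g') * (if ∀ i ∈ I, g i = g' i then 1 else 0) := by
            refine Finset.sum_congr rfl fun g' _ => ?_
            rw [ex_mul_left, ex_chi_mul]
        _ ≤ ∑ g' : Fin m → Fin q, (if ∀ i ∈ I, g i = g' i then (1 : ℝ) else 0) := by
            refine Finset.sum_le_sum fun g' _ => ?_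
            split_ifs
            · rw [mul_one]
              calc s g * s g' ≤ |s g * s g'| := le_abs_self _
                _ = 1 := by rw [abs_mul, hs1, hs1, one_mul]
            · rw [mul_zero]
        _ = (q : ℝ) ^ (m - I.card) := by
            rw [Finset.sum_boole, card_agree]; push_cast; rfl
    calc ∑ g, ex (fun C => ∑ g', (s g * s g') * (chi g I C * chi g' I C))
        ≤ ∑ _g : Fin m → Fin q, (q : ℝ) ^ (m - I.card) := Finset.sum_le_sum fun g _ => e2 g
      _ = (q : ℝ) ^ m * (q : ℝ) ^ (m - I.card) := by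
          rw [Finset.sum_const, Finset.card_univ, nsmul_eq_mul, Fintype.card_fun,
            Fintype.card_fin, Fintype.card_fin]
          push_cast; rfl
  have h4 : 0 ≤ ex (fun C => (∑ g, s g * chi g I C) ^ 2) := by
    unfold ex
    apply div_nonneg (Finset.sum_nonneg fun C _ => sq_nonneg _) card_pos'.le
  calc ex (fun C => J C ^ 2) * ex (fun C => (∑ g, s g * chi g I C) ^ 2)
      ≤ 1 * ex (fun C => (∑ g, s g * chi g I C) ^ 2) := mul_le_mul_of_nonneg_right h2 h4
    _ ≤ _ := by rw [one_mul]; exact h3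

end fourier

/-- the same with `q = r ^ 2` -/
theorem bessel' {m r : ℕ} (J : Cuts m (r ^ 2) → ℝ) (hJ : ∀ C, |J C| ≤ 1) (I : Finset (Fin m)) :
    ∑ g, |coef J g I| ≤ (r : ℝ) ^ (2 * m - I.card) := by
  have hI : I.card ≤ m := by
    have := Finset.card_le_univ I
    rwa [Fintype.card_fin] at this
  have h := bessel J hJ I
  have e : (((r ^ 2 : ℕ) : ℝ)) ^ m * (((r ^ 2 : ℕ) : ℝ)) ^ (m - I.card)
      = ((r : ℝ) ^ (2 * m - I.card)) ^ 2 := by
    push_cast
    rw [← pow_mul, ← pow_mul, ← pow_add, ← pow_mul]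
    congr 1
    omega
  rw [e] at h
  exact (pow_le_pow_iff_left₀ (Finset.sum_nonneg fun g _ => abs_nonneg _) (by positivity)
    (by norm_num)).1 h

/-- total weight of the top levels -/
theorem sum_top_le {m r K : ℕ} (hK : 1 ≤ K) (hmr : m ≤ r) (hr : 1 ≤ r) (J : Cuts m (r ^ 2) → ℝ)
    (hJ : ∀ C, |J C| ≤ 1) :
    (∑ g, top K (coef J g)) * (r : ℝ) ^ (K - 1) ≤ 2 * (m : ℝ) ^ (K - 1) * (r : ℝ) ^ (2 * m) := by
  classical
  have hr0 : (0 : ℝ) < r := by exact_mod_cast hr
  unfold top
  rw [Finset.sum_comm]
  have h1 : ∀ I : Finset (Fin m),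
      (∑ g : Fin m → Fin (r ^ 2), if I.card = K ∨ I.card + 1 = K then |coef J g I| else 0)
        * (r : ℝ) ^ (K - 1)
      ≤ (if I.card + 1 = K then (r : ℝ) ^ (2 * m) else 0) +
        (if I.card = K then (r : ℝ) ^ (2 * m) / r else 0) := by
    intro I
    have hI : I.card ≤ m := by
      have := Finset.card_le_univ I
      rwa [Fintype.card_fin] at this
    have hb := bessel' J hJ I
    by_cases h2 : I.card + 1 = K
    · have h3 : ¬ I.card = K := by omega
      simp only [h2, h3, or_true, if_true, if_false, add_zero]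
      calc (∑ g, |coef J g I|) * (r : ℝ) ^ (K - 1)
          ≤ (r : ℝ) ^ (2 * m - I.card) * (r : ℝ) ^ (K - 1) := by gcongr
        _ = (r : ℝ) ^ (2 * m) := by rw [← pow_add]; congr 1; omega
    · by_cases h3 : I.card = K
      · have h4 : ¬ K + 1 = K := by omega
        simp only [h3, h4, true_or, if_true, if_false, zero_add]
        rw [le_div_iff₀ hr0]
        rw [h3] at hb
        calc (∑ g, |coef J g I|) * (r : ℝ) ^ (K - 1) * r
            ≤ (r : ℝ) ^ (2 * m - K) * (r : ℝ) ^ (K - 1) * r := by gcongr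
          _ = (r : ℝ) ^ (2 * m) := by
              rw [← pow_add, ← pow_succ]; congr 1; omega
      · simp [h2, h3]
  rw [Finset.sum_mul]
  calc ∑ I : Finset (Fin m),
        (∑ g : Fin m → Fin (r ^ 2), if I.card = K ∨ I.card + 1 = K then |coef J g I| else 0)
          * (r : ℝ) ^ (K - 1)
      ≤ ∑ I : Finset (Fin m), ((if I.card + 1 = K then (r : ℝ) ^ (2 * m) else 0) +
        (if I.card = K then (r : ℝ) ^ (2 * m) / r else 0)) := Finset.sum_le_sum fun I _ => h1 I
    _ = (m.choose (K - 1)) * (r : ℝ) ^ (2 * m) + (m.choose K) * ((r : ℝ) ^ (2 * m) / r) := by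
        rw [Finset.sum_add_distrib, ← Finset.sum_filter, ← Finset.sum_filter, Finset.sum_const,
          Finset.sum_const, nsmul_eq_mul, nsmul_eq_mul]
        have c1 : (univ.filter (fun I : Finset (Fin m) => I.card + 1 = K)).card
            = m.choose (K - 1) := by
          have : univ.filter (fun I : Finset (Fin m) => I.card + 1 = K)
              = Finset.powersetCard (K - 1) univ := by
            ext I
            simp only [Finset.mem_filter, Finset.mem_univ, true_and, Finset.mem_powersetCard,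
              Finset.subset_univ]
            omega
          rw [this, Finset.card_powersetCard, Finset.card_univ, Fintype.card_fin]
        have c2 : (univ.filter (fun I : Finset (Fin m) => I.card = K)).card = m.choose K := by
          have : univ.filter (fun I : Finset (Fin m) => I.card = K)
              = Finset.powersetCard K univ := by
            ext I
            simp only [Finset.mem_filter, Finset.mem_univ, true_and, Finset.mem_powersetCard,
              Finset.subset_univ]
          rw [this, Finset.card_powersetCard, Finset.card_univ, Fintype.card_fin]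
        rw [c1, c2]
    _ ≤ (m : ℝ) ^ (K - 1) * (r : ℝ) ^ (2 * m) + (m : ℝ) ^ K * ((r : ℝ) ^ (2 * m) / r) := by
        have d1 : ((m.choose (K - 1) : ℕ) : ℝ) ≤ (m : ℝ) ^ (K - 1) := by
          exact_mod_cast Nat.choose_le_pow m (K - 1)
        have d2 : ((m.choose K : ℕ) : ℝ) ≤ (m : ℝ) ^ K := by
          exact_mod_cast Nat.choose_le_pow m K
        gcongr
    _ ≤ (m : ℝ) ^ (K - 1) * (r : ℝ) ^ (2 * m) + (m : ℝ) ^ (K - 1) * (r : ℝ) ^ (2 * m) := by
        refine add_le_add le_rfl ?_
        have e1 : (m : ℝ) ^ K = (m : ℝ) ^ (K - 1) * m := by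
          rw [← pow_succ]; congr 1; omega
        rw [e1]
        have e2 : (m : ℝ) / r ≤ 1 := by
          rw [div_le_one hr0]; exact_mod_cast hmr
        calc (m : ℝ) ^ (K - 1) * m * ((r : ℝ) ^ (2 * m) / r)
            = (m : ℝ) ^ (K - 1) * (r : ℝ) ^ (2 * m) * (m / r) := by ring
          _ ≤ (m : ℝ) ^ (K - 1) * (r : ℝ) ^ (2 * m) * 1 := by gcongr
          _ = _ := mul_one _
    _ = 2 * (m : ℝ) ^ (K - 1) * (r : ℝ) ^ (2 * m) := by ring

/-! ### sums along paths -/

theorem path_sum {Q : Type*} [Fintype Q] [DecidableEq Q] (G : SimpleGraph Q) (φ w : Q → ℝ)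
    (hw : ∀ a, 0 ≤ w a) (h : ∀ a b, G.Adj a b → |φ a - φ b| ≤ w a + w b) :
    ∀ {a b : Q} (p : G.Walk a b), p.IsPath → |φ a - φ b| + w a ≤ 2 * ∑ c ∈ p.support.toFinset, w c := by
  intro a b p
  induction p with
  | nil =>
    intro _
    simp only [sub_self, abs_zero, zero_add, SimpleGraph.Walk.support_nil, List.toFinset_cons,
      List.toFinset_nil, insert_empty_eq, Finset.sum_singleton]
    linarith [hw ‹_›]
  | cons hab p ih =>
    rename_i a b c
    intro hp
    rw [SimpleGraph.Walk.cons_isPath_iff] at hp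
    have h1 := ih hp.1
    have h2 := h _ _ hab
    rw [SimpleGraph.Walk.support_cons, List.toFinset_cons, Finset.sum_insert (by simpa using hp.2)]
    have h3 : |φ a - φ c| ≤ |φ a - φ b| + |φ b - φ c| := by
      have := abs_add_le (φ a - φ b) (φ b - φ c)
      rwa [sub_add_sub_cancel] at this
    linarith

theorem eqvGen_sum {Q : Type*} [Fintype Q] (R : Q → Q → Prop) (φ w : Q → ℝ)
    (hw : ∀ a, 0 ≤ w a) (h : ∀ a b, R a b → |φ a - φ b| ≤ w a + w b) {a b : Q}
    (hab : EqvGen R a b) : |φ a - φ b| ≤ 2 * ∑ c, w c := by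
  classical
  have hreach : (SimpleGraph.fromRel R).Reachable a b := by
    induction hab with
    | rel x y hxy =>
      by_cases hne : x = y
      · rw [hne]
      · exact SimpleGraph.Adj.reachable ((SimpleGraph.fromRel_adj R x y).2 ⟨hne, Or.inl hxy⟩)
    | refl x => exact SimpleGraph.Reachable.refl x
    | symm _ _ _ ih => exact ih.symm
    | trans _ _ _ _ _ ih1 ih2 => exact ih1.trans ih2
  obtain ⟨p⟩ := hreach
  have h1 := path_sum (SimpleGraph.fromRel R) φ w hw (by
    intro x y hxy
    rw [SimpleGraph.fromRel_adj] at hxy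
    rcases hxy.2 with h' | h'
    · exact h _ _ h'
    · rw [abs_sub_comm, add_comm]; exact h _ _ h') p.toPath.1 p.toPath.2
  have h2 : ∑ c ∈ p.toPath.1.support.toFinset, w c ≤ ∑ c, w c :=
    Finset.sum_le_sum_of_subset_of_nonneg (Finset.subset_univ _) fun c _ _ => hw c
  have h3 := hw a
  linarith

end H534R2.NotNet
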