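import Pool.Agent.H534R2.SymPebble

/-!
# Monotone undirected switching networks for directed connectivity: the Fourier argument

`m = 2 ^ K` layers of `q` vertices each.  A path picks one vertex `g i` in every layer, a cut
is a function `C` telling for each vertex whether it is on the side of `s` (`true`).
-/

namespace H534R2.NotNet

open Finset Relation H534R2.SymSw

section coefficients

variable {m : ℕ}

open Classical in
/-- indicator of the pebbling configurations reachable with `K` pebbles -/
noncomputable def prF (K : ℕ) (I : Finset (Fin m)) : ℝ :=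
  if PR K (I.map Fin.valEmbedding) then 1 else 0

theorem prF_abs (K : ℕ) (I : Finset (Fin m)) : |prF K I| ≤ 1 := by
  unfold prF; split_ifs <;> simp

theorem prF_congr {K : ℕ} {I J : Finset (Fin m)}
    (h : PR K (I.map Fin.valEmbedding) ↔ PR K (J.map Fin.valEmbedding)) :
    prF K I = prF K J := by
  unfold prF; rw [h]

theorem prF_zero {K : ℕ} {I : Finset (Fin m)} {u : Fin m} (hu : u.val = 0) (huI : u ∉ I)
    (hc : I.card + 1 ≤ K) : prF K (insert u I) = prF K I := by
  refine (prF_congr (PR_iff_of_Mv ⟨u.val, ?_, ?_, Or.inl hu, ?_⟩)).symm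
  · intro h
    rw [Finset.mem_map] at h
    obtain ⟨v, hv, hvu⟩ := h
    exact huI (Fin.ext hvu ▸ hv)
  · rw [Finset.map_insert]; rfl
  · rw [Finset.card_map, Finset.card_insert_of_notMem huI]; exact hc

theorem prF_succ {K : ℕ} {I : Finset (Fin m)} {u v : Fin m} (huv : u.val + 1 = v.val)
    (hu : u ∈ I) (hv : v ∉ I) (hc : I.card + 1 ≤ K) : prF K (insert v I) = prF K I := by
  refine (prF_congr (PR_iff_of_Mv ⟨v.val, ?_, ?_, Or.inr ⟨u.val, ?_, huv⟩, ?_⟩)).symm
  · intro h
    rw [Finset.mem_map] at h
    obtain ⟨w, hw, hwu⟩ := h
    exact hv (Fin.ext hwu ▸ hw)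
  · rw [Finset.map_insert]; rfl
  · exact Finset.mem_map_of_mem _ hu
  · rw [Finset.card_map, Finset.card_insert_of_notMem hv]; exact hc

theorem prF_last {K : ℕ} (hm : m = 2 ^ K) {I : Finset (Fin m)} {u : Fin m}
    (hu : u.val + 1 = m) (huI : u ∈ I) : prF K I = 0 := by
  unfold prF
  rw [if_neg]
  intro h
  have := PR_bound K _ h u.val (Finset.mem_map_of_mem _ huI)
  omega

theorem prF_empty (K : ℕ) : prF K (∅ : Finset (Fin m)) = 1 := by
  unfold prF
  rw [Finset.map_empty, if_pos (PR_empty K)]

/-- change of basis -/
noncomputable def ee (p : Finset (Fin m) → ℝ) (I : Finset (Fin m)) : ℝ :=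
  ∑ T ∈ I.powerset, 2 ^ T.card * (-1) ^ (I.card - T.card) * p T

theorem ee_insert (p : Finset (Fin m) → ℝ) {I : Finset (Fin m)} {u : Fin m} (hu : u ∉ I) :
    ee p (insert u I) = - ee p I + 2 * ee (fun T => p (insert u T)) I := by
  unfold ee
  rw [Finset.sum_powerset_insert hu, ← Finset.sum_neg_distrib, Finset.mul_sum]
  congr 1
  · refine Finset.sum_congr rfl fun T hT => ?_
    have h1 := Finset.card_le_card (Finset.mem_powerset.1 hT)
    rw [Finset.card_insert_of_notMem hu, Nat.sub_add_comm h1, pow_succ]
    ring
  · refine Finset.sum_congr rfl fun T hT => ?_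
    have h2 : u ∉ T := fun h => hu (Finset.mem_powerset.1 hT h)
    rw [Finset.card_insert_of_notMem hu, Finset.card_insert_of_notMem h2, Nat.add_sub_add_right,
      pow_succ]
    ring

theorem ee_congr {p p' : Finset (Fin m) → ℝ} {I : Finset (Fin m)} (h : ∀ T ⊆ I, p T = p' T) :
    ee p I = ee p' I := by
  unfold ee
  refine Finset.sum_congr rfl fun T hT => ?_
  rw [h T (Finset.mem_powerset.1 hT)]

theorem ee_zero (I : Finset (Fin m)) : ee (fun _ => (0 : ℝ)) I = 0 := by
  unfold ee; simp

theorem ee_abs {p : Finset (Fin m) → ℝ} (hp : ∀ T, |p T| ≤ 1) (I : Finset (Fin m)) :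
    |ee p I| ≤ 3 ^ I.card := by
  unfold ee
  calc |∑ T ∈ I.powerset, 2 ^ T.card * (-1) ^ (I.card - T.card) * p T|
      ≤ ∑ T ∈ I.powerset, |2 ^ T.card * (-1) ^ (I.card - T.card) * p T| :=
        Finset.abs_sum_le_sum_abs _ _
    _ ≤ ∑ T ∈ I.powerset, (2 : ℝ) ^ T.card * 1 ^ (I.card - T.card) := by
        refine Finset.sum_le_sum fun T _ => ?_
        rw [abs_mul, abs_mul, abs_pow, abs_pow, abs_neg, abs_one, one_pow, mul_one, mul_one,
          abs_of_pos (by norm_num : (0 : ℝ) < 2)]
        calc (2 : ℝ) ^ T.card * |p T| ≤ 2 ^ T.card * 1 := by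
              gcongr; exact hp T
          _ = 2 ^ T.card := mul_one _
    _ = (2 + 1) ^ I.card := Finset.sum_pow_mul_eq_add_pow _ _ _
    _ = 3 ^ I.card := by norm_num

/-- the coefficients of the functional -/
noncomputable def eI (K : ℕ) (I : Finset (Fin m)) : ℝ := ee (prF K) I

theorem eI_abs (K : ℕ) (I : Finset (Fin m)) : |eI K I| ≤ 3 ^ I.card := ee_abs (prF_abs K) I

theorem eI_empty (K : ℕ) : eI K (∅ : Finset (Fin m)) = 1 := by
  unfold eI ee; simp [prF_empty]

theorem eI_zero {K : ℕ} {I : Finset (Fin m)} {u : Fin m} (hu : u.val = 0) (huI : u ∉ I)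
    (hc : I.card + 1 ≤ K) : eI K (insert u I) = eI K I := by
  unfold eI
  rw [ee_insert _ huI, ee_congr (p := fun T => prF K (insert u T)) (p' := prF K)]
  · ring
  · intro T hT
    exact prF_zero hu (fun h => huI (hT h)) (by have := Finset.card_le_card hT; omega)

theorem eI_last {K : ℕ} (hm : m = 2 ^ K) {I : Finset (Fin m)} {u : Fin m} (hu : u.val + 1 = m)
    (huI : u ∉ I) : eI K (insert u I) = - eI K I := by
  unfold eI
  rw [ee_insert _ huI, ee_congr (p := fun T => prF K (insert u T)) (p' := fun _ => 0), ee_zero]
  · ring
  · intro T _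
    exact prF_last hm hu (Finset.mem_insert_self _ _)

theorem eI_mid {K : ℕ} {I : Finset (Fin m)} {x y : Fin m} (hxy : x.val + 1 = y.val)
    (hx : x ∉ I) (hy : y ∉ I) (hc : I.card + 2 ≤ K) :
    eI K I + eI K (insert x I) - eI K (insert y I) - eI K (insert y (insert x I)) = 0 := by
  have hyx : y ∉ insert x I := by
    rw [Finset.mem_insert, not_or]
    refine ⟨fun h => ?_, hy⟩
    rw [h] at hxy; omega
  unfold eI
  rw [ee_insert _ hyx, ee_insert _ hx, ee_insert _ hy, ee_insert _ hx]
  have : ee (fun T => prF K (insert y (insert x T))) I = ee (fun T => prF K (insert x T)) I := by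
    apply ee_congr
    intro T hT
    have hxT : x ∉ T := fun h => hx (hT h)
    have hyT : y ∉ insert x T := by
      rw [Finset.mem_insert, not_or]
      refine ⟨fun h => ?_, fun h => hy (hT h)⟩
      rw [h] at hxy; omega
    apply prF_succ hxy (Finset.mem_insert_self _ _) hyT
    rw [Finset.card_insert_of_notMem hxT]
    have := Finset.card_le_card hT
    omega
  rw [this]
  ring

/-- the functional applied to a system of coefficients -/
noncomputable def tot (K : ℕ) (F : Finset (Fin m) → ℝ) : ℝ :=
  ∑ I : Finset (Fin m), if I.card ≤ K then eI K I * F I else 0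

/-- the weight of the top levels -/
noncomputable def top (K : ℕ) (F : Finset (Fin m) → ℝ) : ℝ :=
  ∑ I : Finset (Fin m), if I.card = K ∨ I.card + 1 = K then |F I| else 0

theorem sum_split {u : Fin m} (f : Finset (Fin m) → ℝ) :
    ∑ I : Finset (Fin m), f I = ∑ I ∈ (univ.erase u).powerset, (f I + f (insert u I)) := by
  rw [← Finset.powerset_univ]
  conv_lhs => rw [← Finset.insert_erase (Finset.mem_univ u)]
  rw [Finset.sum_powerset_insert (Finset.notMem_erase u univ), Finset.sum_add_distrib]

theorem top_le_of_subset (K : ℕ) (F : Finset (Fin m) → ℝ) (U : Finset (Finset (Fin m))) :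
    ∑ I ∈ U, (if I.card = K ∨ I.card + 1 = K then |F I| else 0) ≤ top K F := by
  unfold top
  apply Finset.sum_le_sum_of_subset_of_nonneg (Finset.subset_univ _)
  intro I _ _
  split_ifs
  · exact abs_nonneg _
  · exact le_rfl

theorem tot_one_bound {K : ℕ} (F : Finset (Fin m) → ℝ) (u : Fin m) (σ : ℝ)
    (hF : ∀ I, u ∉ I → F (insert u I) = σ * F I)
    (hz : ∀ I, u ∉ I → I.card + 1 ≤ K → eI K I + σ * eI K (insert u I) = 0) :
    |tot K F| ≤ 3 ^ (K + 1) * top K F := by
  unfold tot
  rw [sum_split (u := u)]
  calc |∑ I ∈ (univ.erase u).powerset, ((if I.card ≤ K then eI K I * F I else 0) +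
        (if (insert u I).card ≤ K then eI K (insert u I) * F (insert u I) else 0))|
      ≤ ∑ I ∈ (univ.erase u).powerset, |((if I.card ≤ K then eI K I * F I else 0) +
        (if (insert u I).card ≤ K then eI K (insert u I) * F (insert u I) else 0))| :=
        Finset.abs_sum_le_sum_abs _ _
    _ ≤ ∑ I ∈ (univ.erase u).powerset,
        3 ^ (K + 1) * (if I.card = K ∨ I.card + 1 = K then |F I| else 0) := by
        refine Finset.sum_le_sum fun I hI => ?_
        have huI : u ∉ I := fun h => by
          have := Finset.mem_powerset.1 hI h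
          simp at this
        rw [Finset.card_insert_of_notMem huI, hF I huI]
        by_cases h1 : I.card + 1 ≤ K
        · rw [if_pos (by omega : I.card ≤ K), if_pos h1]
          have : eI K I * F I + eI K (insert u I) * (σ * F I)
              = (eI K I + σ * eI K (insert u I)) * F I := by ring
          rw [this, hz I huI h1, zero_mul, abs_zero]
          split_ifs <;> positivity
        · rw [if_neg h1, add_zero]
          by_cases h2 : I.card = K
          · rw [if_pos (le_of_eq h2), if_pos (Or.inl h2), abs_mul]
            have h3 := eI_abs K I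
            rw [h2] at h3
            have h4 : (3 : ℝ) ^ K ≤ 3 ^ (K + 1) := by
              apply pow_le_pow_right₀ <;> norm_num
            exact mul_le_mul_of_nonneg_right (h3.trans h4) (abs_nonneg _)
          · rw [if_neg (by omega), if_neg (by omega)]; simp
    _ = 3 ^ (K + 1) * ∑ I ∈ (univ.erase u).powerset,
        (if I.card = K ∨ I.card + 1 = K then |F I| else 0) := by rw [Finset.mul_sum]
    _ ≤ 3 ^ (K + 1) * top K F := by
        apply mul_le_mul_of_nonneg_left (top_le_of_subset K F _)
        positivity

theorem tot_two_bound {K : ℕ} (F : Finset (Fin m) → ℝ) {x y : Fin m} (hxy : x.val + 1 = y.val)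
    (hFx : ∀ I, x ∉ I → F (insert x I) = F I)
    (hFy : ∀ I, y ∉ I → F (insert y I) = - F I) :
    |tot K F| ≤ 3 ^ (K + 1) * top K F := by
  have hne : x ≠ y := fun h => by rw [h] at hxy; omega
  unfold tot
  rw [sum_split (u := x)]
  have hins : (univ.erase x : Finset (Fin m)) = insert y ((univ.erase x).erase y) := by
    rw [Finset.insert_erase]
    simp [hne.symm]
  set U0 : Finset (Fin m) := (univ.erase x).erase y with hU0
  rw [hins, Finset.sum_powerset_insert (Finset.notMem_erase y _), ← Finset.sum_add_distrib]
  calc |∑ I ∈ U0.powerset, (((if I.card ≤ K then eI K I * F I else 0) +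
        (if (insert x I).card ≤ K then eI K (insert x I) * F (insert x I) else 0)) +
        ((if (insert y I).card ≤ K then eI K (insert y I) * F (insert y I) else 0) +
        (if (insert x (insert y I)).card ≤ K then
          eI K (insert x (insert y I)) * F (insert x (insert y I)) else 0)))|
      ≤ ∑ I ∈ U0.powerset, |(((if I.card ≤ K then eI K I * F I else 0) +
        (if (insert x I).card ≤ K then eI K (insert x I) * F (insert x I) else 0)) +
        ((if (insert y I).card ≤ K then eI K (insert y I) * F (insert y I) else 0) +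
        (if (insert x (insert y I)).card ≤ K then
          eI K (insert x (insert y I)) * F (insert x (insert y I)) else 0)))| :=
        Finset.abs_sum_le_sum_abs _ _
    _ ≤ ∑ I ∈ U0.powerset,
        3 ^ (K + 1) * (if I.card = K ∨ I.card + 1 = K then |F I| else 0) := by
        refine Finset.sum_le_sum fun I hI => ?_
        have hxI : x ∉ I := fun h => by
          have := Finset.mem_powerset.1 hI h
          simp [hU0] at this
        have hyI : y ∉ I := fun h => by
          have := Finset.mem_powerset.1 hI h
          simp [hU0] at this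
        have hxyI : x ∉ insert y I := by
          rw [Finset.mem_insert, not_or]; exact ⟨hne, hxI⟩
        rw [hFx _ hxyI, hFx I hxI, hFy I hyI, Finset.card_insert_of_notMem hxyI,
          Finset.card_insert_of_notMem hxI, Finset.card_insert_of_notMem hyI]
        by_cases h1 : I.card + 2 ≤ K
        · rw [if_pos (by omega : I.card ≤ K), if_pos (by omega : I.card + 1 ≤ K),
            if_pos (by omega : I.card + 1 ≤ K), if_pos (by omega : I.card + 1 + 1 ≤ K)]
          have h2 := eI_mid hxy hxI hyI h1
          rw [Finset.insert_comm x y I]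
          have : eI K I * F I + eI K (insert x I) * F I +
              (eI K (insert y I) * -F I + eI K (insert y (insert x I)) * -F I)
              = (eI K I + eI K (insert x I) - eI K (insert y I) -
                eI K (insert y (insert x I))) * F I := by ring
          rw [this, h2, zero_mul, abs_zero]
          split_ifs <;> positivity
        · rw [if_neg (by omega : ¬ I.card + 1 + 1 ≤ K), add_zero]
          by_cases h2 : I.card + 1 = K
          · rw [if_pos (by omega : I.card ≤ K), if_pos (by omega : I.card + 1 ≤ K),
              if_pos (by omega : I.card + 1 ≤ K), if_pos (Or.inr h2)]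
            have e1 : |eI K I| ≤ 3 ^ K := (eI_abs K I).trans (by
              apply pow_le_pow_right₀ (by norm_num); omega)
            have e2 : |eI K (insert x I)| ≤ 3 ^ K := (eI_abs K _).trans (by
              rw [Finset.card_insert_of_notMem hxI, h2])
            have e3 : |eI K (insert y I)| ≤ 3 ^ K := (eI_abs K _).trans (by
              rw [Finset.card_insert_of_notMem hyI, h2])
            have : eI K I * F I + eI K (insert x I) * F I + eI K (insert y I) * -F I
                = (eI K I + eI K (insert x I) - eI K (insert y I)) * F I := by ring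
            rw [this, abs_mul]
            apply mul_le_mul_of_nonneg_right _ (abs_nonneg _)
            calc |eI K I + eI K (insert x I) - eI K (insert y I)|
                ≤ |eI K I + eI K (insert x I)| + |eI K (insert y I)| := abs_sub _ _
              _ ≤ |eI K I| + |eI K (insert x I)| + |eI K (insert y I)| := by
                  gcongr; exact abs_add_le _ _
              _ ≤ 3 ^ K + 3 ^ K + 3 ^ K := by gcongr
              _ = 3 ^ (K + 1) := by ring
          · by_cases h3 : I.card = K
            · rw [if_pos (le_of_eq h3), if_neg (by omega : ¬ I.card + 1 ≤ K),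
                if_neg (by omega : ¬ I.card + 1 ≤ K), if_pos (Or.inl h3), add_zero, add_zero,
                abs_mul]
              have e1 := eI_abs K I
              rw [h3] at e1
              have h4 : (3 : ℝ) ^ K ≤ 3 ^ (K + 1) := by
                apply pow_le_pow_right₀ <;> norm_num
              exact mul_le_mul_of_nonneg_right (e1.trans h4) (abs_nonneg _)
            · rw [if_neg (by omega : ¬ I.card ≤ K), if_neg (by omega : ¬ I.card + 1 ≤ K),
                if_neg (by omega : ¬ I.card + 1 ≤ K), if_neg (by omega)]
              simp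
    _ = 3 ^ (K + 1) * ∑ I ∈ U0.powerset,
        (if I.card = K ∨ I.card + 1 = K then |F I| else 0) := by rw [Finset.mul_sum]
    _ ≤ 3 ^ (K + 1) * top K F := by
        apply mul_le_mul_of_nonneg_left (top_le_of_subset K F _)
        positivity

end coefficients

end H534R2.NotNet
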