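import Pool.Agent.H534R2.NotDefs
import Pool.Agent.H534R2.NetBessel

/-!
# Monotone undirected switching networks: main lemma

Small monotone undirected networks that accept all paths accept some cut.
-/

namespace H534R2.NotNet

open Finset Relation H534R2.SymSw

theorem MNet.accepts_mono {V : Type} (N : MNet V) {G G' : V → V → Prop}
    (h : ∀ u v, G u v → G' u v) (hG : N.Accepts G) : N.Accepts G' := by
  refine EqvGen.mono ?_ _ _ hG
  rintro a b (h' | ⟨u, v, h1, h2⟩)
  · exact Or.inl h'
  · exact Or.inr ⟨u, v, h1, h _ _ h2⟩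

section lemmas

variable {m q K : ℕ}

/-- the relation `R C` holds unless the cut `C` separates two consecutive vertices of `g` in a
certain place -/
def Cover (R : Cuts m q → Prop) (g : Fin m → Fin q) : Prop :=
  (∀ C, R C) ∨ (∃ x : Fin m, x.val = 0 ∧ ∀ C : Cuts m q, C x (g x) = true → R C) ∨
  (∃ x y : Fin m, x.val + 1 = y.val ∧
    ∀ C : Cuts m q, ¬ (C x (g x) = true ∧ C y (g y) = false) → R C) ∨
  (∃ x : Fin m, x.val + 1 = m ∧ ∀ C : Cuts m q, C x (g x) = false → R C)

theorem coef_insert_pos (f : Cuts m q → ℝ) (g : Fin m → Fin q) (x : Fin m)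
    (h : ∀ C, f C ≠ 0 → C x (g x) = true) (I : Finset (Fin m)) (hx : x ∉ I) :
    coef f g (insert x I) = coef f g I := by
  unfold coef
  congr 1
  funext C
  rw [chi_insert g hx]
  by_cases hf : f C = 0
  · rw [hf]; ring
  · rw [h C hf]; simp [sg]

theorem coef_insert_neg (f : Cuts m q → ℝ) (g : Fin m → Fin q) (x : Fin m)
    (h : ∀ C, f C ≠ 0 → C x (g x) = false) (I : Finset (Fin m)) (hx : x ∉ I) :
    coef f g (insert x I) = - coef f g I := by
  unfold coef
  rw [← ex_neg]
  congr 1
  funext C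
  rw [chi_insert g hx]
  by_cases hf : f C = 0
  · rw [hf]; ring
  · rw [h C hf]; simp [sg]

theorem tot_sub (F F' : Finset (Fin m) → ℝ) :
    tot K (fun I => F I - F' I) = tot K F - tot K F' := by
  unfold tot
  rw [← Finset.sum_sub_distrib]
  refine Finset.sum_congr rfl fun I _ => ?_
  split_ifs <;> ring

theorem top_sub_le (F F' : Finset (Fin m) → ℝ) :
    top K (fun I => F I - F' I) ≤ top K F + top K F' := by
  unfold top
  rw [← Finset.sum_add_distrib]
  refine Finset.sum_le_sum fun I _ => ?_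
  split_ifs
  · exact abs_sub _ _
  · simp

theorem top_nonneg (F : Finset (Fin m) → ℝ) : 0 ≤ top K F := by
  unfold top
  refine Finset.sum_nonneg fun I _ => ?_
  split_ifs
  · exact abs_nonneg _
  · exact le_rfl

theorem coef_sub (f f' : Cuts m q → ℝ) (g : Fin m → Fin q) (I : Finset (Fin m)) :
    coef (fun C => f C - f' C) g I = coef f g I - coef f' g I := by
  unfold coef
  rw [← ex_sub]
  congr 1
  funext C
  ring

theorem tot_coef_bound (hm : m = 2 ^ K) (f f' : Cuts m q → ℝ) (g : Fin m → Fin q)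
    (h : Cover (fun C => f C = f' C) g) :
    |tot K (coef f g) - tot K (coef f' g)|
      ≤ 3 ^ (K + 1) * top K (coef f g) + 3 ^ (K + 1) * top K (coef f' g) := by
  have e : tot K (coef f g) - tot K (coef f' g)
      = tot K (coef (fun C => f C - f' C) g) := by
    rw [← tot_sub]
    congr 1
    funext I
    rw [coef_sub]
  have hb : |tot K (coef (fun C => f C - f' C) g)|
      ≤ 3 ^ (K + 1) * top K (coef (fun C => f C - f' C) g) := by
    rcases h with h | ⟨x, hx, h⟩ | ⟨x, y, hxy, h⟩ | ⟨x, hx, h⟩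
    · have : (coef (fun C => f C - f' C) g) = fun _ => 0 := by
        funext I
        unfold coef
        have : (fun C : Cuts m q => (f C - f' C) * chi g I C) = fun _ => (0 : ℝ) := by
          funext C; rw [h C]; ring
        rw [this]
        unfold ex; simp
      rw [this]
      unfold tot top
      simp
    · apply tot_one_bound _ x (-1)
      · intro I hI
        rw [coef_insert_neg _ g x _ I hI]
        · ring
        · intro C hC
          by_contra hne
          rw [Bool.not_eq_false] at hne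
          exact hC (by rw [h C hne]; ring)
      · intro I hI hc
        rw [eI_zero hx hI hc]; ring
    · apply tot_two_bound _ hxy
      · intro I hI
        apply coef_insert_pos _ g x _ I hI
        intro C hC
        by_contra hne
        exact hC (by rw [h C (fun h' => hne h'.1)]; ring)
      · intro I hI
        apply coef_insert_neg _ g y _ I hI
        intro C hC
        by_contra hne
        exact hC (by rw [h C (fun h' => hne h'.2)]; ring)
    · apply tot_one_bound _ x 1
      · intro I hI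
        rw [coef_insert_pos _ g x _ I hI]
        · ring
        · intro C hC
          by_contra hne
          rw [Bool.not_eq_true] at hne
          exact hC (by rw [h C hne]; ring)
      · intro I hI hc
        rw [eI_last hm hx hI]; ring
  rw [e]
  refine hb.trans ?_
  have h2 : top K (coef (fun C => f C - f' C) g) ≤ top K (coef f g) + top K (coef f' g) := by
    have : coef (fun C => f C - f' C) g = fun I => coef f g I - coef f' g I := by
      funext I; rw [coef_sub]
    rw [this]
    exact top_sub_le _ _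
  have h3 : (0 : ℝ) ≤ 3 ^ (K + 1) := by positivity
  nlinarith

theorem tot_coef_one (g : Fin m → Fin q) : tot K (coef (fun _ : Cuts m q => (1 : ℝ)) g) = 1 := by
  unfold tot
  rw [Finset.sum_eq_single ∅]
  · have h1 : coef (fun _ : Cuts m q => (1 : ℝ)) g ∅ = 1 := by
      unfold coef
      have : (fun C : Cuts m q => (1 : ℝ) * chi g ∅ C) = fun _ => 1 := by
        funext C; rw [chi_empty, mul_one]
      rw [this, ex_one]
    rw [h1, eI_empty]; simp
  · intro I _ hI
    have h1 : coef (fun _ : Cuts m q => (1 : ℝ)) g I = 0 := by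
      unfold coef
      have : (fun C : Cuts m q => (1 : ℝ) * chi g I C) = chi g I := by
        funext C; rw [one_mul]
      rw [this, ex_chi g hI]
    rw [h1]; simp
  · intro h; exact absurd (Finset.mem_univ _) h

theorem tot_coef_zero (g : Fin m → Fin q) : tot K (coef (fun _ : Cuts m q => (0 : ℝ)) g) = 0 := by
  unfold tot
  apply Finset.sum_eq_zero
  intro I _
  have h1 : coef (fun _ : Cuts m q => (0 : ℝ)) g I = 0 := by
    unfold coef
    have : (fun C : Cuts m q => (0 : ℝ) * chi g I C) = fun _ => 0 := by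
      funext C; rw [zero_mul]
    rw [this]; unfold ex; simp
  rw [h1]; simp

open Classical in
/-- which cuts reach the node `a` -/
noncomputable def Jf {V : Type} (N : MNet V) (YC : Cuts m q → V → V → Prop) (a : Fin N.size)
    (C : Cuts m q) : ℝ := if EqvGen (N.Pass (YC C)) N.start a then 1 else 0

theorem Jf_abs {V : Type} (N : MNet V) (YC : Cuts m q → V → V → Prop) (a : Fin N.size)
    (C : Cuts m q) : |Jf N YC a C| ≤ 1 := by
  unfold Jf; split_ifs <;> simp

/-- the weight that a network puts on the path `g` -/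
noncomputable def Wt {V : Type} (K : ℕ) (YC : Cuts m q → V → V → Prop) (g : Fin m → Fin q)
    (N : MNet V) : ℝ := 2 * ∑ a, 3 ^ (K + 1) * top K (coef (Jf N YC a) g)

theorem Wt_nonneg {V : Type} (YC : Cuts m q → V → V → Prop) (g : Fin m → Fin q)
    (N : MNet V) : 0 ≤ Wt K YC g N := by
  unfold Wt
  apply mul_nonneg (by norm_num)
  apply Finset.sum_nonneg
  intro a _
  exact mul_nonneg (by positivity) (top_nonneg _)

/-- a network accepting the path `g` but no cut has weight at least one on `g` -/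
theorem one_le_Wt {V : Type} (hm : m = 2 ^ K) (N : MNet V) (YP : V → V → Prop)
    (YC : Cuts m q → V → V → Prop) (g : Fin m → Fin q)
    (hcov : ∀ u v, YP u v → Cover (fun C => YC C u v) g)
    (hacc : N.Accepts YP) (hrej : ∀ C, ¬ N.Accepts (YC C)) : 1 ≤ Wt K YC g N := by
  have hstart : Jf N YC N.start = fun _ => 1 := by
    funext C; unfold Jf; rw [if_pos (EqvGen.refl _)]
  have hend : Jf N YC N.acc = fun _ => 0 := by
    funext C; unfold Jf; exact if_neg (hrej C)
  have hedge : ∀ a b, N.Pass YP a b → Cover (fun C => Jf N YC a C = Jf N YC b C) g := by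
    intro a b hab
    have key : ∀ C, N.Pass (YC C) a b → Jf N YC a C = Jf N YC b C := by
      intro C hC
      have hiff : EqvGen (N.Pass (YC C)) N.start a ↔ EqvGen (N.Pass (YC C)) N.start b :=
        ⟨fun h => h.trans _ _ _ (EqvGen.rel _ _ hC),
          fun h => h.trans _ _ _ (EqvGen.symm _ _ (EqvGen.rel _ _ hC))⟩
      unfold Jf; rw [hiff]
    rcases hab with h | ⟨u, v, h1, h2⟩
    · exact Or.inl fun C => key C (Or.inl h)
    · have hlift : ∀ C, YC C u v → Jf N YC a C = Jf N YC b C :=
        fun C hC => key C (Or.inr ⟨u, v, h1, hC⟩)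
      rcases hcov u v h2 with h | ⟨x, hx, h⟩ | ⟨x, y, hxy, h⟩ | ⟨x, hx, h⟩
      · exact Or.inl fun C => hlift C (h C)
      · exact Or.inr (Or.inl ⟨x, hx, fun C hC => hlift C (h C hC)⟩)
      · exact Or.inr (Or.inr (Or.inl ⟨x, y, hxy, fun C hC => hlift C (h C hC)⟩))
      · exact Or.inr (Or.inr (Or.inr ⟨x, hx, fun C hC => hlift C (h C hC)⟩))
  have h1 := eqvGen_sum (N.Pass YP) (fun a => tot K (coef (Jf N YC a) g))
    (fun a => 3 ^ (K + 1) * top K (coef (Jf N YC a) g))
    (fun a => mul_nonneg (by positivity) (top_nonneg _))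
    (fun a b hab => tot_coef_bound hm _ _ g (hedge a b hab)) hacc
  simp only [hstart, hend, tot_coef_one, tot_coef_zero] at h1
  rw [sub_zero, abs_one] at h1
  exact h1

end lemmas

theorem sum_Wt_le {V : Type} {m r K : ℕ} (hK : 1 ≤ K) (hmr : m ≤ r) (hr : 1 ≤ r)
    (YC : Cuts m (r ^ 2) → V → V → Prop) (N : MNet V) :
    (∑ g, Wt K YC g N) * (r : ℝ) ^ (K - 1)
      ≤ 4 * 3 ^ (K + 1) * N.size * (m : ℝ) ^ (K - 1) * (r : ℝ) ^ (2 * m) := by
  unfold Wt
  rw [← Finset.mul_sum, Finset.sum_comm]
  calc 2 * (∑ a, ∑ g, 3 ^ (K + 1) * top K (coef (Jf N YC a) g)) * (r : ℝ) ^ (K - 1)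
      = 2 * 3 ^ (K + 1) * ∑ a, ((∑ g, top K (coef (Jf N YC a) g)) * (r : ℝ) ^ (K - 1)) := by
        rw [← Finset.sum_mul]
        simp_rw [← Finset.mul_sum]
        ring
    _ ≤ 2 * 3 ^ (K + 1) * ∑ _a : Fin N.size, (2 * (m : ℝ) ^ (K - 1) * (r : ℝ) ^ (2 * m)) := by
        exact mul_le_mul_of_nonneg_left
          (Finset.sum_le_sum fun a _ => sum_top_le hK hmr hr _ (Jf_abs N YC a)) (by positivity)
    _ = 4 * 3 ^ (K + 1) * N.size * (m : ℝ) ^ (K - 1) * (r : ℝ) ^ (2 * m) := by
        rw [Finset.sum_const, Finset.card_univ, Fintype.card_fin, nsmul_eq_mul]; ring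

/-- **Main lemma.**  If every path is accepted by one of the networks of a small list, then some
cut is accepted by one of them. -/
theorem exists_cut {V : Type} {m r K : ℕ} (hm : m = 2 ^ K) (hK : 1 ≤ K) (hmr : m ≤ r)
    (L : List (MNet V)) (YP : (Fin m → Fin (r ^ 2)) → V → V → Prop)
    (YC : Cuts m (r ^ 2) → V → V → Prop)
    (hcov : ∀ g u v, YP g u v → Cover (fun C => YC C u v) g)
    (hsize : 4 * 3 ^ (K + 1) * (L.map MNet.size).sum * m ^ (K - 1) < r ^ (K - 1))
    (hacc : ∀ g, ∃ N ∈ L, N.Accepts (YP g)) : ∃ N ∈ L, ∃ C, N.Accepts (YC C) := by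
  by_contra hcon
  push Not at hcon
  have hm1 : 1 ≤ m := by rw [hm]; exact Nat.one_le_two_pow
  have hr : 1 ≤ r := hm1.trans hmr
  have hr0 : (0 : ℝ) < r := by exact_mod_cast hr
  -- each path has total weight at least one
  have h1 : ∀ g, 1 ≤ (L.map (Wt K YC g)).sum := by
    intro g
    obtain ⟨N, hN, hNacc⟩ := hacc g
    have h2 := one_le_Wt hm N (YP g) YC g (hcov g) hNacc (hcon N hN)
    refine h2.trans ?_
    apply List.single_le_sum
    · intro x hx
      rw [List.mem_map] at hx
      obtain ⟨N', -, rfl⟩ := hx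
      exact Wt_nonneg YC g N'
    · exact List.mem_map_of_mem hN
  -- total weight
  have h2 : ∀ L' : List (MNet V), (∑ g, (L'.map (Wt K YC g)).sum) * (r : ℝ) ^ (K - 1)
      ≤ 4 * 3 ^ (K + 1) * ((L'.map MNet.size).sum : ℕ) * (m : ℝ) ^ (K - 1) * (r : ℝ) ^ (2 * m) := by
    intro L'
    induction L' with
    | nil => simp
    | cons N L' ih =>
      simp only [List.map_cons, List.sum_cons, Finset.sum_add_distrib]
      have h3 := sum_Wt_le hK hmr hr YC N
      push_cast
      calc ((∑ g, Wt K YC g N) + ∑ g, (L'.map (Wt K YC g)).sum) * (r : ℝ) ^ (K - 1)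
          = (∑ g, Wt K YC g N) * (r : ℝ) ^ (K - 1)
            + (∑ g, (L'.map (Wt K YC g)).sum) * (r : ℝ) ^ (K - 1) := by ring
        _ ≤ 4 * 3 ^ (K + 1) * N.size * (m : ℝ) ^ (K - 1) * (r : ℝ) ^ (2 * m)
            + 4 * 3 ^ (K + 1) * ((L'.map MNet.size).sum : ℕ) * (m : ℝ) ^ (K - 1)
              * (r : ℝ) ^ (2 * m) := add_le_add h3 ih
        _ = _ := by push_cast; ring
  have h3 : (r : ℝ) ^ (2 * m) ≤ ∑ g : Fin m → Fin (r ^ 2), (L.map (Wt K YC g)).sum := by
    calc (r : ℝ) ^ (2 * m) = ∑ _g : Fin m → Fin (r ^ 2), (1 : ℝ) := by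
          rw [Finset.sum_const, Finset.card_univ, nsmul_eq_mul, mul_one, Fintype.card_fun,
            Fintype.card_fin, Fintype.card_fin]
          push_cast
          rw [← pow_mul]
      _ ≤ _ := Finset.sum_le_sum fun g _ => h1 g
  have h4 := h2 L
  have h5 : (r : ℝ) ^ (2 * m) * (r : ℝ) ^ (K - 1)
      ≤ 4 * 3 ^ (K + 1) * ((L.map MNet.size).sum : ℕ) * (m : ℝ) ^ (K - 1) * (r : ℝ) ^ (2 * m) :=
    (mul_le_mul_of_nonneg_right h3 (by positivity)).trans h4
  have h6 : (r : ℝ) ^ (K - 1) ≤ 4 * 3 ^ (K + 1) * ((L.map MNet.size).sum : ℕ) * (m : ℝ) ^ (K - 1) := by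
    have h7 : (0 : ℝ) < (r : ℝ) ^ (2 * m) := by positivity
    have h8 : (r : ℝ) ^ (2 * m) * (r : ℝ) ^ (K - 1)
      ≤ (r : ℝ) ^ (2 * m) * (4 * 3 ^ (K + 1) * ((L.map MNet.size).sum : ℕ) * (m : ℝ) ^ (K - 1)) := by
      linarith
    exact le_of_mul_le_mul_left h8 h7
  have h9 : ((r ^ (K - 1) : ℕ) : ℝ)
      ≤ ((4 * 3 ^ (K + 1) * (L.map MNet.size).sum * m ^ (K - 1) : ℕ) : ℝ) := by
    push_cast at h6 ⊢
    exact h6
  have h10 : r ^ (K - 1) ≤ 4 * 3 ^ (K + 1) * (L.map MNet.size).sum * m ^ (K - 1) := by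
    exact_mod_cast h9
  omega

end H534R2.NotNet
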