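import Mathlib

/-!
# Definition: monotone undirected switching networks
-/

namespace H534R2.NotNet

open Relation

/-- A monotone undirected switching network whose inputs are digraphs on the vertex set `V`: nodes
`Fin size`, unlabelled wires `link a b`, and wires `wire a b u v` between `a` and `b` labelled by
the arc `(u, v)`. -/
structure MNet (V : Type) where
  size : ℕ
  start : Fin size
  acc : Fin size
  link : Fin size → Fin size → Prop
  wire : Fin size → Fin size → V → V → Prop

/-- a wire between `a` and `b` is switched on by the digraph `G` -/
def MNet.Pass {V : Type} (N : MNet V) (G : V → V → Prop) (a b : Fin N.size) : Prop :=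
  N.link a b ∨ ∃ u v, N.wire a b u v ∧ G u v

/-- the network accepts `G`: start and accepting node are joined by wires that are on
(in any direction) -/
def MNet.Accepts {V : Type} (N : MNet V) (G : V → V → Prop) : Prop :=
  EqvGen (N.Pass G) N.start N.acc

end H534R2.NotNet
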