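import Pool.Agent.H534R2.NotGates

/-!
# Undirected switching networks with NOT gates: transfer to arbitrary vertex sets
-/

namespace H534R2.NotNet

open Finset Relation H534R2.SymSw

section transfer

variable {V W : Type}

/-- restrict a network to the digraphs on `W` embedded by `f` -/
def MNet.pull (f : W → V) (N : MNet V) : MNet W where
  size := N.size
  start := N.start
  acc := N.acc
  link := N.link
  wire a b u v := N.wire a b (f u) (f v)

theorem MNet.pull_accepts (f : W → V) (N : MNet V) (G : W → W → Prop) :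
    (N.pull f).Accepts G ↔ N.Accepts (Relation.Map G f f) := by
  have h : (N.pull f).Pass G = N.Pass (Relation.Map G f f) := by
    funext a b
    apply propext
    constructor
    · rintro (h | ⟨u, v, h1, h2⟩)
      · exact Or.inl h
      · exact Or.inr ⟨f u, f v, h1, u, v, h2, rfl, rfl⟩
    · rintro (h | ⟨_, _, h1, u, v, h2, rfl, rfl⟩)
      · exact Or.inl h
      · exact Or.inr ⟨u, v, h1, h2⟩
  unfold MNet.Accepts
  rw [h]
  rfl

/-- restrict a computation -/
def NTree.pull (f : W → V) : NTree V → NTree W
  | .out N => .out (N.pull f)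
  | .ask w N next => .ask w (fun i => (N i).pull f) (fun a => (next a).pull f)

theorem NTree.pull_eval (f : W → V) (T : NTree V) (G : W → W → Prop) :
    (T.pull f).eval G ↔ T.eval (Relation.Map G f f) := by
  classical
  induction T with
  | out N => exact N.pull_accepts f G
  | ask w N next ih =>
    show ((next (ans (fun i => (N i).pull f) G)).pull f).eval G ↔
      (next (ans N (Relation.Map G f f))).eval (Relation.Map G f f)
    have h : ans (fun i => (N i).pull f) G = ans N (Relation.Map G f f) := by
      funext i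
      unfold ans
      rw [decide_eq_decide]
      exact (N i).pull_accepts f G
    rw [h]
    exact ih _

theorem NTree.pull_cost (f : W → V) (T : NTree V) : (T.pull f).cost = T.cost := by
  induction T with
  | out N => rfl
  | ask w N next ih =>
    show (w + 1) * Finset.univ.sup (fun a => ((next a).pull f).cost)
      = (w + 1) * Finset.univ.sup (fun a => (next a).cost)
    simp only [ih]

theorem NTree.pull_load (f : W → V) (T : NTree V) : (T.pull f).load = T.load := by
  induction T with
  | out N => rfl
  | ask w N next ih =>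
    show (∑ i, ((N i).pull f).size) + Finset.univ.sup (fun a => ((next a).pull f).load)
      = (∑ i, (N i).size) + Finset.univ.sup (fun a => (next a).load)
    simp only [ih]
    rfl

theorem reach_map (f : W → V) (hf : Function.Injective f) (G : W → W → Prop) (a b : W) :
    ReflTransGen (Relation.Map G f f) (f a) (f b) ↔ ReflTransGen G a b := by
  constructor
  · intro h
    have key : ∀ v, ReflTransGen (Relation.Map G f f) (f a) v → ∃ c, v = f c ∧
        ReflTransGen G a c := by
      intro v hv
      induction hv with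
      | refl => exact ⟨a, rfl, ReflTransGen.refl⟩
      | tail _ hbc ih =>
        obtain ⟨c, rfl, hc⟩ := ih
        obtain ⟨x, y, hxy, hx, hy⟩ := hbc
        have := hf hx
        subst this
        exact ⟨y, hy.symm, hc.tail hxy⟩
    obtain ⟨c, hc, h⟩ := key _ h
    rw [hf hc]
    exact h
  · intro h
    exact ReflTransGen.lift f (fun x y hxy => ⟨x, y, hxy, rfl, rfl⟩) _ _ h

end transfer

section host

variable {M m q : ℕ}

/-- the block digraph embeds into any large vertex set, with prescribed `s` and `t` -/
theorem exists_embedding {V : Type} [Fintype V] {s t : V} (hst : s ≠ t)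
    (hcard : M * m * q + 2 ≤ Fintype.card V) :
    ∃ f : Vtx M m q → V, Function.Injective f ∧ f Vtx.s = s ∧ f Vtx.t = t := by
  classical
  have h1 : Fintype.card (Fin M × Fin m × Fin q) ≤ Fintype.card {x : V // x ≠ s ∧ x ≠ t} := by
    rw [Fintype.card_prod, Fintype.card_prod, Fintype.card_fin, Fintype.card_fin,
      Fintype.card_fin, Fintype.card_subtype]
    have h2 : (univ.filter (fun x : V => x ≠ s ∧ x ≠ t)) = (univ.erase s).erase t := by
      ext x; simp [and_comm]
    rw [h2, Finset.card_erase_of_mem (by simp [hst.symm]), Finset.card_erase_of_mem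
      (Finset.mem_univ s), Finset.card_univ, ← mul_assoc]
    omega
  obtain ⟨e⟩ := Function.Embedding.nonempty_of_card_le h1
  refine ⟨fun w => match w with
    | Vtx.s => s
    | Vtx.t => t
    | Vtx.v i x u => (e (i, x, u)).1, ?_, rfl, rfl⟩
  rintro (_ | _ | ⟨i, x, u⟩) (_ | _ | ⟨j, y, w⟩) h
  · rfl
  · exact absurd h hst
  · exact absurd h.symm (e (j, y, w)).2.1
  · exact absurd h.symm hst
  · rfl
  · exact absurd h.symm (e (j, y, w)).2.2
  · exact absurd h (e (i, x, u)).2.1
  · exact absurd h (e (i, x, u)).2.2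
  · have h2 : (i, x, u) = (j, y, w) := e.injective (Subtype.ext h)
    rw [Prod.mk.injEq, Prod.mk.injEq] at h2
    rw [h2.1, h2.2.1, h2.2.2]

theorem host_card {V : Type} (hq : 2 ≤ q) (hm : 1 ≤ m) (f : Vtx M m q → V) :
    {p : V × V | Relation.Map (Host (M := M) (m := m) (q := q)) f f p.1 p.2}.ncard
      ≤ M * m * q ^ 2 := by
  classical
  let F : Fin M × Fin m × Fin q × Fin q → V × V := fun z =>
    if h : z.2.1.val + 1 < m then (f (.v z.1 z.2.1 z.2.2.1), f (.v z.1 ⟨z.2.1.val + 1, h⟩ z.2.2.2))
    else if z.2.2.2.val = 0 then (f (.v z.1 z.2.1 z.2.2.1), f .t)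
    else (f .s, f (.v z.1 ⟨0, hm⟩ z.2.2.1))
  have hsub : {p : V × V | Relation.Map (Host (M := M) (m := m) (q := q)) f f p.1 p.2}
      ⊆ Set.range F := by
    rintro ⟨a, b⟩ ⟨u, v, huv, hu, hv⟩
    simp only at hu hv
    subst hu; subst hv
    rcases u with _ | _ | ⟨i, x, u⟩ <;> rcases v with _ | _ | ⟨j, y, w⟩
    · exact huv.elim
    · exact huv.elim
    · have hy : y.val = 0 := huv
      refine ⟨(j, ⟨m - 1, by omega⟩, w, ⟨1, by omega⟩), ?_⟩
      have h1 : ¬ (m - 1 + 1 < m) := by omega
      simp only [F, h1, dite_false]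
      have h2 : y = ⟨0, hm⟩ := Fin.ext hy
      simp [h2]
    · exact huv.elim
    · exact huv.elim
    · exact huv.elim
    · exact huv.elim
    · have hx : x.val + 1 = m := huv
      refine ⟨(i, x, u, ⟨0, by omega⟩), ?_⟩
      have h1 : ¬ (x.val + 1 < m) := by omega
      simp only [F, h1, dite_false, if_true]
    · obtain ⟨h1, h2⟩ := huv
      subst h1
      refine ⟨(i, x, u, w), ?_⟩
      have h3 : x.val + 1 < m := by rw [h2]; exact y.2
      have h4 : (⟨x.val + 1, h3⟩ : Fin m) = y := Fin.ext h2
      simp only [F, h3, dite_true, h4]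
  calc {p : V × V | Relation.Map (Host (M := M) (m := m) (q := q)) f f p.1 p.2}.ncard
      ≤ (Set.range F).ncard := Set.ncard_le_ncard hsub (Set.finite_range F)
    _ ≤ Nat.card (Fin M × Fin m × Fin q × Fin q) := by
        rw [← Set.image_univ]
        refine (Set.ncard_image_le Set.finite_univ).trans ?_
        rw [Set.ncard_univ]
    _ = M * m * q ^ 2 := by
        rw [Nat.card_eq_fintype_card, Fintype.card_prod, Fintype.card_prod, Fintype.card_prod,
          Fintype.card_fin, Fintype.card_fin, Fintype.card_fin]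
        ring

end host

/-- **Lower bound, general vertex sets.** -/
theorem general_bound (K M : ℕ) (hK : 1 ≤ K) (V : Type) [Fintype V] (s t : V) (hst : s ≠ t)
    (hV : M * 2 ^ (5 * K) + 2 ≤ Fintype.card V) :
    ∃ H : V → V → Prop, {p : V × V | H p.1 p.2}.ncard ≤ M * 2 ^ (9 * K) ∧
      ∀ T : NTree V, 4 * 3 ^ (K + 1) * T.load < 2 ^ (K * (K - 1)) →
        (∀ G : V → V → Prop, (∀ a b, G a b → H a b) → (T.eval G ↔ ReflTransGen G s t)) →
        M + 1 ≤ T.cost := by
  obtain ⟨m, hm⟩ : ∃ m, m = 2 ^ K := ⟨_, rfl⟩
  obtain ⟨r, hr⟩ : ∃ r, r = 2 ^ (2 * K) := ⟨_, rfl⟩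
  have hm1 : 1 ≤ m := by rw [hm]; exact Nat.one_le_two_pow
  have hmr : m ≤ r := by rw [hm, hr]; exact Nat.pow_le_pow_right (by norm_num) (by omega)
  have hr2 : 2 ≤ r := by
    rw [hr]
    calc 2 = 2 ^ 1 := rfl
      _ ≤ 2 ^ (2 * K) := Nat.pow_le_pow_right (by norm_num) (by omega)
  have hcard : M * m * r ^ 2 + 2 ≤ Fintype.card V := by
    refine le_trans (le_of_eq ?_) hV
    rw [hm, hr, ← pow_mul, mul_assoc, ← pow_add]
    congr 3
    ring
  obtain ⟨f, hf, hfs, hft⟩ := exists_embedding (M := M) (m := m) (q := r ^ 2) hst hcard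
  refine ⟨Relation.Map Host f f, ?_, ?_⟩
  · refine (host_card (by nlinarith) hm1 f).trans (le_of_eq ?_)
    rw [hm, hr, ← pow_mul, ← pow_mul, mul_assoc, ← pow_add]
    congr 2
    ring
  · intro T hload hT
    have hb := block_bound (M := M) (m := m) (r := r) hm hK hmr (T.pull f) (by
      rw [NTree.pull_load]
      have hrm : r = 2 ^ K * m := by rw [hm, hr, ← pow_add]; congr 1; ring
      rw [hrm, mul_pow, ← pow_mul]
      exact Nat.mul_lt_mul_of_pos_right hload (pow_pos (by omega) _))
      (by
        intro G hG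
        rw [NTree.pull_eval, hT, ← hfs, ← hft, reach_map f hf]
        rintro a b ⟨x, y, hxy, rfl, rfl⟩
        exact ⟨x, y, hG x y hxy, rfl, rfl⟩)
    rwa [NTree.pull_cost] at hb

/-- **Asymptotic form.** -/
theorem asymptotic_bound (c : ℕ) (V : Type) [Fintype V] (s t : V) (hst : s ≠ t) (T : NTree V)
    (hload : T.load ≤ Fintype.card V ^ c)
    (hT : ∀ G : V → V → Prop, T.eval G ↔ ReflTransGen G s t) :
    Fintype.card V ≤ 2 ^ ((5 * c + 26) * (Nat.sqrt (Nat.log 2 (Fintype.card V)) + 1)) * T.cost := by
  classical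
  set n := Fintype.card V with hn
  have hn2 : 2 ≤ n := by
    rw [hn]
    exact Fintype.one_lt_card_iff.2 ⟨s, t, hst⟩
  set L := Nat.log 2 n with hL
  set σ := Nat.sqrt L with hσ
  have hσ2 : L < (σ + 1) * (σ + 1) := Nat.lt_succ_sqrt L
  have hnL : n < 2 ^ (L + 1) := Nat.lt_pow_succ_log_self (by norm_num) n
  obtain ⟨K, hK⟩ : ∃ K, K = (c + 5) * (σ + 1) := ⟨_, rfl⟩
  have hK1 : 1 ≤ K := by rw [hK]; nlinarith
  obtain ⟨M, hM⟩ : ∃ M, M = (n - 2) / 2 ^ (5 * K) := ⟨_, rfl⟩
  have hpos : 0 < 2 ^ (5 * K) := by positivity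
  have h1 : M * 2 ^ (5 * K) ≤ n - 2 := by rw [hM]; exact Nat.div_mul_le_self _ _
  have h2 : n - 2 < (M + 1) * 2 ^ (5 * K) := by
    rw [hM]
    have := Nat.lt_mul_div_succ (n - 2) hpos
    rw [mul_comm]; exact this
  obtain ⟨H, -, hH⟩ := general_bound K M hK1 V s t hst (by rw [← hn]; omega)
  have hcost := hH T (by
    have e1 : 4 * 3 ^ (K + 1) ≤ 2 ^ (2 * K + 4) := by
      have : (3 : ℕ) ^ (K + 1) ≤ 4 ^ (K + 1) := Nat.pow_le_pow_left (by norm_num) _
      calc 4 * 3 ^ (K + 1) ≤ 4 * 4 ^ (K + 1) := by omega
        _ = 2 ^ (2 * K + 4) := by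
          rw [show (4 : ℕ) = 2 ^ 2 from rfl, ← pow_mul, ← pow_add]; congr 1; ring
    have e2 : T.load ≤ 2 ^ ((L + 1) * c) := by
      calc T.load ≤ n ^ c := hload
        _ ≤ (2 ^ (L + 1)) ^ c := Nat.pow_le_pow_left hnL.le _
        _ = 2 ^ ((L + 1) * c) := by rw [← pow_mul]
    calc 4 * 3 ^ (K + 1) * T.load ≤ 2 ^ (2 * K + 4) * 2 ^ ((L + 1) * c) := Nat.mul_le_mul e1 e2
      _ = 2 ^ (2 * K + 4 + (L + 1) * c) := by rw [← pow_add]
      _ < 2 ^ (K * (K - 1)) := by
        apply Nat.pow_lt_pow_right (by norm_num)
        obtain ⟨k, hk⟩ : ∃ k, K = k + 1 := ⟨K - 1, by omega⟩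
        have hk' : K - 1 = k := by omega
        rw [hk']
        have e3 : (L + 1) * c ≤ (σ + 1) * (σ + 1) * c := Nat.mul_le_mul_right _ hσ2
        have e4 : K * K = (c + 5) * (c + 5) * ((σ + 1) * (σ + 1)) := by rw [hK]; ring
        have e5 : K ≤ (c + 5) * ((σ + 1) * (σ + 1)) := by
          rw [hK]; exact Nat.mul_le_mul_left _ (Nat.le_mul_self _)
        have e6 : K * K = K * k + K := by rw [hk]; ring
        have e7 : 1 ≤ (σ + 1) * (σ + 1) := Nat.one_le_iff_ne_zero.2 (by positivity)
        nlinarith) (fun G _ => hT G)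
  calc n ≤ (M + 1) * 2 ^ (5 * K) + 1 := by omega
    _ ≤ (M + 1) * 2 ^ (5 * K) + (M + 1) * 2 ^ (5 * K) := by
        have : 1 ≤ (M + 1) * 2 ^ (5 * K) := Nat.one_le_iff_ne_zero.2 (by positivity)
        omega
    _ = 2 ^ (5 * K + 1) * (M + 1) := by rw [pow_succ]; ring
    _ ≤ 2 ^ ((5 * c + 26) * (σ + 1)) * T.cost := by
        apply Nat.mul_le_mul _ hcost
        apply Nat.pow_le_pow_right (by norm_num)
        rw [hK]
        nlinarith

/-! ### networks with NOT gates -/

/-- An undirected switching network whose wires may be labelled by arcs (`wire`) and by NOT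
gates (`nwire a b j`: a wire between `a` and `b` labelled by the `j`-th NOT gate). -/
structure NNet (V : Type) where
  size : ℕ
  start : Fin size
  acc : Fin size
  link : Fin size → Fin size → Prop
  wire : Fin size → Fin size → V → V → Prop
  nwire : Fin size → Fin size → ℕ → Prop

/-- the wires that are on, when the inputs of the available NOT gates are `z` -/
def NNet.Pass {V : Type} (N : NNet V) (z : List Bool) (G : V → V → Prop)
    (a b : Fin N.size) : Prop :=
  N.link a b ∨ (∃ u v, N.wire a b u v ∧ G u v) ∨ ∃ j, N.nwire a b j ∧ z[j]? = some false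

/-- acceptance -/
def NNet.Accepts {V : Type} (N : NNet V) (z : List Bool) (G : V → V → Prop) : Prop :=
  EqvGen (N.Pass z G) N.start N.acc

open Classical in
/-- The value of a sequence of networks: the networks are evaluated one after the other, the
answer of each one but the last is the input of a NOT gate, whose output may
be used by all later networks; the last network gives the result.  The list `z` holds the inputs of
the NOT gates evaluated so far. -/
noncomputable def evalNot {V : Type} : List (NNet V) → List Bool → (V → V → Prop) → Prop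
  | [], _, _ => False
  | [N], z, G => N.Accepts z G
  | N :: N' :: L, z, G => evalNot (N' :: L) (z ++ [decide (N.Accepts z G)]) G

/-- fix the inputs of the NOT gates -/
def NNet.toM {V : Type} (N : NNet V) (z : List Bool) : MNet V where
  size := N.size
  start := N.start
  acc := N.acc
  link a b := N.link a b ∨ ∃ j, N.nwire a b j ∧ z[j]? = some false
  wire := N.wire

theorem NNet.toM_accepts {V : Type} (N : NNet V) (z : List Bool) (G : V → V → Prop) :
    (N.toM z).Accepts G ↔ N.Accepts z G := by
  have h : (N.toM z).Pass G = N.Pass z G := by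
    funext a b
    apply propext
    constructor
    · rintro ((h | h) | h)
      · exact Or.inl h
      · exact Or.inr (Or.inr h)
      · exact Or.inr (Or.inl h)
    · rintro (h | h | h)
      · exact Or.inl (Or.inl h)
      · exact Or.inr h
      · exact Or.inl (Or.inr h)
  unfold MNet.Accepts NNet.Accepts
  rw [h]
  rfl

/-- the computation of a nonempty sequence of networks -/
def toTree {V : Type} : NNet V → List (NNet V) → List Bool → NTree V
  | N, [], z => .out (N.toM z)
  | N, N' :: L, z => .ask 1 (fun _ => N.toM z) (fun a => toTree N' L (z ++ [a 0]))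

theorem toTree_eval {V : Type} (L : List (NNet V)) : ∀ (N : NNet V) (z : List Bool)
    (G : V → V → Prop), (toTree N L z).eval G ↔ evalNot (N :: L) z G := by
  classical
  induction L with
  | nil =>
    intro N z G
    exact N.toM_accepts z G
  | cons N' L ih =>
    intro N z G
    show (toTree N' L (z ++ [ans (fun _ : Fin 1 => N.toM z) G 0])).eval G ↔
      evalNot (N' :: L) (z ++ [decide (N.Accepts z G)]) G
    rw [ih]
    have : ans (fun _ : Fin 1 => N.toM z) G 0 = decide (N.Accepts z G) := by
      unfold ans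
      rw [decide_eq_decide]
      exact N.toM_accepts z G
    rw [this]

theorem toTree_cost {V : Type} (L : List (NNet V)) : ∀ (N : NNet V) (z : List Bool),
    (toTree N L z).cost ≤ 2 ^ L.length := by
  induction L with
  | nil => intro N z; exact le_rfl
  | cons N' L ih =>
    intro N z
    show (1 + 1) * Finset.univ.sup (fun a : Fin 1 → Bool => (toTree N' L (z ++ [a 0])).cost)
      ≤ 2 ^ (L.length + 1)
    rw [pow_succ]
    have : Finset.univ.sup (fun a : Fin 1 → Bool => (toTree N' L (z ++ [a 0])).cost)
        ≤ 2 ^ L.length := by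
      apply Finset.sup_le
      intro a _
      exact ih _ _
    omega

theorem toTree_load {V : Type} (L : List (NNet V)) : ∀ (N : NNet V) (z : List Bool),
    (toTree N L z).load ≤ N.size + (L.map NNet.size).sum := by
  induction L with
  | nil => intro N z; simp [toTree, NTree.load, NNet.toM]
  | cons N' L ih =>
    intro N z
    show (∑ _i : Fin 1, (N.toM z).size) +
      Finset.univ.sup (fun a : Fin 1 → Bool => (toTree N' L (z ++ [a 0])).load)
      ≤ N.size + ((N' :: L).map NNet.size).sum
    rw [List.map_cons, List.sum_cons]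
    have : Finset.univ.sup (fun a : Fin 1 → Bool => (toTree N' L (z ++ [a 0])).load)
        ≤ N'.size + (L.map NNet.size).sum := by
      apply Finset.sup_le
      intro a _
      exact ih _ _
    simp only [Finset.univ_unique, Finset.sum_const, Finset.card_singleton, one_smul]
    have h2 : (N.toM z).size = N.size := rfl
    omega

/-- **Networks with NOT gates.** -/
theorem not_gates_bound (c : ℕ) (V : Type) [Fintype V] (s t : V) (hst : s ≠ t)
    (L : List (NNet V)) (hL : (L.map NNet.size).sum ≤ Fintype.card V ^ c)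
    (hT : ∀ G : V → V → Prop, evalNot L [] G ↔ ReflTransGen G s t) :
    Fintype.card V ≤
      2 ^ ((5 * c + 26) * (Nat.sqrt (Nat.log 2 (Fintype.card V)) + 1) + (L.length - 1)) := by
  cases L with
  | nil =>
    exfalso
    have := (hT (fun _ _ => True)).2 (ReflTransGen.single trivial)
    exact this
  | cons N L =>
    have h1 := asymptotic_bound c V s t hst (toTree N L []) (by
      refine (toTree_load L N []).trans ?_
      simpa using hL) (fun G => by rw [toTree_eval]; exact hT G)
    refine h1.trans ?_
    rw [pow_add]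
    apply Nat.mul_le_mul_left
    simpa using toTree_cost L N []

end H534R2.NotNet
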