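import Pool.Agent.H534R2.NotFinal

/-!
# Computations in rounds without trees (undirected networks)
-/

set_option linter.unusedSectionVars false

namespace H534R2.NotNet

open Finset Relation

section flat

variable {V : Type}

open Classical in
/-- the computation tree of the rounds `d - r, …, d - 1` followed by the output network -/
noncomputable def flatTree (d : ℕ) (w : ℕ → ℕ) (N : ℕ → ℕ → (ℕ → ℕ → Prop) → MNet V) :
    ℕ → (ℕ → ℕ → Prop) → NTree V
  | 0, A => .out (N d 0 A)
  | r + 1, A => .ask (w (d - (r + 1))) (fun k => N (d - (r + 1)) k A)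
      (fun a => flatTree d w N r
        (fun j k => if j = d - (r + 1) then ∃ h : k < w (d - (r + 1)), a ⟨k, h⟩ = true
          else A j k))

/-- the tables agree on the first `i` rounds -/
def Agr (w : ℕ → ℕ) (i : ℕ) (A A' : ℕ → ℕ → Prop) : Prop :=
  ∀ j < i, ∀ k < w j, (A j k ↔ A' j k)

/-- the networks of a round depend on the answers of the earlier rounds only -/
def Causal (w : ℕ → ℕ) (N : ℕ → ℕ → (ℕ → ℕ → Prop) → MNet V) : Prop :=
  ∀ i k A A', Agr w i A A' → N i k A = N i k A'

variable {d : ℕ} {w : ℕ → ℕ} {N : ℕ → ℕ → (ℕ → ℕ → Prop) → MNet V}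

theorem flat_eval (hN : Causal w N) (G : V → V → Prop) (A' : ℕ → ℕ → Prop)
    (hA' : ∀ i < d, ∀ k < w i, (A' i k ↔ (N i k A').Accepts G)) (r : ℕ) :
    r ≤ d → ∀ A, Agr w (d - r) A A' →
      ((flatTree d w N r A).eval G ↔ (N d 0 A').Accepts G) := by
  classical
  induction r with
  | zero =>
    intro _ A hA
    show (N d 0 A).Accepts G ↔ _
    rw [hN d 0 A A' (by simpa using hA)]
  | succ r ih =>
    intro hr A hA
    show (flatTree d w N r (fun j k => if j = d - (r + 1) then ∃ h : k < w (d - (r + 1)),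
      ans (fun k : Fin (w (d - (r + 1))) => N (d - (r + 1)) k A) G ⟨k, h⟩ = true
      else A j k)).eval G ↔ _
    apply ih (by omega)
    intro j hj k hk
    beta_reduce
    by_cases hji : j = d - (r + 1)
    · subst hji
      rw [if_pos rfl, hA' _ (by omega) k hk, ← hN _ k A A' hA]
      unfold ans
      simp only [decide_eq_true_eq]
      exact ⟨fun ⟨_, h2⟩ => h2, fun h => ⟨hk, h⟩⟩
    · rw [if_neg hji]
      exact hA j (by omega) k hk

theorem flat_cost (r : ℕ) : r ≤ d → ∀ A,
    (flatTree d w N r A).cost ≤ ∏ i ∈ Finset.Ico (d - r) d, (w i + 1) := by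
  classical
  induction r with
  | zero => intro _ A; simp [flatTree, NTree.cost]
  | succ r ih =>
    intro hr A
    have h1 : d - (r + 1) < d := by omega
    have h2 : d - (r + 1) + 1 = d - r := by omega
    rw [Finset.prod_eq_prod_Ico_succ_bot h1, h2]
    show (w (d - (r + 1)) + 1) * Finset.univ.sup _ ≤ _
    apply Nat.mul_le_mul_left
    apply Finset.sup_le
    intro a _
    exact ih (by omega) _

theorem flat_load (hN : Causal w N) (r : ℕ) : r ≤ d → ∀ A B,
    (∀ A', Agr w (d - r) A A' → (∑ i ∈ Finset.Ico (d - r) d, ∑ k ∈ Finset.range (w i),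
      (N i k A').size) + (N d 0 A').size ≤ B) → (flatTree d w N r A).load ≤ B := by
  classical
  induction r with
  | zero =>
    intro _ A B hB
    have := hB A (fun _ _ _ _ => Iff.rfl)
    simpa [flatTree, NTree.load] using this
  | succ r ih =>
    intro hr A B hB
    have h1 : d - (r + 1) < d := by omega
    have h2 : d - (r + 1) + 1 = d - r := by omega
    have hsum : ∀ A', (∑ i ∈ Finset.Ico (d - (r + 1)) d, ∑ k ∈ Finset.range (w i),
        (N i k A').size) = (∑ i ∈ Finset.Ico (d - r) d, ∑ k ∈ Finset.range (w i),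
          (N i k A').size) + ∑ k ∈ Finset.range (w (d - (r + 1))),
            (N (d - (r + 1)) k A').size := by
      intro A'
      rw [Finset.sum_eq_sum_Ico_succ_bot h1, h2, add_comm]
    obtain ⟨S, hS⟩ : ∃ S, S = ∑ k ∈ Finset.range (w (d - (r + 1))),
      (N (d - (r + 1)) k A).size := ⟨_, rfl⟩
    have hSA : ∀ A', Agr w (d - (r + 1)) A A' → (∑ k ∈ Finset.range (w (d - (r + 1))),
        (N (d - (r + 1)) k A').size) = S := by
      intro A' hA'
      rw [hS]
      refine Finset.sum_congr rfl fun k _ => ?_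
      rw [hN _ k A A' hA']
    have hSB : S ≤ B := by
      have h3 := hB A (fun _ _ _ _ => Iff.rfl)
      rw [hsum A, hSA A (fun _ _ _ _ => Iff.rfl)] at h3
      omega
    show (∑ k : Fin (w (d - (r + 1))), (N (d - (r + 1)) k A).size) +
      Finset.univ.sup _ ≤ B
    have h4 : (∑ k : Fin (w (d - (r + 1))), (N (d - (r + 1)) k A).size) = S := by
      rw [hS, Finset.sum_range]
    rw [h4]
    have h5 : Finset.univ.sup (fun a : Fin (w (d - (r + 1))) → Bool =>
        (flatTree d w N r (fun j k => if j = d - (r + 1) then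
          ∃ h : k < w (d - (r + 1)), a ⟨k, h⟩ = true else A j k)).load) ≤ B - S := by
      apply Finset.sup_le
      intro a _
      apply ih (by omega)
      intro A' hA'
      have hAA' : Agr w (d - (r + 1)) A A' := by
        intro j hj k hk
        have h6 := hA' j (by omega) k hk
        have h7 : ¬ (j = d - (r + 1)) := by omega
        simp only [if_neg h7] at h6
        exact h6
      have h3 := hB A' hAA'
      rw [hsum A', hSA A' hAA'] at h3
      omega
    exact (Nat.add_le_add_left h5 S).trans (by omega)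

end flat

/-- **Host version**, in rounds. -/
theorem rounds_host (K M : ℕ) (hK : 1 ≤ K) (V : Type) [Fintype V] (s t : V) (hst : s ≠ t)
    (hV : M * 2 ^ (5 * K) + 2 ≤ Fintype.card V) :
    ∃ H : V → V → Prop, {p : V × V | H p.1 p.2}.ncard ≤ M * 2 ^ (9 * K) ∧
      ∀ (d : ℕ) (w : ℕ → ℕ) (N : ℕ → ℕ → (ℕ → ℕ → Prop) → MNet V),
        (∀ i k A A', (∀ j < i, ∀ k' < w j, (A j k' ↔ A' j k')) → N i k A = N i k A') →
        (∀ A, 4 * 3 ^ (K + 1) * ((∑ i ∈ Finset.range d, ∑ k ∈ Finset.range (w i), (N i k A).size)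
          + (N d 0 A).size) < 2 ^ (K * (K - 1))) →
        (∀ G : V → V → Prop, (∀ a b, G a b → H a b) → ∃ A : ℕ → ℕ → Prop,
          (∀ i < d, ∀ k < w i, (A i k ↔ (N i k A).Accepts G)) ∧
          ((N d 0 A).Accepts G ↔ ReflTransGen G s t)) →
        M + 1 ≤ ∏ i ∈ Finset.range d, (w i + 1) := by
  obtain ⟨H, h1, h3⟩ := general_bound K M hK V s t hst hV
  refine ⟨H, h1, ?_⟩
  intro d w N hN hsize hdec
  have hpos : 0 < 4 * 3 ^ (K + 1) := by positivity
  have h0 : (flatTree d w N d (fun _ _ => True)).load ≤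
      (2 ^ (K * (K - 1)) - 1) / (4 * 3 ^ (K + 1)) := by
    apply flat_load hN d le_rfl
    intro A' _
    rw [Nat.sub_self, ← Finset.range_eq_Ico, Nat.le_div_iff_mul_le hpos, mul_comm]
    have := hsize A'
    omega
  have h4 := h3 (flatTree d w N d (fun _ _ => True)) (by
    have h5 := Nat.mul_le_mul_left (4 * 3 ^ (K + 1)) h0
    have h6 := Nat.mul_div_le (2 ^ (K * (K - 1)) - 1) (4 * 3 ^ (K + 1))
    have h7 := Nat.one_le_two_pow (n := K * (K - 1))
    omega) (by
    intro G hG
    obtain ⟨A, hA, hG'⟩ := hdec G hG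
    rw [flat_eval hN G A hA d le_rfl _ (by rw [Nat.sub_self]; intro j hj; omega), hG'])
  have h5 := h4.trans (flat_cost d le_rfl _)
  rwa [Nat.sub_self, ← Finset.range_eq_Ico] at h5

/-- **Asymptotic form**, in rounds. -/
theorem rounds_bound (c d : ℕ) (w : ℕ → ℕ) (V : Type) [Fintype V] (s t : V) (hst : s ≠ t)
    (N : ℕ → ℕ → (ℕ → ℕ → Prop) → MNet V)
    (hN : ∀ i k A A', (∀ j < i, ∀ k' < w j, (A j k' ↔ A' j k')) → N i k A = N i k A')
    (hsize : ∀ A, (∑ i ∈ Finset.range d, ∑ k ∈ Finset.range (w i), (N i k A).size)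
      + (N d 0 A).size ≤ Fintype.card V ^ c)
    (hdec : ∀ G : V → V → Prop, ∃ A : ℕ → ℕ → Prop,
      (∀ i < d, ∀ k < w i, (A i k ↔ (N i k A).Accepts G)) ∧
      ((N d 0 A).Accepts G ↔ ReflTransGen G s t)) :
    Fintype.card V ≤ 2 ^ ((5 * c + 26) * (Nat.sqrt (Nat.log 2 (Fintype.card V)) + 1)) *
      ∏ i ∈ Finset.range d, (w i + 1) := by
  have h0 : (flatTree d w N d (fun _ _ => True)).load ≤ Fintype.card V ^ c := by
    apply flat_load hN d le_rfl
    intro A' _
    rw [Nat.sub_self, ← Finset.range_eq_Ico]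
    exact hsize A'
  have h1 := asymptotic_bound c V s t hst (flatTree d w N d (fun _ _ => True)) h0 (by
    intro G
    obtain ⟨A, hA, hG⟩ := hdec G
    rw [flat_eval hN G A hA d le_rfl _ (by rw [Nat.sub_self]; intro j hj; omega), hG])
  refine h1.trans (Nat.mul_le_mul_left _ ?_)
  have h2 := flat_cost (N := N) (w := w) (d := d) d le_rfl (fun _ _ => True)
  rwa [Nat.sub_self, ← Finset.range_eq_Ico] at h2

end H534R2.NotNet
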