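import Pool.Agent.H534R2.NetMain

/-!
# Undirected switching networks with NOT gates
-/

namespace H534R2.NotNet

open Finset Relation H534R2.SymSw

/-- Computations that evaluate monotone undirected networks in rounds: `out N` outputs the answer of
the network `N`; `ask w N next` evaluates the `w` networks `N i` and continues with a
computation that may depend on the `w` answers in an arbitrary way. -/
inductive NTree (V : Type) : Type
  | out (N : MNet V) : NTree V
  | ask (w : ℕ) (N : Fin w → MNet V) (next : (Fin w → Bool) → NTree V) : NTree V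

open Classical in
/-- the answers of the networks -/
noncomputable def ans {V : Type} {w : ℕ} (N : Fin w → MNet V) (G : V → V → Prop) : Fin w → Bool :=
  fun i => decide ((N i).Accepts G)

namespace NTree

variable {V : Type}

/-- the value computed on the digraph `G` -/
noncomputable def eval : NTree V → (V → V → Prop) → Prop
  | out N, G => N.Accepts G
  | ask _ N next, G => (next (ans N G)).eval G

/-- the maximum over all branches of the product of `w + 1` over the rounds -/
def cost : NTree V → ℕ
  | out _ => 1
  | ask w _ next => (w + 1) * Finset.univ.sup (fun a => (next a).cost)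

/-- the maximum over all branches of the total number of nodes of the networks -/
def load : NTree V → ℕ
  | out N => N.size
  | ask _ N next => (∑ i, (N i).size) + Finset.univ.sup (fun a => (next a).load)

open Classical in
/-- the networks on the branch of `G` that reject `G`, and the output network -/
noncomputable def zeros : NTree V → (V → V → Prop) → List (MNet V)
  | out N, _ => [N]
  | ask _ N next, G =>
      ((List.ofFn N).filter (fun N' => ¬ N'.Accepts G)) ++ (next (ans N G)).zeros G

open Classical in
/-- rank of the branch of `G` -/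
noncomputable def rk : NTree V → (V → V → Prop) → ℕ
  | out _, _ => 0
  | ask w N next, G =>
      (Finset.univ.filter (fun i => (N i).Accepts G)).card *
        Finset.univ.sup (fun a : Fin w → Bool => (next a).cost) + (next (ans N G)).rk G

theorem cost_pos (T : NTree V) : 1 ≤ T.cost := by
  induction T with
  | out N => exact le_rfl
  | ask w N next ih =>
    show 1 ≤ (w + 1) * Finset.univ.sup (fun a => (next a).cost)
    have h1 : (next (fun _ => true)).cost ≤ Finset.univ.sup (fun a => (next a).cost) :=
      Finset.le_sup (f := fun a => (next a).cost) (Finset.mem_univ _)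
    have h2 := ih (fun _ => true)
    nlinarith

theorem rk_lt_cost (T : NTree V) (G : V → V → Prop) : T.rk G < T.cost := by
  classical
  induction T with
  | out N => exact Nat.zero_lt_one
  | ask w N next ih =>
    show (Finset.univ.filter (fun i => (N i).Accepts G)).card *
        Finset.univ.sup (fun a : Fin w → Bool => (next a).cost) + (next (ans N G)).rk G
        < (w + 1) * Finset.univ.sup (fun a => (next a).cost)
    have h1 : (next (ans N G)).cost ≤ Finset.univ.sup (fun a => (next a).cost) :=
      Finset.le_sup (f := fun a => (next a).cost) (Finset.mem_univ _)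
    have h2 := ih (ans N G)
    have h3 : (Finset.univ.filter (fun i => (N i).Accepts G)).card ≤ w := by
      have := Finset.card_le_univ (Finset.univ.filter (fun i => (N i).Accepts G))
      rwa [Fintype.card_fin] at this
    have h4 := Nat.mul_le_mul_right (Finset.univ.sup (fun a : Fin w → Bool => (next a).cost)) h3
    have h5 : (w + 1) * Finset.univ.sup (fun a => (next a).cost)
        = w * Finset.univ.sup (fun a : Fin w → Bool => (next a).cost)
          + Finset.univ.sup (fun a => (next a).cost) := by ring
    omega

theorem sum_filter_le (L : List (MNet V)) (p : MNet V → Bool) :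
    ((L.filter p).map MNet.size).sum ≤ (L.map MNet.size).sum := by
  induction L with
  | nil => simp
  | cons N L ih =>
    rw [List.filter_cons]
    split_ifs
    · simp only [List.map_cons, List.sum_cons]; omega
    · simp only [List.map_cons, List.sum_cons]; omega

theorem zeros_load (T : NTree V) (G : V → V → Prop) : ((T.zeros G).map MNet.size).sum ≤ T.load := by
  classical
  induction T with
  | out N => simp [zeros, load]
  | ask w N next ih =>
    show ((((List.ofFn N).filter (fun N' => ¬ N'.Accepts G)) ++
      (next (ans N G)).zeros G).map MNet.size).sum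
        ≤ (∑ i, (N i).size) + Finset.univ.sup (fun a => (next a).load)
    rw [List.map_append, List.sum_append]
    have h1 : (next (ans N G)).load ≤ Finset.univ.sup (fun a => (next a).load) :=
      Finset.le_sup (f := fun a => (next a).load) (Finset.mem_univ _)
    have h2 := ih (ans N G)
    have h3 := sum_filter_le (List.ofFn N) (fun N' => decide (¬ N'.Accepts G))
    have h4 : ((List.ofFn N).map MNet.size).sum = ∑ i, (N i).size := by
      rw [List.map_ofFn, List.sum_ofFn]; rfl
    rw [h4] at h3
    omega

theorem ans_ne {w : ℕ} {N : Fin w → MNet V} {G G' : V → V → Prop} (h : ∀ u v, G u v → G' u v)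
    (hne : ans N G ≠ ans N G') : ∃ i, ¬ (N i).Accepts G ∧ (N i).Accepts G' := by
  classical
  by_contra hcon
  push Not at hcon
  apply hne
  funext i
  unfold ans
  by_cases hi : (N i).Accepts G
  · have := (N i).accepts_mono h hi
    simp [hi, this]
  · have := hcon i hi
    simp [hi, this]

theorem ans_eq_iff {w : ℕ} {N : Fin w → MNet V} {G G' : V → V → Prop}
    (he : ans N G = ans N G') (i : Fin w) : (N i).Accepts G ↔ (N i).Accepts G' := by
  classical
  have := congrFun he i
  unfold ans at this
  simpa using this

/-- a larger accepted digraph is accepted by one of the networks on the branch -/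
theorem found (T : NTree V) {G G' : V → V → Prop} (h : ∀ u v, G u v → G' u v)
    (hT : T.eval G') : ∃ N ∈ T.zeros G, N.Accepts G' := by
  classical
  induction T with
  | out N => exact ⟨N, by simp [zeros], hT⟩
  | ask w N next ih =>
    by_cases he : ans N G = ans N G'
    · have hT' : (next (ans N G')).eval G' := hT
      rw [← he] at hT'
      obtain ⟨N', h1, h2⟩ := ih _ hT'
      exact ⟨N', List.mem_append_right _ h1, h2⟩
    · obtain ⟨i, h1, h2⟩ := ans_ne h he
      refine ⟨N i, List.mem_append_left _ ?_, h2⟩
      rw [List.mem_filter]
      exact ⟨(List.mem_ofFn' _ _).2 ⟨i, rfl⟩, by simpa using h1⟩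

/-- if one of the networks on the branch of `G` accepts the larger rejected digraph `G'`, the rank
increases -/
theorem rk_lt (T : NTree V) {G G' : V → V → Prop} (h : ∀ u v, G u v → G' u v)
    (hT : ¬ T.eval G') (hN : ∃ N ∈ T.zeros G, N.Accepts G') : T.rk G < T.rk G' := by
  classical
  induction T with
  | out N =>
    obtain ⟨N', h1, h2⟩ := hN
    have : N' = N := by simpa [zeros] using h1
    subst this
    exact absurd h2 hT
  | ask w N next ih =>
    show (Finset.univ.filter (fun i => (N i).Accepts G)).card *
        Finset.univ.sup (fun a : Fin w → Bool => (next a).cost) + (next (ans N G)).rk G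
        < (Finset.univ.filter (fun i => (N i).Accepts G')).card *
        Finset.univ.sup (fun a : Fin w → Bool => (next a).cost) + (next (ans N G')).rk G'
    by_cases he : ans N G = ans N G'
    · have hcard : (Finset.univ.filter (fun i => (N i).Accepts G))
          = (Finset.univ.filter (fun i => (N i).Accepts G')) := by
        ext i; simp only [Finset.mem_filter, Finset.mem_univ, true_and]
        exact ans_eq_iff he i
      have hT' : ¬ (next (ans N G)).eval G' := by rw [he]; exact hT
      obtain ⟨N', h1, h2⟩ := hN
      have h3 : N' ∈ (next (ans N G)).zeros G := by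
        rcases List.mem_append.1 h1 with h4 | h4
        · exfalso
          rw [List.mem_filter] at h4
          obtain ⟨i, rfl⟩ := (List.mem_ofFn' _ _).1 h4.1
          have h5 : ¬ (N i).Accepts G := by simpa using h4.2
          exact h5 ((ans_eq_iff he i).2 h2)
        · exact h4
      have := ih _ hT' ⟨N', h3, h2⟩
      rw [hcard]
      rw [he] at this ⊢
      omega
    · obtain ⟨i, h1, h2⟩ := ans_ne h he
      have hlt : (Finset.univ.filter (fun i => (N i).Accepts G)).card + 1
          ≤ (Finset.univ.filter (fun i => (N i).Accepts G')).card := by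
        apply Finset.card_lt_card
        rw [Finset.ssubset_iff_of_subset]
        · exact ⟨i, by simp [h2], by simp [h1]⟩
        · intro j hj
          simp only [Finset.mem_filter, Finset.mem_univ, true_and] at hj ⊢
          exact (N j).accepts_mono h hj
      have h3 := rk_lt_cost (next (ans N G)) G
      have h4 : (next (ans N G)).cost
          ≤ Finset.univ.sup (fun a : Fin w → Bool => (next a).cost) :=
        Finset.le_sup (f := fun a => (next a).cost) (Finset.mem_univ _)
      have h5 := Nat.mul_le_mul_right
        (Finset.univ.sup (fun a : Fin w → Bool => (next a).cost)) hlt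
      have h6 : ((Finset.univ.filter (fun i => (N i).Accepts G)).card + 1) *
          Finset.univ.sup (fun a : Fin w → Bool => (next a).cost)
          = (Finset.univ.filter (fun i => (N i).Accepts G)).card *
            Finset.univ.sup (fun a : Fin w → Bool => (next a).cost)
            + Finset.univ.sup (fun a : Fin w → Bool => (next a).cost) := by ring
      omega

end NTree

/-! ### the block digraphs -/

/-- vertices: `s`, `t` and `M` blocks with `m` layers of `q` vertices -/
inductive Vtx (M m q : ℕ) : Type
  | s : Vtx M m q
  | t : Vtx M m q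
  | v (i : Fin M) (x : Fin m) (u : Fin q) : Vtx M m q

variable {M m q : ℕ}

/-- the host digraph -/
def Host : Vtx M m q → Vtx M m q → Prop
  | .s, .v _ x _ => x.val = 0
  | .v i x _, .v j y _ => i = j ∧ x.val + 1 = y.val
  | .v _ x _, .t => x.val + 1 = m
  | _, _ => False

/-- the path through block `k` given by `g` -/
def Pth (k : ℕ) (g : Fin m → Fin q) : Vtx M m q → Vtx M m q → Prop
  | .s, .v i x u => i.val = k ∧ x.val = 0 ∧ u = g x
  | .v i x u, .v j y w => i.val = k ∧ i = j ∧ x.val + 1 = y.val ∧ u = g x ∧ w = g y
  | .v i x u, .t => i.val = k ∧ x.val + 1 = m ∧ u = g x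
  | _, _ => False

/-- the arcs of block `k` that do not lead from the side of `s` to the side of `t` -/
def Ct (k : ℕ) (C : Cuts m q) : Vtx M m q → Vtx M m q → Prop
  | .s, .v i x u => i.val = k ∧ x.val = 0 ∧ C x u = true
  | .v i x u, .v j y w => i.val = k ∧ i = j ∧ x.val + 1 = y.val ∧ ¬ (C x u = true ∧ C y w = false)
  | .v i x u, .t => i.val = k ∧ x.val + 1 = m ∧ C x u = false
  | _, _ => False

/-- the cut digraphs in the first `k` blocks -/
def XX (D : Fin M → Cuts m q) (k : ℕ) (a b : Vtx M m q) : Prop :=
  ∃ j : Fin M, j.val < k ∧ Ct j.val (D j) a b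

theorem Ct_host {k : ℕ} {C : Cuts m q} {a b : Vtx M m q} (h : Ct k C a b) : Host a b := by
  rcases a with _ | _ | ⟨i, x, u⟩ <;> rcases b with _ | _ | ⟨j, y, w⟩ <;>
    first
    | exact h.elim
    | exact h.2.1
    | exact ⟨h.2.1, h.2.2.1⟩

theorem Pth_host {k : ℕ} {g : Fin m → Fin q} {a b : Vtx M m q} (h : Pth k g a b) : Host a b := by
  rcases a with _ | _ | ⟨i, x, u⟩ <;> rcases b with _ | _ | ⟨j, y, w⟩ <;>
    first
    | exact h.elim
    | exact h.2.1
    | exact ⟨h.2.1, h.2.2.1⟩

theorem XX_host {D : Fin M → Cuts m q} {k : ℕ} {a b : Vtx M m q} (h : XX D k a b) :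
    Host a b := by
  obtain ⟨j, -, h⟩ := h
  exact Ct_host h

/-- no `s`-`t` path in a union of cut digraphs -/
theorem XX_no_path (D : Fin M → Cuts m q) (k : ℕ) :
    ¬ ReflTransGen (XX D k) Vtx.s Vtx.t := by
  intro h
  have key : ∀ v : Vtx M m q, ReflTransGen (XX D k) Vtx.s v →
      (v = Vtx.s ∨ ∃ i x u, v = Vtx.v i x u ∧ D i x u = true) := by
    intro v hv
    induction hv with
    | refl => exact Or.inl rfl
    | tail _ hbc ih =>
      rename_i b c _
      obtain ⟨j, -, hj⟩ := hbc
      rcases ih with rfl | ⟨i, x, u, rfl, hx⟩
      · rcases c with _ | _ | ⟨i, x, u⟩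
        · exact hj.elim
        · exact hj.elim
        · have : i = j := Fin.ext hj.1
          subst this
          exact Or.inr ⟨i, x, u, rfl, hj.2.2⟩
      · rcases c with _ | _ | ⟨i', y, w⟩
        · exact hj.elim
        · have : i = j := Fin.ext hj.1
          subst this
          have h3 : D i x u = false := hj.2.2
          rw [hx] at h3
          exact absurd h3 (by simp)
        · have : i = j := Fin.ext hj.1
          subst this
          have h4 : i = i' := hj.2.1
          subst h4
          have h3 : ¬ (D i x u = true ∧ D i y w = false) := hj.2.2.2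
          refine Or.inr ⟨i, y, w, rfl, ?_⟩
          by_contra hne
          exact h3 ⟨hx, by simpa using hne⟩
  rcases key _ h with h | ⟨i, x, u, h, -⟩
  · exact absurd h (by simp)
  · exact absurd h (by simp)

/-- the path gives an `s`-`t` path -/
theorem Pth_path (hm : 0 < m) {k : ℕ} (hk : k < M) (g : Fin m → Fin q)
    (G : Vtx M m q → Vtx M m q → Prop) (hG : ∀ a b, Pth k g a b → G a b) :
    ReflTransGen G Vtx.s Vtx.t := by
  have key : ∀ x (hx : x < m), ReflTransGen G Vtx.s (Vtx.v ⟨k, hk⟩ ⟨x, hx⟩ (g ⟨x, hx⟩)) := by
    intro x
    induction x with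
    | zero => intro hx; exact ReflTransGen.single (hG _ _ ⟨rfl, rfl, rfl⟩)
    | succ x ih =>
      intro hx
      exact (ih (by omega)).tail (hG _ _ ⟨rfl, rfl, rfl, rfl, rfl⟩)
  refine (key (m - 1) (by omega)).tail (hG _ _ ⟨rfl, ?_, rfl⟩)
  show m - 1 + 1 = m
  omega

/-- a path arc is in the cut digraph unless it is cut -/
theorem cover_arc {k : ℕ} (X : Vtx M m q → Vtx M m q → Prop)
    (g : Fin m → Fin q) (a b : Vtx M m q) (h : X a b ∨ Pth k g a b) :
    Cover (fun C => X a b ∨ Ct k C a b) g := by
  rcases h with h | h
  · exact Or.inl fun C => Or.inl h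
  rcases a with _ | _ | ⟨i, x, u⟩ <;> rcases b with _ | _ | ⟨j, y, w⟩
  · exact h.elim
  · exact h.elim
  · obtain ⟨h1, h2, h3⟩ := h
    subst h3
    exact Or.inr (Or.inl ⟨y, h2, fun C hC => Or.inr ⟨h1, h2, hC⟩⟩)
  · exact h.elim
  · exact h.elim
  · exact h.elim
  · exact h.elim
  · obtain ⟨h1, h2, h3⟩ := h
    subst h3
    exact Or.inr (Or.inr (Or.inr ⟨x, h2, fun C hC => Or.inr ⟨h1, h2, hC⟩⟩))
  · obtain ⟨h1, h2, h3, h4, h5⟩ := h
    subst h4; subst h5
    exact Or.inr (Or.inr (Or.inl ⟨x, y, h3, fun C hC => Or.inr ⟨h1, h2, h3, hC⟩⟩))

/-- **Lower bound for block digraphs.** -/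
theorem block_bound {K r : ℕ} (hm : m = 2 ^ K) (hK : 1 ≤ K) (hmr : m ≤ r)
    (T : NTree (Vtx M m (r ^ 2)))
    (hsize : 4 * 3 ^ (K + 1) * T.load * m ^ (K - 1) < r ^ (K - 1))
    (hT : ∀ G : Vtx M m (r ^ 2) → Vtx M m (r ^ 2) → Prop, (∀ a b, G a b → Host a b) →
      (T.eval G ↔ ReflTransGen G Vtx.s Vtx.t)) : M + 1 ≤ T.cost := by
  classical
  have hm0 : 0 < m := by rw [hm]; positivity
  have key : ∀ k, k ≤ M → ∃ D : Fin M → Cuts m (r ^ 2), k ≤ T.rk (XX D k) := by
    intro k
    induction k with
    | zero => intro _; exact ⟨fun _ _ _ => true, Nat.zero_le _⟩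
    | succ k ih =>
      intro hk
      obtain ⟨D, hD⟩ := ih (by omega)
      have hkM : k < M := hk
      set X := XX D k with hX
      have hmain := exists_cut hm hK hmr (T.zeros X) (fun g a b => X a b ∨ Pth k g a b)
        (fun C a b => X a b ∨ Ct k C a b) (fun g a b h => cover_arc X g a b h)
        (lt_of_le_of_lt (Nat.mul_le_mul_right _
          (Nat.mul_le_mul_left _ (NTree.zeros_load T X))) hsize)
        (by
          intro g
          apply NTree.found T (fun a b h => Or.inl h)
          rw [hT _ (by
            rintro a b (h | h)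
            · exact XX_host h
            · exact Pth_host h)]
          exact Pth_path hm0 hkM g _ fun a b h => Or.inr h)
      obtain ⟨N, hN, C, hC⟩ := hmain
      set D' : Fin M → Cuts m (r ^ 2) := Function.update D ⟨k, hkM⟩ C with hD'
      have hXX : (fun a b => X a b ∨ Ct k C a b) = XX D' (k + 1) := by
        funext a b
        apply propext
        constructor
        · rintro (⟨j, hj, h⟩ | h)
          · refine ⟨j, by omega, ?_⟩
            have : j ≠ ⟨k, hkM⟩ := fun h' => by rw [h'] at hj; simp at hj
            rw [hD', Function.update_of_ne this]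
            exact h
          · refine ⟨⟨k, hkM⟩, by simp, ?_⟩
            rw [hD', Function.update_self]
            exact h
        · rintro ⟨j, hj, h⟩
          by_cases hjk : j = ⟨k, hkM⟩
          · right
            rw [hD', hjk, Function.update_self] at h
            exact h
          · left
            rw [hD', Function.update_of_ne hjk] at h
            refine ⟨j, ?_, h⟩
            have : j.val ≠ k := fun h' => hjk (Fin.ext h')
            omega
      refine ⟨D', ?_⟩
      have hno : ¬ T.eval (XX D' (k + 1)) := by
        rw [hT _ (fun a b h => XX_host h)]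
        exact XX_no_path D' (k + 1)
      have hlt : T.rk X < T.rk (XX D' (k + 1)) := by
        apply NTree.rk_lt T _ hno
        · exact ⟨N, hN, by rw [← hXX]; exact hC⟩
        · intro a b h
          rw [← hXX]; exact Or.inl h
      omega
  obtain ⟨D, hD⟩ := key M le_rfl
  have := T.rk_lt_cost (XX D M)
  omega

end H534R2.NotNet
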