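import Mathlib

/-!
# Symmetric switching networks: definitions
-/

namespace H534R2.SymSw

open Equiv Finset

/-- `n` interchangeable vertices and a set `M` of distinguished vertices -/
abbrev Vx (n : ℕ) (M : Type*) := Fin n ⊕ M

/-- relabel the interchangeable vertices of a digraph by `π` -/
def relabel {n : ℕ} {M : Type*} (π : Perm (Fin n)) (G : Vx n M → Vx n M → Prop) :
    Vx n M → Vx n M → Prop :=
  fun u v => G (Sum.map π.symm id u) (Sum.map π.symm id v)

/-- the two digraphs agree on the vertices in `A` and the distinguished vertices -/
def AgreeOn {n : ℕ} {M : Type*} (A : Finset (Fin n)) (G G' : Vx n M → Vx n M → Prop) : Prop :=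
  ∀ u v : Vx n M, (∀ x, u = Sum.inl x → x ∈ A) → (∀ x, v = Sum.inl x → x ∈ A) →
    (G u v ↔ G' u v)

/-- A symmetric network: the digraph `G` switches some of the arcs between the nodes in `Q` on.
The arcs that are on are invariant under relabelling the interchangeable vertices, and the
presence of each arc is certified by the subgraph of `G` on at most `k` interchangeable vertices and
all distinguished ones. -/
structure SymNetwork (n k : ℕ) (M Q : Type*) [MulAction (Perm (Fin n)) Q] where
  start : Q
  acc : Q
  pass : (Vx n M → Vx n M → Prop) → Q → Q → Prop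
  start_fixed : ∀ π : Perm (Fin n), π • start = start
  acc_fixed : ∀ π : Perm (Fin n), π • acc = acc
  equivariant : ∀ (π : Perm (Fin n)) (G : Vx n M → Vx n M → Prop) (q q' : Q),
    pass G q q' → pass (relabel π G) (π • q) (π • q')
  loc : ∀ (G : Vx n M → Vx n M → Prop) (q q' : Q), pass G q q' →
    ∃ A : Finset (Fin n), A.card ≤ k ∧ ∀ G' : Vx n M → Vx n M → Prop,
      AgreeOn A G G' → pass G' q q'

end H534R2.SymSw
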