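import Mathlib

/-!
# Reversible pebbling of a path, and a pseudo-expectation mod 2
-/

namespace H534R2.SymSw

open Finset Relation

/-- One placement of a pebble on the path `0, 1, 2, …` with at most `K` pebbles. -/
def Mv (K : ℕ) (S T : Finset ℕ) : Prop :=
  ∃ i, i ∉ S ∧ T = insert i S ∧ (i = 0 ∨ ∃ j ∈ S, j + 1 = i) ∧ T.card ≤ K

/-- Configurations reachable in the reversible pebble game with `K` pebbles. -/
def PR (K : ℕ) (S : Finset ℕ) : Prop := EqvGen (Mv K) ∅ S

theorem PR_empty (K : ℕ) : PR K ∅ := EqvGen.refl _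

theorem PR_iff_of_Mv {K : ℕ} {S T : Finset ℕ} (h : Mv K S T) : PR K S ↔ PR K T :=
  ⟨fun hS => hS.trans _ _ _ (EqvGen.rel _ _ h),
   fun hT => hT.trans _ _ _ (EqvGen.symm _ _ (EqvGen.rel _ _ h))⟩

/-- left part -/
def lpart (M : ℕ) (S : Finset ℕ) : Finset ℕ := S.filter (· < M)

/-- right part, shifted -/
def rpart (M : ℕ) (S : Finset ℕ) : Finset ℕ := (S.filter (M ≤ ·)).image (· - M)

theorem mem_lpart {M : ℕ} {S : Finset ℕ} {x : ℕ} : x ∈ lpart M S ↔ x ∈ S ∧ x < M := by
  simp [lpart]

theorem mem_rpart {M : ℕ} {S : Finset ℕ} {x : ℕ} : x ∈ rpart M S ↔ x + M ∈ S := by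
  unfold rpart
  rw [Finset.mem_image]
  constructor
  · rintro ⟨y, hy, rfl⟩
    rw [Finset.mem_filter] at hy
    rw [Nat.sub_add_cancel hy.2]; exact hy.1
  · intro h
    exact ⟨x + M, by rw [Finset.mem_filter]; exact ⟨h, by omega⟩, by omega⟩

theorem card_parts (M : ℕ) (S : Finset ℕ) : (lpart M S).card + (rpart M S).card = S.card := by
  unfold rpart lpart
  rw [Finset.card_image_of_injOn]
  · have := Finset.card_filter_add_card_filter_not (s := S) (fun x => x < M)
    simpa [not_lt] using this
  · intro x hx y hy hxy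
    simp only [Finset.coe_filter, Set.mem_ofPred_eq] at hx hy hxy
    omega

theorem lpart_insert_lt {M i : ℕ} {S : Finset ℕ} (h : i < M) :
    lpart M (insert i S) = insert i (lpart M S) := by
  ext x; simp only [mem_lpart, Finset.mem_insert]
  constructor
  · rintro ⟨h1 | h1, h2⟩
    · exact Or.inl h1
    · exact Or.inr ⟨h1, h2⟩
  · rintro (h1 | ⟨h1, h2⟩)
    · exact ⟨Or.inl h1, by omega⟩
    · exact ⟨Or.inr h1, h2⟩

theorem rpart_insert_lt {M i : ℕ} {S : Finset ℕ} (h : i < M) :
    rpart M (insert i S) = rpart M S := by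
  ext x; simp only [mem_rpart, Finset.mem_insert]
  constructor
  · rintro (h1 | h1)
    · omega
    · exact h1
  · intro h1; exact Or.inr h1

theorem lpart_insert_ge {M i : ℕ} {S : Finset ℕ} (h : M ≤ i) :
    lpart M (insert i S) = lpart M S := by
  ext x; simp only [mem_lpart, Finset.mem_insert]
  constructor
  · rintro ⟨h1 | h1, h2⟩
    · omega
    · exact ⟨h1, h2⟩
  · rintro ⟨h1, h2⟩
    exact ⟨Or.inr h1, h2⟩

theorem rpart_insert_ge {M i : ℕ} {S : Finset ℕ} (h : M ≤ i) :
    rpart M (insert i S) = insert (i - M) (rpart M S) := by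
  ext x; simp only [mem_rpart, Finset.mem_insert]
  constructor
  · rintro (h1 | h1)
    · left; omega
    · right; exact h1
  · rintro (h1 | h1)
    · left; omega
    · right; exact h1

/-- the invariant -/
def Inv (K M : ℕ) (S : Finset ℕ) : Prop :=
  rpart M S = ∅ ∨ (PR K (rpart M S) ∧ ¬ PR K (lpart M S))

theorem Inv_iff_of_Mv {K M : ℕ} (hM : 0 < M) (ih : ∀ S, PR K S → ∀ i ∈ S, i + 2 ≤ M)
    {S T : Finset ℕ} (h : Mv (K + 1) S T) : Inv K M S ↔ Inv K M T := by
  obtain ⟨i, hiS, rfl, hi, hcard⟩ := h
  rcases lt_or_ge i M with hiM | hiM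
  · -- left move
    unfold Inv
    rw [rpart_insert_lt hiM, lpart_insert_lt hiM]
    by_cases hB : rpart M S = ∅
    · simp [hB]
    have hmv : Mv K (lpart M S) (insert i (lpart M S)) := by
      refine ⟨i, fun h => hiS (mem_lpart.1 h).1, rfl, ?_, ?_⟩
      · rcases hi with hi | ⟨j, hj, hj'⟩
        · exact Or.inl hi
        · exact Or.inr ⟨j, mem_lpart.2 ⟨hj, by omega⟩, hj'⟩
      · have h1 := card_parts M (insert i S)
        rw [rpart_insert_lt hiM, lpart_insert_lt hiM] at h1
        have h2 : 0 < (rpart M S).card := Finset.card_pos.2 (Finset.nonempty_iff_ne_empty.2 hB)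
        omega
    rw [PR_iff_of_Mv hmv]
  · -- right move
    have hcond : i - M = 0 ∨ ∃ j ∈ rpart M S, j + 1 = i - M := by
      rcases Nat.eq_or_lt_of_le hiM with h | h
      · left; omega
      · right
        rcases hi with hi | ⟨j, hj, hj'⟩
        · omega
        · exact ⟨j - M, mem_rpart.2 (by rw [Nat.sub_add_cancel (by omega)]; exact hj), by omega⟩
    have hnot : i - M ∉ rpart M S := by
      rw [mem_rpart, Nat.sub_add_cancel hiM]; exact hiS
    have hcp := card_parts M (insert i S)
    rw [rpart_insert_ge hiM, lpart_insert_ge hiM] at hcp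
    have hne : insert (i - M) (rpart M S) ≠ ∅ := Finset.insert_ne_empty _ _
    have hmvA : ¬ PR K (lpart M S) → Mv K (rpart M S) (insert (i - M) (rpart M S)) := by
      intro hA
      refine ⟨i - M, hnot, rfl, hcond, ?_⟩
      have : lpart M S ≠ ∅ := by
        intro h; rw [h] at hA; exact hA (PR_empty K)
      have h2 : 0 < (lpart M S).card := Finset.card_pos.2 (Finset.nonempty_iff_ne_empty.2 this)
      omega
    unfold Inv
    rw [rpart_insert_ge hiM, lpart_insert_ge hiM]
    constructor
    · rintro (hB | ⟨h1, h2⟩)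
      · right
        have hiM' : i = M := by
          rcases hcond with h | ⟨j, hj, -⟩
          · omega
          · rw [hB] at hj; simp at hj
        have hA : ¬ PR K (lpart M S) := by
          intro hA
          rcases hi with hi | ⟨j, hj, hj'⟩
          · omega
          · have := ih _ hA j (mem_lpart.2 ⟨hj, by omega⟩)
            omega
        refine ⟨?_, hA⟩
        rw [← PR_iff_of_Mv (hmvA hA), hB]
        exact PR_empty K
      · right
        exact ⟨(PR_iff_of_Mv (hmvA h2)).1 h1, h2⟩
    · rintro (hB | ⟨h1, h2⟩)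
      · exact absurd hB hne
      · right
        exact ⟨(PR_iff_of_Mv (hmvA h2)).2 h1, h2⟩

/-- With `K` pebbles one reaches only positions at most `2 ^ K - 2`. -/
theorem PR_bound (K : ℕ) : ∀ S, PR K S → ∀ i ∈ S, i + 2 ≤ 2 ^ K := by
  induction K with
  | zero =>
    intro S hS i hi
    exfalso
    have key : ∀ A B : Finset ℕ, EqvGen (Mv 0) A B → A = B := by
      intro A B hAB
      induction hAB with
      | rel x y h =>
        obtain ⟨j, -, rfl, -, hc⟩ := h
        simp at hc
      | refl => rfl
      | symm _ _ _ ih => exact ih.symm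
      | trans _ _ _ _ _ ih1 ih2 => exact ih1.trans ih2
    have := key _ _ hS
    rw [← this] at hi
    simp at hi
  | succ K ih =>
    intro S hS i hi
    have hM : 0 < 2 ^ K := by positivity
    have hinv : Inv K (2 ^ K) S := by
      have key : ∀ A B : Finset ℕ, EqvGen (Mv (K + 1)) A B →
          (Inv K (2 ^ K) A ↔ Inv K (2 ^ K) B) := by
        intro A B hAB
        induction hAB with
        | rel x y h => exact Inv_iff_of_Mv hM ih h
        | refl => exact Iff.rfl
        | symm _ _ _ ih => exact ih.symm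
        | trans _ _ _ _ _ ih1 ih2 => exact ih1.trans ih2
      refine (key _ _ hS).1 (Or.inl ?_)
      ext x; simp [mem_rpart]
    have hpow : 2 ^ (K + 1) = 2 ^ K + 2 ^ K := by rw [pow_succ]; omega
    rcases lt_or_ge i (2 ^ K) with h | h
    · by_cases hK : K = 0
      · subst hK
        simp at h
        subst h
        norm_num
      · have : 2 ≤ 2 ^ K := by
          calc 2 = 2 ^ 1 := rfl
            _ ≤ 2 ^ K := Nat.pow_le_pow_right (by norm_num) (by omega)
        omega
    · have hmem : i - 2 ^ K ∈ rpart (2 ^ K) S := by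
        rw [mem_rpart, Nat.sub_add_cancel h]; exact hi
      rcases hinv with hB | ⟨h1, -⟩
      · rw [hB] at hmem; simp at hmem
      · have := ih _ h1 _ hmem
        omega

/-! ### the pseudo-expectation -/

open Classical in
/-- indicator of reachable configurations -/
noncomputable def pr (K : ℕ) (S : Finset ℕ) : ZMod 2 := if PR K S then 1 else 0

theorem pr_eq_of_Mv {K : ℕ} {S T : Finset ℕ} (h : Mv K S T) : pr K S = pr K T := by
  unfold pr; rw [PR_iff_of_Mv h]

/-- The pseudo-expectation of a function of a random set. -/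
noncomputable def pE (K : ℕ) (f : Finset ℕ → ZMod 2) : ZMod 2 :=
  ∑ S ∈ (range (2 ^ K)).powerset, pr K S * ∑ X ∈ S.powerset, f X

theorem pE_add (K : ℕ) (f g : Finset ℕ → ZMod 2) :
    pE K (fun X => f X + g X) = pE K f + pE K g := by
  unfold pE
  rw [← Finset.sum_add_distrib]
  refine Finset.sum_congr rfl fun S _ => ?_
  rw [Finset.sum_add_distrib, mul_add]

theorem pE_zero (K : ℕ) : pE K (fun _ => 0) = 0 := by
  unfold pE; simp

theorem zmod2_add_self (a : ZMod 2) : a + a = 0 := by
  revert a; decide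

/-- A sum mod 2 over a powerset vanishes if toggling `u ∈ S` does not change the function. -/
theorem sum_toggle {S : Finset ℕ} {u : ℕ} (hu : u ∈ S) (g : Finset ℕ → ZMod 2)
    (hg : ∀ X, X ⊆ S → u ∉ X → g (insert u X) = g X) : ∑ X ∈ S.powerset, g X = 0 := by
  obtain ⟨S', hS', rfl⟩ : ∃ S', u ∉ S' ∧ insert u S' = S :=
    ⟨S.erase u, Finset.notMem_erase u S, Finset.insert_erase hu⟩
  rw [Finset.sum_powerset_insert hS', ← Finset.sum_add_distrib]
  apply Finset.sum_eq_zero
  intro X hX
  rw [Finset.mem_powerset] at hX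
  rw [hg X (hX.trans (Finset.subset_insert _ _)) (fun h => hS' (hX h)), zmod2_add_self]

theorem pE_one (K : ℕ) : pE K (fun _ => 1) = 1 := by
  unfold pE
  rw [Finset.sum_eq_single ∅]
  · have : pr K ∅ = 1 := by unfold pr; rw [if_pos (PR_empty K)]
    simp [this]
  · intro S _ hS
    obtain ⟨u, hu⟩ := Finset.nonempty_iff_ne_empty.2 hS
    rw [sum_toggle hu _ (fun _ _ _ => rfl), mul_zero]
  · intro h; simp at h

/-- `X` looks like a correct colouring on `U`. -/
def Valid (m : ℕ) (U X : Finset ℕ) : Prop :=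
  (0 ∈ U → 0 ∈ X) ∧ (∀ x ∈ U, x ∈ X → x < m → x + 1 < m) ∧
    (∀ x ∈ U, x + 1 ∈ U → x ∈ X → x + 1 < m → x + 1 ∈ X)

/-- the number of reachable configurations between an invalid `X` and `U` is even -/
theorem sum_between {K : ℕ} {U X : Finset ℕ} (hU : U.card ≤ K)
    (hX : ¬ Valid (2 ^ K) U X) : ∑ S ∈ U.powerset, (if X ⊆ S then pr K S else 0) = 0 := by
  have htog : ∀ u, u ∈ U → u ∉ X → (u = 0 ∨ ∃ j ∈ X, j + 1 = u) →
      ∑ S ∈ U.powerset, (if X ⊆ S then pr K S else 0) = 0 := by
    intro u huU huX hcond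
    apply sum_toggle huU
    intro S hSU huS
    by_cases hXS : X ⊆ S
    · rw [if_pos hXS, if_pos (hXS.trans (Finset.subset_insert _ _))]
      refine (pr_eq_of_Mv ⟨u, huS, rfl, ?_, ?_⟩).symm
      · rcases hcond with h | ⟨j, hj, hj'⟩
        · exact Or.inl h
        · exact Or.inr ⟨j, hXS hj, hj'⟩
      · exact (Finset.card_le_card (Finset.insert_subset huU hSU)).trans hU
    · rw [if_neg hXS, if_neg]
      intro h
      apply hXS
      intro x hx
      rcases Finset.mem_insert.1 (h hx) with h' | h'
      · exact absurd (h' ▸ hx) huX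
      · exact h'
  unfold Valid at hX
  rw [not_and_or, not_and_or] at hX
  rcases hX with h | h | h
  · push Not at h
    exact htog 0 h.1 h.2 (Or.inl rfl)
  · push Not at h
    obtain ⟨x, hxU, hxX, hxm, hx⟩ := h
    apply Finset.sum_eq_zero
    intro S _
    by_cases hXS : X ⊆ S
    · rw [if_pos hXS]
      unfold pr
      rw [if_neg]
      intro hS
      have := PR_bound K S hS x (hXS hxX)
      omega
    · rw [if_neg hXS]
  · push Not at h
    obtain ⟨x, hxU, hx1U, hxX, hxm, hx⟩ := h
    exact htog (x + 1) hx1U hx (Or.inr ⟨x, hxX, rfl⟩)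

/-- **Main lemma on the pseudo-expectation.** -/
theorem pE_eq_zero {K : ℕ} {U : Finset ℕ} (hU : U.card ≤ K) (f : Finset ℕ → ZMod 2)
    (hdep : ∀ X, f X = f (X ∩ U)) (hf : ∀ X, X ⊆ U → Valid (2 ^ K) U X → f X = 0) :
    pE K f = 0 := by
  unfold pE
  -- only subsets of `U` matter
  have h1 : ∀ S ∈ (range (2 ^ K)).powerset, ¬ S ⊆ U → pr K S * ∑ X ∈ S.powerset, f X = 0 := by
    intro S _ hS
    rw [Finset.not_subset] at hS
    obtain ⟨u, huS, huU⟩ := hS
    rw [sum_toggle huS, mul_zero]
    intro X _ _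
    rw [hdep (insert u X), hdep X, Finset.insert_inter_of_notMem huU]
  set W := U ∩ range (2 ^ K) with hW
  have h2 : ∑ S ∈ (range (2 ^ K)).powerset, pr K S * ∑ X ∈ S.powerset, f X
      = ∑ S ∈ U.powerset, pr K S * ∑ X ∈ S.powerset, f X := by
    have ha : ∑ S ∈ (range (2 ^ K)).powerset, pr K S * ∑ X ∈ S.powerset, f X
        = ∑ S ∈ W.powerset, pr K S * ∑ X ∈ S.powerset, f X := by
      symm
      apply Finset.sum_subset
      · apply Finset.powerset_mono.2
        exact Finset.inter_subset_right
      · intro S hS hS'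
        apply h1 S hS
        intro h
        apply hS'
        rw [Finset.mem_powerset] at hS ⊢
        exact Finset.subset_inter h hS
    have hb : ∑ S ∈ U.powerset, pr K S * ∑ X ∈ S.powerset, f X
        = ∑ S ∈ W.powerset, pr K S * ∑ X ∈ S.powerset, f X := by
      symm
      apply Finset.sum_subset
      · apply Finset.powerset_mono.2
        exact Finset.inter_subset_left
      · intro S hS hS'
        have : pr K S = 0 := by
          unfold pr
          rw [if_neg]
          intro h
          apply hS'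
          rw [Finset.mem_powerset] at hS ⊢
          refine Finset.subset_inter hS ?_
          intro x hx
          have := PR_bound K S h x hx
          rw [Finset.mem_range]; omega
        rw [this, zero_mul]
    rw [ha, hb]
  rw [h2]
  -- exchange the sums
  have h3 : ∀ S ∈ U.powerset, pr K S * ∑ X ∈ S.powerset, f X
      = ∑ X ∈ U.powerset, f X * (if X ⊆ S then pr K S else 0) := by
    intro S hS
    rw [Finset.mem_powerset] at hS
    rw [Finset.mul_sum]
    have : S.powerset = U.powerset.filter (fun X => X ⊆ S) := by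
      ext X
      rw [Finset.mem_filter, Finset.mem_powerset, Finset.mem_powerset]
      exact ⟨fun h => ⟨h.trans hS, h⟩, fun h => h.2⟩
    rw [this, Finset.sum_filter]
    refine Finset.sum_congr rfl fun X _ => ?_
    split_ifs
    · rw [mul_comm]
    · rw [mul_zero]
  rw [Finset.sum_congr rfl h3, Finset.sum_comm]
  apply Finset.sum_eq_zero
  intro X hX
  rw [Finset.mem_powerset] at hX
  rw [← Finset.mul_sum]
  by_cases hv : Valid (2 ^ K) U X
  · rw [hf X hX hv, zero_mul]
  · rw [sum_between hU hv, mul_zero]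

end H534R2.SymSw
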