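import Mathlib

/-!
# Small supports for actions of the symmetric group

If `Perm α` acts on a finite set `Q` with few elements, then every `q : Q` has a small alternating
support, that is a small set `S` of points such that every even permutation fixing `S` pointwise
fixes `q`.
-/

namespace H534R2.SymSw

open Equiv Finset

variable {α : Type*} [DecidableEq α] {Q : Type*} [MulAction (Perm α) Q]

theorem p_apply_inv {α : Type*} (g : Perm α) (x : α) : g (g⁻¹ x) = x := by simp

theorem p_inv_apply {α : Type*} (g : Perm α) (x : α) : g⁻¹ (g x) = x := by simp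

/-- the three-cycle `a → b → c → a` -/
def c3 (a b c : α) : Perm α := swap a b * swap b c

theorem c3_conj (g : Perm α) (a b c : α) : g * c3 a b c * g⁻¹ = c3 (g a) (g b) (g c) := by
  unfold c3
  rw [swap_apply_apply, swap_apply_apply]
  group

theorem c3_rot {a b c : α} (h1 : a ≠ b) (h2 : b ≠ c) (h3 : a ≠ c) : c3 a b c = c3 b c a := by
  unfold c3
  ext x
  simp only [Perm.mul_apply, swap_apply_def]
  split_ifs <;> simp_all

theorem c3_inv (a b c : α) : (c3 a b c)⁻¹ = c3 c b a := by
  unfold c3
  rw [mul_inv_rev, swap_inv, swap_inv, swap_comm b c, swap_comm a b]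

theorem c3_apply1 {a b c : α} (h1 : a ≠ b) (h3 : a ≠ c) : c3 a b c a = b := by
  simp [c3, swap_apply_of_ne_of_ne h1 h3]

theorem c3_apply2 {a b c : α} (h2 : b ≠ c) (h3 : a ≠ c) : c3 a b c b = c := by
  simp [c3, swap_apply_of_ne_of_ne h3.symm h2.symm]

theorem c3_apply3 {a b c : α} : c3 a b c c = a := by
  simp [c3]

theorem c3_apply_of_ne {a b c x : α} (h1 : x ≠ a) (h2 : x ≠ b) (h3 : x ≠ c) : c3 a b c x = x := by
  simp [c3, swap_apply_of_ne_of_ne h1 h2, swap_apply_of_ne_of_ne h2 h3]

/-- the three-cycle `a → b → c → a` fixes `q` -/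
def T3 (q : Q) (a b c : α) : Prop := a ≠ b ∧ b ≠ c ∧ a ≠ c ∧ c3 a b c • q = q

theorem T3.conj {q : Q} {a b c : α} (h : T3 q a b c) {g : Perm α} (hg : g • q = q) :
    T3 q (g a) (g b) (g c) := by
  obtain ⟨h1, h2, h3, h4⟩ := h
  refine ⟨fun h => h1 (g.injective h), fun h => h2 (g.injective h), fun h => h3 (g.injective h), ?_⟩
  rw [← c3_conj, mul_smul, mul_smul]
  have : g⁻¹ • q = q := by rw [inv_smul_eq_iff, hg]
  rw [this, h4, hg]

theorem T3.rot {q : Q} {a b c : α} (h : T3 q a b c) : T3 q b c a := by
  obtain ⟨h1, h2, h3, h4⟩ := h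
  exact ⟨h2, h3.symm, h1.symm, by rw [← c3_rot h1 h2 h3]; exact h4⟩

theorem T3.inv {q : Q} {a b c : α} (h : T3 q a b c) : T3 q c b a := by
  obtain ⟨h1, h2, h3, h4⟩ := h
  refine ⟨h2.symm, h1.symm, h3.symm, ?_⟩
  rw [← c3_inv, inv_smul_eq_iff, h4]

/-- some three-cycle through `a → b` fixes `q` -/
def Rl (q : Q) (a b : α) : Prop := a = b ∨ ∃ c, T3 q a b c

theorem Rl.refl (q : Q) (a : α) : Rl q a a := Or.inl rfl

theorem Rl.symm {q : Q} {a b : α} (h : Rl q a b) : Rl q b a := by
  rcases h with rfl | ⟨c, h⟩
  · exact Or.inl rfl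
  · exact Or.inr ⟨c, h.inv.rot⟩

theorem Rl.trans {q : Q} {a b c : α} (h : Rl q a b) (h' : Rl q b c) : Rl q a c := by
  rcases h with rfl | ⟨x, h⟩
  · exact h'
  rcases h' with rfl | ⟨y, h'⟩
  · exact Or.inr ⟨x, h⟩
  by_cases hac : a = c
  · exact Or.inl hac
  by_cases hx : x = c
  · subst hx
    exact Or.inr ⟨b, h.inv.rot.rot⟩
  · have hg : (c3 a b x)⁻¹ • q = q := by
      rw [c3_inv]; exact h.inv.2.2.2
    have := h'.conj hg
    rw [c3_inv, c3_apply2 h.1.symm h.2.2.1.symm, c3_apply_of_ne (Ne.symm hx) h'.1.symm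
      (Ne.symm hac)] at this
    exact Or.inr ⟨_, this⟩

theorem Rl.map {q : Q} {a b : α} (h : Rl q a b) {g : Perm α} (hg : g • q = q) :
    Rl q (g a) (g b) := by
  rcases h with rfl | ⟨c, h⟩
  · exact Or.inl rfl
  · exact Or.inr ⟨_, h.conj hg⟩

theorem Rl.map_iff {q : Q} {a b : α} {g : Perm α} (hg : g • q = q) :
    Rl q (g a) (g b) ↔ Rl q a b := by
  refine ⟨fun h => ?_, fun h => h.map hg⟩
  have hg' : g⁻¹ • q = q := by rw [inv_smul_eq_iff, hg]
  simpa using h.map hg'

/-- all three-cycles inside a class fix `q` -/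
theorem T3_of_Rl {q : Q} {a b c : α} (hab : a ≠ b) (hbc : b ≠ c) (hac : a ≠ c)
    (h1 : Rl q a b) (h2 : Rl q b c) : T3 q a b c := by
  rcases h1 with h | ⟨x, h⟩
  · exact absurd h hab
  by_cases hx : x = c
  · subst hx; exact h
  have hxc : Rl q x c := by
    have : Rl q b x := Or.inr ⟨a, h.rot⟩
    exact this.symm.trans h2
  rcases hxc with h' | ⟨y, h'⟩
  · exact absurd h' hx
  by_cases hya : y = a
  · subst hya
    have := h'.conj h.2.2.2
    rw [c3_apply3, c3_apply1 hab h.2.2.1,
      c3_apply_of_ne (Ne.symm hac) (Ne.symm hbc) (Ne.symm hx)] at this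
    exact this.inv.rot.rot
  by_cases hyb : y = b
  · subst hyb
    have hg : (c3 a y x)⁻¹ • q = q := by
      rw [c3_inv]; exact h.inv.2.2.2
    have := h'.conj hg
    rw [c3_inv, c3_apply1 h.2.1.symm h.2.2.1.symm, c3_apply2 h.1.symm h.2.2.1.symm,
      c3_apply_of_ne (Ne.symm hx) (Ne.symm hbc) (Ne.symm hac)] at this
    exact this.rot.rot
  · have := h.conj h'.2.2.2
    rw [c3_apply_of_ne h.2.2.1 hac (Ne.symm hya), c3_apply_of_ne h.2.1 hbc (Ne.symm hyb),
      c3_apply1 hx h'.2.2.1] at this
    exact this

/-- an element of order-three shape is a three-cycle -/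
theorem exists_c3_of_isThreeCycle [Fintype α] {σ : Perm α} (h : σ.IsThreeCycle) :
    ∃ a b c, a ≠ b ∧ b ≠ c ∧ a ≠ c ∧ σ = c3 a b c := by
  classical
  have hcard : σ.support.card = 3 := h.card_support
  have hord : orderOf σ = 3 := h.orderOf
  obtain ⟨a, ha⟩ : ∃ a, a ∈ σ.support := by
    rw [← Finset.Nonempty, ← Finset.card_pos]; omega
  have ha1 : σ a ≠ a := Perm.mem_support.1 ha
  have h3 : ∀ x, σ (σ (σ x)) = x := by
    intro x
    have : σ ^ 3 = 1 := by rw [← hord]; exact pow_orderOf_eq_one σ
    have h' := congrArg (fun g : Perm α => g x) this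
    simpa [pow_succ] using h'
  have hac : a ≠ σ (σ a) := by
    intro h
    have h2 := h3 a
    rw [← h] at h2
    exact ha1 h2
  have hbc : σ a ≠ σ (σ a) := fun h => ha1 (σ.injective h).symm
  refine ⟨a, σ a, σ (σ a), ha1.symm, hbc, hac, ?_⟩
  have hsub : ({a, σ a, σ (σ a)} : Finset α) ⊆ σ.support := by
    intro x hx
    simp only [Finset.mem_insert, Finset.mem_singleton] at hx
    rcases hx with rfl | rfl | rfl
    · exact ha
    · exact Perm.mem_support.2 hbc.symm
    · rw [Perm.mem_support, h3]; exact hac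
  have heq : ({a, σ a, σ (σ a)} : Finset α) = σ.support := by
    apply Finset.eq_of_subset_of_card_le hsub
    rw [hcard, Finset.card_insert_of_notMem, Finset.card_insert_of_notMem,
      Finset.card_singleton]
    · simpa using hbc
    · simp only [Finset.mem_insert, Finset.mem_singleton, not_or]
      exact ⟨ha1.symm, hac⟩
  ext x
  by_cases hxa : x = a
  · subst hxa; rw [c3_apply1 ha1.symm hac]
  by_cases hxb : x = σ a
  · rw [hxb, c3_apply2 hbc hac]
  by_cases hxc : x = σ (σ a)
  · rw [hxc, c3_apply3, h3]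
  · rw [c3_apply_of_ne hxa hxb hxc]
    have : x ∉ σ.support := by
      rw [← heq]; simp [hxa, hxb, hxc]
    exact Perm.notMem_support.1 this

/-- every even permutation supported in a class fixes `q` -/
theorem smul_eq_of_class [Fintype α] {q : Q} (C : Finset α) (hC : ∀ a ∈ C, ∀ b ∈ C, Rl q a b)
    (π : Perm α) (hπ : Perm.sign π = 1) (hfix : ∀ x ∉ C, π x = x) : π • q = q := by
  classical
  have hmem : ∀ x, x ∈ C ↔ π x ∈ C := by
    intro x
    constructor
    · intro hx
      by_contra h
      have := π.injective (hfix _ h)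
      rw [this] at h
      exact h hx
    · intro hx
      by_contra h
      rw [hfix _ h] at hx
      exact h hx
  have hofs : Perm.ofSubtype (π.subtypePerm (p := fun x => x ∈ C) (fun x => (hmem x).symm)) = π := by
    apply Perm.ofSubtype_subtypePerm
    intro x hx
    by_contra h
    exact hx (hfix x h)
  set τ := π.subtypePerm (p := fun x => x ∈ C) (fun x => (hmem x).symm) with hτ
  have hsign : Perm.sign τ = 1 := by
    rw [← Perm.sign_ofSubtype, hofs, hπ]
  have hτmem : τ ∈ alternatingGroup {x // x ∈ C} := Perm.mem_alternatingGroup.2 hsign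
  rw [← Perm.closure_three_cycles_eq_alternating] at hτmem
  rw [← hofs]
  refine Subgroup.closure_induction (p := fun τ _ => Perm.ofSubtype τ • q = q) ?_ ?_ ?_ ?_ hτmem
  · intro σ hσ
    have hσ' : (Perm.ofSubtype σ : Perm α).IsThreeCycle := by
      have : Perm.cycleType (Perm.ofSubtype σ : Perm α) = Perm.cycleType σ :=
        Perm.cycleType_ofSubtype
      unfold Perm.IsThreeCycle
      rw [this]; exact hσ
    obtain ⟨a, b, c, h1, h2, h3, h4⟩ := exists_c3_of_isThreeCycle hσ'
    have hin : ∀ x, (Perm.ofSubtype σ : Perm α) x ≠ x → x ∈ C := by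
      intro x hx
      by_contra h
      exact hx (Perm.ofSubtype_apply_of_not_mem σ h)
    have ha : a ∈ C := hin a (by rw [h4, c3_apply1 h1 h3]; exact h1.symm)
    have hb : b ∈ C := hin b (by rw [h4, c3_apply2 h2 h3]; exact h2.symm)
    have hc : c ∈ C := hin c (by rw [h4, c3_apply3]; exact h3)
    rw [h4]
    exact (T3_of_Rl h1 h2 h3 (hC a ha b hb) (hC b hb c hc)).2.2.2
  · simp
  · intro x y _ _ hx hy
    rw [map_mul, mul_smul, hy, hx]
  · intro x _ hx
    rw [map_inv, inv_smul_eq_iff, hx]

/-- `D` is free for `q`: only the identity among permutations supported in `D` fixes `q` -/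
def Free (q : Q) (D : Finset α) : Prop :=
  ∀ g : Perm α, (∀ x ∉ D, g x = x) → g • q = q → g = 1

theorem Free.card_le [Fintype Q] {q : Q} {D : Finset α} (h : Free q D) :
    D.card.factorial ≤ Fintype.card Q := by
  classical
  have hinj : Function.Injective
      (fun σ : Perm {x // x ∈ D} => (Perm.ofSubtype σ : Perm α) • q) := by
    intro σ τ hst
    simp only at hst
    have h1 : (Perm.ofSubtype (τ⁻¹ * σ) : Perm α) • q = q := by
      rw [map_mul, map_inv, mul_smul, inv_smul_eq_iff, hst]
    have h2 : (Perm.ofSubtype (τ⁻¹ * σ) : Perm α) = 1 :=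
      h _ (fun x hx => Perm.ofSubtype_apply_of_not_mem _ hx) h1
    have h3 : τ⁻¹ * σ = 1 := Perm.ofSubtype_injective (by rw [h2, map_one])
    exact (inv_mul_eq_one.1 h3).symm
  have := Fintype.card_le_of_injective _ hinj
  rwa [Fintype.card_perm, Fintype.card_coe] at this

omit [DecidableEq α] in
theorem free_empty (q : Q) : Free q (∅ : Finset α) := by
  intro g hg _
  ext x
  exact hg x (by simp)

theorem exists_maximal_free [Fintype α] (q : Q) (X : Finset α) :
    ∃ F : Finset α, F ⊆ X ∧ Free q F ∧ ∀ a ∈ X, a ∉ F → ¬ Free q (insert a F) := by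
  classical
  have hne : ((X.powerset).filter (fun F => Free q F)).Nonempty :=
    ⟨∅, by simp [free_empty]⟩
  obtain ⟨F, hF, hmax⟩ := Finset.exists_max_image _ (fun F => F.card) hne
  rw [Finset.mem_filter, Finset.mem_powerset] at hF
  refine ⟨F, hF.1, hF.2, ?_⟩
  intro a haX haF hfree
  have := hmax (insert a F) (by
    rw [Finset.mem_filter, Finset.mem_powerset]
    exact ⟨Finset.insert_subset haX hF.1, hfree⟩)
  rw [Finset.card_insert_of_notMem haF] at this
  omega

theorem maps_support {g : Perm α} {D : Finset α} (hg : ∀ x ∉ D, g x = x) {x : α} (hx : x ∈ D) :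
    g x ∈ D := by
  by_contra h
  have := g.injective (hg _ h)
  rw [this] at h
  exact h hx

omit [DecidableEq α] in
theorem inv_fix {g : Perm α} {D : Finset α} (hg : ∀ x ∉ D, g x = x) : ∀ x ∉ D, g⁻¹ x = x := by
  intro x hx
  rw [Perm.inv_eq_iff_eq, hg x hx]

omit [DecidableEq α] in
theorem inv_smul_self {q : Q} {g : Perm α} (hg : g • q = q) : g⁻¹ • q = q := by
  rw [inv_smul_eq_iff, hg]

/-- The commutator trick. -/
theorem commutator_c3 {F F' : Finset α} {a : α} (hF : a ∉ F) (hF' : a ∉ F')
    (hd : Disjoint F F') {y z : Perm α} (hy : ∀ x ∉ insert a F, y x = x)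
    (hz : ∀ x ∉ insert a F', z x = x) (hya : y a ≠ a) (hza : z a ≠ a) :
    y * z * y⁻¹ * z⁻¹ = c3 a (y a) (z a) := by
  have hyF : y a ∈ F := by
    have := maps_support hy (Finset.mem_insert_self a F)
    exact (Finset.mem_insert.1 this).resolve_left hya
  have hzF : z a ∈ F' := by
    have := maps_support hz (Finset.mem_insert_self a F')
    exact (Finset.mem_insert.1 this).resolve_left hza
  have hd' : ∀ x, x ∈ F → x ∈ F' → False := fun x h1 h2 => Finset.disjoint_left.1 hd h1 h2
  have hyz : y a ≠ z a := fun h => hd' _ hyF (h ▸ hzF)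
  have hyi := inv_fix hy
  have hzi := inv_fix hz
  -- fixed points
  have yF' : ∀ x ∈ F', y x = x := fun x hx => hy x (by
    rw [Finset.mem_insert, not_or]
    exact ⟨fun h => hF' (h ▸ hx), fun h => hd' _ h hx⟩)
  have yiF' : ∀ x ∈ F', y⁻¹ x = x := fun x hx => hyi x (by
    rw [Finset.mem_insert, not_or]
    exact ⟨fun h => hF' (h ▸ hx), fun h => hd' _ h hx⟩)
  have zF : ∀ x ∈ F, z x = x := fun x hx => hz x (by
    rw [Finset.mem_insert, not_or]
    exact ⟨fun h => hF (h ▸ hx), fun h => hd' _ hx h⟩)
  have ziF : ∀ x ∈ F, z⁻¹ x = x := fun x hx => hzi x (by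
    rw [Finset.mem_insert, not_or]
    exact ⟨fun h => hF (h ▸ hx), fun h => hd' _ hx h⟩)
  have hyia : y⁻¹ a ∈ F := by
    have := maps_support hyi (Finset.mem_insert_self a F)
    refine (Finset.mem_insert.1 this).resolve_left ?_
    intro h; rw [Perm.inv_eq_iff_eq] at h; exact hya h.symm
  have hzia : z⁻¹ a ∈ F' := by
    have := maps_support hzi (Finset.mem_insert_self a F')
    refine (Finset.mem_insert.1 this).resolve_left ?_
    intro h; rw [Perm.inv_eq_iff_eq] at h; exact hza h.symm
  ext x
  simp only [Perm.mul_apply]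
  by_cases hxa : x = a
  · subst hxa
    rw [yiF' _ hzia, p_apply_inv, c3_apply1 hya.symm hza.symm]
  by_cases hxy : x = y a
  · rw [hxy, ziF _ hyF, p_inv_apply, yF' _ hzF, c3_apply2 hyz hza.symm]
  by_cases hxz : x = z a
  · rw [hxz, p_inv_apply, zF _ hyia, p_apply_inv, c3_apply3]
  rw [c3_apply_of_ne hxa hxy hxz]
  by_cases hxF : x ∈ F
  · have h1 : y⁻¹ x ∈ F := by
      have := maps_support hyi (Finset.mem_insert_of_mem hxF)
      refine (Finset.mem_insert.1 this).resolve_left ?_
      intro h; rw [Perm.inv_eq_iff_eq] at h; exact hxy h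
    rw [ziF _ hxF, zF _ h1, p_apply_inv]
  by_cases hxF' : x ∈ F'
  · have h1 : z⁻¹ x ∈ F' := by
      have := maps_support hzi (Finset.mem_insert_of_mem hxF')
      refine (Finset.mem_insert.1 this).resolve_left ?_
      intro h; rw [Perm.inv_eq_iff_eq] at h; exact hxz h
    rw [yiF' _ h1, p_apply_inv, yF' _ hxF']
  · have h1 : x ∉ insert a F := by simp [hxa, hxF]
    have h2 : x ∉ insert a F' := by simp [hxa, hxF']
    rw [hzi _ h2, hyi _ h1, hz _ h2, hy _ h1]

/-- a not-free one-point extension of a free set contains a moving stabiliser element -/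
theorem exists_mover {q : Q} {F : Finset α} {a : α} (hF : Free q F)
    (hn : ¬ Free q (insert a F)) :
    ∃ y : Perm α, (∀ x ∉ insert a F, y x = x) ∧ y • q = q ∧ y a ≠ a := by
  unfold Free at hn
  push Not at hn
  obtain ⟨y, h1, h2, h3⟩ := hn
  refine ⟨y, h1, h2, fun h => h3 (hF y ?_ h2)⟩
  intro x hx
  by_cases hxa : x = a
  · rw [hxa, h]
  · exact h1 x (by simp [hxa, hx])

/-- There are few classes: a small set meets all classes. -/
theorem exists_transversal [Fintype α] [Fintype Q] (q : Q) {f : ℕ}
    (hf : Fintype.card Q < (f + 1).factorial) :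
    ∃ T : Finset α, T.card ≤ 2 * f ∧ ∀ x, ∃ a ∈ T, Rl q a x := by
  classical
  obtain ⟨F, -, hF, hFmax⟩ := exists_maximal_free q (Finset.univ : Finset α)
  obtain ⟨F', hsub, hF', hF'max⟩ := exists_maximal_free q (Fᶜ : Finset α)
  have hcard : ∀ D : Finset α, Free q D → D.card ≤ f := by
    intro D hD
    by_contra h
    push Not at h
    have h1 := hD.card_le
    have h2 := Nat.factorial_le (show f + 1 ≤ D.card from h)
    omega
  refine ⟨F ∪ F', ?_, ?_⟩
  · have := Finset.card_union_le F F'
    have h1 := hcard F hF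
    have h2 := hcard F' hF'
    omega
  · intro x
    by_cases hx : x ∈ F ∪ F'
    · exact ⟨x, hx, Rl.refl q x⟩
    rw [Finset.mem_union, not_or] at hx
    obtain ⟨y, hy1, hy2, hy3⟩ := exists_mover hF (hFmax x (Finset.mem_univ x) hx.1)
    obtain ⟨z, hz1, hz2, hz3⟩ := exists_mover hF' (hF'max x (by simpa using hx.1) hx.2)
    have hd : Disjoint F F' := by
      rw [Finset.disjoint_left]
      intro u hu hu'
      exact (Finset.mem_compl.1 (hsub hu')) hu
    have hc := commutator_c3 hx.1 hx.2 hd hy1 hz1 hy3 hz3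
    have hyF : y x ∈ F := by
      have := maps_support hy1 (Finset.mem_insert_self x F)
      exact (Finset.mem_insert.1 this).resolve_left hy3
    have hzF : z x ∈ F' := by
      have := maps_support hz1 (Finset.mem_insert_self x F')
      exact (Finset.mem_insert.1 this).resolve_left hz3
    have hyz : y x ≠ z x := fun h => Finset.disjoint_left.1 hd hyF (h ▸ hzF)
    refine ⟨y x, Finset.mem_union_left _ hyF, ?_⟩
    have ht : T3 q x (y x) (z x) := by
      refine ⟨hy3.symm, hyz, hz3.symm, ?_⟩
      rw [← hc, mul_smul, mul_smul, mul_smul, inv_smul_self hz2, inv_smul_self hy2, hz2, hy2]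
    exact (Rl.symm (Or.inr ⟨_, ht⟩))

theorem choose_le_of_le_half {n r c : ℕ} (h1 : r ≤ c) (h2 : c ≤ n / 2) :
    n.choose r ≤ n.choose c := by
  induction c, h1 using Nat.le_induction with
  | base => exact le_rfl
  | succ c hc ih => exact (ih (by omega)).trans (Nat.choose_le_succ_of_lt_half_left (by omega))

theorem choose_le_of_between {n r c : ℕ} (h1 : r ≤ c) (h2 : c ≤ n - r) (hr : r ≤ n) :
    n.choose r ≤ n.choose c := by
  rcases le_or_gt c (n / 2) with h | h
  · exact choose_le_of_le_half h1 h
  · have hcn : c ≤ n := by omega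
    rw [← Nat.choose_symm hcn]
    exact choose_le_of_le_half (by omega) (by omega)

/-- **Support theorem.**  If `Perm α` acts on a small set `Q` then every element of `Q` is fixed
by every even permutation that fixes a certain small set pointwise. -/
theorem exists_support [Fintype α] [Fintype Q] (q : Q) {f r : ℕ}
    (hf : Fintype.card Q < (f + 1).factorial)
    (hr : 2 * f * r ≤ Fintype.card α) (hr' : r ≤ Fintype.card α) (hf0 : 0 < f)
    (hQ : 2 * f * Fintype.card Q < (Fintype.card α).choose r) :
    ∃ S : Finset α, S.card < r ∧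
      ∀ π : Perm α, Perm.sign π = 1 → (∀ x ∈ S, π x = x) → π • q = q := by
  classical
  obtain ⟨T, hT, hTmeet⟩ := exists_transversal (α := α) q hf
  set n := Fintype.card α with hn
  -- the classes
  let C : α → Finset α := fun a => Finset.univ.filter (fun x => Rl q a x)
  have hC : ∀ a x, x ∈ C a ↔ Rl q a x := by intro a x; simp [C]
  by_cases hn0 : n = 0
  · have : IsEmpty α := Fintype.card_eq_zero_iff.1 (by rw [← hn]; exact hn0)
    exfalso
    have : r = 0 := by omega
    subst this
    have hpos : 0 < Fintype.card Q := Fintype.card_pos_iff.2 ⟨q⟩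
    rw [Nat.choose_zero_right] at hQ
    have : 0 < 2 * f * Fintype.card Q := by positivity
    omega
  have hTne : T.Nonempty := by
    obtain ⟨x⟩ : Nonempty α := Fintype.card_pos_iff.1 (by omega)
    obtain ⟨a, ha, -⟩ := hTmeet x
    exact ⟨a, ha⟩
  obtain ⟨a, haT, hamax⟩ := Finset.exists_max_image T (fun a => (C a).card) hTne
  set c := (C a).card with hc
  have hn2 : n ≤ 2 * f * c := by
    have h1 : (Finset.univ : Finset α) ⊆ T.biUnion C := by
      intro x _
      obtain ⟨b, hb, hbx⟩ := hTmeet x
      rw [Finset.mem_biUnion]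
      exact ⟨b, hb, (hC b x).2 hbx⟩
    have h2 : n ≤ (T.biUnion C).card := by
      rw [hn, ← Finset.card_univ]; exact Finset.card_le_card h1
    have h3 : (T.biUnion C).card ≤ T.card * c :=
      Finset.card_biUnion_le_card_mul _ _ _ (fun b hb => hamax b hb)
    calc n ≤ T.card * c := h2.trans h3
      _ ≤ 2 * f * c := Nat.mul_le_mul_right _ hT
  have hcn : c ≤ n := by rw [hc, hn]; exact Finset.card_le_univ _
  have hrc : r ≤ c := by
    have : 2 * f * r ≤ 2 * f * c := hr.trans hn2
    exact Nat.le_of_mul_le_mul_left this (by positivity)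
  -- counting
  have hcount : n.choose c ≤ 2 * f * Fintype.card Q := by
    have hex : ∀ D : Finset α, D.card = c → ∃ g : Perm α, ∀ x, g x ∈ D ↔ x ∈ C a := by
      intro D hD
      have he : Fintype.card {x // x ∈ C a} = Fintype.card {x // x ∈ D} := by
        rw [Fintype.card_coe, Fintype.card_coe, hD]
      let e : {x // x ∈ C a} ≃ {x // x ∈ D} := Fintype.equivOfCardEq he
      refine ⟨e.extendSubtype, fun x => ?_⟩
      constructor
      · intro h
        by_contra h'
        exact (e.extendSubtype_not_mem x h') h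
      · intro h
        exact e.extendSubtype_mem x h
    choose! g hg using hex
    have h1 := Finset.card_le_mul_card_image (f := fun D => g D • q)
      (Finset.powersetCard c (Finset.univ : Finset α)) (2 * f) (by
        intro q' hq'
        rw [Finset.mem_image] at hq'
        obtain ⟨D', hD', rfl⟩ := hq'
        have hD'c : D'.card = c := (Finset.mem_powersetCard.1 hD').2
        calc ((Finset.powersetCard c (Finset.univ : Finset α)).filter
              (fun D => g D • q = g D' • q)).card
            ≤ (T.image (fun b => (C b).image (g D'))).card := by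
              apply Finset.card_le_card
              intro D hD
              rw [Finset.mem_filter] at hD
              have hDc : D.card = c := (Finset.mem_powersetCard.1 hD.1).2
              have hstab : ((g D')⁻¹ * g D) • q = q := by
                rw [mul_smul, inv_smul_eq_iff, hD.2]
              obtain ⟨b, hbT, hb⟩ := hTmeet (((g D')⁻¹ * g D) a)
              rw [Finset.mem_image]
              refine ⟨b, hbT, ?_⟩
              ext x
              rw [Finset.mem_image]
              constructor
              · rintro ⟨y, hy, rfl⟩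
                rw [hC] at hy
                have h5 : Rl q (((g D')⁻¹ * g D) a) y := hb.symm.trans hy
                have h6 : y = ((g D')⁻¹ * g D) (((g D)⁻¹ * g D') y) := by simp
                rw [h6, Rl.map_iff hstab, ← hC, ← hg D hDc] at h5
                simpa using h5
              · intro hx
                refine ⟨(g D')⁻¹ x, ?_, by simp⟩
                rw [hC]
                refine hb.trans ?_
                have h6 : (g D')⁻¹ x = ((g D')⁻¹ * g D) ((g D)⁻¹ x) := by simp
                rw [h6, Rl.map_iff hstab, ← hC, ← hg D hDc]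
                simpa using hx
          _ ≤ T.card := Finset.card_image_le
          _ ≤ 2 * f := hT)
    rw [Finset.card_powersetCard, Finset.card_univ] at h1
    calc n.choose c ≤ 2 * f * _ := h1
      _ ≤ 2 * f * Fintype.card Q := Nat.mul_le_mul_left _ (Finset.card_le_univ _)
  have hbig : n - r < c := by
    by_contra h
    push Not at h
    have := choose_le_of_between hrc h hr'
    omega
  refine ⟨(C a)ᶜ, ?_, ?_⟩
  · rw [Finset.card_compl, ← hn, ← hc]; omega
  · intro π hπ hfix
    apply smul_eq_of_class (C a) _ π hπ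
    · intro x hx
      exact hfix x (Finset.mem_compl.2 hx)
    · intro x hx y hy
      rw [hC] at hx hy
      exact hx.symm.trans hy

/-- Even permutations agreeing on the support act in the same way. -/
theorem smul_eq_smul_of_agree [Fintype α] {q : Q} {S : Finset α}
    (hS : ∀ π : Perm α, Perm.sign π = 1 → (∀ x ∈ S, π x = x) → π • q = q)
    {π π' : Perm α} (h : Perm.sign π = 1) (h' : Perm.sign π' = 1)
    (hag : ∀ x ∈ S, π x = π' x) : π • q = π' • q := by
  have : (π'⁻¹ * π) • q = q := by
    apply hS
    · rw [map_mul, map_inv, h, h']; simp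
    · intro x hx
      rw [Perm.mul_apply, hag x hx, p_inv_apply]
  rw [mul_smul, inv_smul_eq_iff] at this
  exact this

end H534R2.SymSw
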