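import Pool.Agent.H534R2.SymDefs
import Pool.Agent.H534R2.SymSupport
import Pool.Agent.H534R2.SymPebble

/-!
# Symmetric switching networks for directed `s`-`t` connectivity
-/

namespace H534R2.SymSw

open Equiv Finset Relation

/-- layer -/
def lay (m x : ℕ) : ℕ := (x / 2) % (m + 1)

/-- colour -/
def col (x : ℕ) : Prop := x % 2 = 0

/-- the instance without an `s`-`t` path -/
def G0 {n : ℕ} {M : Type*} (m : ℕ) (s t : M) : Vx n M → Vx n M → Prop
  | Sum.inl x, Sum.inl y => lay m y = lay m x + 1 ∧ lay m y < m ∧ (col x → col y)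
  | Sum.inr a, Sum.inl x => a = s ∧ lay m x = 0 ∧ col x
  | Sum.inl x, Sum.inr b => b = t ∧ lay m x + 1 = m ∧ ¬ col x
  | Sum.inr _, Sum.inr _ => False

/-- the path -/
def G1 {n : ℕ} {M : Type*} (m : ℕ) (s t : M) : Vx n M → Vx n M → Prop
  | Sum.inl x, Sum.inl y => y.val = x.val + 1 ∧ y.val < m
  | Sum.inr a, Sum.inl x => a = s ∧ x.val = 0
  | Sum.inl x, Sum.inr b => b = t ∧ x.val + 1 = m
  | Sum.inr _, Sum.inr _ => False

theorem G0_no_path {n : ℕ} {M : Type*} (m : ℕ) {s t : M} (hst : s ≠ t) :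
    ¬ ReflTransGen (G0 (n := n) m s t) (Sum.inr s) (Sum.inr t) := by
  intro h
  have key : ∀ v : Vx n M, ReflTransGen (G0 (n := n) m s t) (Sum.inr s) v →
      (v = Sum.inr s ∨ ∃ x, v = Sum.inl x ∧ col x) := by
    intro v hv
    induction hv with
    | refl => exact Or.inl rfl
    | tail _ hbc ih =>
      rename_i b c _
      rcases ih with rfl | ⟨x, rfl, hx⟩
      · cases c with
        | inl y => exact Or.inr ⟨y, rfl, hbc.2.2⟩
        | inr b => exact hbc.elim
      · cases c with
        | inl y => exact Or.inr ⟨y, rfl, hbc.2.2 hx⟩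
        | inr b => exact absurd hx hbc.2.2
  rcases key _ h with h | ⟨x, h, -⟩
  · exact hst (Sum.inr.inj h).symm
  · exact absurd h (by simp)

theorem G1_path {n : ℕ} {M : Type*} {m : ℕ} (hm : 0 < m) (hmn : m ≤ n) (s t : M) :
    ReflTransGen (G1 (n := n) m s t) (Sum.inr s) (Sum.inr t) := by
  have key : ∀ i (hi : i < m), ReflTransGen (G1 (n := n) m s t) (Sum.inr s)
      (Sum.inl ⟨i, lt_of_lt_of_le hi hmn⟩) := by
    intro i
    induction i with
    | zero => intro hi; exact ReflTransGen.single ⟨rfl, rfl⟩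
    | succ i ih => intro hi; exact (ih (by omega)).tail ⟨rfl, hi⟩
  refine (key (m - 1) (by omega)).tail ⟨rfl, ?_⟩
  show m - 1 + 1 = m
  omega

theorem acyclic_of_rank {V : Type*} {G : V → V → Prop} (rk : V → ℕ)
    (h : ∀ u v, G u v → rk u < rk v) (v : V) : ¬ TransGen G v v := by
  intro hv
  have key : ∀ u w, TransGen G u w → rk u < rk w := by
    intro u w huw
    induction huw with
    | single h' => exact h _ _ h'
    | tail _ h' ih => exact ih.trans (h _ _ h')
  exact lt_irrefl _ (key v v hv)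

theorem lay_le (m x : ℕ) : lay m x ≤ m := by
  have : (x / 2) % (m + 1) < m + 1 := Nat.mod_lt _ (Nat.succ_pos m)
  unfold lay
  omega

open Classical in
theorem G0_acyclic {n : ℕ} {M : Type*} (m : ℕ) {s t : M} (hst : s ≠ t) (v : Vx n M) :
    ¬ TransGen (G0 m s t) v v := by
  refine acyclic_of_rank (fun u => match u with
    | Sum.inl x => lay m x + 1
    | Sum.inr a => if a = t then m + 2 else 0) ?_ v
  rintro (x | a) (y | b) h
  · have := h.1
    show lay m x + 1 < lay m y + 1
    omega
  · have hb := h.1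
    have := lay_le m x
    show lay m x + 1 < if b = t then m + 2 else 0
    rw [if_pos hb]; omega
  · have ha := h.1
    show (if a = t then m + 2 else 0) < lay m y + 1
    rw [if_neg (by rw [ha]; exact hst)]; omega
  · exact h.elim

open Classical in
theorem G1_acyclic {n : ℕ} {M : Type*} (m : ℕ) {s t : M} (hst : s ≠ t) (v : Vx n M) :
    ¬ TransGen (G1 m s t) v v := by
  refine acyclic_of_rank (fun u => match u with
    | Sum.inl x => x.val + 1
    | Sum.inr a => if a = t then m + 2 else 0) ?_ v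
  rintro (x | a) (y | b) h
  · have := h.1
    show x.val + 1 < y.val + 1
    omega
  · have hb := h.1
    have := h.2
    show x.val + 1 < if b = t then m + 2 else 0
    rw [if_pos hb]; omega
  · have ha := h.1
    show (if a = t then m + 2 else 0) < y.val + 1
    rw [if_neg (by rw [ha]; exact hst)]; omega
  · exact h.elim

/-- `π` places the vertices of `S` into the right layers with colours given by `X`. -/
def Realize {n : ℕ} (m : ℕ) (π : Perm (Fin n)) (S : Finset (Fin n)) (X : Finset ℕ) : Prop :=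
  ∀ x ∈ S, lay m (π x) = min x.val m ∧ (col (π x) ↔ x.val ∈ X)

/-- each class (layer, colour) has more than `K` elements -/
def Rich (n m K : ℕ) : Prop :=
  ∀ l ≤ m, ∀ b : Prop, ∀ T : Finset (Fin n), T.card ≤ K → ∃ y : Fin n, y ∉ T ∧ lay m y = l ∧
    (col y ↔ b)

theorem extend_one {n m K : ℕ} (hR : Rich n m K) (hn : K + 3 ≤ n) {π : Perm (Fin n)}
    (hπ : Perm.sign π = 1) {S : Finset (Fin n)} {X : Finset ℕ} (hr : Realize m π S X)
    {u : Fin n} (hu : u ∉ S) (hS : S.card ≤ K) :
    ∃ π' : Perm (Fin n), Perm.sign π' = 1 ∧ Realize m π' (insert u S) X ∧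
      ∀ x ∈ S, π' x = π x := by
  classical
  have hT : (S.image π).card ≤ K := Finset.card_image_le.trans hS
  obtain ⟨y, hyT, hy1, hy2⟩ := hR (min u.val m) (min_le_right _ _) (u.val ∈ X) (S.image π) hT
  by_cases huy : π u = y
  · refine ⟨π, hπ, ?_, fun _ _ => rfl⟩
    intro x hx
    rcases Finset.mem_insert.1 hx with rfl | hx
    · rw [huy]; exact ⟨hy1, hy2⟩
    · exact hr x hx
  obtain ⟨c, hc⟩ : ∃ c : Fin n, c ∉ insert (π u) (insert y (S.image π)) := by
    by_contra h
    push Not at h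
    have h1 : (Finset.univ : Finset (Fin n)) ⊆ insert (π u) (insert y (S.image π)) :=
      fun x _ => h x
    have h2 := Finset.card_le_card h1
    rw [Finset.card_univ, Fintype.card_fin] at h2
    have h3 := Finset.card_insert_le (π u) (insert y (S.image π))
    have h4 := Finset.card_insert_le y (S.image π)
    omega
  simp only [Finset.mem_insert, not_or] at hc
  obtain ⟨hcu, hcy, hcT⟩ := hc
  have hfix : ∀ x ∈ S, c3 (π u) y c (π x) = π x := by
    intro x hx
    apply c3_apply_of_ne
    · intro h; exact hu (π.injective h ▸ hx)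
    · intro h; exact hyT (h ▸ Finset.mem_image_of_mem _ hx)
    · intro h; exact hcT (h ▸ Finset.mem_image_of_mem _ hx)
  refine ⟨c3 (π u) y c * π, ?_, ?_, ?_⟩
  · rw [map_mul, hπ, mul_one]
    unfold c3
    rw [map_mul, Perm.sign_swap huy, Perm.sign_swap (Ne.symm hcy)]
    rfl
  · intro x hx
    rw [Perm.mul_apply]
    rcases Finset.mem_insert.1 hx with rfl | hx
    · rw [c3_apply1 huy (Ne.symm hcu)]; exact ⟨hy1, hy2⟩
    · rw [hfix x hx]; exact hr x hx
  · intro x hx
    rw [Perm.mul_apply, hfix x hx]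

theorem extend_all {n m K : ℕ} (hR : Rich n m K) (hn : K + 3 ≤ n) {π : Perm (Fin n)}
    (hπ : Perm.sign π = 1) {S U : Finset (Fin n)} {X : Finset ℕ} (hr : Realize m π S X)
    (hSU : S ⊆ U) (hU : U.card ≤ K) :
    ∃ π' : Perm (Fin n), Perm.sign π' = 1 ∧ Realize m π' U X ∧ ∀ x ∈ S, π' x = π x := by
  classical
  have key : ∀ T : Finset (Fin n), T ⊆ U → ∃ π' : Perm (Fin n), Perm.sign π' = 1 ∧
      Realize m π' (S ∪ T) X ∧ ∀ x ∈ S, π' x = π x := by
    intro T
    induction T using Finset.induction_on with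
    | empty => intro _; exact ⟨π, hπ, by rwa [Finset.union_empty], fun _ _ => rfl⟩
    | insert u T huT ih =>
      intro hT
      obtain ⟨π', h1, h2, h3⟩ := ih ((Finset.subset_insert _ _).trans hT)
      by_cases hu : u ∈ S ∪ T
      · refine ⟨π', h1, ?_, h3⟩
        rwa [Finset.union_insert, Finset.insert_eq_self.2 hu]
      · have hcard : (S ∪ T).card ≤ K :=
          (Finset.card_le_card (Finset.union_subset hSU
            ((Finset.subset_insert _ _).trans hT))).trans hU
        obtain ⟨π'', h4, h5, h6⟩ := extend_one hR hn h1 h2 hu hcard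
        refine ⟨π'', h4, by rwa [Finset.union_insert], ?_⟩
        intro x hx
        rw [h6 x (Finset.mem_union_left _ hx), h3 x hx]
  obtain ⟨π', h1, h2, h3⟩ := key U (Finset.Subset.refl _)
  rw [Finset.union_eq_right.2 hSU] at h2
  exact ⟨π', h1, h2, h3⟩

/-- pull back of `G0` along a good permutation agrees with the path -/
theorem agree_of_realize {n m : ℕ} {M : Type*} (hm : 0 < m) (s t : M) {π : Perm (Fin n)}
    {U A : Finset (Fin n)} {X : Finset ℕ} (hr : Realize m π U X) (hAU : A ⊆ U)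
    (hv : Valid m (U.image Fin.val) X) :
    AgreeOn A (G1 m s t) (fun u v => G0 m s t (Sum.map π id u) (Sum.map π id v)) := by
  classical
  have hmem : ∀ x ∈ A, x.val ∈ U.image Fin.val :=
    fun x hx => Finset.mem_image_of_mem _ (hAU hx)
  obtain ⟨hv1, hv2, hv3⟩ := hv
  intro u v hu hv
  rcases u with x | a <;> rcases v with y | b
  · have hxA : x ∈ A := hu x rfl
    have hyA : y ∈ A := hv y rfl
    obtain ⟨hx1, hx2⟩ := hr x (hAU hxA)
    obtain ⟨hy1, hy2⟩ := hr y (hAU hyA)
    show (y.val = x.val + 1 ∧ y.val < m) ↔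
      (lay m (π y) = lay m (π x) + 1 ∧ lay m (π y) < m ∧ (col (π x) → col (π y)))
    rw [hx1, hy1, hx2, hy2]
    constructor
    · rintro ⟨h1, h2⟩
      refine ⟨by omega, by omega, fun h => ?_⟩
      have := hv3 x.val (hmem x hxA) (by rw [← h1]; exact hmem y hyA) h (by omega)
      rw [h1]; exact this
    · rintro ⟨h1, h2, -⟩
      omega
  · have hxA : x ∈ A := hu x rfl
    obtain ⟨hx1, hx2⟩ := hr x (hAU hxA)
    show (b = t ∧ x.val + 1 = m) ↔ (b = t ∧ lay m (π x) + 1 = m ∧ ¬ col (π x))
    rw [hx1, hx2]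
    constructor
    · rintro ⟨h1, h2⟩
      refine ⟨h1, by omega, fun h => ?_⟩
      have := hv2 x.val (hmem x hxA) h (by omega)
      omega
    · rintro ⟨h1, h2, -⟩
      exact ⟨h1, by omega⟩
  · have hyA : y ∈ A := hv y rfl
    obtain ⟨hy1, hy2⟩ := hr y (hAU hyA)
    show (a = s ∧ y.val = 0) ↔ (a = s ∧ lay m (π y) = 0 ∧ col (π y))
    rw [hy1, hy2]
    constructor
    · rintro ⟨h1, h2⟩
      refine ⟨h1, by omega, ?_⟩
      have := hmem y hyA
      rw [h2] at this ⊢
      exact hv1 this
    · rintro ⟨h1, h2, -⟩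
      exact ⟨h1, by omega⟩
  · exact Iff.rfl

section core

variable {n k : ℕ} {M : Type*} {Q : Type*} [MulAction (Perm (Fin n)) Q]

/-- the placements of the support of `q` for which the moved node is reachable in `G0` -/
def Phi (N : SymNetwork n k M Q) (m : ℕ) (s t : M) (supp : Q → Finset (Fin n)) (q : Q)
    (X : Finset ℕ) : Prop :=
  ∃ π : Perm (Fin n), Perm.sign π = 1 ∧ Realize m π (supp q) X ∧
    EqvGen (N.pass (G0 m s t)) N.start (π • q)

theorem pass_G0 (N : SymNetwork n k M Q) {m : ℕ} (hm : 0 < m) (s t : M)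
    {q q' : Q} {A U : Finset (Fin n)}
    (hcert : ∀ G' : Vx n M → Vx n M → Prop, AgreeOn A (G1 m s t) G' → N.pass G' q q')
    (hAU : A ⊆ U) {X : Finset ℕ} (hv : Valid m (U.image Fin.val) X) {π : Perm (Fin n)}
    (hr : Realize m π U X) : N.pass (G0 m s t) (π • q) (π • q') := by
  have h1 := hcert _ (agree_of_realize hm s t hr hAU hv)
  have h2 := N.equivariant π _ q q' h1
  have h3 : relabel π (fun u v => G0 m s t (Sum.map π id u) (Sum.map π id v))
      = G0 (n := n) m s t := by
    funext u v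
    cases u <;> cases v <;> simp [relabel]
  rwa [h3] at h2

theorem Phi_iff (N : SymNetwork n k M Q) {m K : ℕ} (hm : 0 < m) (s t : M)
    (hR : Rich n m K) (hn : K + 3 ≤ n) (supp : Q → Finset (Fin n))
    (hsupp : ∀ q, ∀ π : Perm (Fin n), Perm.sign π = 1 → (∀ x ∈ supp q, π x = x) → π • q = q)
    {q q' : Q} {A U : Finset (Fin n)}
    (hcert : ∀ G' : Vx n M → Vx n M → Prop, AgreeOn A (G1 m s t) G' → N.pass G' q q')
    (hAU : A ⊆ U) (hqU : supp q ⊆ U) (hqU' : supp q' ⊆ U) (hU : U.card ≤ K)
    {X : Finset ℕ} (hv : Valid m (U.image Fin.val) X) :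
    Phi N m s t supp q X ↔ Phi N m s t supp q' X := by
  constructor
  · rintro ⟨π, h1, h2, h3⟩
    obtain ⟨π', h4, h5, h6⟩ := extend_all hR hn h1 h2 hqU hU
    refine ⟨π', h4, fun x hx => h5 x (hqU' hx), ?_⟩
    have h7 : π' • q = π • q := smul_eq_smul_of_agree (hsupp q) h4 h1 h6
    rw [← h7] at h3
    exact h3.trans _ _ _ (EqvGen.rel _ _ (pass_G0 N hm s t hcert hAU hv h5))
  · rintro ⟨π, h1, h2, h3⟩
    obtain ⟨π', h4, h5, h6⟩ := extend_all hR hn h1 h2 hqU' hU
    refine ⟨π', h4, fun x hx => h5 x (hqU hx), ?_⟩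
    have h7 : π' • q' = π • q' := smul_eq_smul_of_agree (hsupp q') h4 h1 h6
    rw [← h7] at h3
    exact h3.trans _ _ _ (EqvGen.symm _ _
      (EqvGen.rel _ _ (pass_G0 N hm s t hcert hAU hv h5)))

theorem Phi_dep (N : SymNetwork n k M Q) {m : ℕ} (s t : M) (supp : Q → Finset (Fin n))
    (q : Q) {U : Finset (Fin n)} (hqU : supp q ⊆ U) (X : Finset ℕ) :
    Phi N m s t supp q X ↔ Phi N m s t supp q (X ∩ U.image Fin.val) := by
  have : ∀ π : Perm (Fin n), Realize m π (supp q) X ↔
      Realize m π (supp q) (X ∩ U.image Fin.val) := by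
    intro π
    refine forall₂_congr fun x hx => ?_
    have hxU : x.val ∈ U.image Fin.val := Finset.mem_image_of_mem _ (hqU hx)
    rw [Finset.mem_inter]
    simp only [hxU, and_true]
  unfold Phi
  simp only [this]

open Classical in
/-- indicator of `Phi` -/
noncomputable def phi (N : SymNetwork n k M Q) (m : ℕ) (s t : M) (supp : Q → Finset (Fin n))
    (q : Q) (X : Finset ℕ) : ZMod 2 := if Phi N m s t supp q X then 1 else 0

theorem phi_congr (N : SymNetwork n k M Q) (m : ℕ) (s t : M) (supp : Q → Finset (Fin n))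
    {q q' : Q} {X X' : Finset ℕ}
    (h : Phi N m s t supp q X ↔ Phi N m s t supp q' X') :
    phi N m s t supp q X = phi N m s t supp q' X' := by
  unfold phi; rw [h]

/-- **Core of the lower bound.** -/
theorem core (N : SymNetwork n k M Q) {K r : ℕ} {s t : M} (hst : s ≠ t)
    (hN : ∀ G : Vx n M → Vx n M → Prop, (∀ v, ¬ TransGen G v v) →
      (EqvGen (N.pass G) N.start N.acc ↔ ReflTransGen G (Sum.inr s) (Sum.inr t)))
    (hR : Rich n (2 ^ K) K) (hn : K + 3 ≤ n) (hmn : 2 ^ K ≤ n)
    (supp : Q → Finset (Fin n)) (hstart : supp N.start = ∅)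
    (hsupp : ∀ q, ∀ π : Perm (Fin n), Perm.sign π = 1 → (∀ x ∈ supp q, π x = x) → π • q = q)
    (hcard : ∀ q, (supp q).card < r) (hr : 2 * (r - 1) + k ≤ K) : False := by
  classical
  set m := 2 ^ K with hmdef
  have hm : 0 < m := by rw [hmdef]; positivity
  have hstep : ∀ q q', N.pass (G1 m s t) q q' →
      pE K (phi N m s t supp q) = pE K (phi N m s t supp q') := by
    intro q q' hqq
    obtain ⟨A, hA, hcert⟩ := N.loc _ q q' hqq
    set U := supp q ∪ supp q' ∪ A with hU
    have hUc : U.card ≤ K := by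
      rw [hU]
      have h1 := Finset.card_union_le (supp q ∪ supp q') A
      have h2 := Finset.card_union_le (supp q) (supp q')
      have h3 := hcard q
      have h4 := hcard q'
      omega
    have hqU : supp q ⊆ U := fun x hx => by
      rw [hU]; exact Finset.mem_union_left _ (Finset.mem_union_left _ hx)
    have hqU' : supp q' ⊆ U := fun x hx => by
      rw [hU]; exact Finset.mem_union_left _ (Finset.mem_union_right _ hx)
    have hAU : A ⊆ U := fun x hx => by rw [hU]; exact Finset.mem_union_right _ hx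
    have hzero := pE_eq_zero (K := K) (U := U.image Fin.val) (Finset.card_image_le.trans hUc)
      (fun X => phi N m s t supp q X + phi N m s t supp q' X)
      (by
        intro X
        rw [phi_congr N m s t supp (Phi_dep N s t supp q hqU X),
          phi_congr N m s t supp (Phi_dep N s t supp q' hqU' X)])
      (by
        intro X _ hv
        rw [phi_congr N m s t supp
          (Phi_iff N hm s t hR hn supp hsupp hcert hAU hqU hqU' hUc hv)]
        exact zmod2_add_self _)
    rw [pE_add] at hzero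
    calc pE K (phi N m s t supp q)
        = pE K (phi N m s t supp q) + (pE K (phi N m s t supp q') + pE K (phi N m s t supp q')) := by
          rw [zmod2_add_self, add_zero]
      _ = pE K (phi N m s t supp q') := by rw [← add_assoc, hzero, zero_add]
  have hconn : ∀ q q', EqvGen (N.pass (G1 m s t)) q q' →
      pE K (phi N m s t supp q) = pE K (phi N m s t supp q') := by
    intro q q' h
    induction h with
    | rel x y h => exact hstep x y h
    | refl => rfl
    | symm _ _ _ ih => exact ih.symm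
    | trans _ _ _ _ _ ih1 ih2 => exact ih1.trans ih2
  have h1 := hconn _ _ ((hN (G1 m s t) (G1_acyclic m hst)).2 (G1_path hm hmn s t))
  have h2 : phi N m s t supp N.start = fun _ => 1 := by
    funext X
    unfold phi
    rw [if_pos]
    refine ⟨1, map_one _, ?_, ?_⟩
    · rw [hstart]; intro x hx; simp at hx
    · rw [one_smul]; exact EqvGen.refl _
  have h3 : phi N m s t supp N.acc = fun _ => 0 := by
    funext X
    unfold phi
    rw [if_neg]
    rintro ⟨π, -, -, h⟩
    rw [N.acc_fixed] at h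
    exact G0_no_path m hst ((hN _ (G0_acyclic m hst)).1 h)
  rw [h2, h3, pE_one, pE_zero] at h1
  exact absurd h1 (by decide)

end core

/-- the explicit colouring has large classes -/
theorem rich_of_le {n m K : ℕ} (h : 2 * (m + 1) * (K + 1) ≤ n) : Rich n m K := by
  classical
  intro l hl b T hT
  have key : ∀ c : ℕ, c < 2 → ∃ y : Fin n, y ∉ T ∧ lay m y = l ∧ y.val % 2 = c := by
    intro c hc
    have hlt : ∀ j : Fin (K + 1), 2 * ((m + 1) * j.val + l) + c < n := by
      intro j
      have h1 : (m + 1) * (j.val + 1) ≤ (m + 1) * (K + 1) := Nat.mul_le_mul_left _ (by omega)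
      have h2 : (m + 1) * (j.val + 1) = (m + 1) * j.val + (m + 1) := by ring
      have h3 : 2 * (m + 1) * (K + 1) = 2 * ((m + 1) * (K + 1)) := by ring
      omega
    let g : Fin (K + 1) → Fin n := fun j => ⟨2 * ((m + 1) * j.val + l) + c, hlt j⟩
    have hg : Function.Injective g := by
      intro i j hij
      have h1 : 2 * ((m + 1) * i.val + l) + c = 2 * ((m + 1) * j.val + l) + c :=
        congrArg Fin.val hij
      have h2 : (m + 1) * i.val = (m + 1) * j.val := by omega
      exact Fin.ext (Nat.eq_of_mul_eq_mul_left (by omega) h2)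
    have hcard : T.card < (Finset.univ.image g).card := by
      rw [Finset.card_image_of_injective _ hg, Finset.card_univ, Fintype.card_fin]; omega
    obtain ⟨y, hy, hyT⟩ := Finset.exists_mem_notMem_of_card_lt_card hcard
    rw [Finset.mem_image] at hy
    obtain ⟨j, -, rfl⟩ := hy
    refine ⟨g j, hyT, ?_, ?_⟩
    · show ((2 * ((m + 1) * j.val + l) + c) / 2) % (m + 1) = l
      have : (2 * ((m + 1) * j.val + l) + c) / 2 = (m + 1) * j.val + l := by omega
      rw [this, Nat.mul_add_mod, Nat.mod_eq_of_lt (by omega)]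
    · show (2 * ((m + 1) * j.val + l) + c) % 2 = c
      omega
  by_cases hb : b
  · obtain ⟨y, h1, h2, h3⟩ := key 0 (by norm_num)
    exact ⟨y, h1, h2, by simp [col, h3, hb]⟩
  · obtain ⟨y, h1, h2, h3⟩ := key 1 (by norm_num)
    exact ⟨y, h1, h2, by simp [col, h3, hb]⟩

theorem four_mul_le_two_pow {K : ℕ} (h : 5 ≤ K) : 4 * (K + 1) ≤ 2 ^ K := by
  induction K, h using Nat.le_induction with
  | base => norm_num
  | succ K hK ih => rw [pow_succ]; omega

theorem cube_le_two_pow {L : ℕ} (h : 10 ≤ L) : L ^ 3 ≤ 2 ^ L := by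
  induction L, h using Nat.le_induction with
  | base => norm_num
  | succ L hL ih =>
    rw [pow_succ 2]
    have : (L + 1) ^ 3 ≤ L ^ 3 * 2 := by nlinarith [sq_nonneg (L : ℤ), Nat.mul_le_mul hL hL]
    omega

theorem two_pow_le_factorial (f : ℕ) : 2 ^ f ≤ (f + 1).factorial := by
  induction f with
  | zero => simp
  | succ f ih =>
    rw [pow_succ, Nat.factorial_succ (f + 1), mul_comm]
    exact Nat.mul_le_mul (by omega) ih

theorem choose_ge {n a : ℕ} (h : 16 * a ^ 2 ≤ n) (ha : 1 ≤ a) : n ^ a ≤ n.choose (2 * a) := by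
  have h1 : (n + 1 - 2 * a) ^ (2 * a) ≤ (2 * a).factorial * n.choose (2 * a) := by
    rw [← Nat.descFactorial_eq_factorial_mul_choose]
    exact n.pow_sub_le_descFactorial (2 * a)
  have h2 : n * (2 * a) ^ 2 ≤ (n + 1 - 2 * a) ^ 2 := by
    have h3 : a ≤ a ^ 2 := by nlinarith
    obtain ⟨b, hb⟩ : ∃ b, b = n + 1 - 2 * a := ⟨_, rfl⟩
    have h4 : n + 1 = b + 2 * a := by omega
    rw [← hb]
    have h5 : n ≤ 2 * b := by omega
    nlinarith
  have h3 : (2 * a).factorial ≤ (2 * a) ^ (2 * a) := Nat.factorial_le_pow _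
  have h4 : n ^ a * (2 * a).factorial ≤ (2 * a).factorial * n.choose (2 * a) := by
    calc n ^ a * (2 * a).factorial ≤ n ^ a * (2 * a) ^ (2 * a) := Nat.mul_le_mul_left _ h3
      _ = (n * (2 * a) ^ 2) ^ a := by rw [mul_pow n, ← pow_mul]
      _ ≤ ((n + 1 - 2 * a) ^ 2) ^ a := Nat.pow_le_pow_left h2 _
      _ = (n + 1 - 2 * a) ^ (2 * a) := by rw [← pow_mul]
      _ ≤ _ := h1
  rw [mul_comm] at h4
  exact Nat.le_of_mul_le_mul_left h4 (Nat.factorial_pos _)

/-- **Lower bound for symmetric undirected networks.** -/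
theorem lower_bound {n k : ℕ} {M Q : Type*} [Fintype Q] [MulAction (Perm (Fin n)) Q]
    (hn : 2 ^ 32 ≤ n) (hk : k ≤ Nat.log 2 n / 8) (N : SymNetwork n k M Q) {s t : M}
    (hst : s ≠ t)
    (hN : ∀ G : Vx n M → Vx n M → Prop, (∀ v, ¬ TransGen G v v) →
      (EqvGen (N.pass G) N.start N.acc ↔ ReflTransGen G (Sum.inr s) (Sum.inr t))) :
    n ^ (Nat.log 2 n / 16) ≤ Fintype.card Q := by
  classical
  by_contra hcon
  push Not at hcon
  set L := Nat.log 2 n with hLdef
  have hn0 : n ≠ 0 := by
    have : 0 < 2 ^ 32 := by positivity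
    omega
  have hL1 : 2 ^ L ≤ n := Nat.pow_log_le_self 2 hn0
  have hL2 : n < 2 ^ (L + 1) := Nat.lt_pow_succ_log_self (by norm_num) n
  have hL : 32 ≤ L := by
    by_contra h
    have : 2 ^ (L + 1) ≤ 2 ^ 32 := Nat.pow_le_pow_right (by norm_num) (by omega)
    omega
  set ρ := L / 16 with hρ
  have hcube := cube_le_two_pow (show 10 ≤ L by omega)
  have hρ4 : ρ + 1 ≤ L / 4 := by omega
  have hLρ : 4 * (ρ + 1) ≤ L := by omega
  have hL3 : L ^ 3 ≤ n := hcube.trans hL1
  -- supports
  have hsup : ∀ q : Q, ∃ S : Finset (Fin n), S.card < 2 * (ρ + 1) ∧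
      ∀ π : Perm (Fin n), Perm.sign π = 1 → (∀ x ∈ S, π x = x) → π • q = q := by
    intro q
    have hfac : Fintype.card Q < (L ^ 2 + 1).factorial := by
      have h9 : n ^ ρ ≤ 2 ^ (L ^ 2) := by
        calc n ^ ρ ≤ (2 ^ (L + 1)) ^ ρ := Nat.pow_le_pow_left hL2.le _
          _ = 2 ^ ((L + 1) * ρ) := by rw [← pow_mul]
          _ ≤ 2 ^ (L ^ 2) := by
            apply Nat.pow_le_pow_right (by norm_num)
            nlinarith
      exact lt_of_lt_of_le hcon (h9.trans (two_pow_le_factorial (L ^ 2)))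
    refine exists_support q hfac ?_ ?_ ?_ ?_
    · rw [Fintype.card_fin]
      calc 2 * L ^ 2 * (2 * (ρ + 1)) = L ^ 2 * (4 * (ρ + 1)) := by ring
        _ ≤ L ^ 2 * L := Nat.mul_le_mul_left _ hLρ
        _ = L ^ 3 := by ring
        _ ≤ n := hL3
    · rw [Fintype.card_fin]
      have : L ≤ L ^ 3 := Nat.le_self_pow (by norm_num) L
      omega
    · positivity
    · rw [Fintype.card_fin]
      calc 2 * L ^ 2 * Fintype.card Q < 2 * L ^ 2 * n ^ ρ := by
            apply Nat.mul_lt_mul_of_pos_left hcon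
            positivity
        _ ≤ n * n ^ ρ := by
            apply Nat.mul_le_mul_right
            have : 2 * L ^ 2 ≤ L ^ 3 := by
              calc 2 * L ^ 2 ≤ L * L ^ 2 := Nat.mul_le_mul_right _ (by omega)
                _ = L ^ 3 := by ring
            omega
        _ = n ^ (ρ + 1) := by ring
        _ ≤ n.choose (2 * (ρ + 1)) := by
            apply choose_ge _ (by omega)
            calc 16 * (ρ + 1) ^ 2 = (4 * (ρ + 1)) ^ 2 := by ring
              _ ≤ L ^ 2 := Nat.pow_le_pow_left hLρ _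
              _ ≤ L ^ 3 := Nat.pow_le_pow_right (by omega) (by norm_num)
              _ ≤ n := hL3
  choose S hS1 hS2 using hsup
  set K := L / 2 with hK
  have hpow := four_mul_le_two_pow (show 5 ≤ K by omega)
  have h2K : 2 ^ K * 2 ^ K ≤ n := by
    rw [← pow_add]
    exact (Nat.pow_le_pow_right (by norm_num) (by omega)).trans hL1
  refine core N (K := K) (r := 2 * (ρ + 1)) hst hN (rich_of_le ?_) ?_ ?_
    (fun q => if q = N.start then ∅ else S q) (if_pos rfl) ?_ ?_ ?_
  · have h1 : 1 ≤ 2 ^ K := Nat.one_le_two_pow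
    calc 2 * (2 ^ K + 1) * (K + 1) ≤ 2 * (2 ^ K + 2 ^ K) * (K + 1) := by gcongr
      _ = 2 ^ K * (4 * (K + 1)) := by ring
      _ ≤ 2 ^ K * 2 ^ K := Nat.mul_le_mul_left _ hpow
      _ ≤ n := h2K
  · have h1 : 1 ≤ 2 ^ K := Nat.one_le_two_pow
    nlinarith
  · have h1 : 1 ≤ 2 ^ K := Nat.one_le_two_pow
    nlinarith
  · intro q π hπ hfix
    by_cases hq : q = N.start
    · rw [hq, N.start_fixed]
    · simp only [if_neg hq] at hfix
      exact hS2 q π hπ hfix
  · intro q
    by_cases hq : q = N.start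
    · simp only [if_pos hq]; rw [Finset.card_empty]; omega
    · simp only [if_neg hq]; exact hS1 q
  · omega

end H534R2.SymSw
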