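import Pool.Agent.H534R2.GenCirc

/-!
# Computations in rounds without trees (undirected networks)
-/

set_option linter.unusedSectionVars false

namespace H534R2.Gen

open Finset Relation

section flat

variable {X : Type}

open Classical in
/-- the computation tree of the rounds `d - r, …, d - 1` followed by the output network -/
noncomputable def uflatTree (d : ℕ) (w : ℕ → ℕ) (N : ℕ → ℕ → (ℕ → ℕ → Prop) → BNet X) :
    ℕ → (ℕ → ℕ → Prop) → BTree X
  | 0, A => .out (N d 0 A)
  | r + 1, A => .ask (w (d - (r + 1))) (fun k => N (d - (r + 1)) k A)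
      (fun a => uflatTree d w N r
        (fun j k => if j = d - (r + 1) then ∃ h : k < w (d - (r + 1)), a ⟨k, h⟩ = true
          else A j k))

/-- the tables agree on the first `i` rounds -/
def UAgr (w : ℕ → ℕ) (i : ℕ) (A A' : ℕ → ℕ → Prop) : Prop :=
  ∀ j < i, ∀ k < w j, (A j k ↔ A' j k)

/-- the networks of a round depend on the answers of the earlier rounds only -/
def UCausal (w : ℕ → ℕ) (N : ℕ → ℕ → (ℕ → ℕ → Prop) → BNet X) : Prop :=
  ∀ i k A A', UAgr w i A A' → N i k A = N i k A'

variable {d : ℕ} {w : ℕ → ℕ} {N : ℕ → ℕ → (ℕ → ℕ → Prop) → BNet X}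

theorem uflat_eval (hN : UCausal w N) (v : X → Prop) (A' : ℕ → ℕ → Prop)
    (hA' : ∀ i < d, ∀ k < w i, (A' i k ↔ (N i k A').Accepts v)) (r : ℕ) :
    r ≤ d → ∀ A, UAgr w (d - r) A A' →
      ((uflatTree d w N r A).eval v ↔ (N d 0 A').Accepts v) := by
  classical
  induction r with
  | zero =>
    intro _ A hA
    show (N d 0 A).Accepts v ↔ _
    rw [hN d 0 A A' (by simpa using hA)]
  | succ r ih =>
    intro hr A hA
    show (uflatTree d w N r (fun j k => if j = d - (r + 1) then ∃ h : k < w (d - (r + 1)),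
      ans (fun k : Fin (w (d - (r + 1))) => N (d - (r + 1)) k A) v ⟨k, h⟩ = true
      else A j k)).eval v ↔ _
    apply ih (by omega)
    intro j hj k hk
    beta_reduce
    by_cases hji : j = d - (r + 1)
    · subst hji
      rw [if_pos rfl, hA' _ (by omega) k hk, ← hN _ k A A' hA]
      unfold ans
      simp only [decide_eq_true_eq]
      exact ⟨fun ⟨_, h2⟩ => h2, fun h => ⟨hk, h⟩⟩
    · rw [if_neg hji]
      exact hA j (by omega) k hk

theorem uflat_cost (r : ℕ) : r ≤ d → ∀ A,
    (uflatTree d w N r A).cost ≤ ∏ i ∈ Finset.Ico (d - r) d, (w i + 1) := by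
  classical
  induction r with
  | zero => intro _ A; simp [uflatTree, BTree.cost]
  | succ r ih =>
    intro hr A
    have h1 : d - (r + 1) < d := by omega
    have h2 : d - (r + 1) + 1 = d - r := by omega
    rw [Finset.prod_eq_prod_Ico_succ_bot h1, h2]
    show (w (d - (r + 1)) + 1) * Finset.univ.sup _ ≤ _
    apply Nat.mul_le_mul_left
    apply Finset.sup_le
    intro a _
    exact ih (by omega) _

theorem uflat_load (hN : UCausal w N) (r : ℕ) : r ≤ d → ∀ A B,
    (∀ A', UAgr w (d - r) A A' → (∑ i ∈ Finset.Ico (d - r) d, ∑ k ∈ Finset.range (w i),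
      (N i k A').size) + (N d 0 A').size ≤ B) → (uflatTree d w N r A).load ≤ B := by
  classical
  induction r with
  | zero =>
    intro _ A B hB
    have := hB A (fun _ _ _ _ => Iff.rfl)
    simpa [uflatTree, BTree.load] using this
  | succ r ih =>
    intro hr A B hB
    have h1 : d - (r + 1) < d := by omega
    have h2 : d - (r + 1) + 1 = d - r := by omega
    have hsum : ∀ A', (∑ i ∈ Finset.Ico (d - (r + 1)) d, ∑ k ∈ Finset.range (w i),
        (N i k A').size) = (∑ i ∈ Finset.Ico (d - r) d, ∑ k ∈ Finset.range (w i),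
          (N i k A').size) + ∑ k ∈ Finset.range (w (d - (r + 1))),
            (N (d - (r + 1)) k A').size := by
      intro A'
      rw [Finset.sum_eq_sum_Ico_succ_bot h1, h2, add_comm]
    obtain ⟨S, hS⟩ : ∃ S, S = ∑ k ∈ Finset.range (w (d - (r + 1))),
      (N (d - (r + 1)) k A).size := ⟨_, rfl⟩
    have hSA : ∀ A', UAgr w (d - (r + 1)) A A' → (∑ k ∈ Finset.range (w (d - (r + 1))),
        (N (d - (r + 1)) k A').size) = S := by
      intro A' hA'
      rw [hS]
      refine Finset.sum_congr rfl fun k _ => ?_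
      rw [hN _ k A A' hA']
    have hSB : S ≤ B := by
      have h3 := hB A (fun _ _ _ _ => Iff.rfl)
      rw [hsum A, hSA A (fun _ _ _ _ => Iff.rfl)] at h3
      omega
    show (∑ k : Fin (w (d - (r + 1))), (N (d - (r + 1)) k A).size) +
      Finset.univ.sup _ ≤ B
    have h4 : (∑ k : Fin (w (d - (r + 1))), (N (d - (r + 1)) k A).size) = S := by
      rw [hS, Finset.sum_range]
    rw [h4]
    have h5 : Finset.univ.sup (fun a : Fin (w (d - (r + 1))) → Bool =>
        (uflatTree d w N r (fun j k => if j = d - (r + 1) then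
          ∃ h : k < w (d - (r + 1)), a ⟨k, h⟩ = true else A j k)).load) ≤ B - S := by
      apply Finset.sup_le
      intro a _
      apply ih (by omega)
      intro A' hA'
      have hAA' : UAgr w (d - (r + 1)) A A' := by
        intro j hj k hk
        have h6 := hA' j (by omega) k hk
        have h7 : ¬ (j = d - (r + 1)) := by omega
        simp only [if_neg h7] at h6
        exact h6
      have h3 := hB A' hAA'
      rw [hsum A', hSA A' hAA'] at h3
      omega
    exact (Nat.add_le_add_left h5 S).trans (by omega)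

end flat


section uembed

variable {X Y : Type}

/-- substitute variables -/
def BNet.pull (e : X → Y) (N : BNet Y) : BNet X where
  size := N.size
  start := N.start
  acc := N.acc
  link := N.link
  wire a b x := N.wire a b (e x)

theorem BNet.pull_accepts (e : X → Y) (N : BNet Y) (v : X → Prop) :
    (N.pull e).Accepts v ↔ N.Accepts (Img e v) := by
  have h : (N.pull e).Pass v = N.Pass (Img e v) := by
    funext a b
    apply propext
    constructor
    · rintro (h | ⟨x, h1, h2⟩)
      · exact Or.inl h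
      · exact Or.inr ⟨e x, h1, x, h2, rfl⟩
    · rintro (h | ⟨_, h1, x, h2, rfl⟩)
      · exact Or.inl h
      · exact Or.inr ⟨x, h1, h2⟩
  unfold BNet.Accepts
  rw [h]
  rfl

/-- substitute variables in a computation -/
def BTree.pull (e : X → Y) : BTree Y → BTree X
  | .out N => .out (N.pull e)
  | .ask w N next => .ask w (fun i => (N i).pull e) (fun a => (next a).pull e)

theorem BTree.pull_eval (e : X → Y) (T : BTree Y) (v : X → Prop) :
    (T.pull e).eval v ↔ T.eval (Img e v) := by
  classical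
  induction T with
  | out N => exact N.pull_accepts e v
  | ask w N next ih =>
    show ((next (ans (fun i => (N i).pull e) v)).pull e).eval v ↔
      (next (ans N (Img e v))).eval (Img e v)
    have h : ans (fun i => (N i).pull e) v = ans N (Img e v) := by
      funext i
      unfold ans
      rw [decide_eq_decide]
      exact (N i).pull_accepts e v
    rw [h]
    exact ih _

theorem BTree.pull_cost (e : X → Y) (T : BTree Y) : (T.pull e).cost = T.cost := by
  induction T with
  | out N => rfl
  | ask w N next ih =>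
    show (w + 1) * Finset.univ.sup (fun a => ((next a).pull e).cost)
      = (w + 1) * Finset.univ.sup (fun a => (next a).cost)
    simp only [ih]

theorem BTree.pull_load (e : X → Y) (T : BTree Y) : (T.pull e).load = T.load := by
  induction T with
  | out N => rfl
  | ask w N next ih =>
    show (∑ i, ((N i).pull e).size) + Finset.univ.sup (fun a => ((next a).pull e).load)
      = (∑ i, (N i).size) + Finset.univ.sup (fun a => (next a).load)
    simp only [ih]
    rfl

end uembed

/-- **Lower bound for path systems**, host version, undirected networks. -/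
theorem uhost_full (h M : ℕ) (hh : 3 ≤ h) (V : Type) [Fintype V] (t : V)
    (hV : 36 * M * (h + 1) ^ 6 + 1 ≤ Fintype.card V) :
    ∃ H : PS V → Prop, {x : PS V | H x}.ncard ≤ 46656 * M * (h + 1) ^ 14 ∧
      (∃ L : List ((PS V → Prop) → Prop), MC L ∧ L.length ≤ 186624 * M * (h + 1) ^ 14 + 1 ∧
        ∃ f ∈ L, ∀ v : PS V → Prop, (∀ x, v x → H x) → (f v ↔ Solv v t)) ∧
      ∀ T : BTree (PS V), 1728 * T.load < 2 ^ h →
        (∀ v : PS V → Prop, (∀ x, v x → H x) → (T.eval v ↔ Solv v t)) →
        M + 1 ≤ T.cost := by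
  classical
  obtain ⟨r, hr⟩ : ∃ r, r = 6 * (h + 1) ^ 2 := ⟨_, rfl⟩
  have hcard : Fintype.card (Option (Fin M × Pos h × Fin (r ^ 2))) ≤ Fintype.card V := by
    rw [Fintype.card_option, Fintype.card_prod, Fintype.card_prod, Fintype.card_prod,
      Fintype.card_fin, Fintype.card_fin, Fintype.card_fin]
    refine le_trans (le_of_eq ?_) hV
    rw [hr]; ring
  have hcard' : Fintype.card (Fin M × Pos h × Fin (r ^ 2)) ≤
      Fintype.card {x : V // x ≠ t} := by
    rw [Fintype.card_option] at hcard
    have : Fintype.card {x : V // x ≠ t} = Fintype.card V - 1 := by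
      rw [Fintype.card_subtype_compl]
      simp
    omega
  obtain ⟨e⟩ := Function.Embedding.nonempty_of_card_le hcard'
  let f : Option (Fin M × Pos h × Fin (r ^ 2)) → V := fun z => match z with
    | none => t
    | some y => (e y).1
  have hf : Function.Injective f := by
    rintro (_ | y) (_ | y') heq
    · rfl
    · exact absurd heq.symm (e y').2
    · exact absurd heq (e y).2
    · have : e y = e y' := Subtype.ext heq
      rw [e.injective this]
  have hr1 : 1 ≤ r := by
    have : 0 < (h + 1) ^ 2 := by positivity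
    omega
  have hqr : r ≤ r ^ 2 := Nat.le_self_pow (by norm_num) r
  have hhr : h ≤ r ^ 2 := by
    have : h + 1 ≤ (h + 1) ^ 2 := Nat.le_self_pow (by norm_num) _
    omega
  refine ⟨fun y => ∃ x, emb f x = y, ?_, ?_, ?_⟩
  · refine (emb_card (by omega) (by omega) f).trans (le_of_eq ?_)
    rw [hr]; ring
  · obtain ⟨L, h1, h2, h3⟩ := pyr_circuit (M := M) (h := h) (q := r ^ 2) (by omega) hhr
    refine ⟨_, MC.sub (emb f) h1, ?_, _, List.mem_map_of_mem h2, ?_⟩
    · rw [List.length_map]
      refine h3.trans (le_of_eq ?_)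
      rw [hr]; ring
    · intro v hv
      rw [← emb_solv f hf]
      have : Img (emb f) (fun x => v (emb f x)) = v := by
        funext y
        apply propext
        constructor
        · rintro ⟨x, hx, rfl⟩; exact hx
        · intro hy
          obtain ⟨x, rfl⟩ := hv y hy
          exact ⟨x, hy, rfl⟩
      rw [this]
  · intro T hload hT
    have hb := pyr_bound (M := M) (by omega) hr (T.pull (emb f)) (by
      rw [BTree.pull_load]; exact hload) (by
      intro v
      rw [BTree.pull_eval, hT, ← emb_solv f hf]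
      rintro x ⟨y, -, rfl⟩
      exact ⟨y, rfl⟩)
    rwa [BTree.pull_cost] at hb

/-- **Host version**, undirected, in rounds. -/
theorem urounds_host (h M : ℕ) (hh : 3 ≤ h) (V : Type) [Fintype V] (t : V)
    (hV : 36 * M * (h + 1) ^ 6 + 1 ≤ Fintype.card V) :
    ∃ H : PS V → Prop, {x : PS V | H x}.ncard ≤ 46656 * M * (h + 1) ^ 14 ∧
      (∃ L : List ((PS V → Prop) → Prop), MC L ∧ L.length ≤ 186624 * M * (h + 1) ^ 14 + 1 ∧
        ∃ f ∈ L, ∀ v : PS V → Prop, (∀ x, v x → H x) → (f v ↔ Solv v t)) ∧
      ∀ (d : ℕ) (w : ℕ → ℕ) (N : ℕ → ℕ → (ℕ → ℕ → Prop) → BNet (PS V)),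
        (∀ i k A A', (∀ j < i, ∀ k' < w j, (A j k' ↔ A' j k')) → N i k A = N i k A') →
        (∀ A, 1728 * ((∑ i ∈ Finset.range d, ∑ k ∈ Finset.range (w i), (N i k A).size)
          + (N d 0 A).size) < 2 ^ h) →
        (∀ v : PS V → Prop, (∀ x, v x → H x) → ∃ A : ℕ → ℕ → Prop,
          (∀ i < d, ∀ k < w i, (A i k ↔ (N i k A).Accepts v)) ∧
          ((N d 0 A).Accepts v ↔ Solv v t)) →
        M + 1 ≤ ∏ i ∈ Finset.range d, (w i + 1) := by
  obtain ⟨H, h1, h2, h3⟩ := uhost_full h M hh V t hV
  refine ⟨H, h1, h2, ?_⟩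
  intro d w N hN hsize hdec
  have h0 : (uflatTree d w N d (fun _ _ => True)).load ≤ (2 ^ h - 1) / 1728 := by
    apply uflat_load hN d le_rfl
    intro A' _
    rw [Nat.sub_self, ← Finset.range_eq_Ico, Nat.le_div_iff_mul_le (by norm_num), mul_comm]
    have := hsize A'
    omega
  have h4 := h3 (uflatTree d w N d (fun _ _ => True)) (by
    have h6 := Nat.mul_div_le (2 ^ h - 1) 1728
    have h7 := Nat.one_le_two_pow (n := h)
    omega) (by
    intro v hv
    obtain ⟨A, hA, hv⟩ := hdec v hv
    rw [uflat_eval hN v A hA d le_rfl _ (by rw [Nat.sub_self]; intro j hj; omega), hv])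
  have h5 := h4.trans (uflat_cost d le_rfl _)
  rwa [Nat.sub_self, ← Finset.range_eq_Ico] at h5

/-- **Networks in rounds**: at most `2 ^ ℓ` nodes. -/
theorem urounds_bound (ℓ d : ℕ) (w : ℕ → ℕ) (V : Type) [Fintype V] (t : V)
    (N : ℕ → ℕ → (ℕ → ℕ → Prop) → BNet (PS V))
    (hN : ∀ i k A A', (∀ j < i, ∀ k' < w j, (A j k' ↔ A' j k')) → N i k A = N i k A')
    (hsize : ∀ A, (∑ i ∈ Finset.range d, ∑ k ∈ Finset.range (w i), (N i k A).size)
      + (N d 0 A).size ≤ 2 ^ ℓ)
    (hdec : ∀ v : PS V → Prop, ∃ A : ℕ → ℕ → Prop,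
      (∀ i < d, ∀ k < w i, (A i k ↔ (N i k A).Accepts v)) ∧
      ((N d 0 A).Accepts v ↔ Solv v t)) :
    Fintype.card V ≤ 36 * (ℓ + 12) ^ 6 * ∏ i ∈ Finset.range d, (w i + 1) := by
  obtain ⟨B, hB⟩ : ∃ B, B = 36 * (ℓ + 12) ^ 6 := ⟨_, rfl⟩
  obtain ⟨M, hM⟩ : ∃ M, M = (Fintype.card V - 1) / B := ⟨_, rfl⟩
  have hpos : 0 < B := by rw [hB]; positivity
  have hV : 1 ≤ Fintype.card V := Fintype.card_pos_iff.2 ⟨t⟩
  have h1 : M * B ≤ Fintype.card V - 1 := by rw [hM]; exact Nat.div_mul_le_self _ _
  have h2 : Fintype.card V - 1 < (M + 1) * B := by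
    rw [hM]
    have := Nat.lt_mul_div_succ (Fintype.card V - 1) hpos
    rw [mul_comm]; exact this
  obtain ⟨H, -, -, hH⟩ := urounds_host (ℓ + 11) M (by omega) V t (by
    have : 36 * M * (ℓ + 11 + 1) ^ 6 = M * B := by rw [hB]; ring
    omega)
  have h3 := hH d w N hN (by
    intro A
    have := hsize A
    have e : 2 ^ (ℓ + 11) = 2048 * 2 ^ ℓ := by rw [pow_add]; ring
    have e2 := Nat.one_le_two_pow (n := ℓ)
    rw [e]
    calc 1728 * ((∑ i ∈ Finset.range d, ∑ k ∈ Finset.range (w i), (N i k A).size)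
          + (N d 0 A).size) ≤ 1728 * 2 ^ ℓ := Nat.mul_le_mul_left _ this
      _ < 2048 * 2 ^ ℓ := Nat.mul_lt_mul_of_pos_right (by norm_num) (by omega)) (fun v _ => hdec v)
  rw [← hB]
  have h5 : (M + 1) * B ≤ (∏ i ∈ Finset.range d, (w i + 1)) * B := Nat.mul_le_mul_right _ h3
  rw [mul_comm B]
  omega

end H534R2.Gen
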